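import Pool.Agent.V7H74.Sk2
import Pool.Agent.W619.Y.Unir
import Pool.Agent.Y184.NT.Cong3

/-!
Forms of the second kind on uniruled varieties are exact.
-/

set_option autoImplicit false
set_option linter.overlappingInstances false
set_option linter.unusedSectionVars false
set_option linter.unusedVariables false
set_option maxHeartbeats 4000000
set_option synthInstance.maxHeartbeats 400000

open FF Polynomial Pool.Agent.W602.GT Pool.Agent.Y184.NT

namespace Pool.Agent.V7H74.SK

section pull

variable {L K : Type} [Field L] [Field K] [Algebra ℂ L] [Algebra ℂ K] [Algebra L K]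
  [IsScalarTower ℂ L K] {n : ℕ}

/-- the chain rule -/
theorem wedge_pull {y : Fin n → L} (hy : IsTranscendenceBasis ℂ y) {G : Fin n → Derivation ℂ L L}
    (hG : ∀ i j, G i (y j) = if i = j then 1 else 0) (h : Fin n → L)
    (D : Fin n → Derivation ℂ K K) :
    wedge (fun j => algebraMap L K (h j)) D =
      wedge (fun j => algebraMap L K (y j)) D * algebraMap L K (wedge h G) := by
  classical
  rw [wedge, wedge, wedge, RingHom.map_det, ← Matrix.det_mul]
  congr 1
  ext i j
  rw [Matrix.mul_apply, Matrix.of_apply, Pool.Agent.W73.PG.PULL.chain y hy G hG (D i) (h j)]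
  rfl

/-- pull-back of forms of the second kind -/
theorem pull_second [FiniteDimensional L K] [Algebra.EssFiniteType ℂ L]
    (hn : Algebra.trdeg ℂ L = n) {y : Fin n → L} (hy : IsTranscendenceBasis ℂ y)
    {G : Fin n → Derivation ℂ L L} (hG : ∀ i j, G i (y j) = if i = j then 1 else 0)
    {ω : (Fin n → Derivation ℂ L L) → L} (hω : SecondKind ω) (w : Place ℂ K)
    (hw : Divisorial n w) (D : Fin n → Derivation ℂ K K) (hD : ∀ i, DerReg w (D i)) :
    ∃ η : (Fin n → Derivation ℂ K K) → K, IsExact η ∧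
      w.Reg (wedge (fun j => algebraMap L K (y j)) D * algebraMap L K (ω G) - η D) := by
  classical
  obtain ⟨P, e, hP⟩ := Pool.Agent.Y172.exists_below (K := L) w
  have hPd : Divisorial n P := Pool.Agent.Y172.divisorial_down hP hw
  obtain ⟨η, ⟨r, h, hη⟩, hreg⟩ := hω.2 P hPd
  obtain ⟨yP, EP, i0, hl⟩ := Pool.Agent.Y172.exists_loc hn hPd
  refine ⟨fun D => ∑ k, wedge (fun j => algebraMap L K (h k j)) D,
    ⟨r, fun k j => algebraMap L K (h k j), fun _ => rfl⟩, ?_⟩
  have hwp : ∀ v : Fin n → L, IsPluri 1 (wedge v) := by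
    intro v A E
    rw [wedge, wedge, pow_one, ← Matrix.det_mul]
    congr 1
    ext i j
    rw [Matrix.of_apply, Matrix.mul_apply]
    change (∑ j, A i j • E j) _ = _
    rw [← Derivation.coeFnAddMonoidHom_apply, map_sum, Finset.sum_apply]
    rfl
  obtain ⟨ρ, hρ⟩ : ∃ ρ : (Fin n → Derivation ℂ L L) → L, ρ = fun D => ω D - η D := ⟨_, rfl⟩
  have hρp : IsPluri 1 ρ := by
    intro A E
    rw [hρ]
    simp only
    rw [hω.1, hη, hη, mul_sub, Finset.mul_sum]
    congr 1
    refine Finset.sum_congr rfl fun k _ => ?_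
    exact hwp (h k) A E
  have h1 : ρ G = wedge yP G * ρ EP := by
    have h2 := Pool.Agent.Y172.pluri_coord hl.bas hl.dual hρp G
    rwa [pow_one] at h2
  have h3 : P.Reg (ρ EP) := by
    rw [hρ]
    exact hreg EP hl.pres
  have h4 : w.Reg (algebraMap L K (ρ EP)) := hP.reg.2 h3
  have h5 : wedge (fun j => algebraMap L K (y j)) D * algebraMap L K (ω G) -
      ∑ k, wedge (fun j => algebraMap L K (h k j)) D =
      wedge (fun j => algebraMap L K (yP j)) D * algebraMap L K (ρ EP) := by
    rw [wedge_pull hy hG yP D, mul_assoc, ← map_mul, ← h1, hρ]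
    simp only
    rw [hη, map_sub, map_sum, mul_sub, Finset.mul_sum]
    congr 1
    exact Finset.sum_congr rfl fun k _ => wedge_pull hy hG (h k) D
  rw [h5]
  refine w.reg_mul ?_ h4
  have h9 : Pool.Agent.W603.LV.Ge w 0 (Matrix.of fun i j => D i (algebraMap L K (yP j)) :
      Matrix (Fin n) (Fin n) K).det :=
    Pool.Agent.W603.LV.ge_det w _ _ (fun _ _ => 0) (fun a b => hD a _ (hP.reg.2 (hl.reg b)))
      fun σ => by simp
  exact h9

/-- exactness descends -/
theorem exact_down [FiniteDimensional L K] (hn0 : 0 < n)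
    (hn : Algebra.trdeg ℂ L = n) {y : Fin n → L} (hy : IsTranscendenceBasis ℂ y)
    {G : Fin n → Derivation ℂ L L} (hG : ∀ i j, G i (y j) = if i = j then 1 else 0)
    {ω : (Fin n → Derivation ℂ L L) → L} (hω : IsPluri 1 ω)
    (h : IsExact fun D : Fin n → Derivation ℂ K K =>
      wedge (fun j => algebraMap L K (y j)) D * algebraMap L K (ω G)) : IsExact ω := by
  classical
  choose G' hG' using fun i => Pool.Agent.Y172.exists_lift (L := K) hn (G i)
  have hyK : IsTranscendenceBasis ℂ (fun j => algebraMap L K (y j)) := hy.algebraMap_comp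
  have hGK := Pool.Agent.Y172.lift_dual hG hG'
  have h1 := exact_div (D := G') (dual_comm hyK hGK) hn0 h
  have h2 : wedge (fun j => algebraMap L K (y j)) G' = 1 := by
    rw [wedge]
    have e : (Matrix.of fun i j => G' i (algebraMap L K (y j)) : Matrix (Fin n) (Fin n) K) = 1 := by
      ext i j
      rw [Matrix.of_apply, hGK, Matrix.one_apply]
    rw [e, Matrix.det_one]
  rw [h2, one_mul] at h1
  obtain ⟨g, hg⟩ := h1
  refine exact_of_div hy hG hω ⟨fun i => ((Module.finrank L K : L))⁻¹ * Algebra.trace L K (g i), ?_⟩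
  have : CharZero L := charZero_of_injective_algebraMap (algebraMap ℂ L).injective
  have hd : ((Module.finrank L K : ℕ) : L) ≠ 0 :=
    Nat.cast_ne_zero.2 (Module.finrank_pos (R := L) (M := K)).ne'
  have h3 := congrArg (Algebra.trace L K) hg
  rw [Algebra.trace_algebraMap, map_sum] at h3
  have h4 : ∀ i, G i (((Module.finrank L K : L))⁻¹ * Algebra.trace L K (g i)) =
      ((Module.finrank L K : L))⁻¹ * Algebra.trace L K (G' i (g i)) := by
    intro i
    rw [Pool.Agent.Y954.NT.trace_der (hG' i)]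
    rw [(G i).leibniz, smul_eq_mul, smul_eq_mul]
    have h5 : G i ((Module.finrank L K : L))⁻¹ = 0 := by
      have h6 : ((Module.finrank L K : L))⁻¹ =
          algebraMap ℂ L ((Module.finrank L K : ℂ))⁻¹ := by rw [map_inv₀, map_natCast]
      rw [h6, (G i).map_algebraMap]
    rw [h5, mul_zero, add_zero]
  simp only [h4]
  rw [← Finset.mul_sum, ← h3, nsmul_eq_mul, inv_mul_cancel_left₀ hd]

end pull

section ext

variable {M M' : Type} [Field M] [Field M'] [Algebra ℂ M] [Algebra ℂ M'] [Algebra M M']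
  [IsScalarTower ℂ M M']

/-- a finite extension over which a polynomial splits -/
theorem exists_split (q : M[X]) :
    ∃ (M' : Type) (_ : Field M') (_ : Algebra ℂ M') (_ : Algebra M M'),
      IsScalarTower ℂ M M' ∧ FiniteDimensional M M' ∧ (q.map (algebraMap M M')).Splits :=
  ⟨q.SplittingField, inferInstance, inferInstance, inferInstance, inferInstance, inferInstance,
    SplittingField.splits q⟩

theorem exists_psi (M M' : Type) [Field M] [Field M'] [Algebra ℂ M] [Algebra ℂ M'] [Algebra M M']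
    [IsScalarTower ℂ M M'] : ∃ ψ : RatFunc M →ₐ[ℂ] RatFunc M',
      ∀ A : M[X], ψ (io A) = io (A.map (algebraMap M M')) := by
  let g : M[X] →ₐ[ℂ] RatFunc M' := (IsScalarTower.toAlgHom ℂ M'[X] (RatFunc M')).comp
    (Polynomial.mapAlgHom (IsScalarTower.toAlgHom ℂ M M'))
  have hg : Function.Injective g := by
    intro a b hab
    have h1 : a.map (algebraMap M M') = b.map (algebraMap M M') := io_inj hab
    exact Polynomial.map_injective _ (algebraMap M M').injective h1
  refine ⟨IsFractionRing.liftAlgHom (g := g) hg, fun A => ?_⟩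
  exact IsFractionRing.lift_algebraMap (g := g.toRingHom) hg A

variable {m : ℕ} {E : Fin m → Derivation ℂ M M}
  {δ : Fin (m + 1) → Derivation ℂ (RatFunc M) (RatFunc M)} {E' : Fin m → Derivation ℂ M' M'}
  {δ' : Fin (m + 1) → Derivation ℂ (RatFunc M') (RatFunc M')}

/-- the vector fields are compatible with the extension of the constants -/
theorem psi_der (h : Fr E δ) (h' : Fr E' δ')
    (hE' : ∀ i a, E' i (algebraMap M M' a) = algebraMap M M' (E i a)) {z : Fin m → M}
    (hb : IsTranscendenceBasis ℂ (Fin.cons RatFunc.X fun i => algebraMap M (RatFunc M) (z i) :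
      Fin (m + 1) → RatFunc M)) {ψ : RatFunc M →ₐ[ℂ] RatFunc M'}
    (hψ : ∀ A : M[X], ψ (io A) = io (A.map (algebraMap M M'))) (i : Fin (m + 1)) (x : RatFunc M) :
    δ' i (ψ x) = ψ (δ i x) := by
  have hψX : ψ RatFunc.X = RatFunc.X := by
    rw [← io_X, hψ, Polynomial.map_X, io_X]
  have hψc : ∀ a : M, ψ (cc a) = cc (algebraMap M M' a) := by
    intro a
    rw [show cc a = io (C a) from (io_C a).symm, hψ, Polynomial.map_C, io_C]
  let _ : Algebra (RatFunc M) (RatFunc M') := ψ.toRingHom.toAlgebra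
  have t1 : IsScalarTower ℂ (RatFunc M) (RatFunc M') := IsScalarTower.of_algebraMap_eq fun c => by
    change _ = ψ (algebraMap ℂ (RatFunc M) c)
    rw [ψ.commutes]
  have h1 := Pool.Agent.W619.TW.der_zero (((δ' i).compAlgebraMap (RatFunc M)) -
    (Algebra.linearMap (RatFunc M) (RatFunc M')).compDer (δ i)) _ hb (fun k => by
      change δ' i (ψ ((Fin.cons RatFunc.X fun i => algebraMap M (RatFunc M) (z i) :
        Fin (m + 1) → RatFunc M) k)) - ψ (δ i ((Fin.cons RatFunc.X fun i =>
        algebraMap M (RatFunc M) (z i) : Fin (m + 1) → RatFunc M) k)) = 0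
      refine sub_eq_zero.2 ?_
      refine Fin.cases ?_ (fun i => ?_) i <;> refine Fin.cases ?_ (fun k => ?_) k
      · rw [Fin.cons_zero, hψX, h.zero_X, h'.zero_X, map_one]
      · rw [Fin.cons_succ, hψc, h.zero_cc, h'.zero_cc, map_zero]
      · rw [Fin.cons_zero, hψX, h.succ_X, h'.succ_X, map_zero]
      · rw [Fin.cons_succ, hψc, h.succ_cc, h'.succ_cc, hψc, hE']) x
  exact sub_eq_zero.1 h1

/-- the places of the constants are divisorial -/
theorem divisorial_pt {z : Fin m → M} (hz : IsTranscendenceBasis ℂ z) {θ : M}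
    {w : Place ℂ (RatFunc M)} (hw : IsW0 (X - C θ) w) : Divisorial (m + 1) w := by
  refine ⟨fun i => cc (z i), fun F hF => ?_⟩
  have h1 : MvPolynomial.aeval (fun i => cc (z i)) F = cc (MvPolynomial.aeval z F) := by
    rw [cc, ← MvPolynomial.aeval_algebraMap_apply]
    rfl
  have h2 : MvPolynomial.aeval z F ≠ 0 := fun h0 =>
    hF (hz.1 (h0.trans (map_zero (MvPolynomial.aeval z)).symm))
  have h3 : cc (MvPolynomial.aeval z F) ≠ 0 := (_root_.map_ne_zero _).2 h2
  have h4 := ((sp_cc θ (MvPolynomial.aeval z F)).unit hw (dvd_iff θ) h2).2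
  change MvPolynomial.aeval (fun i => cc (z i)) F ≠ 0 ∧
    w.ord (MvPolynomial.aeval (fun i => cc (z i)) F) = 0
  rw [h1]
  exact ⟨h3, h4⟩

end ext

theorem wedge_pluri {K : Type} [Field K] [Algebra ℂ K] {n : ℕ} (v : Fin n → K) :
    IsPluri 1 (wedge v) := by
  intro A E
  rw [wedge, wedge, pow_one, ← Matrix.det_mul]
  congr 1
  ext i j
  rw [Matrix.of_apply, Matrix.mul_apply]
  change (∑ j, A i j • E j) _ = _
  rw [← Derivation.coeFnAddMonoidHom_apply, map_sum, Finset.sum_apply]
  rfl

theorem wedge_mul_pluri {K : Type} [Field K] [Algebra ℂ K] {n : ℕ} (y : Fin n → K) (c : K) :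
    IsPluri 1 (fun D => wedge y D * c) := by
  intro A D
  simp only
  rw [wedge_pluri y A D, mul_assoc]

/-- finite extensions of fields of the same transcendence degree -/
theorem fd_of_trdeg {L R : Type} [Field L] [Field R] [Algebra ℂ L] [Algebra ℂ R] [Algebra L R]
    [IsScalarTower ℂ L R] [Algebra.EssFiniteType ℂ R] {n : ℕ} {y : Fin n → L}
    (hy : IsTranscendenceBasis ℂ y) (hR : Algebra.trdeg ℂ R = (n : ℕ)) :
    FiniteDimensional L R := by
  have hyR : AlgebraicIndependent ℂ (fun i => algebraMap L R (y i)) := by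
    have := hy.1.map' (f := IsScalarTower.toAlgHom ℂ L R) (algebraMap L R).injective
    exact this
  have hyb : IsTranscendenceBasis ℂ (fun i => algebraMap L R (y i)) := by
    refine hyR.isTranscendenceBasis_of_lift_trdeg_le_of_finite ?_
    rw [hR]
    simp
  have halg : Algebra.IsAlgebraic L R := by
    have h1 : Algebra.IsAlgebraic (IntermediateField.adjoin ℂ
      (Set.range fun i => algebraMap L R (y i))) R := hyb.isAlgebraic_field
    refine ⟨fun x => ?_⟩
    have h2 := h1.isAlgebraic x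
    have hle : IntermediateField.adjoin ℂ (Set.range fun i => algebraMap L R (y i)) ≤
        (IsScalarTower.toAlgHom ℂ L R).fieldRange := by
      rw [IntermediateField.adjoin_le_iff]
      rintro _ ⟨i, rfl⟩
      exact ⟨y i, rfl⟩
    let e : L ≃ₐ[ℂ] (IsScalarTower.toAlgHom ℂ L R).fieldRange :=
      AlgEquiv.ofInjectiveField (IsScalarTower.toAlgHom ℂ L R)
    let g : IntermediateField.adjoin ℂ (Set.range fun i => algebraMap L R (y i)) →+* L :=
      (e.symm : (IsScalarTower.toAlgHom ℂ L R).fieldRange →+* L).comp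
        (IntermediateField.inclusion hle).toRingHom
    refine h2.ringHom_of_comp_eq g (RingHom.id _) g.injective ?_
    ext w
    change algebraMap L R (e.symm (IntermediateField.inclusion hle w)) = (w : R)
    have h3 : e (e.symm (IntermediateField.inclusion hle w)) = IntermediateField.inclusion hle w :=
      e.apply_symm_apply _
    exact congrArg Subtype.val h3
  have h1 : Algebra.EssFiniteType L R := Algebra.EssFiniteType.of_comp ℂ L R
  obtain ⟨s, hs⟩ := IntermediateField.fg_top L R
  have h2 : FiniteDimensional L (IntermediateField.adjoin L (s : Set R)) :=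
    IntermediateField.finiteDimensional_adjoin fun x _ => (halg.isAlgebraic x).isIntegral
  rw [hs] at h2
  exact h2.equiv IntermediateField.topEquiv.toLinearEquiv

/-- **Forms of the second kind on uniruled varieties are exact.** -/
theorem exact_of_uniruled {L : Type} [Field L] [Algebra ℂ L] [Algebra.EssFiniteType ℂ L] {n : ℕ}
    (hn : Algebra.trdeg ℂ L = (n : ℕ)) (h : Pool.Agent.W619.PQ.IsUniruled ℂ L n)
    {ω : (Fin n → Derivation ℂ L L) → L} (hω : SecondKind ω) : IsExact ω := by
  classical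
  obtain ⟨M, i1, i2, hM, htr, ⟨φ⟩⟩ := h
  obtain ⟨m, rfl⟩ : ∃ m, n = m + 1 := by
    rcases n with _ | m
    · exfalso
      rw [Nat.cast_zero] at htr
      exact absurd (add_eq_zero.1 htr).2 one_ne_zero
    · exact ⟨m, rfl⟩
  have hm : Algebra.trdeg ℂ M = (m : ℕ) := by
    rw [Nat.cast_succ] at htr
    exact Cardinal.add_one_inj.1 htr
  obtain ⟨z, E, hz, hE⟩ := Pool.Agent.Y172.exists_crd hm
  obtain ⟨hb, δ, h1, h2, h3, h4⟩ := Pool.Agent.Y888.NT.stDer M m z hz E hE
  have hdual := dual_t hE h1 h2 h3 h4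
  have hFr : Fr E δ := ⟨h1, h2, h3, h4, dual_comm hb hdual⟩
  obtain ⟨y, G, hy, hG⟩ := Pool.Agent.Y172.exists_crd hn
  obtain ⟨f0, hf0⟩ : ∃ f0 : RatFunc M, f0 = wedge (fun j => φ (y j)) δ * φ (ω G) := ⟨_, rfl⟩
  obtain ⟨M', i3, i4, i5, i6, i7, hsp⟩ := exists_split f0.denom
  obtain ⟨ψ, hψ⟩ := exists_psi M M'
  have hess' : Algebra.EssFiniteType ℂ M' := Algebra.EssFiniteType.comp ℂ M M'
  have hz' : IsTranscendenceBasis ℂ (fun i => algebraMap M M' (z i)) := hz.algebraMap_comp
  choose E' hE' using fun i => Pool.Agent.Y172.exists_lift (L := M') hm (E i)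
  have hE'd := Pool.Agent.Y172.lift_dual hE hE'
  obtain ⟨hb', δ', h1', h2', h3', h4'⟩ := Pool.Agent.Y888.NT.stDer M' m _ hz' E' hE'd
  have hdual' := dual_t hE'd h1' h2' h3' h4'
  have hFr' : Fr E' δ' := ⟨h1', h2', h3', h4', dual_comm hb' hdual'⟩
  let _ : Algebra L (RatFunc M') := (ψ.comp φ).toRingHom.toAlgebra
  have t1 : IsScalarTower ℂ L (RatFunc M') := IsScalarTower.of_algebraMap_eq fun c => by
    change _ = (ψ.comp φ) (algebraMap ℂ L c)
    rw [(ψ.comp φ).commutes]
  have hessR : Algebra.EssFiniteType ℂ (RatFunc M') := Pool.Agent.Y184.NT.ess_ratFunc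
  have hR : Algebra.trdeg ℂ (RatFunc M') = ((m + 1 : ℕ) : Cardinal) := by
    have h5 := hb'.cardinalMk_eq_trdeg
    rw [← h5]
    simp
  have hfd : FiniteDimensional L (RatFunc M') := fd_of_trdeg hy hR
  obtain ⟨f', hf'⟩ : ∃ f' : RatFunc M', f' = wedge (fun j => algebraMap L (RatFunc M') (y j)) δ' *
      algebraMap L (RatFunc M') (ω G) := ⟨_, rfl⟩
  have hdet : wedge (fun j => algebraMap L (RatFunc M') (y j)) δ' =
      ψ (wedge (fun j => φ (y j)) δ) := by
    rw [wedge, wedge]
    change _ = ψ.toRingHom _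
    rw [RingHom.map_det]
    congr 1
    ext i j
    rw [Matrix.of_apply, RingHom.mapMatrix_apply, Matrix.map_apply, Matrix.of_apply]
    exact psi_der hFr hFr' hE' hb hψ i (φ (y j))
  have hff : f' = ψ f0 := by
    rw [hf', hf0, map_mul, hdet]
    rfl
  have hsplit : f'.denom.Splits := by
    refine hsp.of_dvd ((Polynomial.map_ne_zero_iff (algebraMap M M').injective).2 f0.denom_ne_zero)
      ((RatFunc.denom_dvd ((Polynomial.map_ne_zero_iff (algebraMap M M').injective).2
        f0.denom_ne_zero)).2 ⟨f0.num.map (algebraMap M M'), ?_⟩)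
    rw [hff]
    conv_lhs => rw [← RatFunc.num_div_denom f0]
    rw [map_div₀]
    exact congrArg₂ (· / ·) (hψ _) (hψ _)
  have hcore : IsDiv δ' f' := by
    refine hFr'.core f' hsplit fun θ => ?_
    obtain ⟨w, hw⟩ := exists_place θ
    obtain ⟨η, hη, hreg⟩ := pull_second (K := RatFunc M') hn hy hG hω w (divisorial_pt hz' hw) δ'
      (hFr'.reg hw)
    rw [← hf'] at hreg
    exact ⟨η δ', f' - η δ', exact_div hFr'.comm (Nat.succ_pos m) hη, (at_iff hw _).2 hreg, by ring⟩
  refine exact_down (K := RatFunc M') (Nat.succ_pos m) hn hy hG hω.1 ?_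
  refine exact_of_div hb' hdual' (wedge_mul_pluri _ _) ?_
  rw [hf'] at hcore
  exact hcore

end Pool.Agent.V7H74.SK
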