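import Pool.Agent.V7H74.AKFin

set_option autoImplicit false

/-!
# The inequality of the conjecture for sets with tame nodes
-/

open Finset

namespace Pool.Agent.V7H74.AK

open Pool.Agent.N269.PF

theorem card_image_le_card_image {α β γ : Type*} [DecidableEq β] [DecidableEq γ] (B : Finset α)
    (f : α → β) (g : α → γ) (h : ∀ b ∈ B, ∀ b' ∈ B, g b = g b' → f b = f b') :
    (B.image f).card ≤ (B.image g).card := by
  classical
  rcases B.eq_empty_or_nonempty with rfl | ⟨b₀, hb₀⟩
  · simp
  set k : γ → β := fun y => if hy : ∃ b ∈ B, g b = y then f hy.choose else f b₀ with hk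
  refine (card_le_card (t := (B.image g).image k) fun x hx => ?_).trans card_image_le
  rw [mem_image] at hx
  obtain ⟨b, hb, rfl⟩ := hx
  rw [mem_image]
  refine ⟨g b, mem_image_of_mem _ hb, ?_⟩
  have hy : ∃ b' ∈ B, g b' = g b := ⟨b, hb, rfl⟩
  rw [hk]
  simp only
  rw [dif_pos hy]
  exact h _ hy.choose_spec.1 _ hb hy.choose_spec.2

/-- the modulus `p_0 p_1 ⋯ p_{i-1}` -/
def modulus (p : ℕ → ℕ) (i : ℕ) : ℕ := ∏ j ∈ range i, p j

/-- The condition for the node of `a` of level `i`: there are few children, or few of the slopes have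
many children on their line through the child of `a`, or the children are on an algebraic curve of
small degree over the field with `p i` elements. -/
def Tame (κ : ℝ) (S : Finset ℚ) (p : ℕ → ℕ) (i : ℕ) (A : Finset (ℤ × ℤ)) (a : ℤ × ℤ) : Prop :=
  (classes (modulus p (i + 1)) (cls (modulus p i) A a) : ℝ) ≤ (S.card : ℝ) ^ (1 + κ) ∨
  ((S.filter fun r => (S.card : ℝ) ^ κ <
    mult (modulus p i) (modulus p (i + 1)) r A a).card : ℝ) ≤ κ * S.card ∨
  ∃ P : MvPolynomial (Fin 2) (ZMod (p i)), P ≠ 0 ∧ (P.totalDegree : ℝ) ≤ (S.card : ℝ) ^ κ ∧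
    ∀ b ∈ cls (modulus p i) A a, MvPolynomial.eval
      ![(((b.1 - a.1) / (modulus p i : ℤ) : ℤ) : ZMod (p i)),
        (((b.2 - a.2) / (modulus p i : ℤ) : ℤ) : ZMod (p i))] P = 0

theorem mult_pos (q q' : ℕ) (r : ℚ) {A : Finset (ℤ × ℤ)} {a : ℤ × ℤ} (ha : a ∈ A) :
    1 ≤ mult q q' r A a := by
  unfold mult classes cls
  refine card_pos.2 ⟨((a.1 : ZMod q'), (a.2 : ZMod q')), ?_⟩
  rw [mem_image]
  refine ⟨a, ?_, rfl⟩
  rw [mem_filter, mem_filter]
  simp [ha]

/-- the number of the children on a line, for a curve -/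
theorem mult_curve (q p : ℕ) (hq : q ≠ 0) (A : Finset (ℤ × ℤ)) (a : ℤ × ℤ) (r : ℚ)
    (m : ℕ) (P : MvPolynomial (Fin 2) (ZMod p))
    (hP : ∀ b ∈ cls q A a, MvPolynomial.eval
      ![(((b.1 - a.1) / (q : ℤ) : ℤ) : ZMod p), (((b.2 - a.2) / (q : ℤ) : ℤ) : ZMod p)] P = 0)
    (hm : ∀ B : Finset (ZMod p × ZMod p), (∀ b ∈ B, MvPolynomial.eval ![b.1, b.2] P = 0) →
      (∀ b ∈ B, ∀ b' ∈ B, ((r.den : ℤ) : ZMod p) * b.1 + (r.num : ZMod p) * b.2 =
        ((r.den : ℤ) : ZMod p) * b'.1 + (r.num : ZMod p) * b'.2) → B.card ≤ m) :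
    mult q (q * p) r A a ≤ m := by
  have hpi : (q : ℤ) ≠ 0 := by exact_mod_cast hq
  unfold mult classes
  set B := (cls q A a).filter fun b =>
    ((q * p : ℕ) : ℤ) ∣ (r.den : ℤ) * (b.1 - a.1) + r.num * (b.2 - a.2) with hB
  have hdig : ∀ b ∈ cls q A a, b.1 - a.1 = (q : ℤ) * ((b.1 - a.1) / (q : ℤ)) ∧
      b.2 - a.2 = (q : ℤ) * ((b.2 - a.2) / (q : ℤ)) := by
    intro b hb
    unfold cls at hb
    rw [mem_filter] at hb
    exact ⟨(Int.mul_ediv_cancel' hb.2.1).symm, (Int.mul_ediv_cancel' hb.2.2).symm⟩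
  refine (card_image_le_card_image B _ (fun b =>
    ((((b.1 - a.1) / (q : ℤ) : ℤ) : ZMod p), (((b.2 - a.2) / (q : ℤ) : ℤ) : ZMod p)))
    ?_).trans (hm _ ?_ ?_)
  · intro b hb b' hb' h
    rw [hB, mem_filter] at hb hb'
    obtain ⟨e1, e2⟩ := hdig b hb.1
    obtain ⟨e3, e4⟩ := hdig b' hb'.1
    rw [Prod.ext_iff] at h ⊢
    simp only at h ⊢
    rw [zmod_eq, zmod_eq] at h ⊢
    push_cast
    constructor
    · have : b.1 - b'.1 = (q : ℤ) *
          ((b.1 - a.1) / (q : ℤ) - (b'.1 - a.1) / (q : ℤ)) := by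
        rw [mul_sub, ← e1, ← e3]
        ring
      rw [this]
      exact mul_dvd_mul_left _ h.1
    · have : b.2 - b'.2 = (q : ℤ) *
          ((b.2 - a.2) / (q : ℤ) - (b'.2 - a.2) / (q : ℤ)) := by
        rw [mul_sub, ← e2, ← e4]
        ring
      rw [this]
      exact mul_dvd_mul_left _ h.2
  · intro z hz
    rw [mem_image] at hz
    obtain ⟨b, hb, rfl⟩ := hz
    rw [hB, mem_filter] at hb
    exact hP b hb.1
  · have key : ∀ z ∈ B.image (fun b =>
        ((((b.1 - a.1) / (q : ℤ) : ℤ) : ZMod p),
          (((b.2 - a.2) / (q : ℤ) : ℤ) : ZMod p))),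
        ((r.den : ℤ) : ZMod p) * z.1 + (r.num : ZMod p) * z.2 = 0 := by
      intro z hz
      rw [mem_image] at hz
      obtain ⟨b, hb, rfl⟩ := hz
      rw [hB, mem_filter] at hb
      obtain ⟨e1, e2⟩ := hdig b hb.1
      have h1 := hb.2
      have h2 : (r.den : ℤ) * (b.1 - a.1) + r.num * (b.2 - a.2) = (q : ℤ) *
          ((r.den : ℤ) * ((b.1 - a.1) / (q : ℤ)) + r.num * ((b.2 - a.2) / (q : ℤ))) := by
        rw [mul_add, mul_left_comm, ← e1, mul_left_comm, ← e2]
      rw [h2] at h1
      push_cast at h1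
      have h3 := Int.dvd_of_mul_dvd_mul_left hpi h1
      have h4 := (ZMod.intCast_zmod_eq_zero_iff_dvd _ p).2 h3
      push_cast at h4 ⊢
      exact h4
    intro z hz z' hz'
    rw [key z hz, key z' hz']

open Classical in
/-- The mean over `a ∈ A` of the sum of the logarithms `l_i(a)` over the levels `i < n` for which the
node of `a` is not tame. -/
noncomputable def wild (κ : ℝ) (S : Finset ℚ) (p : ℕ → ℕ) (n : ℕ) (A : Finset (ℤ × ℤ)) : ℝ :=
  (∑ a ∈ A, ∑ i ∈ (range n).filter (fun i => ¬ Tame κ S p i A a),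
    Real.log ((cls (modulus p i) A a).card / (cls (modulus p (i + 1)) A a).card)) / A.card

/-- **The inequality for sets of integer points with tame nodes.** -/
theorem int_cor (ε : ℝ) (hε : 0 < ε) : ∃ κ : ℝ, 0 < κ ∧ ∃ K₀ : ℕ, ∀ S : Finset ℚ, K₀ ≤ S.card →
    ∀ p : ℕ → ℕ, (∀ i, (p i).Prime) → (∀ i, ∀ r ∈ S, ∀ r' ∈ S, r ≠ r' →
      ¬ (p i : ℤ) ∣ (r.den : ℤ) * r'.num - r'.den * r.num) →
    ∀ (A : Finset (ℤ × ℤ)) (n : ℕ), (∀ a ∈ A, ∀ b ∈ A, (modulus p n : ℤ) ∣ b.1 - a.1 →
      (modulus p n : ℤ) ∣ b.2 - a.2 → b = a) →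
      wild κ S p n A ≤ κ * Real.log A.card →
      (A.card : ℝ) ≤ ((S.sup fun r => (proj r A).card : ℕ) : ℝ) ^ (1 + ε) := by
  obtain ⟨κ, hκ, K₀, hK₀2, hpar⟩ := params ε hε
  refine ⟨κ, hκ, K₀, fun S hS p hp hdist A n hn hA => ?_⟩
  obtain ⟨θ, hθ0, hθ1, hT, hθ2, hθ3, hθ4⟩ := hpar S.card hS
  rcases A.eq_empty_or_nonempty with rfl | hAne
  · simp only [card_empty, Nat.cast_zero]
    positivity
  have hSne : S.Nonempty := card_pos.1 (by omega)
  have hK1 : (1:ℝ) ≤ S.card := by exact_mod_cast card_pos.2 hSne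
  have hK0 : (0:ℝ) < S.card := by linarith
  have hmod : ∀ i, modulus p (i + 1) = modulus p i * p i := fun i => by
    unfold modulus
    rw [prod_range_succ]
  have hmod0 : ∀ i, modulus p i ≠ 0 := fun i => by
    unfold modulus
    exact prod_ne_zero_iff.2 fun j _ => (hp j).ne_zero
  have hmoddvd : ∀ i, modulus p i ∣ modulus p (i + 1) := fun i => ⟨p i, hmod i⟩
  have hcop : ∀ i, ∀ r ∈ S, ∀ r' ∈ S, r ≠ r' →
      IsCoprime ((r.den : ℤ) * r'.num - r'.den * r.num) (modulus p i : ℤ) := by
    intro i r hr r' hr' hne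
    unfold modulus
    push_cast
    refine IsCoprime.prod_right fun j _ => ?_
    exact ((Nat.prime_iff_prime_int.1 (hp j)).coprime_iff_not_dvd.2
      (hdist j r hr r' hr' hne)).symm
  set T : ℝ := √(S.card : ℝ) with hTdef
  have hne1 : ∀ a ∈ A, ∀ q : ℕ, 1 ≤ (cls q A a).card := by
    intro a ha q
    refine card_pos.2 ⟨a, ?_⟩
    unfold cls
    rw [mem_filter]
    simp [ha]
  obtain ⟨r, hr, h1⟩ := int_main S hSne n (modulus p) (by unfold modulus; simp)
    (fun i _ => hmoddvd i) (fun i _ r hr r' hr' hne => hcop (i + 1) r hr r' hr' hne)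
    A hAne hn T hT
  have h2 := loss_le A hAne n (fun i a => (cls (modulus p i) A a).card)
    (by
      intro a _
      unfold cls modulus
      rw [filter_true_of_mem]
      intro b _
      simp)
    (by
      intro a ha
      rw [card_eq_one]
      refine ⟨a, ?_⟩
      ext b
      unfold cls
      rw [mem_filter, mem_singleton]
      constructor
      · rintro ⟨hb, h3, h4⟩
        exact hn a ha b hb h3 h4
      · rintro rfl
        simp [ha])
    (fun a ha i => hne1 a ha _)
    (by
      intro a _ i _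
      refine card_le_card fun b hb => ?_
      unfold cls at hb ⊢
      rw [mem_filter] at hb ⊢
      have h3 : (modulus p i : ℤ) ∣ (modulus p (i + 1) : ℤ) := by
        exact_mod_cast hmoddvd i
      exact ⟨hb.1, h3.trans hb.2.1, h3.trans hb.2.2⟩)
    (fun a i => (∑ r ∈ S, Real.log (min
      (mult (modulus p i) (modulus p (i + 1)) r A a : ℝ) T)) / S.card)
    (fun i a => Tame κ S p i A a)
    θ κ T hT (by
      intro a ha i _ hAai
      have : Fact (p i).Prime := ⟨hp i⟩
      have hx : ∀ r ∈ S, (1:ℝ) ≤ (mult (modulus p i) (modulus p (i + 1)) r A a : ℝ) :=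
        fun r _ => by exact_mod_cast mult_pos _ _ r ha
      have hslopes : ((S.filter fun r => (S.card : ℝ) ^ κ <
          mult (modulus p i) (modulus p (i + 1)) r A a).card : ℝ) ≤ κ * S.card →
          (∑ r ∈ S, Real.log (min (mult (modulus p i) (modulus p (i + 1)) r A a : ℝ) T)) /
            S.card ≤ θ * Real.log T := fun h =>
        (few_slopes hSne _ hx T _ κ hT (Real.one_le_rpow hK1 hκ.le) h).trans hθ3
      rcases hAai with h3 | h3 | ⟨P, hP0, hPd, hP⟩
      · refine (few_children hSne _ hx T (2 * (S.card : ℝ) ^ κ) (by linarith) (by positivity)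
          ?_).trans hθ2
        have h4 : ∑ r ∈ S, (mult (modulus p i) (modulus p (i + 1)) r A a : ℝ) ≤
            S.card + classes (modulus p (i + 1)) (cls (modulus p i) A a) := by
          have h5 := num_sum (cls (modulus p i) A a)
            (fun a : ℤ × ℤ => ((a.1 : ZMod (modulus p (i + 1))),
              (a.2 : ZMod (modulus p (i + 1))))) S
            (fun r (a : ℤ × ℤ) => (((r.den : ℤ) * a.1 + r.num * a.2 : ℤ) :
              ZMod (modulus p (i + 1))))
            (by
              intro r _ b _ b' _ h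
              simp only [Prod.ext_iff] at h
              rw [zmod_eq, zmod_eq] at h
              rw [zmod_eq]
              have : (r.den : ℤ) * b'.1 + r.num * b'.2 - ((r.den : ℤ) * b.1 + r.num * b.2) =
                (r.den : ℤ) * (b'.1 - b.1) + r.num * (b'.2 - b.2) := by ring
              rw [this]
              exact dvd_add (Dvd.dvd.mul_left h.1 _) (Dvd.dvd.mul_left h.2 _))
            (ω := a) (by
              unfold cls
              rw [mem_filter]
              simp [ha])
            (by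
              intro b hb r hr r' hr' hne h1 h2
              simp only [Prod.ext_iff] at h1 h2 ⊢
              rw [zmod_eq] at h1 h2
              rw [zmod_eq, zmod_eq]
              have hc := (hcop (i + 1) r hr r' hr' hne).symm
              constructor
              · refine hc.dvd_of_dvd_mul_left ?_
                have : ((r.den : ℤ) * r'.num - r'.den * r.num) * (b.1 - a.1) =
                    r'.num * ((r.den : ℤ) * b.1 + r.num * b.2 -
                      ((r.den : ℤ) * a.1 + r.num * a.2)) -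
                    r.num * ((r'.den : ℤ) * b.1 + r'.num * b.2 -
                      ((r'.den : ℤ) * a.1 + r'.num * a.2)) := by ring
                rw [this]
                exact dvd_sub (Dvd.dvd.mul_left h1 _) (Dvd.dvd.mul_left h2 _)
              · refine hc.dvd_of_dvd_mul_left ?_
                have : ((r.den : ℤ) * r'.num - r'.den * r.num) * (b.2 - a.2) =
                    (r.den : ℤ) * ((r'.den : ℤ) * b.1 + r'.num * b.2 -
                      ((r'.den : ℤ) * a.1 + r'.num * a.2)) -
                    (r'.den : ℤ) * ((r.den : ℤ) * b.1 + r.num * b.2 -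
                      ((r.den : ℤ) * a.1 + r.num * a.2)) := by ring
                rw [this]
                exact dvd_sub (Dvd.dvd.mul_left h2 _) (Dvd.dvd.mul_left h1 _))
          refine le_trans (le_of_eq (sum_congr rfl fun r _ => ?_)) h5
          rw [num_eq]
          unfold mult classes
          congr 3
          refine filter_congr fun b _ => ?_
          rw [zmod_eq]
          have : (r.den : ℤ) * b.1 + r.num * b.2 - ((r.den : ℤ) * a.1 + r.num * a.2) =
            (r.den : ℤ) * (b.1 - a.1) + r.num * (b.2 - a.2) := by ring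
          rw [this]
        have h5 : (S.card : ℝ) ^ (1 + κ) = S.card * (S.card : ℝ) ^ κ := by
          rw [Real.rpow_add hK0, Real.rpow_one]
        rw [h5] at h3
        have h6 : (1:ℝ) ≤ (S.card : ℝ) ^ κ := Real.one_le_rpow hK1 hκ.le
        nlinarith
      · exact hslopes h3
      · refine hslopes ?_
        obtain ⟨E, hES, hEc, hE⟩ := curve P hP0 le_rfl S
          (fun r => ((r.den : ℤ) : ZMod (p i))) (fun r => (r.num : ZMod (p i)))
          (by
            intro r hr r' hr' hne h
            refine hdist i r hr r' hr' hne ?_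
            rw [← ZMod.intCast_zmod_eq_zero_iff_dvd]
            push_cast at h ⊢
            exact h)
        have h4 : (S.filter fun r => (S.card : ℝ) ^ κ <
            mult (modulus p i) (modulus p (i + 1)) r A a).card ≤ E.card := by
          refine card_le_card fun r hr => ?_
          rw [mem_filter] at hr
          by_contra hrE
          have h5 := mult_curve (modulus p i) (p i) (hmod0 i) A a r P.totalDegree P hP
            (hE r hr.1 hrE)
          rw [← hmod] at h5
          have h6 : (mult (modulus p i) (modulus p (i + 1)) r A a : ℝ) ≤ P.totalDegree := by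
            exact_mod_cast h5
          linarith [hr.2]
        have h5 : ((S.filter fun r => (S.card : ℝ) ^ κ <
            mult (modulus p i) (modulus p (i + 1)) r A a).card : ℝ) ≤
            (P.totalDegree : ℝ) + 1 := by
          exact_mod_cast h4.trans hEc
        linarith)
    (fun a ha i _ => mean_log_le hSne _ (fun r _ => by exact_mod_cast mult_pos _ _ r ha) T hT)
    hθ0 hA
  have hAc : 1 ≤ A.card := card_pos.2 hAne
  have h3 : (A.card : ℝ) ≤ ((proj r A).card : ℝ) ^ (1 + ε) := by
    refine last_step hAc hε (E := _) h2 hθ1 ?_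
    refine h1.trans (le_of_eq ?_)
    congr 2
    congr 2
    refine sum_congr rfl fun a _ => sum_congr rfl fun i _ => ?_
    rw [mul_div_assoc]
  refine h3.trans (Real.rpow_le_rpow (Nat.cast_nonneg _) ?_ (by linarith))
  exact_mod_cast le_sup (f := fun r => (proj r A).card) hr

end Pool.Agent.V7H74.AK
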