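import Mathlib

set_option autoImplicit false

/-!
# Lines and plane algebraic curves

A plane algebraic curve of degree `≤ m` has at most `m` points on each line, except for the lines in at
most `m + 1` directions.
-/

open Finset

namespace Pool.Agent.V7H74.AK

variable {F : Type*} [Field F] {σ : Type*}

/-- The restriction of `P` to the line through `(b₁, b₂)` with the direction `(u, -v)`. -/
noncomputable def restr (P : MvPolynomial (Fin 2) F) (b₁ b₂ v u : F) : Polynomial F :=
  ∑ s ∈ P.support, Polynomial.C (P.coeff s) *
    ((Polynomial.C b₁ + Polynomial.C u * Polynomial.X) ^ s 0 *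
      (Polynomial.C b₂ + Polynomial.C (-v) * Polynomial.X) ^ s 1)

theorem restr_eval (P : MvPolynomial (Fin 2) F) (b₁ b₂ v u t : F) :
    (restr P b₁ b₂ v u).eval t = MvPolynomial.eval ![b₁ + u * t, b₂ - v * t] P := by
  rw [MvPolynomial.eval_eq']
  unfold restr
  rw [Polynomial.eval_finsetSum]
  refine sum_congr rfl fun s _ => ?_
  rw [Fin.prod_univ_two]
  simp only [Polynomial.eval_mul, Polynomial.eval_C, Polynomial.eval_pow, Polynomial.eval_add,
    Polynomial.eval_X, Matrix.cons_val_zero, Matrix.cons_val_one]
  ring

/-- the leading form of `P` as a function of the direction -/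
noncomputable def lead (P : MvPolynomial (Fin 2) F) (v u : F) : F :=
  ∑ s ∈ P.support.filter fun s => s 0 + s 1 = P.totalDegree,
    P.coeff s * (u ^ s 0 * (-v) ^ s 1)

theorem deg_le (P : MvPolynomial (Fin 2) F) {s : Fin 2 →₀ ℕ} (hs : s ∈ P.support) :
    s 0 + s 1 ≤ P.totalDegree := by
  have h := MvPolynomial.le_totalDegree hs
  rwa [Finsupp.sum_fintype _ _ (fun _ => rfl), Fin.sum_univ_two] at h

theorem restr_natDegree (P : MvPolynomial (Fin 2) F) (b₁ b₂ v u : F) :
    (restr P b₁ b₂ v u).natDegree ≤ P.totalDegree := by
  unfold restr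
  refine Polynomial.natDegree_sum_le_of_forall_le _ _ fun s hs => ?_
  refine (Polynomial.natDegree_C_mul_le _ _).trans ?_
  refine Polynomial.natDegree_mul_le.trans ?_
  have h1 : ∀ b c : F, (Polynomial.C b + Polynomial.C c * Polynomial.X).natDegree ≤ 1 := by
    intro b c
    rw [add_comm]
    exact Polynomial.natDegree_linear_le
  have h2 := Polynomial.natDegree_pow_le_of_le (s 0) (h1 b₁ u)
  have h3 := Polynomial.natDegree_pow_le_of_le (s 1) (h1 b₂ (-v))
  have h4 := deg_le P hs
  omega

theorem restr_coeff (P : MvPolynomial (Fin 2) F) (b₁ b₂ v u : F) :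
    (restr P b₁ b₂ v u).coeff P.totalDegree = lead P v u := by
  unfold restr lead
  rw [Polynomial.finsetSum_coeff, sum_filter]
  refine sum_congr rfl fun s hs => ?_
  have h1 : ∀ b c : F, (Polynomial.C b + Polynomial.C c * Polynomial.X).natDegree ≤ 1 := by
    intro b c
    rw [add_comm]
    exact Polynomial.natDegree_linear_le
  have hc : ∀ b c : F, (Polynomial.C b + Polynomial.C c * Polynomial.X).coeff 1 = c := by
    intro b c
    simp [Polynomial.coeff_C]
  have h2 := Polynomial.natDegree_pow_le_of_le (s 0) (h1 b₁ u)
  have h3 := Polynomial.natDegree_pow_le_of_le (s 1) (h1 b₂ (-v))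
  rw [mul_one] at h2 h3
  rw [Polynomial.coeff_C_mul]
  split_ifs with h
  · congr 1
    rw [← h, Polynomial.coeff_mul_add_eq_of_natDegree_le h2 h3]
    have h4 := Polynomial.coeff_pow_of_natDegree_le (m := s 0) (h1 b₁ u)
    have h5 := Polynomial.coeff_pow_of_natDegree_le (m := s 1) (h1 b₂ (-v))
    rw [mul_one] at h4 h5
    rw [h4, h5, hc, hc]
  · rw [Polynomial.coeff_eq_zero_of_natDegree_lt, mul_zero]
    have h4 := deg_le P hs
    have h5 := Polynomial.natDegree_mul_le (p := (Polynomial.C b₁ +
      Polynomial.C u * Polynomial.X) ^ s 0) (q := (Polynomial.C b₂ +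
      Polynomial.C (-v) * Polynomial.X) ^ s 1)
    omega

/-- the leading form in one variable -/
noncomputable def form (P : MvPolynomial (Fin 2) F) : Polynomial F :=
  ∑ s ∈ P.support.filter fun s => s 0 + s 1 = P.totalDegree,
    Polynomial.C (P.coeff s) * Polynomial.X ^ s 0

theorem form_ne (P : MvPolynomial (Fin 2) F) (hP : P ≠ 0) : form P ≠ 0 := by
  classical
  have hne : P.support.Nonempty := MvPolynomial.support_nonempty.2 hP
  obtain ⟨s, hs, h1⟩ := exists_mem_eq_sup P.support hne (fun s => s.sum fun _ e => e)
  have h2 : s 0 + s 1 = P.totalDegree := by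
    have h3 : P.totalDegree = s.sum fun _ e => e := h1
    rw [h3, Finsupp.sum_fintype _ _ (fun _ => rfl), Fin.sum_univ_two]
  intro h0
  have h3 : (form P).coeff (s 0) = P.coeff s := by
    unfold form
    rw [Polynomial.finsetSum_coeff, sum_eq_single s]
    · rw [Polynomial.coeff_C_mul, Polynomial.coeff_X_pow, if_pos rfl, mul_one]
    · intro t ht hts
      rw [mem_filter] at ht
      rw [Polynomial.coeff_C_mul, Polynomial.coeff_X_pow, if_neg, mul_zero]
      intro h4
      refine hts ?_
      ext j
      fin_cases j
      · exact h4.symm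
      · have := ht.2
        simp only [Fin.mk_one, Fin.isValue]
        omega
    · intro h4
      exact absurd (mem_filter.2 ⟨hs, h2⟩) h4
  rw [h0, Polynomial.coeff_zero] at h3
  exact (MvPolynomial.mem_support_iff.1 hs) h3.symm

theorem form_natDegree (P : MvPolynomial (Fin 2) F) : (form P).natDegree ≤ P.totalDegree := by
  unfold form
  refine Polynomial.natDegree_sum_le_of_forall_le _ _ fun s hs => ?_
  rw [mem_filter] at hs
  refine (Polynomial.natDegree_C_mul_X_pow_le _ _).trans ?_
  omega

theorem lead_eq (P : MvPolynomial (Fin 2) F) (v u : F) (hv : v ≠ 0) :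
    lead P v u = (-v) ^ P.totalDegree * (form P).eval (-(u / v)) := by
  unfold lead form
  rw [Polynomial.eval_finsetSum, mul_sum]
  refine sum_congr rfl fun s hs => ?_
  rw [mem_filter] at hs
  rw [Polynomial.eval_mul, Polynomial.eval_C, Polynomial.eval_pow, Polynomial.eval_X, ← hs.2,
    pow_add]
  have h1 : (-v) ^ s 0 * (-(u / v)) ^ s 0 = u ^ s 0 := by
    rw [← mul_pow]
    congr 1
    field_simp
  rw [← h1]
  ring

/-- **Lines and curves.** -/
theorem curve (P : MvPolynomial (Fin 2) F) (hP : P ≠ 0) {m : ℕ} (hm : P.totalDegree ≤ m)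
    (S : Finset σ) (v u : σ → F)
    (hdet : ∀ r ∈ S, ∀ r' ∈ S, r ≠ r' → v r * u r' - v r' * u r ≠ 0) :
    ∃ E ⊆ S, E.card ≤ m + 1 ∧ ∀ r ∈ S, r ∉ E → ∀ B : Finset (F × F),
      (∀ b ∈ B, MvPolynomial.eval ![b.1, b.2] P = 0) →
      (∀ b ∈ B, ∀ b' ∈ B, v r * b.1 + u r * b.2 = v r * b'.1 + u r * b'.2) → B.card ≤ m := by
  classical
  refine ⟨S.filter fun r => lead P (v r) (u r) = 0, filter_subset _ _, ?_, ?_⟩
  · have h1 := card_filter_add_card_filter_not (s := S.filter fun r => lead P (v r) (u r) = 0)
      (fun r => v r = 0)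
    have h2 : ((S.filter fun r => lead P (v r) (u r) = 0).filter fun r => v r = 0).card ≤ 1 := by
      rw [card_le_one]
      intro r hr r' hr'
      rw [mem_filter, mem_filter] at hr hr'
      by_contra hne
      refine hdet r hr.1.1 r' hr'.1.1 hne ?_
      rw [hr.2, hr'.2]
      ring
    have h3 : ((S.filter fun r => lead P (v r) (u r) = 0).filter fun r => ¬ v r = 0).card ≤ m := by
      have h4 : (((S.filter fun r => lead P (v r) (u r) = 0).filter fun r => ¬ v r = 0).image
          fun r => -(u r / v r)).card =
          ((S.filter fun r => lead P (v r) (u r) = 0).filter fun r => ¬ v r = 0).card := by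
        refine card_image_of_injOn fun r hr r' hr' h => ?_
        rw [mem_coe, mem_filter, mem_filter] at hr hr'
        by_contra hne
        refine hdet r hr.1.1 r' hr'.1.1 hne ?_
        simp only [neg_inj] at h
        rw [div_eq_div_iff hr.2 hr'.2] at h
        linear_combination -h
      rw [← h4]
      refine (card_le_card (t := (form P).roots.toFinset) fun x hx => ?_).trans
        ((Multiset.toFinset_card_le _).trans (((form P).card_roots').trans
          ((form_natDegree P).trans hm)))
      rw [mem_image] at hx
      obtain ⟨r, hr, rfl⟩ := hx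
      rw [mem_filter, mem_filter] at hr
      rw [Multiset.mem_toFinset, Polynomial.mem_roots (form_ne P hP), Polynomial.IsRoot]
      have h5 := lead_eq P (v r) (u r) hr.2
      rw [hr.1.2] at h5
      rcases mul_eq_zero.1 h5.symm with h6 | h6
      · exact absurd (eq_zero_of_pow_eq_zero h6) (neg_ne_zero.2 hr.2)
      · exact h6
    omega
  · intro r hr hrE B hB hline
    have hlead : lead P (v r) (u r) ≠ 0 := fun h => hrE (mem_filter.2 ⟨hr, h⟩)
    rcases B.eq_empty_or_nonempty with rfl | ⟨b₀, hb₀⟩
    · simp
    set q := restr P b₀.1 b₀.2 (v r) (u r) with hq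
    have hq0 : q ≠ 0 := by
      intro h
      refine hlead ?_
      rw [← restr_coeff P b₀.1 b₀.2, ← hq, h, Polynomial.coeff_zero]
    -- the case of the zero direction
    by_cases hvu : v r = 0 ∧ u r = 0
    · exfalso
      have hv := MvPolynomial.eval ![b₀.1, b₀.2] P
      have h1 : q.eval 0 = 0 := by
        rw [hq, restr_eval, mul_zero, mul_zero, add_zero, sub_zero]
        exact hB b₀ hb₀
      have h2 : q = Polynomial.C (q.coeff 0) := by
        rw [hq, hvu.1, hvu.2]
        unfold restr
        simp only [Polynomial.C_0, neg_zero, zero_mul, add_zero]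
        rw [Polynomial.finsetSum_coeff, map_sum]
        refine sum_congr rfl fun s _ => ?_
        rw [← Polynomial.C_pow, ← Polynomial.C_pow, ← Polynomial.C_mul, ← Polynomial.C_mul,
          Polynomial.coeff_C_zero]
      rw [h2, Polynomial.eval_C] at h1
      rw [h1, Polynomial.C_0] at h2
      exact hq0 h2
    · -- the parameter of a point
      set t : F × F → F := fun b => if v r = 0 then (b.1 - b₀.1) / u r else
        -((b.2 - b₀.2) / v r) with ht
      have hpt : ∀ b ∈ B, b.1 = b₀.1 + u r * t b ∧ b.2 = b₀.2 - v r * t b := by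
        intro b hb
        have h1 := hline b hb b₀ hb₀
        rw [ht]
        simp only
        split_ifs with hv
        · have hu : u r ≠ 0 := fun h => hvu ⟨hv, h⟩
          rw [hv] at h1 ⊢
          have h2 : b.2 = b₀.2 := by
            have h3 : u r * (b.2 - b₀.2) = 0 := by linear_combination h1
            rcases mul_eq_zero.1 h3 with h4 | h4
            · exact absurd h4 hu
            · exact sub_eq_zero.1 h4
          constructor
          · field_simp
            ring
          · rw [h2]
            ring
        · constructor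
          · field_simp
            linear_combination h1
          · field_simp
            ring
      have hinj : Set.InjOn t B := by
        intro b hb b' hb' h
        obtain ⟨h1, h2⟩ := hpt b hb
        obtain ⟨h3, h4⟩ := hpt b' hb'
        rw [h] at h1 h2
        exact Prod.ext (h1.trans h3.symm) (h2.trans h4.symm)
      rw [← card_image_of_injOn hinj]
      refine (card_le_card (t := q.roots.toFinset) fun x hx => ?_).trans
        ((Multiset.toFinset_card_le _).trans ((q.card_roots').trans
          ((restr_natDegree P _ _ _ _).trans hm)))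
      rw [mem_image] at hx
      obtain ⟨b, hb, rfl⟩ := hx
      rw [Multiset.mem_toFinset, Polynomial.mem_roots hq0, Polynomial.IsRoot, hq, restr_eval]
      obtain ⟨h1, h2⟩ := hpt b hb
      rw [← h1, ← h2]
      exact hB b hb

end Pool.Agent.V7H74.AK
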