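import Pool.Agent.V7H74.AKInst
import Pool.Agent.V7H74.AKCurve

set_option autoImplicit false

/-!
# From the general inequality to the exponent `1 + ε`
-/

open Finset

namespace Pool.Agent.V7H74.AK

open Pool.Agent.N269.PF

variable {α σ ζ β : Type*}

open Classical in
theorem loss_le (A : Finset α) (hA : A.Nonempty) (n : ℕ) (c : ℕ → α → ℕ)
    (h0 : ∀ a ∈ A, c 0 a = A.card) (hn : ∀ a ∈ A, c n a = 1) (hpos : ∀ a ∈ A, ∀ i, 1 ≤ c i a)
    (hanti : ∀ a ∈ A, ∀ i < n, c (i + 1) a ≤ c i a) (X : α → ℕ → ℝ) (ok : ℕ → α → Prop)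
    (θ κ T : ℝ) (hT : 1 < T)
    (hX : ∀ a ∈ A, ∀ i < n, ok i a → X a i ≤ θ * Real.log T)
    (hX1 : ∀ a ∈ A, ∀ i < n, X a i ≤ Real.log T) (hθ : 0 ≤ θ)
    (hbad : (∑ a ∈ A, ∑ i ∈ (range n).filter (fun i => ¬ ok i a),
      Real.log (c i a / c (i + 1) a)) / A.card ≤ κ * Real.log A.card) :
    (∑ a ∈ A, ∑ i ∈ range n, Real.log (c i a / c (i + 1) a) * X a i) / A.card / Real.log T ≤
      (θ + κ) * Real.log A.card := by
  have hlT : 0 < Real.log T := Real.log_pos hT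
  have hN : (0:ℝ) < A.card := by exact_mod_cast card_pos.2 hA
  have h1 : ∀ a ∈ A, ∑ i ∈ range n, Real.log (c i a / c (i + 1) a) * X a i ≤
      Real.log A.card * (θ * Real.log T) + Real.log T *
        ∑ i ∈ (range n).filter (fun i => ¬ ok i a), Real.log (c i a / c (i + 1) a) := by
    intro a ha
    have hc : ∀ i, (0:ℝ) < c i a := fun i => by exact_mod_cast hpos a ha i
    have hl : ∀ i < n, 0 ≤ Real.log (c i a) - Real.log (c (i + 1) a) := by
      intro i hi
      rw [sub_nonneg]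
      exact Real.log_le_log (hc _) (by exact_mod_cast hanti a ha i hi)
    have h2 : ∀ i ∈ range n, Real.log (c i a / c (i + 1) a) * X a i ≤
        (Real.log (c i a) - Real.log (c (i + 1) a)) * (θ * Real.log T) +
        (if ¬ ok i a then Real.log T * Real.log (c i a / c (i + 1) a) else 0) := by
      intro i hi
      rw [mem_range] at hi
      rw [Real.log_div (hc i).ne' (hc (i + 1)).ne']
      by_cases h : ok i a
      · rw [if_neg (not_not.2 h), add_zero]
        exact mul_le_mul_of_nonneg_left (hX a ha i hi h) (hl i hi)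
      · rw [if_pos h]
        have h3 := mul_le_mul_of_nonneg_left (hX1 a ha i hi) (hl i hi)
        have h4 : 0 ≤ (Real.log (c i a) - Real.log (c (i + 1) a)) * (θ * Real.log T) :=
          mul_nonneg (hl i hi) (mul_nonneg hθ hlT.le)
        linarith
    refine (sum_le_sum h2).trans ?_
    rw [sum_add_distrib, ← sum_mul, sum_range_sub' (fun i => Real.log (c i a)) n, h0 a ha,
      hn a ha, Nat.cast_one, Real.log_one, sub_zero, ← sum_filter, ← mul_sum]
  have h2 := sum_le_sum h1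
  rw [sum_add_distrib, sum_const, nsmul_eq_mul, ← mul_sum] at h2
  rw [div_le_iff₀ hN] at hbad
  have h3 := mul_le_mul_of_nonneg_left hbad hlT.le
  rw [div_div, div_le_iff₀ (mul_pos hN hlT)]
  refine (h2.trans (add_le_add le_rfl h3)).trans (le_of_eq ?_)
  ring

/-- The numbers of the children on different lines through one child. -/
theorem num_sum (Ω : Finset α) (z : α → ζ) (S : Finset σ) (w : σ → α → β)
    (hz : ∀ r ∈ S, ∀ ω ∈ Ω, ∀ ω' ∈ Ω, z ω' = z ω → w r ω' = w r ω)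
    {ω : α} (hω : ω ∈ Ω)
    (hpair : ∀ ω' ∈ Ω, ∀ r ∈ S, ∀ r' ∈ S, r ≠ r' → w r ω' = w r ω →
      w r' ω' = w r' ω → z ω' = z ω) [DecidableEq ζ] :
    ∑ r ∈ S, (num Ω z (w r) ω : ℝ) ≤ S.card + (Ω.image z).card := by
  classical
  set E : σ → Finset ζ := fun r => ((Ω.filter fun ω' => w r ω' = w r ω).image z).erase (z ω)
    with hE
  have h1 : ∀ r ∈ S, (num Ω z (w r) ω : ℝ) = 1 + ((E r).card : ℝ) := by
    intro r _
    rw [num_eq, hE]
    simp only
    have h2 : z ω ∈ (Ω.filter fun ω' => w r ω' = w r ω).image z :=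
      mem_image_of_mem _ (by simp [hω])
    rw [card_erase_of_mem h2, Nat.cast_sub (card_pos.2 ⟨_, h2⟩)]
    push_cast
    ring
  rw [sum_congr rfl h1, sum_add_distrib, sum_const, nsmul_eq_mul, mul_one]
  have h3 : ∑ r ∈ S, ((E r).card : ℝ) = ((S.biUnion E).card : ℝ) := by
    rw [card_biUnion, Nat.cast_sum]
    intro r hr r' hr' hne
    rw [Function.onFun, disjoint_left]
    intro x hx hx'
    rw [hE] at hx hx'
    simp only at hx hx'
    rw [mem_erase, mem_image] at hx hx'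
    obtain ⟨hx1, ω₁, hω₁, rfl⟩ := hx
    obtain ⟨_, ω₂, hω₂, h4⟩ := hx'
    rw [mem_filter] at hω₁ hω₂
    refine hx1 (hpair ω₁ hω₁.1 r hr r' hr' hne hω₁.2 ?_)
    rw [← hω₂.2]
    exact (hz r' hr' ω₁ hω₁.1 ω₂ hω₂.1 h4).symm
  rw [h3]
  have h4 : (S.biUnion E).card ≤ (Ω.image z).card := by
    refine card_le_card fun x hx => ?_
    rw [mem_biUnion] at hx
    obtain ⟨r, _, hx⟩ := hx
    exact image_subset_image (filter_subset _ _) (mem_of_mem_erase hx)
  have h5 : ((S.biUnion E).card : ℝ) ≤ ((Ω.image z).card : ℝ) := by exact_mod_cast h4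
  linarith

/-- few children -/
theorem few_children {S : Finset σ} (hS : S.Nonempty) (x : σ → ℝ) (hx : ∀ r ∈ S, 1 ≤ x r)
    (T c : ℝ) (hT : 0 < T) (hc : 0 < c) (hsum : ∑ r ∈ S, x r ≤ S.card * c) :
    (∑ r ∈ S, Real.log (min (x r) T)) / S.card ≤ Real.log c := by
  have hK0 : (0:ℝ) < S.card := by exact_mod_cast card_pos.2 hS
  rw [div_le_iff₀ hK0]
  have h1 : ∀ r ∈ S, Real.log (min (x r) T) ≤ (x r / c - 1) + Real.log c := by
    intro r hr
    have hx0 : 0 < x r := by linarith [hx r hr]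
    have h2 : Real.log (min (x r) T) ≤ Real.log (x r) :=
      Real.log_le_log (lt_min hx0 hT) (min_le_left _ _)
    have h3 := Real.log_le_sub_one_of_pos (div_pos hx0 hc)
    rw [Real.log_div hx0.ne' hc.ne'] at h3
    linarith
  refine (sum_le_sum h1).trans ?_
  rw [sum_add_distrib, sum_sub_distrib, ← sum_div, sum_const, sum_const, nsmul_eq_mul,
    nsmul_eq_mul, mul_one]
  have h4 : (∑ r ∈ S, x r) / c ≤ S.card := by
    rw [div_le_iff₀ hc]
    exact hsum
  nlinarith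

theorem mean_log_le {S : Finset σ} (hS : S.Nonempty) (x : σ → ℝ) (hx : ∀ r ∈ S, 1 ≤ x r)
    (T : ℝ) (hT : 1 < T) : (∑ r ∈ S, Real.log (min (x r) T)) / S.card ≤ Real.log T := by
  have hK0 : (0:ℝ) < S.card := by exact_mod_cast card_pos.2 hS
  rw [div_le_iff₀ hK0, mul_comm, ← nsmul_eq_mul, ← sum_const]
  refine sum_le_sum fun r hr => ?_
  have hx0 : 0 < x r := by linarith [hx r hr]
  exact Real.log_le_log (lt_min hx0 (by linarith)) (min_le_right _ _)

/-- few rich slopes -/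
theorem few_slopes {S : Finset σ} (hS : S.Nonempty) (x : σ → ℝ) (hx : ∀ r ∈ S, 1 ≤ x r)
    (T c e : ℝ) (hT : 1 < T) (hc : 1 ≤ c)
    (he : ((S.filter fun r => c < x r).card : ℝ) ≤ e * S.card) :
    (∑ r ∈ S, Real.log (min (x r) T)) / S.card ≤ Real.log c + e * Real.log T := by
  have hK0 : (0:ℝ) < S.card := by exact_mod_cast card_pos.2 hS
  have hlT : 0 < Real.log T := Real.log_pos hT
  have hlc : 0 ≤ Real.log c := Real.log_nonneg hc
  rw [div_le_iff₀ hK0]
  have h1 : ∀ r ∈ S, Real.log (min (x r) T) ≤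
      Real.log c + (if c < x r then Real.log T else 0) := by
    intro r hr
    have hx0 : 0 < x r := by linarith [hx r hr]
    split_ifs with h
    · have : Real.log (min (x r) T) ≤ Real.log T :=
        Real.log_le_log (lt_min hx0 (by linarith)) (min_le_right _ _)
      linarith
    · rw [add_zero]
      exact Real.log_le_log (lt_min hx0 (by linarith)) ((min_le_left _ _).trans (not_lt.1 h))
  refine (sum_le_sum h1).trans ?_
  rw [sum_add_distrib, sum_const, nsmul_eq_mul, ← sum_filter, sum_const, nsmul_eq_mul]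
  nlinarith

/-- the choice of the parameters -/
theorem params (ε : ℝ) (hε : 0 < ε) : ∃ κ : ℝ, 0 < κ ∧ ∃ K₀ : ℕ, 2 ≤ K₀ ∧ ∀ K : ℕ, K₀ ≤ K →
    ∃ θ : ℝ, 0 ≤ θ ∧ 1 / (1 + ε) ≤ 1 - √(K : ℝ) / K - (θ + κ) ∧ 1 < √(K : ℝ) ∧
      Real.log (2 * (K : ℝ) ^ κ) ≤ θ * Real.log √(K : ℝ) ∧
      Real.log ((K : ℝ) ^ κ) + κ * Real.log √(K : ℝ) ≤ θ * Real.log √(K : ℝ) ∧
      (K : ℝ) ^ κ + 1 ≤ κ * K := by
  set η : ℝ := ε / (1 + ε) with hη
  have hη0 : 0 < η := by positivity
  have hη1 : η < 1 := by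
    rw [hη, div_lt_one (by linarith)]
    linarith
  have hη2 : 1 / (1 + ε) = 1 - η := by
    rw [hη]
    field_simp
    ring
  set κ : ℝ := η / 8 with hκ
  have hκ0 : 0 < κ := by positivity
  have hκ1 : κ < 1 / 2 := by linarith
  have t1 : Filter.Tendsto (fun K : ℕ => Real.log (K : ℝ)) Filter.atTop Filter.atTop :=
    Real.tendsto_log_atTop.comp tendsto_natCast_atTop_atTop
  have t2 : Filter.Tendsto (fun K : ℕ => √(K : ℝ)) Filter.atTop Filter.atTop :=
    Real.tendsto_sqrt_atTop.comp tendsto_natCast_atTop_atTop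
  have e1 := t1.eventually_ge_atTop (8 * Real.log 2 / η)
  have e2 := t2.eventually_ge_atTop (4 / η + 2 / κ + 2)
  obtain ⟨K₀, hK₀⟩ := Filter.eventually_atTop.1 (e1.and e2)
  refine ⟨κ, hκ0, max K₀ 2, le_max_right _ _, fun K hK => ?_⟩
  obtain ⟨h1, h2⟩ := hK₀ K ((le_max_left _ _).trans hK)
  have hK2 : (2:ℝ) ≤ K := by exact_mod_cast (le_max_right K₀ 2).trans hK
  have hK0 : (0:ℝ) < K := by linarith
  have hs0 : 0 < √(K : ℝ) := Real.sqrt_pos.2 hK0
  have hss : √(K : ℝ) * √(K : ℝ) = K := Real.mul_self_sqrt hK0.le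
  have hlK : 0 < Real.log (K : ℝ) := Real.log_pos (by linarith)
  have hls : Real.log √(K : ℝ) = Real.log K / 2 := Real.log_sqrt hK0.le
  have p1 : 0 < 4 / η := by positivity
  have p2 : 0 < 2 / κ := by positivity
  have hs1 : 1 < √(K : ℝ) := by linarith
  refine ⟨3 * κ + η / 4, by positivity, ?_, hs1, ?_, ?_, ?_⟩
  · rw [hη2, Real.sqrt_div_self]
    have h3 : (√(K : ℝ))⁻¹ ≤ η / 4 := by
      rw [inv_le_comm₀ hs0 (by positivity), inv_div]
      linarith
    linarith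
  · rw [Real.log_mul (by norm_num) (by positivity), Real.log_rpow hK0, hls]
    have h3 : Real.log 2 ≤ η / 8 * Real.log K := by
      rw [div_le_iff₀ hη0] at h1
      linarith
    nlinarith
  · rw [Real.log_rpow hK0, hls]
    nlinarith
  · have h3 : (K : ℝ) ^ κ ≤ √(K : ℝ) := by
      rw [Real.sqrt_eq_rpow]
      exact Real.rpow_le_rpow_of_exponent_le (by linarith) hκ1.le
    have h4 : 2 ≤ κ * √(K : ℝ) := by
      have h5 : 2 / κ ≤ √(K : ℝ) := by linarith
      rw [div_le_iff₀ hκ0] at h5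
      linarith
    calc (K : ℝ) ^ κ + 1 ≤ 2 * √(K : ℝ) := by linarith
      _ ≤ κ * √(K : ℝ) * √(K : ℝ) := mul_le_mul_of_nonneg_right h4 hs0.le
      _ = κ * K := by rw [mul_assoc, hss]

/-- The last step. -/
theorem last_step {N : ℕ} (hN : 1 ≤ N) {M K : ℕ} {ε T θ : ℝ} (hε : 0 < ε) {E : ℝ}
    (hE : E ≤ θ * Real.log N) (h1 : 1 / (1 + ε) ≤ 1 - T / K - θ)
    (h : (N : ℝ) ^ (1 - T / K) ≤ Real.exp E * M) : (N : ℝ) ≤ (M : ℝ) ^ (1 + ε) := by
  have hN1 : (1:ℝ) ≤ N := by exact_mod_cast hN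
  have hN0 : (0:ℝ) < N := by linarith
  have h2 : Real.exp E ≤ (N : ℝ) ^ θ := by
    rw [Real.rpow_def_of_pos hN0, mul_comm]
    exact Real.exp_le_exp.2 hE
  have h3 : (N : ℝ) ^ (1 - T / K) ≤ (N : ℝ) ^ θ * M :=
    h.trans (mul_le_mul_of_nonneg_right h2 (Nat.cast_nonneg _))
  have h4 : (N : ℝ) ^ (1 - T / K - θ) ≤ M := by
    rw [Real.rpow_sub hN0, div_le_iff₀ (by positivity)]
    linarith
  have h5 : (N : ℝ) ^ (1 / (1 + ε)) ≤ M :=
    (Real.rpow_le_rpow_of_exponent_le hN1 h1).trans h4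
  have h6 := Real.rpow_le_rpow (by positivity) h5 (by linarith : (0:ℝ) ≤ 1 + ε)
  rwa [← Real.rpow_mul hN0.le, one_div_mul_cancel (by linarith), Real.rpow_one] at h6

end Pool.Agent.V7H74.AK
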