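import Pool.Agent.V7H74.AKTree

set_option autoImplicit false

/-!
# The general inequality for integers and for coordinates in a field
-/

open Finset

namespace Pool.Agent.V7H74.AK

open Pool.Agent.N269.PF

/-- the projection `π_r(A) = {x + r y : (x, y) ∈ A}` -/
def proj (r : ℚ) (A : Finset (ℤ × ℤ)) : Finset ℚ :=
  A.image (fun p : ℤ × ℤ => (p.1 : ℚ) + r * (p.2 : ℚ))

/-- the points of `A` which are congruent to `a` modulo `q` -/
def cls (q : ℕ) (A : Finset (ℤ × ℤ)) (a : ℤ × ℤ) : Finset (ℤ × ℤ) :=
  A.filter fun b => (q : ℤ) ∣ b.1 - a.1 ∧ (q : ℤ) ∣ b.2 - a.2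

/-- the number of the residue classes modulo `q` which meet `B` -/
def classes (q : ℕ) (B : Finset (ℤ × ℤ)) : ℕ :=
  (B.image fun b => ((b.1 : ZMod q), (b.2 : ZMod q))).card

/-- The number of the residue classes modulo `q'` in the residue class of `a` modulo `q` which
meet `A` and have the same projection modulo `q'` as `a` with the slope `r`. -/
def mult (q q' : ℕ) (r : ℚ) (A : Finset (ℤ × ℤ)) (a : ℤ × ℤ) : ℕ :=
  classes q' ((cls q A a).filter fun b =>
    (q' : ℤ) ∣ (r.den : ℤ) * (b.1 - a.1) + r.num * (b.2 - a.2))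

theorem zmod_eq (q : ℕ) (x y : ℤ) : ((x : ZMod q) = (y : ZMod q)) ↔ (q : ℤ) ∣ x - y := by
  rw [eq_comm]
  exact ZMod.intCast_eq_intCast_iff_dvd_sub y x q

theorem int_main (S : Finset ℚ) (hS : S.Nonempty) (n : ℕ) (Q : ℕ → ℕ) (hQ0 : Q 0 = 1)
    (hQ : ∀ i < n, Q i ∣ Q (i + 1))
    (hdet : ∀ i < n, ∀ r ∈ S, ∀ r' ∈ S, r ≠ r' →
      IsCoprime ((r.den : ℤ) * r'.num - r'.den * r.num) (Q (i + 1) : ℤ))
    (A : Finset (ℤ × ℤ)) (hA : A.Nonempty)
    (hinj : ∀ a ∈ A, ∀ b ∈ A, (Q n : ℤ) ∣ b.1 - a.1 → (Q n : ℤ) ∣ b.2 - a.2 → b = a)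
    (T : ℝ) (hT : 1 < T) :
    ∃ r ∈ S, (A.card : ℝ) ^ (1 - T / S.card) ≤ Real.exp
      ((∑ a ∈ A, ∑ i ∈ range n, Real.log ((cls (Q i) A a).card / (cls (Q (i + 1)) A a).card) *
        (∑ r ∈ S, Real.log (min (mult (Q i) (Q (i + 1)) r A a : ℝ) T)) / S.card) /
        A.card / Real.log T) * ((proj r A).card : ℝ) := by
  have hfib : ∀ i, ∀ a, fib A (fun a : ℤ × ℤ => ((a.1 : ZMod (Q i)), (a.2 : ZMod (Q i)))) a =
      ((cls (Q i) A a).card : ℝ) := by
    intro i a
    rw [fib_eq]
    unfold cls
    congr 2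
    refine filter_congr fun b _ => ?_
    rw [Prod.ext_iff]
    simp only
    rw [zmod_eq, zmod_eq]
  have hnum : ∀ i, ∀ r : ℚ, ∀ a, num (A.filter fun b : ℤ × ℤ =>
      ((b.1 : ZMod (Q i)), (b.2 : ZMod (Q i))) = ((a.1 : ZMod (Q i)), (a.2 : ZMod (Q i))))
      (fun a : ℤ × ℤ => ((a.1 : ZMod (Q (i + 1))), (a.2 : ZMod (Q (i + 1)))))
      (fun a : ℤ × ℤ => (((r.den : ℤ) * a.1 + r.num * a.2 : ℤ) : ZMod (Q (i + 1)))) a =
      mult (Q i) (Q (i + 1)) r A a := by
    intro i r a
    rw [num_eq]
    unfold mult classes cls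
    congr 2
    rw [filter_filter, filter_filter]
    refine filter_congr fun b _ => ?_
    rw [Prod.ext_iff]
    simp only
    rw [zmod_eq, zmod_eq, zmod_eq]
    have : (r.den : ℤ) * b.1 + r.num * b.2 - ((r.den : ℤ) * a.1 + r.num * a.2) =
      (r.den : ℤ) * (b.1 - a.1) + r.num * (b.2 - a.2) := by ring
    rw [this]
  have h := main (δ := fun i => ZMod (Q i) × ZMod (Q i)) (ε := fun i => ZMod (Q (i + 1)))
    A hA S hS n
    (fun i (a : ℤ × ℤ) => ((a.1 : ZMod (Q i)), (a.2 : ZMod (Q i))))
    (fun r (a : ℤ × ℤ) => (a.1 : ℚ) + r * (a.2 : ℚ))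
    (fun i r (a : ℤ × ℤ) => (((r.den : ℤ) * a.1 + r.num * a.2 : ℤ) : ZMod (Q (i + 1))))
    (by
      intro a _ b _
      simp only [Prod.ext_iff]
      rw [zmod_eq, zmod_eq, hQ0]
      simp)
    (by
      intro i hi a b h
      simp only [Prod.ext_iff] at h ⊢
      rw [zmod_eq, zmod_eq] at h ⊢
      have h1 : (Q i : ℤ) ∣ (Q (i + 1) : ℤ) := by exact_mod_cast hQ i hi
      exact ⟨h1.trans h.1, h1.trans h.2⟩)
    (by
      intro a ha b hb h
      simp only [Prod.ext_iff] at h
      rw [zmod_eq, zmod_eq] at h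
      exact hinj a ha b hb h.1 h.2)
    (by
      intro i hi r hr a b h
      simp only [Prod.ext_iff] at h
      rw [zmod_eq, zmod_eq] at h
      rw [zmod_eq]
      have : (r.den : ℤ) * a.1 + r.num * a.2 - ((r.den : ℤ) * b.1 + r.num * b.2) =
        (r.den : ℤ) * (a.1 - b.1) + r.num * (a.2 - b.2) := by ring
      rw [this]
      exact dvd_add (Dvd.dvd.mul_left h.1 _) (Dvd.dvd.mul_left h.2 _))
    (by
      intro i hi r hr a b h _
      have h1 : ((r.den : ℤ) * a.1 + r.num * a.2 : ℤ) = (r.den : ℤ) * b.1 + r.num * b.2 := by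
        have h2 : (r.den : ℚ) ≠ 0 := by exact_mod_cast r.den_nz
        have h3 : r * (r.den : ℚ) = r.num := Rat.mul_den_eq_num r
        have h4 : ((r.den : ℚ) * a.1 + r.num * a.2) = (r.den : ℚ) * b.1 + r.num * b.2 := by
          rw [← h3]
          linear_combination (r.den : ℚ) * h
        exact_mod_cast h4
      rw [h1])
    (by
      intro i hi a ha b hb _ r hr r' hr' hne h1 h2
      simp only [Prod.ext_iff] at h1 h2 ⊢
      rw [zmod_eq] at h1 h2
      rw [zmod_eq, zmod_eq]
      have hc := (hdet i hi r hr r' hr' hne).symm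
      constructor
      · refine hc.dvd_of_dvd_mul_left ?_
        have : ((r.den : ℤ) * r'.num - r'.den * r.num) * (b.1 - a.1) =
            r'.num * ((r.den : ℤ) * b.1 + r.num * b.2 - ((r.den : ℤ) * a.1 + r.num * a.2)) -
            r.num * ((r'.den : ℤ) * b.1 + r'.num * b.2 -
              ((r'.den : ℤ) * a.1 + r'.num * a.2)) := by ring
        rw [this]
        exact dvd_sub (Dvd.dvd.mul_left h1 _) (Dvd.dvd.mul_left h2 _)
      · refine hc.dvd_of_dvd_mul_left ?_
        have : ((r.den : ℤ) * r'.num - r'.den * r.num) * (b.2 - a.2) =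
            (r.den : ℤ) * ((r'.den : ℤ) * b.1 + r'.num * b.2 -
              ((r'.den : ℤ) * a.1 + r'.num * a.2)) -
            (r'.den : ℤ) * ((r.den : ℤ) * b.1 + r.num * b.2 -
              ((r.den : ℤ) * a.1 + r.num * a.2)) := by ring
        rw [this]
        exact dvd_sub (Dvd.dvd.mul_left h2 _) (Dvd.dvd.mul_left h1 _))
    T hT
  simp only [hfib, hnum] at h
  exact h

/-! ### Coordinates in a field -/

variable {F : Type*} [Field F] [DecidableEq F]

/-- the projection of a set of points with coordinates `(x_j, y_j) ∈ F × F` -/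
def projF {n : ℕ} (r : F) (A : Finset (Fin n → F × F)) : Finset (Fin n → F) :=
  A.image fun a j => (a j).1 + r * (a j).2

/-- the points of `A` with the same coordinates `j < i` as `a` -/
def clsF {n : ℕ} (i : ℕ) (A : Finset (Fin n → F × F)) (a : Fin n → F × F) :
    Finset (Fin n → F × F) :=
  A.filter fun b => ∀ j : Fin n, (j : ℕ) < i → b j = a j

/-- The number of the points of `F × F` on the line with the slope `r` through the `i`-th
coordinate pair of `a` which are the `i`-th coordinate pair of a point of `A` with the same coordinates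
`j < i` as `a`. -/
def multF {n : ℕ} (i : Fin n) (r : F) (A : Finset (Fin n → F × F)) (a : Fin n → F × F) : ℕ :=
  (((clsF i A a).image fun b => b i).filter fun z =>
    z.1 + r * z.2 = (a i).1 + r * (a i).2).card

theorem field_main {n : ℕ} (S : Finset F) (hS : S.Nonempty) (A : Finset (Fin n → F × F))
    (hA : A.Nonempty) (T : ℝ) (hT : 1 < T) :
    ∃ r ∈ S, (A.card : ℝ) ^ (1 - T / S.card) ≤ Real.exp
      ((∑ a ∈ A, ∑ i : Fin n, Real.log ((clsF i A a).card / (clsF (i + 1) A a).card) *
        (∑ r ∈ S, Real.log (min (multF i r A a : ℝ) T)) / S.card) /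
        A.card / Real.log T) * ((projF r A).card : ℝ) := by
  set p : ℕ → (Fin n → F × F) → (Fin n → F × F) := fun i a j => if (j : ℕ) < i then a j else 0
    with hp
  have peq : ∀ i a b, p i a = p i b ↔ ∀ j : Fin n, (j : ℕ) < i → a j = b j := by
    intro i a b
    rw [hp]
    simp only
    rw [funext_iff]
    constructor
    · intro h j hj
      have := h j
      rwa [if_pos hj, if_pos hj] at this
    · intro h j
      by_cases hj : (j : ℕ) < i
      · rw [if_pos hj, if_pos hj, h j hj]
      · rw [if_neg hj, if_neg hj]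
  have hfib : ∀ i a, fib A (p i) a = ((clsF i A a).card : ℝ) := by
    intro i a
    rw [fib_eq]
    unfold clsF
    congr 2
    exact filter_congr fun b _ => peq i b a
  set w : ℕ → F → (Fin n → F × F) → F := fun i r a =>
    if h : i < n then (a ⟨i, h⟩).1 + r * (a ⟨i, h⟩).2 else 0 with hw
  have weq : ∀ (i : Fin n) (r : F) a, w i r a = (a i).1 + r * (a i).2 := by
    intro i r a
    rw [hw]
    simp only
    rw [dif_pos i.2]
  have hnum : ∀ (i : Fin n) (r : F) a, num (A.filter fun b => p i b = p i a) (p (i + 1)) (w i r) a =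
      multF i r A a := by
    intro i r a
    rw [num_eq]
    unfold multF
    have e1 : (A.filter fun b => p i b = p i a) = clsF i A a := by
      unfold clsF
      exact filter_congr fun b _ => peq i b a
    rw [e1, filter_image]
    refine card_bij' (fun f _ => f i) (fun z _ => p (i + 1) (Function.update a i z)) ?_ ?_ ?_ ?_
    · intro f hf
      rw [mem_image] at hf ⊢
      obtain ⟨b, hb, rfl⟩ := hf
      rw [mem_filter, weq, weq] at hb
      refine ⟨b, mem_filter.2 hb, ?_⟩
      rw [hp]
      simp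
    · intro z hz
      rw [mem_image] at hz ⊢
      obtain ⟨b, hb, rfl⟩ := hz
      refine ⟨b, ?_, ?_⟩
      · rw [mem_filter] at hb ⊢
        rw [weq, weq]
        exact hb
      · rw [peq]
        intro j hj
        rw [mem_filter] at hb
        unfold clsF at hb
        rw [mem_filter] at hb
        by_cases hji : j = i
        · rw [hji, Function.update_self]
        · rw [Function.update_of_ne hji]
          refine hb.1.2 j ?_
          have : (j : ℕ) ≠ i := fun h => hji (Fin.ext h)
          omega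
    · intro f hf
      rw [mem_image] at hf
      obtain ⟨b, hb, rfl⟩ := hf
      rw [mem_filter] at hb
      unfold clsF at hb
      rw [mem_filter] at hb
      rw [peq]
      intro j hj
      have h0 : p (i + 1) b i = b i := by
        rw [hp]
        simp
      by_cases hji : j = i
      · rw [hji, Function.update_self, h0]
      · rw [Function.update_of_ne hji]
        refine (hb.1.2 j ?_).symm
        have : (j : ℕ) ≠ i := fun h => hji (Fin.ext h)
        omega
    · intro z hz
      rw [hp]
      simp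
  have h := main (δ := fun _ => Fin n → F × F) (ε := fun _ => F) A hA S hS n p
    (fun r a j => (a j).1 + r * (a j).2) w
    (by
      intro a _ b _
      rw [peq]
      intro j hj
      omega)
    (by
      intro i _ a b h
      rw [peq] at h ⊢
      exact fun j hj => h j (by omega))
    (by
      intro a _ b _ h
      rw [peq] at h
      exact funext fun j => h j j.2)
    (by
      intro i hi r _ a b h
      rw [peq] at h
      rw [hw]
      simp only
      rw [dif_pos hi, dif_pos hi, h ⟨i, hi⟩ (Nat.lt_succ_self i)])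
    (by
      intro i hi r _ a b h _
      rw [hw]
      simp only
      rw [dif_pos hi, dif_pos hi]
      exact congrFun h ⟨i, hi⟩)
    (by
      intro i hi a _ b _ h0 r _ r' _ hne h1 h2
      have e1 := weq ⟨i, hi⟩
      simp only at e1
      rw [e1, e1] at h1 h2
      rw [peq] at h0 ⊢
      intro j hj
      rcases Nat.lt_succ_iff_lt_or_eq.1 hj with h3 | h3
      · exact h0 j h3
      · have hj2 : j = ⟨i, hi⟩ := Fin.ext h3
        rw [hj2]
        have h4 : (r - r') * ((b ⟨i, hi⟩).2 - (a ⟨i, hi⟩).2) = 0 := by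
          linear_combination h1 - h2
        have h5 : (b ⟨i, hi⟩).2 = (a ⟨i, hi⟩).2 := by
          rcases mul_eq_zero.1 h4 with h6 | h6
          · exact absurd (sub_eq_zero.1 h6) hne
          · exact sub_eq_zero.1 h6
        rw [h5] at h1
        exact Prod.ext (by linear_combination h1) h5)
    T hT
  obtain ⟨r, hr, h1⟩ := h
  refine ⟨r, hr, ?_⟩
  have e : ∀ a ∈ A, ∑ i ∈ range n, Real.log (fib A (p i) a / fib A (p (i + 1)) a) *
        (∑ r ∈ S, Real.log (min
          (num (A.filter fun b => p i b = p i a) (p (i + 1)) (w i r) a : ℝ) T)) / S.card =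
      ∑ i : Fin n, Real.log ((clsF i A a).card / (clsF (i + 1) A a).card) *
        (∑ r ∈ S, Real.log (min (multF i r A a : ℝ) T)) / S.card := by
    intro a _
    rw [← Fin.sum_univ_eq_sum_range (fun i => Real.log (fib A (p i) a / fib A (p (i + 1)) a) *
        (∑ r ∈ S, Real.log (min
          (num (A.filter fun b => p i b = p i a) (p (i + 1)) (w i r) a : ℝ) T)) / S.card)]
    refine sum_congr rfl fun i _ => ?_
    rw [hfib, hfib]
    congr 2
    refine sum_congr rfl fun r _ => ?_
    rw [hnum]
  rw [sum_congr rfl e] at h1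
  exact h1

end Pool.Agent.V7H74.AK
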