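import Pool.Agent.V7H74.AKTree2
import Pool.Agent.V7H74.AKCor

set_option autoImplicit false

/-!
# The interpolation theorem for all sets of integer points
-/

open Finset

namespace Pool.Agent.V7H74.AK

open Pool.Agent.N269.PF

theorem int_main2 (S : Finset ℚ) (hS : 2 ≤ S.card) (n : ℕ) (Q : ℕ → ℕ) (hQ0 : Q 0 = 1)
    (hQ : ∀ i < n, Q i ∣ Q (i + 1))
    (hdet : ∀ i < n, ∀ r ∈ S, ∀ r' ∈ S, r ≠ r' →
      IsCoprime ((r.den : ℤ) * r'.num - r'.den * r.num) (Q (i + 1) : ℤ))
    (A : Finset (ℤ × ℤ)) (hA : A.Nonempty)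
    (hinj : ∀ a ∈ A, ∀ b ∈ A, (Q n : ℤ) ∣ b.1 - a.1 → (Q n : ℤ) ∣ b.2 - a.2 → b = a)
    (T : ℝ) (hT : 1 < T) (lam : ℕ → ℤ × ℤ → ℝ)
    (hlam : ∀ i < n, ∀ a ∈ A, ∀ b ∈ cls (Q i) A a, lam i b = lam i a)
    (hcond : ∀ i < n, ∀ a ∈ A, 1 / 2 ≤ lam i a ∨
      ∑ r ∈ S, min (Real.log (mult (Q i) (Q (i + 1)) r A a)) (Real.log T) ≤
        S.card * lam i a * Real.log T) :
    ∃ r ∈ S, (1 - T / S.card) * Real.log A.card ≤
      (∑ a ∈ A, ∑ i ∈ range n, (Real.log (cls (Q i) A a).card -
        Real.log (cls (Q (i + 1)) A a).card) * lam i a) / A.card +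
      Real.log ((proj r A).card : ℝ) := by
  have hmem : ∀ i, ∀ a ∈ A, ∀ b ∈ A, (((b.1 : ZMod (Q i)), (b.2 : ZMod (Q i))) =
      ((a.1 : ZMod (Q i)), (a.2 : ZMod (Q i)))) ↔ b ∈ cls (Q i) A a := by
    intro i a _ b hb
    unfold cls
    rw [mem_filter, Prod.ext_iff]
    simp only
    rw [zmod_eq, zmod_eq]
    exact ⟨fun h => ⟨hb, h⟩, fun h => h.2⟩
  have hfib : ∀ i, ∀ a, fib A (fun a : ℤ × ℤ => ((a.1 : ZMod (Q i)), (a.2 : ZMod (Q i)))) a =
      ((cls (Q i) A a).card : ℝ) := by
    intro i a
    rw [fib_eq]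
    unfold cls
    congr 2
    refine filter_congr fun b _ => ?_
    rw [Prod.ext_iff]
    simp only
    rw [zmod_eq, zmod_eq]
  have hnum : ∀ i, ∀ r : ℚ, ∀ a, num (A.filter fun b : ℤ × ℤ =>
      ((b.1 : ZMod (Q i)), (b.2 : ZMod (Q i))) = ((a.1 : ZMod (Q i)), (a.2 : ZMod (Q i))))
      (fun a : ℤ × ℤ => ((a.1 : ZMod (Q (i + 1))), (a.2 : ZMod (Q (i + 1)))))
      (fun a : ℤ × ℤ => (((r.den : ℤ) * a.1 + r.num * a.2 : ℤ) : ZMod (Q (i + 1)))) a =
      mult (Q i) (Q (i + 1)) r A a := by
    intro i r a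
    rw [num_eq]
    unfold mult classes cls
    congr 2
    rw [filter_filter, filter_filter]
    refine filter_congr fun b _ => ?_
    rw [Prod.ext_iff]
    simp only
    rw [zmod_eq, zmod_eq, zmod_eq]
    have : (r.den : ℤ) * b.1 + r.num * b.2 - ((r.den : ℤ) * a.1 + r.num * a.2) =
      (r.den : ℤ) * (b.1 - a.1) + r.num * (b.2 - a.2) := by ring
    rw [this]
  have h := main2 (δ := fun i => ZMod (Q i) × ZMod (Q i)) (ε := fun i => ZMod (Q (i + 1)))
    A hA S hS n
    (fun i (a : ℤ × ℤ) => ((a.1 : ZMod (Q i)), (a.2 : ZMod (Q i))))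
    (fun r (a : ℤ × ℤ) => (a.1 : ℚ) + r * (a.2 : ℚ))
    (fun i r (a : ℤ × ℤ) => (((r.den : ℤ) * a.1 + r.num * a.2 : ℤ) : ZMod (Q (i + 1))))
    (by
      intro a _ b _
      simp only [Prod.ext_iff]
      rw [zmod_eq, zmod_eq, hQ0]
      simp)
    (by
      intro i hi a b h
      simp only [Prod.ext_iff] at h ⊢
      rw [zmod_eq, zmod_eq] at h ⊢
      have h1 : (Q i : ℤ) ∣ (Q (i + 1) : ℤ) := by exact_mod_cast hQ i hi
      exact ⟨h1.trans h.1, h1.trans h.2⟩)
    (by
      intro a ha b hb h
      simp only [Prod.ext_iff] at h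
      rw [zmod_eq, zmod_eq] at h
      exact hinj a ha b hb h.1 h.2)
    (by
      intro i hi r hr a b h
      simp only [Prod.ext_iff] at h
      rw [zmod_eq, zmod_eq] at h
      rw [zmod_eq]
      have : (r.den : ℤ) * a.1 + r.num * a.2 - ((r.den : ℤ) * b.1 + r.num * b.2) =
        (r.den : ℤ) * (a.1 - b.1) + r.num * (a.2 - b.2) := by ring
      rw [this]
      exact dvd_add (Dvd.dvd.mul_left h.1 _) (Dvd.dvd.mul_left h.2 _))
    (by
      intro i hi r hr a b h _
      have h1 : ((r.den : ℤ) * a.1 + r.num * a.2 : ℤ) = (r.den : ℤ) * b.1 + r.num * b.2 := by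
        have h2 : (r.den : ℚ) ≠ 0 := by exact_mod_cast r.den_nz
        have h3 : r * (r.den : ℚ) = r.num := Rat.mul_den_eq_num r
        have h4 : ((r.den : ℚ) * a.1 + r.num * a.2) = (r.den : ℚ) * b.1 + r.num * b.2 := by
          rw [← h3]
          linear_combination (r.den : ℚ) * h
        exact_mod_cast h4
      rw [h1])
    (by
      intro i hi a ha b hb _ r hr r' hr' hne h1 h2
      simp only [Prod.ext_iff] at h1 h2 ⊢
      rw [zmod_eq] at h1 h2
      rw [zmod_eq, zmod_eq]
      have hc := (hdet i hi r hr r' hr' hne).symm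
      constructor
      · refine hc.dvd_of_dvd_mul_left ?_
        have : ((r.den : ℤ) * r'.num - r'.den * r.num) * (b.1 - a.1) =
            r'.num * ((r.den : ℤ) * b.1 + r.num * b.2 - ((r.den : ℤ) * a.1 + r.num * a.2)) -
            r.num * ((r'.den : ℤ) * b.1 + r'.num * b.2 -
              ((r'.den : ℤ) * a.1 + r'.num * a.2)) := by ring
        rw [this]
        exact dvd_sub (Dvd.dvd.mul_left h1 _) (Dvd.dvd.mul_left h2 _)
      · refine hc.dvd_of_dvd_mul_left ?_
        have : ((r.den : ℤ) * r'.num - r'.den * r.num) * (b.2 - a.2) =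
            (r.den : ℤ) * ((r'.den : ℤ) * b.1 + r'.num * b.2 -
              ((r'.den : ℤ) * a.1 + r'.num * a.2)) -
            (r'.den : ℤ) * ((r.den : ℤ) * b.1 + r.num * b.2 -
              ((r.den : ℤ) * a.1 + r.num * a.2)) := by ring
        rw [this]
        exact dvd_sub (Dvd.dvd.mul_left h2 _) (Dvd.dvd.mul_left h1 _))
    T hT lam
    (fun i hi a ha b hb h => hlam i hi a ha b ((hmem i a ha b hb).1 h))
    (by
      intro i hi a ha
      simp only [hnum]
      exact hcond i hi a ha)
  simp only [hfib] at h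
  exact h

/-- The node of `a` of level `i` has the exponent `lam`: there are at most `K ^ (1 + lam)` children,
or for each child the geometric mean over the slopes of the minimum of `K` and the number
of the children on the line through it is at most `K ^ lam`, or the children are on an algebraic curve of
degree at most `K ^ lam` over the field with `p i` elements (`K = |S|`). -/
def HasExponent (lam : ℝ) (S : Finset ℚ) (p : ℕ → ℕ) (i : ℕ) (A : Finset (ℤ × ℤ))
    (a : ℤ × ℤ) : Prop :=
  (classes (modulus p (i + 1)) (cls (modulus p i) A a) : ℝ) ≤ (S.card : ℝ) ^ (1 + lam) ∨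
  (∏ r ∈ S, min (mult (modulus p i) (modulus p (i + 1)) r A a : ℝ) S.card) ≤
    (S.card : ℝ) ^ (lam * S.card) ∨
  ∃ P : MvPolynomial (Fin 2) (ZMod (p i)), P ≠ 0 ∧ (P.totalDegree : ℝ) ≤ (S.card : ℝ) ^ lam ∧
    ∀ b ∈ cls (modulus p i) A a, MvPolynomial.eval
      ![(((b.1 - a.1) / (modulus p i : ℤ) : ℤ) : ZMod (p i)),
        (((b.2 - a.2) / (modulus p i : ℤ) : ℤ) : ZMod (p i))] P = 0

/-- the sum of the logarithms of the multiplicities of a node with the exponent `lam` -/
theorem exponent_bound (S : Finset ℚ) (hS : 2 ≤ S.card) (p : ℕ → ℕ) (hp : ∀ i, (p i).Prime)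
    (hdist : ∀ i, ∀ r ∈ S, ∀ r' ∈ S, r ≠ r' →
      ¬ (p i : ℤ) ∣ (r.den : ℤ) * r'.num - r'.den * r.num)
    (A : Finset (ℤ × ℤ)) (a : ℤ × ℤ) (ha : a ∈ A) (i : ℕ) (lam η T : ℝ) (hlam0 : 0 ≤ lam)
    (hlam1 : lam ≤ 1 / 2) (hT1 : 1 < T) (hTK : T ≤ S.card)
    (hη1 : Real.log 2 ≤ η * Real.log S.card) (hη2 : √(S.card : ℝ) + 1 ≤ η * S.card)
    (h : HasExponent lam S p i A a) :
    ∑ r ∈ S, min (Real.log (mult (modulus p i) (modulus p (i + 1)) r A a)) (Real.log T) ≤
      S.card * (lam + η) * Real.log S.card := by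
  have hSne : S.Nonempty := card_pos.1 (by omega)
  have hK1 : (1:ℝ) ≤ S.card := by exact_mod_cast card_pos.2 hSne
  have hK2 : (2:ℝ) ≤ S.card := by exact_mod_cast hS
  have hK0 : (0:ℝ) < S.card := by linarith
  have hlK : 0 < Real.log S.card := Real.log_pos (by linarith)
  have hT0 : 0 < T := by linarith
  have hlTK : Real.log T ≤ Real.log S.card := Real.log_le_log hT0 hTK
  have hη0 : 0 ≤ η := by
    by_contra hneg
    have : η * S.card < 0 := mul_neg_of_neg_of_pos (not_le.1 hneg) hK0
    have := Real.sqrt_nonneg (S.card : ℝ)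
    linarith
  have hmod : ∀ i, modulus p (i + 1) = modulus p i * p i := fun i => by
    unfold modulus
    rw [prod_range_succ]
  have hmod0 : ∀ i, modulus p i ≠ 0 := fun i => by
    unfold modulus
    exact prod_ne_zero_iff.2 fun j _ => (hp j).ne_zero
  have hcop : ∀ i, ∀ r ∈ S, ∀ r' ∈ S, r ≠ r' →
      IsCoprime ((r.den : ℤ) * r'.num - r'.den * r.num) (modulus p i : ℤ) := by
    intro i r hr r' hr' hne
    unfold modulus
    push_cast
    refine IsCoprime.prod_right fun j _ => ?_
    exact ((Nat.prime_iff_prime_int.1 (hp j)).coprime_iff_not_dvd.2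
      (hdist j r hr r' hr' hne)).symm
  have : Fact (p i).Prime := ⟨hp i⟩
  have hx : ∀ r ∈ S, (1:ℝ) ≤ (mult (modulus p i) (modulus p (i + 1)) r A a : ℝ) :=
    fun r _ => by exact_mod_cast mult_pos _ _ r ha
  -- minimum and logarithm
  have hmin : ∀ r ∈ S, min (Real.log (mult (modulus p i) (modulus p (i + 1)) r A a))
      (Real.log T) ≤ Real.log (min (mult (modulus p i) (modulus p (i + 1)) r A a : ℝ) T) := by
    intro r hr
    rcases le_total (mult (modulus p i) (modulus p (i + 1)) r A a : ℝ) T with h5 | h5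
    · rw [min_eq_left h5]
      exact min_le_left _ _
    · rw [min_eq_right h5]
      exact min_le_right _ _
  rcases h with h3 | h3 | ⟨P, hP0, hPd, hP⟩
  · have h1 := few_children hSne (fun r => (mult (modulus p i) (modulus p (i + 1)) r A a : ℝ)) hx T
      (2 * (S.card : ℝ) ^ lam) (by linarith) (by positivity) (by
        have h4 : ∑ r ∈ S, (mult (modulus p i) (modulus p (i + 1)) r A a : ℝ) ≤
            S.card + classes (modulus p (i + 1)) (cls (modulus p i) A a) := by
          have h5 := num_sum (cls (modulus p i) A a)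
            (fun a : ℤ × ℤ => ((a.1 : ZMod (modulus p (i + 1))),
              (a.2 : ZMod (modulus p (i + 1))))) S
            (fun r (a : ℤ × ℤ) => (((r.den : ℤ) * a.1 + r.num * a.2 : ℤ) :
              ZMod (modulus p (i + 1))))
            (by
              intro r _ b _ b' _ h
              simp only [Prod.ext_iff] at h
              rw [zmod_eq, zmod_eq] at h
              rw [zmod_eq]
              have : (r.den : ℤ) * b'.1 + r.num * b'.2 - ((r.den : ℤ) * b.1 + r.num * b.2) =
                (r.den : ℤ) * (b'.1 - b.1) + r.num * (b'.2 - b.2) := by ring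
              rw [this]
              exact dvd_add (Dvd.dvd.mul_left h.1 _) (Dvd.dvd.mul_left h.2 _))
            (ω := a) (by
              unfold cls
              rw [mem_filter]
              simp [ha])
            (by
              intro b hb r hr r' hr' hne h1 h2
              simp only [Prod.ext_iff] at h1 h2 ⊢
              rw [zmod_eq] at h1 h2
              rw [zmod_eq, zmod_eq]
              have hc := (hcop (i + 1) r hr r' hr' hne).symm
              constructor
              · refine hc.dvd_of_dvd_mul_left ?_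
                have : ((r.den : ℤ) * r'.num - r'.den * r.num) * (b.1 - a.1) =
                    r'.num * ((r.den : ℤ) * b.1 + r.num * b.2 -
                      ((r.den : ℤ) * a.1 + r.num * a.2)) -
                    r.num * ((r'.den : ℤ) * b.1 + r'.num * b.2 -
                      ((r'.den : ℤ) * a.1 + r'.num * a.2)) := by ring
                rw [this]
                exact dvd_sub (Dvd.dvd.mul_left h1 _) (Dvd.dvd.mul_left h2 _)
              · refine hc.dvd_of_dvd_mul_left ?_
                have : ((r.den : ℤ) * r'.num - r'.den * r.num) * (b.2 - a.2) =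
                    (r.den : ℤ) * ((r'.den : ℤ) * b.1 + r'.num * b.2 -
                      ((r'.den : ℤ) * a.1 + r'.num * a.2)) -
                    (r'.den : ℤ) * ((r.den : ℤ) * b.1 + r.num * b.2 -
                      ((r.den : ℤ) * a.1 + r.num * a.2)) := by ring
                rw [this]
                exact dvd_sub (Dvd.dvd.mul_left h2 _) (Dvd.dvd.mul_left h1 _))
          refine le_trans (le_of_eq (sum_congr rfl fun r _ => ?_)) h5
          rw [num_eq]
          unfold mult classes
          congr 3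
          refine filter_congr fun b _ => ?_
          rw [zmod_eq]
          have : (r.den : ℤ) * b.1 + r.num * b.2 - ((r.den : ℤ) * a.1 + r.num * a.2) =
            (r.den : ℤ) * (b.1 - a.1) + r.num * (b.2 - a.2) := by ring
          rw [this]
        have h5 : (S.card : ℝ) ^ (1 + lam) = S.card * (S.card : ℝ) ^ lam := by
          rw [Real.rpow_add hK0, Real.rpow_one]
        rw [h5] at h3
        have h6 : (1:ℝ) ≤ (S.card : ℝ) ^ lam := Real.one_le_rpow hK1 hlam0
        nlinarith)
    rw [div_le_iff₀ hK0, Real.log_mul (by norm_num) (by positivity), Real.log_rpow hK0] at h1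
    refine (sum_le_sum hmin).trans (h1.trans ?_)
    have h2 : Real.log 2 + lam * Real.log S.card ≤ (lam + η) * Real.log S.card := by
      rw [add_mul]
      linarith
    calc (Real.log 2 + lam * Real.log S.card) * S.card ≤
        ((lam + η) * Real.log S.card) * S.card := mul_le_mul_of_nonneg_right h2 hK0.le
      _ = _ := by ring
  · have hpos : ∀ r ∈ S, (0:ℝ) <
        min (mult (modulus p i) (modulus p (i + 1)) r A a : ℝ) S.card := fun r hr =>
      lt_min (by linarith [hx r hr]) hK0
    have h4 := Real.log_le_log (prod_pos hpos) h3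
    rw [Real.log_prod (fun r hr => (hpos r hr).ne'), Real.log_rpow hK0] at h4
    have h5 : ∀ r ∈ S, min (Real.log (mult (modulus p i) (modulus p (i + 1)) r A a))
        (Real.log T) ≤
        Real.log (min (mult (modulus p i) (modulus p (i + 1)) r A a : ℝ) S.card) := by
      intro r hr
      rcases le_total (mult (modulus p i) (modulus p (i + 1)) r A a : ℝ) S.card with h6 | h6
      · rw [min_eq_left h6]
        exact min_le_left _ _
      · rw [min_eq_right h6]
        exact (min_le_right _ _).trans hlTK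
    refine (sum_le_sum h5).trans (h4.trans ?_)
    have : 0 ≤ η * S.card * Real.log S.card := by positivity
    nlinarith
  · obtain ⟨E, hES, hEc, hE⟩ := curve P hP0 le_rfl S
      (fun r => ((r.den : ℤ) : ZMod (p i))) (fun r => (r.num : ZMod (p i)))
      (by
        intro r hr r' hr' hne h
        refine hdist i r hr r' hr' hne ?_
        rw [← ZMod.intCast_zmod_eq_zero_iff_dvd]
        push_cast at h ⊢
        exact h)
    classical
    have h5 : ∀ r ∈ S, min (Real.log (mult (modulus p i) (modulus p (i + 1)) r A a))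
        (Real.log T) ≤ lam * Real.log S.card + if r ∈ E then Real.log S.card else 0 := by
      intro r hr
      split_ifs with hrE
      · have : 0 ≤ lam * Real.log S.card := by positivity
        have h7 := (min_le_right (Real.log (mult (modulus p i) (modulus p (i + 1)) r A a : ℝ))
          (Real.log T)).trans hlTK
        linarith
      · rw [add_zero]
        refine (min_le_left _ _).trans ?_
        have h6 := mult_curve (modulus p i) (p i) (hmod0 i) A a r P.totalDegree P hP
          (hE r hr hrE)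
        rw [← hmod] at h6
        have h7 : (mult (modulus p i) (modulus p (i + 1)) r A a : ℝ) ≤ (S.card : ℝ) ^ lam :=
          (by exact_mod_cast h6 : (mult (modulus p i) (modulus p (i + 1)) r A a : ℝ) ≤
            P.totalDegree).trans hPd
        have h8 := Real.log_le_log (by linarith [hx r hr]) h7
        rwa [Real.log_rpow hK0] at h8
    refine (sum_le_sum h5).trans ?_
    rw [sum_add_distrib, sum_const, nsmul_eq_mul, ← sum_filter, sum_const, nsmul_eq_mul]
    have h6 : ((S.filter fun r => r ∈ E).card : ℝ) ≤ η * S.card := by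
      have h7 : (S.filter fun r => r ∈ E).card ≤ P.totalDegree + 1 := by
        refine le_trans (card_le_card fun r hr => ?_) hEc
        exact (mem_filter.1 hr).2
      have h8 : ((S.filter fun r => r ∈ E).card : ℝ) ≤ (P.totalDegree : ℝ) + 1 := by
        exact_mod_cast h7
      have h9 : (S.card : ℝ) ^ lam ≤ √(S.card : ℝ) := by
        rw [Real.sqrt_eq_rpow]
        exact Real.rpow_le_rpow_of_exponent_le hK1 hlam1
      linarith
    have h7 := mul_le_mul_of_nonneg_right h6 hlK.le
    nlinarith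

/-- the mean over `a ∈ A` of the sum over the levels `i < n` of `l_i(a)` times the exponent of the node
of `a` -/
noncomputable def cost (p : ℕ → ℕ) (n : ℕ) (A : Finset (ℤ × ℤ)) (lam : ℕ → ℤ × ℤ → ℝ) : ℝ :=
  (∑ a ∈ A, ∑ i ∈ range n, Real.log ((cls (modulus p i) A a).card /
    (cls (modulus p (i + 1)) A a).card) * lam i a) / A.card

theorem params2 (ε' : ℝ) (h0 : 0 < ε') (h1 : ε' ≤ 1 / 4) : ∃ K₀ : ℕ, 2 ≤ K₀ ∧
    ∀ K : ℕ, K₀ ≤ K → ∃ T : ℝ, 1 < T ∧ T ≤ K ∧ T / K ≤ ε' / 4 ∧
      Real.log T = (1 - ε' / 4) * Real.log K ∧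
      Real.log 2 ≤ ε' / 4 * Real.log K ∧ √(K : ℝ) + 1 ≤ ε' / 4 * K := by
  have t1 : Filter.Tendsto (fun K : ℕ => Real.log (K : ℝ)) Filter.atTop Filter.atTop :=
    Real.tendsto_log_atTop.comp tendsto_natCast_atTop_atTop
  have t2 : Filter.Tendsto (fun K : ℕ => √(K : ℝ)) Filter.atTop Filter.atTop :=
    Real.tendsto_sqrt_atTop.comp tendsto_natCast_atTop_atTop
  have e1 := t1.eventually_ge_atTop (4 * Real.log 2 / ε' + 4 * Real.log (4 / ε') / ε')
  have e2 := t2.eventually_ge_atTop (8 / ε' + 1)
  obtain ⟨K₀, hK₀⟩ := Filter.eventually_atTop.1 (e1.and e2)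
  refine ⟨max K₀ 2, le_max_right _ _, fun K hK => ?_⟩
  obtain ⟨h2, h3⟩ := hK₀ K ((le_max_left _ _).trans hK)
  have hK2 : (2:ℝ) ≤ K := by exact_mod_cast (le_max_right K₀ 2).trans hK
  have hK0 : (0:ℝ) < K := by linarith
  have hlK : 0 < Real.log (K : ℝ) := Real.log_pos (by linarith)
  have hs0 : 0 < √(K : ℝ) := Real.sqrt_pos.2 hK0
  have hss : √(K : ℝ) * √(K : ℝ) = K := Real.mul_self_sqrt hK0.le
  have hl4 : 0 ≤ Real.log (4 / ε') := Real.log_nonneg (by
    rw [le_div_iff₀ h0]
    linarith)
  have hl2 : 0 < Real.log 2 := Real.log_pos (by norm_num)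
  have p1 : 0 ≤ 4 * Real.log 2 / ε' := by positivity
  have p2 : 0 ≤ 4 * Real.log (4 / ε') / ε' := by positivity
  refine ⟨(K : ℝ) ^ (1 - ε' / 4), Real.one_lt_rpow (by linarith) (by linarith), ?_, ?_,
    Real.log_rpow hK0 _, ?_, ?_⟩
  · calc (K : ℝ) ^ (1 - ε' / 4) ≤ (K : ℝ) ^ (1 : ℝ) :=
        Real.rpow_le_rpow_of_exponent_le (by linarith) (by linarith)
      _ = K := Real.rpow_one _
  · rw [Real.rpow_sub hK0, Real.rpow_one]
    have h4 : 4 / ε' ≤ (K : ℝ) ^ (ε' / 4) := by
      rw [← Real.log_le_log_iff (by positivity) (by positivity), Real.log_rpow hK0]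
      have h5 : 4 * Real.log (4 / ε') / ε' ≤ Real.log K := by linarith
      rw [div_le_iff₀ h0] at h5
      linarith
    have h5 : (K : ℝ) / (K : ℝ) ^ (ε' / 4) / K = 1 / (K : ℝ) ^ (ε' / 4) := by
      field_simp
    rw [h5, div_le_iff₀ (by positivity)]
    have h6 := mul_le_mul_of_nonneg_left h4 (by positivity : 0 ≤ ε' / 4)
    have h7 : ε' / 4 * (4 / ε') = 1 := by field_simp
    linarith
  · have h5 : 4 * Real.log 2 / ε' ≤ Real.log K := by linarith
    rw [div_le_iff₀ h0] at h5
    linarith
  · have h4 : 8 / ε' ≤ √(K : ℝ) := by linarith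
    have h5 : 1 ≤ √(K : ℝ) := by
      have : 0 < 8 / ε' := by positivity
      linarith
    rw [div_le_iff₀ h0] at h4
    nlinarith

/-- **The interpolation theorem.** -/
theorem interpolation (ε : ℝ) (hε : 0 < ε) : ∃ K₀ : ℕ, ∀ S : Finset ℚ, K₀ ≤ S.card →
    ∀ p : ℕ → ℕ, (∀ i, (p i).Prime) → (∀ i, ∀ r ∈ S, ∀ r' ∈ S, r ≠ r' →
      ¬ (p i : ℤ) ∣ (r.den : ℤ) * r'.num - r'.den * r.num) →
    ∀ (A : Finset (ℤ × ℤ)) (n : ℕ), (∀ a ∈ A, ∀ b ∈ A, (modulus p n : ℤ) ∣ b.1 - a.1 →
      (modulus p n : ℤ) ∣ b.2 - a.2 → b = a) →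
    ∀ lam : ℕ → ℤ × ℤ → ℝ, (∀ i < n, ∀ a ∈ A, 0 ≤ lam i a ∧ lam i a ≤ 1 / 2) →
      (∀ i < n, ∀ a ∈ A, ∀ b ∈ cls (modulus p i) A a, lam i b = lam i a) →
      (∀ i < n, ∀ a ∈ A, lam i a = 1 / 2 ∨ HasExponent (lam i a) S p i A a) →
    ∀ θ : ℝ, 0 ≤ θ → θ ≤ 1 / 2 → cost p n A lam ≤ θ * Real.log A.card →
      (A.card : ℝ) ≤ ((S.sup fun r => (proj r A).card : ℕ) : ℝ) ^ (1 / (1 - θ) + ε) := by
  set ε' : ℝ := min (ε / 8) (1 / 4) with hε'
  have hε'0 : 0 < ε' := lt_min (by positivity) (by norm_num)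
  have hε'1 : ε' ≤ 1 / 4 := min_le_right _ _
  have hε'2 : ε' ≤ ε / 8 := min_le_left _ _
  obtain ⟨K₀, hK₀2, hpar⟩ := params2 ε' hε'0 hε'1
  refine ⟨K₀, fun S hS p hp hdist A n hn lam hl01 hlc hlt θ hθ0 hθ1 hcost => ?_⟩
  obtain ⟨T, hT1, hTK, hTK2, hlogT, hη1, hη2⟩ := hpar S.card hS
  have hS2 : 2 ≤ S.card := hK₀2.trans hS
  have hpow0 : 0 < 1 / (1 - θ) + ε := by
    have : 0 < 1 - θ := by linarith
    positivity
  rcases A.eq_empty_or_nonempty with rfl | hAne
  · simp only [card_empty, Nat.cast_zero]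
    positivity
  have hSne : S.Nonempty := card_pos.1 (by omega)
  have hK2 : (2:ℝ) ≤ S.card := by exact_mod_cast hS2
  have hK0 : (0:ℝ) < S.card := by linarith
  have hlK : 0 < Real.log S.card := Real.log_pos (by linarith)
  have hmod : ∀ i, modulus p (i + 1) = modulus p i * p i := fun i => by
    unfold modulus
    rw [prod_range_succ]
  have hmoddvd : ∀ i, modulus p i ∣ modulus p (i + 1) := fun i => ⟨p i, hmod i⟩
  have hcop : ∀ i, ∀ r ∈ S, ∀ r' ∈ S, r ≠ r' →
      IsCoprime ((r.den : ℤ) * r'.num - r'.den * r.num) (modulus p i : ℤ) := by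
    intro i r hr r' hr' hne
    unfold modulus
    push_cast
    refine IsCoprime.prod_right fun j _ => ?_
    exact ((Nat.prime_iff_prime_int.1 (hp j)).coprime_iff_not_dvd.2
      (hdist j r hr r' hr' hne)).symm
  have hN : (0:ℝ) < A.card := by exact_mod_cast card_pos.2 hAne
  have hN1 : (1:ℝ) ≤ A.card := by exact_mod_cast card_pos.2 hAne
  have hlN : 0 ≤ Real.log A.card := Real.log_nonneg hN1
  obtain ⟨r, hr, h1⟩ := int_main2 S hS2 n (modulus p) (by unfold modulus; simp)
    (fun i _ => hmoddvd i) (fun i _ r hr r' hr' hne => hcop (i + 1) r hr r' hr' hne)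
    A hAne hn T hT1 (fun i a => lam i a + ε' / 2)
    (fun i hi a ha b hb => by simp only [hlc i hi a ha b hb])
    (by
      intro i hi a ha
      obtain ⟨hl0, hl1⟩ := hl01 i hi a ha
      rcases hlt i hi a ha with h2 | h2
      · left
        linarith
      · right
        refine (exponent_bound S hS2 p hp hdist A a ha i (lam i a) (ε' / 4) T hl0 hl1 hT1 hTK
          hη1 hη2 h2).trans ?_
        rw [hlogT]
        have h3 : lam i a + ε' / 4 ≤ (lam i a + ε' / 2) * (1 - ε' / 4) := by
          nlinarith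
        calc (S.card : ℝ) * (lam i a + ε' / 4) * Real.log S.card ≤
            S.card * ((lam i a + ε' / 2) * (1 - ε' / 4)) * Real.log S.card :=
              mul_le_mul_of_nonneg_right (mul_le_mul_of_nonneg_left h3 hK0.le) hlK.le
          _ = _ := by ring)
  have hcpos : ∀ a ∈ A, ∀ q : ℕ, (0:ℝ) < (cls q A a).card := by
    intro a ha q
    have : 0 < (cls q A a).card := by
      refine card_pos.2 ⟨a, ?_⟩
      unfold cls
      rw [mem_filter]
      simp [ha]
    exact_mod_cast this
  -- the cost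
  have h2 : (∑ a ∈ A, ∑ i ∈ range n, (Real.log (cls (modulus p i) A a).card -
        Real.log (cls (modulus p (i + 1)) A a).card) * (lam i a + ε' / 2)) / A.card =
      cost p n A lam + ε' / 2 * Real.log A.card := by
    unfold cost
    have h3 : ∀ a ∈ A, ∑ i ∈ range n, (Real.log (cls (modulus p i) A a).card -
        Real.log (cls (modulus p (i + 1)) A a).card) * (lam i a + ε' / 2) =
        ∑ i ∈ range n, Real.log ((cls (modulus p i) A a).card /
          (cls (modulus p (i + 1)) A a).card) * lam i a + Real.log A.card * (ε' / 2) := by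
      intro a ha
      have h4 : ∑ i ∈ range n, (Real.log (cls (modulus p i) A a).card -
          Real.log (cls (modulus p (i + 1)) A a).card) = Real.log A.card := by
        rw [sum_range_sub' (fun i => Real.log ((cls (modulus p i) A a).card : ℝ)) n]
        have h5 : cls (modulus p 0) A a = A := by
          unfold cls modulus
          rw [filter_true_of_mem]
          intro b _
          simp
        have h6 : cls (modulus p n) A a = {a} := by
          ext b
          unfold cls
          rw [mem_filter, mem_singleton]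
          constructor
          · rintro ⟨hb, h3, h4⟩
            exact hn a ha b hb h3 h4
          · rintro rfl
            simp [ha]
        rw [h5, h6, card_singleton, Nat.cast_one, Real.log_one, sub_zero]
      rw [← h4, sum_mul, ← sum_add_distrib]
      refine sum_congr rfl fun i _ => ?_
      rw [Real.log_div (hcpos a ha _).ne' (hcpos a ha _).ne']
      ring
    rw [sum_congr rfl h3, sum_add_distrib, sum_const, nsmul_eq_mul, add_div]
    congr 1
    field_simp
  rw [h2] at h1
  set M : ℕ := S.sup fun r => (proj r A).card with hM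
  have hMr : (proj r A).card ≤ M := le_sup (f := fun r => (proj r A).card) hr
  have hpr : (1:ℝ) ≤ (proj r A).card := by
    have : 0 < (proj r A).card := card_pos.2 (hAne.image _)
    exact_mod_cast this
  have hM1 : (1:ℝ) ≤ M := hpr.trans (by exact_mod_cast hMr)
  have hM0 : (0:ℝ) < M := by linarith
  have hlM : 0 ≤ Real.log M := Real.log_nonneg hM1
  have h3 : Real.log (proj r A).card ≤ Real.log M :=
    Real.log_le_log (by linarith) (by exact_mod_cast hMr)
  have h4 : (1 - ε' - θ) * Real.log A.card ≤ Real.log M := by nlinarith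
  have h5 : 0 < 1 - ε' - θ := by linarith
  have h6 : Real.log A.card ≤ (1 / (1 - θ) + ε) * Real.log M := by
    have h7 : Real.log A.card ≤ Real.log M / (1 - ε' - θ) := by
      rw [le_div_iff₀ h5]
      linarith
    refine h7.trans ?_
    rw [div_eq_mul_inv, mul_comm]
    refine mul_le_mul_of_nonneg_right ?_ hlM
    have h8 : 0 < 1 - θ := by linarith
    rw [inv_le_iff_one_le_mul₀ h5]
    have h9 : (1 / (1 - θ) + ε) * (1 - ε' - θ) = 1 - ε' / (1 - θ) + ε * (1 - ε' - θ) := by
      field_simp
      ring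
    rw [h9]
    have h10 : ε' / (1 - θ) ≤ 2 * ε' := by
      rw [div_le_iff₀ h8]
      nlinarith
    nlinarith
  rw [← Real.log_le_log_iff hN (by positivity), Real.log_rpow hM0]
  exact h6

end Pool.Agent.V7H74.AK
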