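import Pool.Agent.V7H74.AKNode

set_option autoImplicit false

/-!
# The sharp inequality at one node

If for every value of `z` all but at most `κ K` of the `K` functions `w r` have at most `K ^ λ` values
of `z` on the fibre, then `∑ r, H(z | w r)` is at most
`K (λ / (1 + λ) + κ + T / K + (log 2 + log B + 1 / B) / log T) H(z)` for all `B, T > 1`.
-/

open Finset

namespace Pool.Agent.V7H74.AK

open Pool.Agent.N269.PF

variable {α σ ζ β : Type*}

theorem log_mean (S : Finset σ) (hS : S.Nonempty) (x : σ → ℝ) (hx : ∀ r ∈ S, 1 ≤ x r) (X : ℝ)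
    (hX : ∑ r ∈ S, (x r - 1) ≤ X) (hX0 : 0 ≤ X) :
    ∑ r ∈ S, Real.log (x r) ≤ S.card * Real.log (1 + X / S.card) := by
  have hK0 : (0:ℝ) < S.card := by exact_mod_cast card_pos.2 hS
  set c : ℝ := 1 + X / S.card with hc
  have hc0 : 0 < c := by positivity
  have h1 : ∀ r ∈ S, Real.log (x r) ≤ (x r / c - 1) + Real.log c := by
    intro r hr
    have hx0 : 0 < x r := by linarith [hx r hr]
    have h3 := Real.log_le_sub_one_of_pos (div_pos hx0 hc0)
    rw [Real.log_div hx0.ne' hc0.ne'] at h3
    linarith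
  refine (sum_le_sum h1).trans ?_
  rw [sum_add_distrib, sum_sub_distrib, ← sum_div, sum_const, sum_const, nsmul_eq_mul,
    nsmul_eq_mul, mul_one]
  have h4 : (∑ r ∈ S, x r) / c ≤ S.card := by
    rw [div_le_iff₀ hc0, hc, mul_add, mul_one, mul_div_cancel₀ _ hK0.ne']
    rw [sum_sub_distrib, sum_const, nsmul_eq_mul, mul_one] at hX
    linarith
  linarith

theorem node2 (Ω : Finset α) (z : α → ζ) (S : Finset σ) (hS : S.Nonempty) (w : σ → α → β)
    (hz : ∀ r ∈ S, ∀ ω ω', z ω = z ω' → w r ω = w r ω')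
    (hpair : ∀ ω ∈ Ω, ∀ ω' ∈ Ω, ∀ r ∈ S, ∀ r' ∈ S, r ≠ r' → w r ω' = w r ω →
      w r' ω' = w r' ω → z ω' = z ω) (T B lam κ : ℝ) (hT : 1 < T) (hB : 1 < B) (hlam : 0 ≤ lam)
    (hcond : ∀ ω ∈ Ω, ((S.filter fun r => (S.card : ℝ) ^ lam < num Ω z (w r) ω).card : ℝ) ≤
      κ * S.card) :
    ∑ r ∈ S, (L Ω (w r) - L Ω z) ≤
      (T + S.card * (lam / (1 + lam) + κ + (Real.log 2 + Real.log B + 1 / B) / Real.log T)) *
        (Ω.card * Real.log Ω.card - L Ω z) := by
  classical
  have hlT : 0 < Real.log T := Real.log_pos hT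
  have hT0 : 0 < T := by linarith
  have hB0 : 0 < B := by linarith
  have hlB : 0 < Real.log B := Real.log_pos hB
  have hl2 : 0 < Real.log 2 := Real.log_pos (by norm_num)
  set K : ℝ := (S.card : ℝ) with hK
  have hK1 : (1:ℝ) ≤ K := by
    rw [hK]
    exact_mod_cast card_pos.2 hS
  have hK0 : 0 < K := by linarith
  have hlK : 0 ≤ Real.log K := Real.log_nonneg hK1
  set f : ℝ := lam / (1 + lam) with hf
  have hf0 : 0 ≤ f := by positivity
  have hf1 : f * (1 + lam) = lam := by
    rw [hf]
    field_simp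
  set N : ℝ := (Ω.card : ℝ) with hN
  set γ : α → ℝ := fun ω => fib Ω z ω with hγ
  set φ : σ → α → ℝ := fun r ω => fib Ω (w r) ω with hφ
  set l : α → ℝ := fun ω => Real.log N - Real.log (γ ω) with hl
  have hγ0 : ∀ ω ∈ Ω, 0 < γ ω := fun ω hω => fib_pos z hω
  have hγφ : ∀ r ∈ S, ∀ ω ∈ Ω, γ ω ≤ φ r ω := fun r hr ω _ =>
    fib_mono fun ω' h => hz r hr _ _ h
  have hφN : ∀ r ∈ S, ∀ ω ∈ Ω, φ r ω ≤ N := fun r _ ω _ => fib_le_card _ _ _
  have hφ0 : ∀ r ∈ S, ∀ ω ∈ Ω, 0 < φ r ω := fun r hr ω hω => (hγ0 ω hω).trans_le (hγφ r hr ω hω)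
  have hγN : ∀ ω ∈ Ω, γ ω ≤ N := fun ω _ => fib_le_card _ _ _
  have hN0 : ∀ ω ∈ Ω, 0 < N := fun ω hω => (hγ0 ω hω).trans_le (hγN ω hω)
  have hl0 : ∀ ω ∈ Ω, 0 ≤ l ω := fun ω hω =>
    sub_nonneg.2 (Real.log_le_log (hγ0 ω hω) (hγN ω hω))
  have hsum : ∀ ω ∈ Ω, ∑ r ∈ S, (φ r ω - γ ω) ≤ N - γ ω := fun ω hω =>
    sum_diff Ω z S w hz hpair hω
  set Lt : Finset α := Ω.filter fun ω => T * γ ω < N with hLt
  set Hv : Finset α := Ω.filter fun ω => ¬ T * γ ω < N with hHv
  have hLtΩ : ∀ ω ∈ Lt, ω ∈ Ω := fun ω hω => (mem_filter.1 hω).1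
  have goal1 : ∑ r ∈ S, (L Ω (w r) - L Ω z) =
      ∑ ω ∈ Lt, ∑ r ∈ S, (Real.log (φ r ω) - Real.log (γ ω)) +
      ∑ ω ∈ Hv, ∑ r ∈ S, (Real.log (φ r ω) - Real.log (γ ω)) := by
    rw [hLt, hHv, sum_filter_add_sum_filter_not, sum_comm]
    refine sum_congr rfl fun r _ => ?_
    unfold L
    rw [sum_sub_distrib]
  have goal2 : Ω.card * Real.log Ω.card - L Ω z = ∑ ω ∈ Lt, l ω + ∑ ω ∈ Hv, l ω := by
    rw [hLt, hHv, sum_filter_add_sum_filter_not, hl, sum_sub_distrib, sum_const, nsmul_eq_mul]
    unfold L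
    rfl
  -- heavy points
  have heavy : ∀ ω ∈ Hv, ∑ r ∈ S, (Real.log (φ r ω) - Real.log (γ ω)) ≤ T * l ω := by
    intro ω hω
    rw [hHv, mem_filter] at hω
    obtain ⟨hω, hh⟩ := hω
    have g0 := hγ0 ω hω
    have n0 := hN0 ω hω
    have h1 : ∀ r ∈ S, Real.log (φ r ω) - Real.log (γ ω) ≤ (φ r ω - γ ω) / γ ω := by
      intro r hr
      have h2 := Real.log_le_sub_one_of_pos (div_pos (hφ0 r hr ω hω) g0)
      rw [Real.log_div (hφ0 r hr ω hω).ne' g0.ne'] at h2
      rw [sub_div, div_self g0.ne']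
      exact h2
    refine (sum_le_sum h1).trans ?_
    rw [← sum_div]
    have h3 : (∑ r ∈ S, (φ r ω - γ ω)) / γ ω ≤ (N - γ ω) / γ ω :=
      div_le_div_of_nonneg_right (hsum ω hω) g0.le
    refine h3.trans ?_
    have h4 := Real.one_sub_inv_le_log_of_pos (div_pos n0 g0)
    rw [Real.log_div n0.ne' g0.ne', inv_div] at h4
    have h5 : (N - γ ω) / γ ω = (N / γ ω) * (1 - γ ω / N) := by
      field_simp
    rw [h5]
    have h6 : N / γ ω ≤ T := by
      rw [div_le_iff₀ g0]
      exact not_lt.1 hh
    calc (N / γ ω) * (1 - γ ω / N) ≤ (N / γ ω) * l ω :=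
          mul_le_mul_of_nonneg_left h4 (div_pos n0 g0).le
      _ ≤ T * l ω := mul_le_mul_of_nonneg_right h6 (hl0 ω hω)
  -- light points
  set h : σ → α → ℝ := fun r ω => ((Hv.filter fun ω' => w r ω' = w r ω).card : ℝ) with hh
  set g : σ → α → ℝ := fun r ω => ((Lt.filter fun ω' => w r ω' = w r ω).card : ℝ) with hg
  have hφgh : ∀ r ω, φ r ω = g r ω + h r ω := by
    intro r ω
    have h1 := card_filter_add_card_filter_not (s := Ω.filter fun ω' => w r ω' = w r ω)
      (fun ω' => T * γ ω' < N)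
    rw [hφ, hg, hh, hLt, hHv]
    simp only
    unfold fib
    rw [← h1, filter_filter, filter_filter, filter_filter, filter_filter]
    push_cast
    congr 3 <;>
    · ext ω'
      simp only [mem_filter]
      tauto
  have hh0 : ∀ r ω, (0:ℝ) ≤ h r ω := fun _ _ => Nat.cast_nonneg _
  have hltl : ∀ ω ∈ Lt, Real.log T ≤ l ω := by
    intro ω hω
    rw [hLt, mem_filter] at hω
    have h1 := Real.log_le_log (mul_pos hT0 (hγ0 ω hω.1)) hω.2.le
    rw [Real.log_mul hT0.ne' (hγ0 ω hω.1).ne'] at h1
    rw [hl]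
    simp only
    linarith
  have hclass : ∀ r ∈ S, ∀ ω ∈ Lt, γ ω ≤ g r ω := by
    intro r hr ω hω
    rw [hLt, mem_filter] at hω
    rw [hγ, hg]
    simp only
    unfold fib
    have : (Ω.filter fun ω' => z ω' = z ω).card ≤ (Lt.filter fun ω' => w r ω' = w r ω).card := by
      refine card_le_card fun ω' h' => ?_
      rw [mem_filter] at h'
      rw [mem_filter, hLt, mem_filter]
      refine ⟨⟨h'.1, ?_⟩, hz r hr _ _ h'.2⟩
      have : γ ω' = γ ω := fib_congr h'.2
      rw [this]
      exact hω.2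
    exact_mod_cast this
  have light1 : ∀ ω ∈ Lt, ∑ r ∈ S, (Real.log (γ ω + h r ω) - Real.log (γ ω)) ≤ T * l ω := by
    intro ω hω
    have hωΩ : ω ∈ Ω := (mem_filter.1 hω).1
    have g0 := hγ0 ω hωΩ
    have n0 := hN0 ω hωΩ
    have h1 : ∀ r ∈ S, Real.log (γ ω + h r ω) - Real.log (γ ω) ≤ (h r ω * T / N) * l ω := by
      intro r hr
      by_cases hem : (Hv.filter fun ω' => w r ω' = w r ω) = ∅
      · have : h r ω = 0 := by
          rw [hh]
          simp only
          rw [hem, card_empty, Nat.cast_zero]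
        rw [this]
        simp
      · obtain ⟨ω', hω'⟩ := nonempty_iff_ne_empty.2 hem
        rw [mem_filter, hHv, mem_filter] at hω'
        obtain ⟨⟨hω'Ω, hheavy⟩, hw⟩ := hω'
        have h2 : γ ω' ≤ h r ω := by
          rw [hγ, hh]
          simp only
          unfold fib
          have : (Ω.filter fun ω'' => z ω'' = z ω').card ≤
              (Hv.filter fun ω'' => w r ω'' = w r ω).card := by
            refine card_le_card fun ω'' h' => ?_
            rw [mem_filter] at h'
            rw [mem_filter, hHv, mem_filter]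
            refine ⟨⟨h'.1, ?_⟩, (hz r hr _ _ h'.2).trans hw⟩
            have : γ ω'' = γ ω' := fib_congr h'.2
            rw [this]
            exact hheavy
          exact_mod_cast this
        have h3 : 1 ≤ h r ω * T / N := by
          rw [le_div_iff₀ n0, one_mul]
          have := not_lt.1 hheavy
          nlinarith
        have h4 : γ ω + h r ω ≤ N := by
          have h5 := hclass r hr ω hω
          have h6 := hφgh r ω
          have h7 := hφN r hr ω hωΩ
          linarith
        have h5 : Real.log (γ ω + h r ω) ≤ Real.log N := by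
          refine Real.log_le_log ?_ h4
          have := hh0 r ω
          linarith
        calc Real.log (γ ω + h r ω) - Real.log (γ ω) ≤ l ω := by
              rw [hl]
              simp only
              linarith
          _ = 1 * l ω := (one_mul _).symm
          _ ≤ _ := mul_le_mul_of_nonneg_right h3 (hl0 ω hωΩ)
    refine (sum_le_sum h1).trans ?_
    rw [← sum_mul, ← sum_div, ← sum_mul]
    refine mul_le_mul_of_nonneg_right ?_ (hl0 ω hωΩ)
    rw [div_le_iff₀ n0, mul_comm]
    refine mul_le_mul_of_nonneg_left ?_ hT0.le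
    have h2 : ∑ r ∈ S, h r ω ≤ ∑ r ∈ S, (φ r ω - γ ω) := by
      refine sum_le_sum fun r hr => ?_
      rw [hφgh r ω]
      have := hclass r hr ω hω
      linarith
    have := hsum ω hωΩ
    linarith
  -- the light part of a light fibre
  set x : σ → α → ℝ := fun r ω => Real.log (g r ω) - Real.log (γ ω) with hx
  set C : ℝ := lam * Real.log K + Real.log B with hC
  set e : σ → α → ℝ := fun r ω =>
    if (num Ω z (w r) ω : ℝ) ≤ K ^ lam then max (x r ω - C) 0 else 0 with he
  have hx0 : ∀ r ∈ S, ∀ ω ∈ Lt, 0 ≤ x r ω := fun r hr ω hω =>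
    sub_nonneg.2 (Real.log_le_log (hγ0 ω (hLtΩ ω hω)) (hclass r hr ω hω))
  -- the mean over the slopes
  have hxsum : ∀ ω ∈ Lt, ∑ r ∈ S, x r ω ≤ K * (Real.log 2 + max (l ω - Real.log K) 0) := by
    intro ω hω
    have hωΩ := hLtΩ ω hω
    have g0 := hγ0 ω hωΩ
    have n0 := hN0 ω hωΩ
    have h1 := log_mean S hS (fun r => g r ω / γ ω)
      (fun r hr => by
        rw [le_div_iff₀ g0, one_mul]
        exact hclass r hr ω hω) (N / γ ω) (by
        have h2 : ∀ r ∈ S, g r ω / γ ω - 1 ≤ (φ r ω - γ ω) / γ ω := by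
          intro r _
          rw [sub_div, div_self g0.ne', hφgh r ω]
          have : g r ω / γ ω ≤ (g r ω + h r ω) / γ ω :=
            div_le_div_of_nonneg_right (by linarith [hh0 r ω]) g0.le
          linarith
        refine (sum_le_sum h2).trans ?_
        rw [← sum_div]
        exact div_le_div_of_nonneg_right ((hsum ω hωΩ).trans (by linarith)) g0.le)
        (div_pos n0 g0).le
    have h2 : ∑ r ∈ S, x r ω = ∑ r ∈ S, Real.log (g r ω / γ ω) := by
      refine sum_congr rfl fun r hr => ?_
      rw [hx, Real.log_div (g0.trans_le (hclass r hr ω hω)).ne' g0.ne']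
    rw [h2]
    refine h1.trans (mul_le_mul_of_nonneg_left ?_ hK0.le)
    have h3 : 0 < N / γ ω / K := by positivity
    have h4 : 1 + N / γ ω / K ≤ 2 * max (N / γ ω / K) 1 := by
      have h5 := le_max_left (N / γ ω / K) 1
      have h6 := le_max_right (N / γ ω / K) 1
      linarith
    refine (Real.log_le_log (by linarith) h4).trans ?_
    rw [Real.log_mul (by norm_num) (by positivity)]
    have h5 : Real.log (max (N / γ ω / K) 1) ≤ max (l ω - Real.log K) 0 := by
      rcases le_total (N / γ ω / K) 1 with h6 | h6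
      · rw [max_eq_right h6, Real.log_one]
        exact le_max_right _ _
      · rw [max_eq_left h6, Real.log_div (div_pos n0 g0).ne' hK0.ne',
          Real.log_div n0.ne' g0.ne']
        exact le_max_left _ _
    linarith
  -- the truncated sum
  have htrunc : ∀ ω ∈ Lt, ∀ R ⊆ S, (∀ r ∈ R, (num Ω z (w r) ω : ℝ) ≤ K ^ lam) →
      ∑ r ∈ R, x r ω ≤ K * (f * l ω + Real.log 2 + Real.log B) + ∑ r ∈ R, e r ω := by
    intro ω hω R hR hRn
    have hωΩ := hLtΩ ω hω
    have hl0' := hl0 ω hωΩ
    have he0 : ∀ r ∈ R, 0 ≤ e r ω := by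
      intro r hr
      rw [he]
      simp only
      rw [if_pos (hRn r hr)]
      exact le_max_right _ _
    rcases le_total (l ω) ((1 + lam) * Real.log K) with hcase | hcase
    · have h1 : ∑ r ∈ R, x r ω ≤ ∑ r ∈ S, x r ω :=
        sum_le_sum_of_subset_of_nonneg hR fun r hr _ => hx0 r hr ω hω
      have h2 : max (l ω - Real.log K) 0 ≤ f * l ω := by
        refine max_le ?_ (mul_nonneg hf0 hl0')
        have h3 : (1 - f) * (1 + lam) = 1 := by
          rw [sub_mul, one_mul, hf1]
          ring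
        have hf2 : 0 ≤ 1 - f := by
          by_contra hneg
          have : (1 - f) * (1 + lam) < 0 := mul_neg_of_neg_of_pos (not_le.1 hneg) (by linarith)
          linarith
        have h4 : (1 - f) * l ω ≤ Real.log K := by
          calc (1 - f) * l ω ≤ (1 - f) * ((1 + lam) * Real.log K) :=
                mul_le_mul_of_nonneg_left hcase hf2
            _ = Real.log K := by rw [← mul_assoc, h3, one_mul]
        linarith
      have h3 := hxsum ω hω
      have h4 : 0 ≤ ∑ r ∈ R, e r ω := sum_nonneg he0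
      have h5 : K * (Real.log 2 + max (l ω - Real.log K) 0) ≤
          K * (f * l ω + Real.log 2 + Real.log B) :=
        mul_le_mul_of_nonneg_left (by linarith) hK0.le
      linarith
    · have h1 : ∀ r ∈ R, x r ω ≤ C + e r ω := by
        intro r hr
        rw [he]
        simp only
        rw [if_pos (hRn r hr)]
        have := le_max_left (x r ω - C) 0
        linarith
      have h2 : C ≤ f * l ω + Real.log 2 + Real.log B := by
        have h3 : lam * Real.log K ≤ f * l ω := by
          calc lam * Real.log K = f * ((1 + lam) * Real.log K) := by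
                rw [← mul_assoc, hf1]
            _ ≤ f * l ω := mul_le_mul_of_nonneg_left hcase hf0
        rw [hC]
        linarith
      have h3 : 0 ≤ f * l ω + Real.log 2 + Real.log B := by positivity
      refine (sum_le_sum h1).trans ?_
      rw [sum_add_distrib, sum_const, nsmul_eq_mul]
      have h4 : (R.card : ℝ) * C ≤ K * (f * l ω + Real.log 2 + Real.log B) := by
        calc (R.card : ℝ) * C ≤ R.card * (f * l ω + Real.log 2 + Real.log B) :=
              mul_le_mul_of_nonneg_left h2 (Nat.cast_nonneg _)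
          _ ≤ K * (f * l ω + Real.log 2 + Real.log B) :=
              mul_le_mul_of_nonneg_right (by rw [hK]; exact_mod_cast card_le_card hR) h3
      linarith
  -- the excess
  have hexc : ∀ r ∈ S, ∑ ω ∈ Lt, e r ω ≤ Lt.card / B := by
    intro r hr
    rw [← sum_fiberwise_of_maps_to (s := Lt) (t := Lt.image (w r)) (g := w r)
      (fun ω hω => mem_image_of_mem _ hω)]
    have hcard : (Lt.card : ℝ) = ∑ v ∈ Lt.image (w r),
        ((Lt.filter fun ω => w r ω = v).card : ℝ) := by
      rw [← Nat.cast_sum]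
      exact_mod_cast card_eq_sum_card_fiberwise (fun ω hω => mem_image_of_mem (w r) hω)
    rw [hcard, sum_div]
    refine sum_le_sum fun v hv => ?_
    obtain ⟨ω₀, hω₀, rfl⟩ := mem_image.1 hv
    set G : Finset α := Lt.filter fun ω => w r ω = w r ω₀ with hG
    have hGL : ∀ ω ∈ G, ω ∈ Lt := fun ω hω => (mem_filter.1 hω).1
    have hGΩ : ∀ ω ∈ G, ω ∈ Ω := fun ω hω => (mem_filter.1 (hGL ω hω)).1
    have hGw : ∀ ω ∈ G, w r ω = w r ω₀ := fun ω hω => (mem_filter.1 hω).2
    have hnn : ∀ ω ∈ G, num Ω z (w r) ω = num Ω z (w r) ω₀ := fun ω hω => num_congr z (hGw ω hω)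
    by_cases hbig : (num Ω z (w r) ω₀ : ℝ) ≤ K ^ lam
    · have hgG : ∀ ω ∈ G, g r ω = G.card := by
        intro ω hω
        rw [hg, hG]
        simp only
        rw [hGw ω hω]
      have hfG : ∀ ω ∈ G, fib G z ω = γ ω := by
        intro ω hω
        rw [hγ]
        simp only
        unfold fib
        congr 2
        ext ω'
        simp only [hG, hLt, mem_filter]
        constructor
        · rintro ⟨⟨⟨h1, h2⟩, h3⟩, h4⟩
          exact ⟨h1, h4⟩
        · rintro ⟨h1, h4⟩
          have h5 : γ ω' = γ ω := fib_congr h4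
          have h6 := (mem_filter.1 (hGL ω hω)).2
          refine ⟨⟨⟨h1, ?_⟩, (hz r hr _ _ h4).trans (hGw ω hω)⟩, h4⟩
          rw [h5]
          exact h6
      have hKl : 0 < K ^ lam := by positivity
      have h1 : ∀ ω ∈ G, e r ω ≤ (G.card / (K ^ lam * B)) * (fib G z ω)⁻¹ := by
        intro ω hω
        have g0 := hγ0 ω (hGΩ ω hω)
        have c1 := hclass r hr ω (hGL ω hω)
        rw [hgG ω hω] at c1
        have c2 : (0:ℝ) < G.card := g0.trans_le c1
        rw [he]
        simp only
        rw [hnn ω hω, if_pos hbig, hfG ω hω]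
        have h2 : x r ω - C = Real.log (G.card / (K ^ lam * B) * (γ ω)⁻¹) := by
          rw [Real.log_mul (by positivity) (by positivity), Real.log_div c2.ne' (by positivity),
            Real.log_mul hKl.ne' hB0.ne', Real.log_rpow hK0, Real.log_inv, hx, hC]
          simp only
          rw [hgG ω hω]
          ring
        rw [h2]
        refine max_le ?_ (by positivity)
        have h3 := Real.log_le_sub_one_of_pos
          (x := (G.card : ℝ) / (K ^ lam * B) * (γ ω)⁻¹) (by positivity)
        linarith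
      refine (sum_le_sum h1).trans ?_
      rw [← mul_sum]
      have h2 := sum_inv G z (fun _ => True) (fun _ _ _ _ => trivial)
      rw [filter_true_of_mem (fun _ _ => trivial)] at h2
      rw [h2]
      have h3 : ((G.image z).card : ℝ) ≤ K ^ lam := by
        refine le_trans ?_ hbig
        rw [num_eq]
        have : (G.image z).card ≤ ((Ω.filter fun ω' => w r ω' = w r ω₀).image z).card := by
          refine card_le_card (image_subset_image ?_)
          intro ω hω
          rw [mem_filter]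
          exact ⟨hGΩ ω hω, hGw ω hω⟩
        exact_mod_cast this
      calc (G.card : ℝ) / (K ^ lam * B) * (G.image z).card ≤
          (G.card : ℝ) / (K ^ lam * B) * K ^ lam :=
            mul_le_mul_of_nonneg_left h3 (by positivity)
        _ = G.card / B := by field_simp
    · have h1 : ∀ ω ∈ G, e r ω = 0 := by
        intro ω hω
        rw [he]
        simp only
        rw [hnn ω hω, if_neg hbig]
      rw [sum_congr rfl h1, sum_const_zero]
      positivity
  -- all light points
  have light : ∑ ω ∈ Lt, ∑ r ∈ S, (Real.log (φ r ω) - Real.log (γ ω)) ≤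
      ∑ ω ∈ Lt, (T + K * (f + κ + (Real.log 2 + Real.log B + 1 / B) / Real.log T)) * l ω := by
    have h1 : ∀ ω ∈ Lt, ∑ r ∈ S, (Real.log (φ r ω) - Real.log (γ ω)) ≤
        (T + K * (f + κ)) * l ω + K * (Real.log 2 + Real.log B) + ∑ r ∈ S, e r ω := by
      intro ω hω
      have hωΩ := hLtΩ ω hω
      have g0 := hγ0 ω hωΩ
      set R := S.filter fun r => ¬ K ^ lam < num Ω z (w r) ω with hR
      set E := S.filter fun r => K ^ lam < num Ω z (w r) ω with hE
      have h2 : ∑ r ∈ S, (Real.log (φ r ω) - Real.log (γ ω)) =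
          ∑ r ∈ E, (Real.log (φ r ω) - Real.log (γ ω)) +
          ∑ r ∈ R, (Real.log (φ r ω) - Real.log (γ ω)) := by
        rw [hE, hR, sum_filter_add_sum_filter_not]
      have h3 : ∑ r ∈ E, (Real.log (φ r ω) - Real.log (γ ω)) ≤ K * κ * l ω := by
        have h4 : ∀ r ∈ E, Real.log (φ r ω) - Real.log (γ ω) ≤ l ω := by
          intro r hr
          have hrS := (mem_filter.1 hr).1
          have := Real.log_le_log (hφ0 r hrS ω hωΩ) (hφN r hrS ω hωΩ)
          rw [hl]
          simp only
          linarith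
        refine (sum_le_sum h4).trans ?_
        rw [sum_const, nsmul_eq_mul]
        refine mul_le_mul_of_nonneg_right ?_ (hl0 ω hωΩ)
        have := hcond ω hωΩ
        rw [mul_comm]
        exact this
      have h5 : ∑ r ∈ R, (Real.log (φ r ω) - Real.log (γ ω)) ≤
          ∑ r ∈ R, (Real.log (γ ω + h r ω) - Real.log (γ ω)) + ∑ r ∈ R, x r ω := by
        rw [← sum_add_distrib]
        refine sum_le_sum fun r hr => ?_
        have hrS := (mem_filter.1 hr).1
        have c0 := hh0 r ω
        have c1 := hclass r hrS ω hω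
        have c2 : 0 < g r ω := g0.trans_le c1
        have h5 : φ r ω * γ ω ≤ (γ ω + h r ω) * g r ω := by
          rw [hφgh r ω]
          nlinarith
        have h6 := Real.log_le_log (mul_pos (hφ0 r hrS ω hωΩ) g0) h5
        rw [Real.log_mul (hφ0 r hrS ω hωΩ).ne' g0.ne',
          Real.log_mul (by positivity : γ ω + h r ω ≠ 0) c2.ne'] at h6
        rw [hx]
        simp only
        linarith
      have h6 : ∑ r ∈ R, (Real.log (γ ω + h r ω) - Real.log (γ ω)) ≤ T * l ω := by
        refine le_trans (sum_le_sum_of_subset_of_nonneg (filter_subset _ _) fun r _ _ => ?_)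
          (light1 ω hω)
        rw [sub_nonneg]
        exact Real.log_le_log g0 (by linarith [hh0 r ω])
      have h7 := htrunc ω hω R (filter_subset _ _) (fun r hr => not_lt.1 (mem_filter.1 hr).2)
      have h8 : ∑ r ∈ R, e r ω ≤ ∑ r ∈ S, e r ω := by
        refine sum_le_sum_of_subset_of_nonneg (filter_subset _ _) fun r _ _ => ?_
        rw [he]
        simp only
        split_ifs
        · exact le_max_right _ _
        · exact le_rfl
      rw [h2]
      have h9 : (T + K * (f + κ)) * l ω + K * (Real.log 2 + Real.log B) =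
        T * l ω + K * κ * l ω + K * (f * l ω + Real.log 2 + Real.log B) := by ring
      rw [h9]
      linarith
    refine (sum_le_sum h1).trans ?_
    have h2 : ∑ ω ∈ Lt, ∑ r ∈ S, e r ω ≤ K * (Lt.card / B) := by
      rw [sum_comm]
      refine (sum_le_sum hexc).trans ?_
      rw [sum_const, nsmul_eq_mul]
    have h3 : (Lt.card : ℝ) * Real.log T ≤ ∑ ω ∈ Lt, l ω := by
      rw [← nsmul_eq_mul, ← sum_const]
      exact sum_le_sum hltl
    rw [sum_add_distrib, sum_add_distrib, ← mul_sum, sum_const, nsmul_eq_mul, ← mul_sum]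
    have h4 : (Lt.card : ℝ) ≤ (∑ ω ∈ Lt, l ω) / Real.log T := by
      rw [le_div_iff₀ hlT]
      exact h3
    have h5 : (Lt.card : ℝ) * (K * (Real.log 2 + Real.log B)) + K * (Lt.card / B) =
        Lt.card * (K * (Real.log 2 + Real.log B + 1 / B)) := by ring
    have h6 : (Lt.card : ℝ) * (K * (Real.log 2 + Real.log B + 1 / B)) ≤
        ((∑ ω ∈ Lt, l ω) / Real.log T) * (K * (Real.log 2 + Real.log B + 1 / B)) :=
      mul_le_mul_of_nonneg_right h4 (by positivity)
    have h7 : (T + K * (f + κ + (Real.log 2 + Real.log B + 1 / B) / Real.log T)) *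
        ∑ ω ∈ Lt, l ω = (T + K * (f + κ)) * ∑ ω ∈ Lt, l ω +
        ((∑ ω ∈ Lt, l ω) / Real.log T) * (K * (Real.log 2 + Real.log B + 1 / B)) := by
      field_simp
      ring
    rw [h7]
    linarith
  rw [goal1, goal2, mul_add, mul_sum, mul_sum]
  refine add_le_add light (sum_le_sum fun ω hω => (heavy ω hω).trans ?_)
  have hωΩ := (mem_filter.1 hω).1
  refine mul_le_mul_of_nonneg_right ?_ (hl0 ω hωΩ)
  have hκ : 0 ≤ K * κ := by
    have h1 := hcond ω hωΩ
    have h2 : (0:ℝ) ≤ ((S.filter fun r => K ^ lam < num Ω z (w r) ω).card : ℝ) :=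
      Nat.cast_nonneg _
    linarith
  have h3 : 0 ≤ K * f := by positivity
  have h4 : 0 ≤ K * ((Real.log 2 + Real.log B + 1 / B) / Real.log T) := by positivity
  have h5 : K * (f + κ + (Real.log 2 + Real.log B + 1 / B) / Real.log T) =
    K * f + K * κ + K * ((Real.log 2 + Real.log B + 1 / B) / Real.log T) := by ring
  linarith

end Pool.Agent.V7H74.AK
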