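import Pool.Agent.V7H74.AKTree

set_option autoImplicit false

/-!
# Summation over the nodes of a tree: every node has an exponent at most one half
-/

open Finset

namespace Pool.Agent.V7H74.AK

open Pool.Agent.N269.PF

variable {α σ ζ β : Type*}

/-- For every node the mean over the slopes of `H(z | w r)` is at most `H(z) / 2`. -/
theorem node_half (Ω : Finset α) (z : α → ζ) (S : Finset σ) (hS : 2 ≤ S.card) (w : σ → α → β)
    (hpair : ∀ ω ∈ Ω, ∀ ω' ∈ Ω, ∀ r ∈ S, ∀ r' ∈ S, r ≠ r' → w r ω' = w r ω →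
      w r' ω' = w r' ω → z ω' = z ω)
    (hz : ∀ r ∈ S, ∀ ω ω', z ω = z ω' → w r ω = w r ω') :
    ∑ r ∈ S, (L Ω (w r) - L Ω z) ≤
      S.card * (1 / 2) * (Ω.card * Real.log Ω.card - L Ω z) := by
  classical
  set E : ℝ := Ω.card * Real.log Ω.card - L Ω z with hE
  have h1 : ∀ r ∈ S, ∀ r' ∈ S.erase r, (L Ω (w r) - L Ω z) + (L Ω (w r') - L Ω z) ≤ E := by
    intro r hr r' hr'
    rw [mem_erase] at hr'
    have h2 := submod Ω (w r) (w r') (fun _ => ()) (fun _ _ _ => rfl) (fun _ _ _ => rfl)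
    have h3 : L Ω (fun ω => (w r ω, w r' ω)) = L Ω z := by
      refine L_congr fun ω hω ω' hω' => ?_
      rw [Prod.ext_iff]
      constructor
      · rintro ⟨h4, h5⟩
        exact hpair ω hω ω' hω' r hr r' hr'.2 (fun h => hr'.1 h.symm) h4 h5
      · intro h4
        exact ⟨hz r hr _ _ h4, hz r' hr'.2 _ _ h4⟩
    have h4 : L Ω (fun _ : α => ()) = Ω.card * Real.log Ω.card := L_const fun _ _ _ _ => rfl
    rw [h3, h4] at h2
    rw [hE]
    linarith
  have h2 : ∑ r ∈ S, ∑ r' ∈ S.erase r, ((L Ω (w r) - L Ω z) + (L Ω (w r') - L Ω z)) ≤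
      ∑ r ∈ S, ∑ r' ∈ S.erase r, E := sum_le_sum fun r hr => sum_le_sum fun r' hr' => h1 r hr r' hr'
  set X : ℝ := ∑ r ∈ S, (L Ω (w r) - L Ω z) with hX
  have h3 : ∀ r ∈ S, ∑ r' ∈ S.erase r, ((L Ω (w r) - L Ω z) + (L Ω (w r') - L Ω z)) =
      (S.card - 2) * (L Ω (w r) - L Ω z) + X := by
    intro r hr
    rw [sum_add_distrib, sum_const, card_erase_of_mem hr, nsmul_eq_mul,
      Nat.cast_sub (by omega), Nat.cast_one, hX,
      ← add_sum_erase S (fun r => L Ω (w r) - L Ω z) hr]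
    ring
  have h4 : ∀ r ∈ S, ∑ _r' ∈ S.erase r, E = (S.card - 1) * E := by
    intro r hr
    rw [sum_const, card_erase_of_mem hr, nsmul_eq_mul, Nat.cast_sub (by omega), Nat.cast_one]
  rw [sum_congr rfl h3, sum_congr rfl h4, sum_add_distrib, ← mul_sum, ← hX, sum_const,
    sum_const, nsmul_eq_mul, nsmul_eq_mul] at h2
  have hK : (2:ℝ) ≤ S.card := by exact_mod_cast hS
  have h5 : 2 * ((S.card : ℝ) - 1) * X ≤ S.card * (((S.card : ℝ) - 1) * E) := by
    have : 2 * ((S.card : ℝ) - 1) * X = (S.card - 2) * X + S.card * X := by ring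
    rw [this]
    exact h2
  have h6 : 0 < 2 * ((S.card : ℝ) - 1) := by linarith
  have h7 : 2 * ((S.card : ℝ) - 1) * X ≤ 2 * ((S.card : ℝ) - 1) * (S.card * (1 / 2) * E) := by
    refine h5.trans (le_of_eq ?_)
    ring
  exact le_of_mul_le_mul_left h7 h6

theorem tree2 {δ ε : ℕ → Type*} [∀ i, DecidableEq (δ i)] (Ω : Finset α) (S : Finset σ)
    (hS : 2 ≤ S.card) (n : ℕ)
    (p : (i : ℕ) → α → δ i) (V : σ → α → β) (w : (i : ℕ) → σ → α → ε i)
    (hp0 : ∀ ω ∈ Ω, ∀ ω' ∈ Ω, p 0 ω' = p 0 ω)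
    (hp : ∀ i < n, ∀ ω ω', p (i + 1) ω = p (i + 1) ω' → p i ω = p i ω')
    (hpn : ∀ ω ∈ Ω, ∀ ω' ∈ Ω, p n ω' = p n ω → ω' = ω)
    (hw1 : ∀ i < n, ∀ r ∈ S, ∀ ω ω', p (i + 1) ω = p (i + 1) ω' → w i r ω = w i r ω')
    (hw2 : ∀ i < n, ∀ r ∈ S, ∀ ω ω', V r ω = V r ω' → p i ω = p i ω' → w i r ω = w i r ω')
    (hpair : ∀ i < n, ∀ ω ∈ Ω, ∀ ω' ∈ Ω, p i ω' = p i ω → ∀ r ∈ S, ∀ r' ∈ S, r ≠ r' →
      w i r ω' = w i r ω → w i r' ω' = w i r' ω → p (i + 1) ω' = p (i + 1) ω)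
    (T : ℝ) (hT : 1 < T) (lam : ℕ → α → ℝ)
    (hlam : ∀ i < n, ∀ ω ∈ Ω, ∀ ω' ∈ Ω, p i ω' = p i ω → lam i ω' = lam i ω)
    (hcond : ∀ i < n, ∀ ω ∈ Ω, 1 / 2 ≤ lam i ω ∨ ∑ r ∈ S, min (Real.log
      (num (Ω.filter fun ω' => p i ω' = p i ω) (p (i + 1)) (w i r) ω)) (Real.log T) ≤
      S.card * lam i ω * Real.log T) :
    ∑ r ∈ S, L Ω (V r) ≤ T * (Ω.card * Real.log Ω.card) +
      S.card * ∑ ω ∈ Ω, ∑ i ∈ range n,
        (Real.log (fib Ω (p i) ω) - Real.log (fib Ω (p (i + 1)) ω)) * lam i ω := by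
  classical
  have hlT : 0 < Real.log T := Real.log_pos hT
  have hT0 : 0 < T := by linarith
  set l : ℕ → α → ℝ := fun i ω => Real.log (fib Ω (p i) ω) - Real.log (fib Ω (p (i + 1)) ω)
    with hl
  -- one level
  have level : ∀ i < n, ∑ r ∈ S, (L Ω (fun ω => (w i r ω, p i ω)) - L Ω (p (i + 1))) ≤
      ∑ ω ∈ Ω, (T + S.card * lam i ω) * l i ω := by
    intro i hi
    have e1 : ∀ r ∈ S, L Ω (fun ω => (w i r ω, p i ω)) - L Ω (p (i + 1)) =
        ∑ u ∈ Ω.image (p i), (L (Ω.filter fun ω => p i ω = u) (w i r) -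
          L (Ω.filter fun ω => p i ω = u) (p (i + 1))) := by
      intro r _
      rw [sum_sub_distrib, ← L_split Ω (p (i + 1)) (p i) (hp i hi),
        L_split Ω (fun ω => (w i r ω, p i ω)) (p i) (fun ω ω' h => (Prod.ext_iff.1 h).2)]
      congr 1
      refine sum_congr rfl fun u _ => L_congr fun ω hω ω' hω' => ?_
      rw [mem_filter] at hω hω'
      rw [Prod.ext_iff]
      simp only
      rw [hω.2, hω'.2]
      simp
    rw [sum_congr rfl e1, sum_comm, ← sum_fiberwise_of_maps_to (s := Ω) (t := Ω.image (p i))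
      (g := p i) (fun ω hω => mem_image_of_mem _ hω)]
    refine sum_le_sum fun u hu => ?_
    obtain ⟨ω₀, hω₀, rfl⟩ := mem_image.1 hu
    set G : Finset α := Ω.filter fun ω => p i ω = p i ω₀ with hG
    have hGm : ∀ ω ∈ G, ω ∈ Ω ∧ p i ω = p i ω₀ := fun ω hω => mem_filter.1 hω
    have hpairG : ∀ ω ∈ G, ∀ ω' ∈ G, ∀ r ∈ S, ∀ r' ∈ S, r ≠ r' → w i r ω' = w i r ω →
        w i r' ω' = w i r' ω → p (i + 1) ω' = p (i + 1) ω := by
      intro ω hω ω' hω' r hr r' hr' hne h1 h2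
      exact hpair i hi ω (hGm ω hω).1 ω' (hGm ω' hω').1 (by rw [(hGm ω hω).2, (hGm ω' hω').2])
        r hr r' hr' hne h1 h2
    have hl1 : ∀ ω ∈ G, l i ω = Real.log G.card - Real.log (fib G (p (i + 1)) ω) := by
      intro ω hω
      have e3 : fib G (p (i + 1)) ω = fib Ω (p (i + 1)) ω := by
        unfold fib
        congr 2
        ext ω'
        simp only [hG, mem_filter]
        constructor
        · rintro ⟨⟨h1, _⟩, h2⟩
          exact ⟨h1, h2⟩
        · rintro ⟨h1, h2⟩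
          exact ⟨⟨h1, (hp i hi _ _ h2).trans (hGm ω hω).2⟩, h2⟩
      have e4 : ((G.card : ℕ) : ℝ) = fib Ω (p i) ω := by
        rw [fib_eq, hG, (hGm ω hω).2]
      rw [e3, e4]
    have hGl0 : ∀ ω ∈ G, 0 ≤ l i ω := by
      intro ω hω
      rw [hl1 ω hω, sub_nonneg]
      exact Real.log_le_log (fib_pos _ hω) (fib_le_card _ _ _)
    have hsumG : (G.card : ℝ) * Real.log G.card - L G (p (i + 1)) = ∑ ω ∈ G, l i ω := by
      rw [sum_congr rfl hl1, sum_sub_distrib, sum_const, nsmul_eq_mul]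
      rfl
    have hlamG : ∀ ω ∈ G, lam i ω = lam i ω₀ := fun ω hω =>
      hlam i hi ω₀ hω₀ ω (hGm ω hω).1 (hGm ω hω).2
    rcases le_or_gt (1 / 2) (lam i ω₀) with hbig | hsmall
    · have h1 := node_half G (p (i + 1)) S hS (w i) hpairG (hw1 i hi)
      rw [hsumG, mul_sum] at h1
      refine h1.trans (sum_le_sum fun ω hω => ?_)
      rw [hlamG ω hω]
      refine mul_le_mul_of_nonneg_right ?_ (hGl0 ω hω)
      have h2 : (S.card : ℝ) * (1 / 2) ≤ S.card * lam i ω₀ :=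
        mul_le_mul_of_nonneg_left hbig (Nat.cast_nonneg _)
      linarith
    · refine (node G (p (i + 1)) S (w i) (hw1 i hi) hpairG T hT).trans
        (sum_le_sum fun ω hω => ?_)
      rw [← hl1 ω hω]
      refine mul_le_mul_of_nonneg_right ?_ (hGl0 ω hω)
      have h3 := hcond i hi ω (hGm ω hω).1
      rw [hlamG ω hω] at h3 ⊢
      rcases h3 with h4 | h4
      · exact absurd h4 (not_le.2 hsmall)
      · have h5 : (Ω.filter fun ω' => p i ω' = p i ω) = G := by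
          rw [hG, (hGm ω hω).2]
        rw [h5] at h4
        have h6 : (∑ r ∈ S, min (Real.log (num G (p (i + 1)) (w i r) ω)) (Real.log T)) /
            Real.log T ≤ S.card * lam i ω₀ := by
          rw [div_le_iff₀ hlT]
          exact h4
        linarith
  -- the chain rule
  have step : ∀ r ∈ S, ∀ i < n, L Ω (fun ω => (V r ω, p i ω)) -
      L Ω (fun ω => (V r ω, p (i + 1) ω)) ≤
      L Ω (fun ω => (w i r ω, p i ω)) - L Ω (p (i + 1)) := by
    intro r hr i hi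
    have h1 := submod Ω (fun ω => (V r ω, p i ω)) (p (i + 1)) (fun ω => (w i r ω, p i ω))
      (by
        intro ω ω' h
        rw [Prod.ext_iff] at h ⊢
        exact ⟨hw2 i hi r hr _ _ h.1 h.2, h.2⟩)
      (by
        intro ω ω' h
        rw [Prod.ext_iff]
        exact ⟨hw1 i hi r hr _ _ h, hp i hi _ _ h⟩)
    have h2 : L Ω (fun ω => ((V r ω, p i ω), p (i + 1) ω)) =
        L Ω (fun ω => (V r ω, p (i + 1) ω)) := by
      refine L_congr fun ω _ ω' _ => ?_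
      simp only [Prod.ext_iff]
      constructor
      · rintro ⟨⟨h1, _⟩, h2⟩
        exact ⟨h1, h2⟩
      · rintro ⟨h1, h2⟩
        exact ⟨⟨h1, hp i hi _ _ h2⟩, h2⟩
    rw [h2] at h1
    linarith
  have total : ∀ r ∈ S, L Ω (V r) ≤
      ∑ i ∈ range n, (L Ω (fun ω => (w i r ω, p i ω)) - L Ω (p (i + 1))) := by
    intro r hr
    have h1 : ∑ i ∈ range n, (L Ω (fun ω => (V r ω, p i ω)) -
        L Ω (fun ω => (V r ω, p (i + 1) ω))) =
        L Ω (fun ω => (V r ω, p 0 ω)) - L Ω (fun ω => (V r ω, p n ω)) :=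
      sum_range_sub' (fun i => L Ω (fun ω => (V r ω, p i ω))) n
    have h2 : L Ω (fun ω => (V r ω, p 0 ω)) = L Ω (V r) := by
      refine L_congr fun ω hω ω' hω' => ?_
      rw [Prod.ext_iff]
      simp only [and_iff_left_iff_imp]
      exact fun _ => hp0 ω hω ω' hω'
    have h3 : L Ω (fun ω => (V r ω, p n ω)) = 0 := by
      refine L_inj fun ω hω ω' hω' h => ?_
      exact hpn ω hω ω' hω' (Prod.ext_iff.1 h).2
    rw [h2, h3, sub_zero] at h1
    rw [← h1]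
    exact sum_le_sum fun i hi => step r hr i (mem_range.1 hi)
  refine (sum_le_sum total).trans ?_
  rw [sum_comm]
  refine (sum_le_sum fun i hi => level i (mem_range.1 hi)).trans ?_
  rw [sum_comm]
  have e5 : ∀ ω ∈ Ω, ∑ i ∈ range n, (T + S.card * lam i ω) * l i ω =
      T * (Real.log (fib Ω (p 0) ω) - Real.log (fib Ω (p n) ω)) +
      S.card * ∑ i ∈ range n, l i ω * lam i ω := by
    intro ω _
    rw [← sum_range_sub' (fun i => Real.log (fib Ω (p i) ω)) n, mul_sum, mul_sum,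
      ← sum_add_distrib]
    refine sum_congr rfl fun i _ => ?_
    simp only [hl]
    ring
  rw [sum_congr rfl e5, sum_add_distrib, ← mul_sum, ← mul_sum, sum_sub_distrib]
  have e6 := L_const hp0
  have e7 := L_inj hpn
  unfold L at e6 e7
  rw [e6, e7, sub_zero]

/-- There is a slope with a large projection. -/
theorem main2 {δ ε : ℕ → Type*} [∀ i, DecidableEq (δ i)] [DecidableEq β] (Ω : Finset α)
    (hΩ : Ω.Nonempty) (S : Finset σ) (hS : 2 ≤ S.card) (n : ℕ)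
    (p : (i : ℕ) → α → δ i) (V : σ → α → β) (w : (i : ℕ) → σ → α → ε i)
    (hp0 : ∀ ω ∈ Ω, ∀ ω' ∈ Ω, p 0 ω' = p 0 ω)
    (hp : ∀ i < n, ∀ ω ω', p (i + 1) ω = p (i + 1) ω' → p i ω = p i ω')
    (hpn : ∀ ω ∈ Ω, ∀ ω' ∈ Ω, p n ω' = p n ω → ω' = ω)
    (hw1 : ∀ i < n, ∀ r ∈ S, ∀ ω ω', p (i + 1) ω = p (i + 1) ω' → w i r ω = w i r ω')
    (hw2 : ∀ i < n, ∀ r ∈ S, ∀ ω ω', V r ω = V r ω' → p i ω = p i ω' → w i r ω = w i r ω')
    (hpair : ∀ i < n, ∀ ω ∈ Ω, ∀ ω' ∈ Ω, p i ω' = p i ω → ∀ r ∈ S, ∀ r' ∈ S, r ≠ r' →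
      w i r ω' = w i r ω → w i r' ω' = w i r' ω → p (i + 1) ω' = p (i + 1) ω)
    (T : ℝ) (hT : 1 < T) (lam : ℕ → α → ℝ)
    (hlam : ∀ i < n, ∀ ω ∈ Ω, ∀ ω' ∈ Ω, p i ω' = p i ω → lam i ω' = lam i ω)
    (hcond : ∀ i < n, ∀ ω ∈ Ω, 1 / 2 ≤ lam i ω ∨ ∑ r ∈ S, min (Real.log
      (num (Ω.filter fun ω' => p i ω' = p i ω) (p (i + 1)) (w i r) ω)) (Real.log T) ≤
      S.card * lam i ω * Real.log T) :
    ∃ r ∈ S, (1 - T / S.card) * Real.log Ω.card ≤
      (∑ ω ∈ Ω, ∑ i ∈ range n,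
        (Real.log (fib Ω (p i) ω) - Real.log (fib Ω (p (i + 1)) ω)) * lam i ω) / Ω.card +
      Real.log ((Ω.image (V r)).card : ℝ) := by
  have hSne : S.Nonempty := card_pos.1 (by omega)
  have hK0 : (0:ℝ) < S.card := by exact_mod_cast card_pos.2 hSne
  have hN : (0:ℝ) < Ω.card := by exact_mod_cast card_pos.2 hΩ
  have h1 := tree2 Ω S hS n p V w hp0 hp hpn hw1 hw2 hpair T hT lam hlam hcond
  set E : ℝ := ∑ ω ∈ Ω, ∑ i ∈ range n,
    (Real.log (fib Ω (p i) ω) - Real.log (fib Ω (p (i + 1)) ω)) * lam i ω with hE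
  obtain ⟨r, hr, h2⟩ := exists_le_of_sum_le (s := S) hSne
    (f := fun r => L Ω (V r)) (g := fun _ => T / S.card * (Ω.card * Real.log Ω.card) + E) (by
      rw [sum_const, nsmul_eq_mul]
      refine h1.trans (le_of_eq ?_)
      field_simp)
  refine ⟨r, hr, ?_⟩
  have h3 := log_card_le Ω hΩ (V r)
  have h4 : (Ω.card : ℝ) * ((1 - T / S.card) * Real.log Ω.card) ≤
      Ω.card * (E / Ω.card + Real.log (Ω.image (V r)).card) := by
    have h5 : (Ω.card : ℝ) * (E / Ω.card + Real.log (Ω.image (V r)).card) =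
        E + Ω.card * Real.log (Ω.image (V r)).card := by
      field_simp
    rw [h5]
    nlinarith
  exact le_of_mul_le_mul_left h4 hN

end Pool.Agent.V7H74.AK
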