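import Pool.Agent.V7H74.AKTree3
import Pool.Agent.V7H74.AKTree2
import Pool.Agent.V7H74.AKNode2
import Pool.Agent.V7H74.AKCor

set_option autoImplicit false

/-!
# The sharp inequality for all sets of integer points whose nodes have dimensions
-/

open Finset

namespace Pool.Agent.V7H74.AK

open Pool.Agent.N269.PF

/-- the reduction modulo `q` -/
def red (q : ℕ) (a : ℤ × ℤ) : ZMod q × ZMod q := ((a.1 : ZMod q), (a.2 : ZMod q))

/-- the reduction of the projection modulo `q` -/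
def pr (q : ℕ) (r : ℚ) (a : ℤ × ℤ) : ZMod q := (((r.den : ℤ) * a.1 + r.num * a.2 : ℤ) : ZMod q)

theorem red_eq (q : ℕ) (a b : ℤ × ℤ) :
    red q a = red q b ↔ (q : ℤ) ∣ a.1 - b.1 ∧ (q : ℤ) ∣ a.2 - b.2 := by
  unfold red
  rw [Prod.ext_iff]
  simp only
  rw [zmod_eq, zmod_eq]

theorem pr_eq (q : ℕ) (r : ℚ) (a b : ℤ × ℤ) : pr q r a = pr q r b ↔
    (q : ℤ) ∣ (r.den : ℤ) * (a.1 - b.1) + r.num * (a.2 - b.2) := by
  unfold pr
  rw [zmod_eq]
  have : (r.den : ℤ) * a.1 + r.num * a.2 - ((r.den : ℤ) * b.1 + r.num * b.2) =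
    (r.den : ℤ) * (a.1 - b.1) + r.num * (a.2 - b.2) := by ring
  rw [this]

theorem red_pr (q : ℕ) (r : ℚ) {a b : ℤ × ℤ} (h : red q a = red q b) : pr q r a = pr q r b := by
  rw [red_eq] at h
  rw [pr_eq]
  exact dvd_add (Dvd.dvd.mul_left h.1 _) (Dvd.dvd.mul_left h.2 _)

theorem pr_pair (q : ℕ) (r r' : ℚ) (hc : IsCoprime ((r.den : ℤ) * r'.num - r'.den * r.num) (q : ℤ))
    {a b : ℤ × ℤ} (h1 : pr q r b = pr q r a) (h2 : pr q r' b = pr q r' a) :
    red q b = red q a := by
  rw [pr_eq] at h1 h2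
  rw [red_eq]
  constructor
  · refine hc.symm.dvd_of_dvd_mul_left ?_
    have : ((r.den : ℤ) * r'.num - r'.den * r.num) * (b.1 - a.1) =
        r'.num * ((r.den : ℤ) * (b.1 - a.1) + r.num * (b.2 - a.2)) -
        r.num * ((r'.den : ℤ) * (b.1 - a.1) + r'.num * (b.2 - a.2)) := by ring
    rw [this]
    exact dvd_sub (Dvd.dvd.mul_left h1 _) (Dvd.dvd.mul_left h2 _)
  · refine hc.symm.dvd_of_dvd_mul_left ?_
    have : ((r.den : ℤ) * r'.num - r'.den * r.num) * (b.2 - a.2) =
        (r.den : ℤ) * ((r'.den : ℤ) * (b.1 - a.1) + r'.num * (b.2 - a.2)) -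
        (r'.den : ℤ) * ((r.den : ℤ) * (b.1 - a.1) + r.num * (b.2 - a.2)) := by ring
    rw [this]
    exact dvd_sub (Dvd.dvd.mul_left h2 _) (Dvd.dvd.mul_left h1 _)

theorem mem_cls (q : ℕ) (A : Finset (ℤ × ℤ)) (a b : ℤ × ℤ) :
    b ∈ cls q A a ↔ b ∈ A ∧ red q b = red q a := by
  unfold cls
  rw [mem_filter, red_eq]

theorem cls_congr {q : ℕ} {A : Finset (ℤ × ℤ)} {a b : ℤ × ℤ} (h : b ∈ cls q A a) :
    cls q A b = cls q A a := by
  ext c
  rw [mem_cls, mem_cls, ((mem_cls q A a b).1 h).2]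

theorem num_mult (q q' : ℕ) (r : ℚ) (A : Finset (ℤ × ℤ)) (a : ℤ × ℤ) :
    num (cls q A a) (red q') (pr q' r) a = mult q q' r A a := by
  rw [num_eq]
  unfold mult classes
  congr 2
  refine filter_congr fun b _ => ?_
  rw [pr_eq]

theorem fib_cls (q : ℕ) (A : Finset (ℤ × ℤ)) (a : ℤ × ℤ) :
    fib A (red q) a = ((cls q A a).card : ℝ) := by
  rw [fib_eq]
  congr 2
  ext b
  rw [mem_cls, mem_filter]

/-- The main inequality for integer points with an arbitrary inequality at the nodes. -/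
theorem int_main3 (S : Finset ℚ) (hS : S.Nonempty) (n : ℕ) (Q : ℕ → ℕ) (hQ0 : Q 0 = 1)
    (hQ : ∀ i < n, Q i ∣ Q (i + 1)) (A : Finset (ℤ × ℤ)) (hA : A.Nonempty)
    (hinj : ∀ a ∈ A, ∀ b ∈ A, (Q n : ℤ) ∣ b.1 - a.1 → (Q n : ℤ) ∣ b.2 - a.2 → b = a)
    (T : ℝ) (ρ : ℕ → ℤ × ℤ → ℝ)
    (hρ : ∀ i < n, ∀ a ∈ A, ∀ b ∈ cls (Q i) A a, ρ i b = ρ i a)
    (hnode : ∀ i < n, ∀ a ∈ A, ∑ r ∈ S, (L (cls (Q i) A a) (pr (Q (i + 1)) r) -
        L (cls (Q i) A a) (red (Q (i + 1)))) ≤ (T + S.card * ρ i a) *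
      ((cls (Q i) A a).card * Real.log (cls (Q i) A a).card -
        L (cls (Q i) A a) (red (Q (i + 1))))) :
    ∃ r ∈ S, (1 - T / S.card) * Real.log A.card ≤
      (∑ a ∈ A, ∑ i ∈ range n, (Real.log (cls (Q i) A a).card -
        Real.log (cls (Q (i + 1)) A a).card) * ρ i a) / A.card +
      Real.log ((proj r A).card : ℝ) := by
  have h := main3 (δ := fun i => ZMod (Q i) × ZMod (Q i)) (ε := fun i => ZMod (Q (i + 1)))
    A hA S hS n (fun i => red (Q i))
    (fun r (a : ℤ × ℤ) => (a.1 : ℚ) + r * (a.2 : ℚ))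
    (fun i r => pr (Q (i + 1)) r)
    (by
      intro a _ b _
      rw [red_eq, hQ0]
      simp)
    (by
      intro i hi a b h
      rw [red_eq] at h ⊢
      have h1 : (Q i : ℤ) ∣ (Q (i + 1) : ℤ) := by exact_mod_cast hQ i hi
      exact ⟨h1.trans h.1, h1.trans h.2⟩)
    (by
      intro a ha b hb h
      rw [red_eq] at h
      exact hinj a ha b hb h.1 h.2)
    (fun i _ r _ a b h => red_pr _ r h)
    (by
      intro i hi r hr a b h _
      have h1 : ((r.den : ℤ) * a.1 + r.num * a.2 : ℤ) = (r.den : ℤ) * b.1 + r.num * b.2 := by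
        have h2 : (r.den : ℚ) ≠ 0 := by exact_mod_cast r.den_nz
        have h3 : r * (r.den : ℚ) = r.num := Rat.mul_den_eq_num r
        have h4 : ((r.den : ℚ) * a.1 + r.num * a.2) = (r.den : ℚ) * b.1 + r.num * b.2 := by
          rw [← h3]
          linear_combination (r.den : ℚ) * h
        exact_mod_cast h4
      unfold pr
      rw [h1])
    T ρ (fun i hi a ha b hb h => hρ i hi a ha b ((mem_cls _ _ _ _).2 ⟨hb, h⟩))
    (by
      intro i hi a ha G hG
      have hGc : G = cls (Q i) A a := by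
        ext b
        rw [hG, mem_cls]
      rw [hGc]
      exact hnode i hi a ha)
  simp only [fib_cls] at h
  exact h

/-- The node of `a` of level `i` has the dimension `d`: there are at most `K ^ d` children, or for
all but at most `κ K` of the slopes there are at most `K ^ (d - 1)` children on the line through the child
of `a`, or the children are on an algebraic curve of degree at most `K ^ (d - 1)` over the field with
`p i` elements (`K = |S|`). -/
def HasDim (κ d : ℝ) (S : Finset ℚ) (p : ℕ → ℕ) (i : ℕ) (A : Finset (ℤ × ℤ))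
    (a : ℤ × ℤ) : Prop :=
  (classes (modulus p (i + 1)) (cls (modulus p i) A a) : ℝ) ≤ (S.card : ℝ) ^ d ∨
  ((S.filter fun r => (S.card : ℝ) ^ (d - 1) <
    mult (modulus p i) (modulus p (i + 1)) r A a).card : ℝ) ≤ κ * S.card ∨
  ∃ P : MvPolynomial (Fin 2) (ZMod (p i)), P ≠ 0 ∧
    (P.totalDegree : ℝ) ≤ (S.card : ℝ) ^ (d - 1) ∧
    ∀ b ∈ cls (modulus p i) A a, MvPolynomial.eval
      ![(((b.1 - a.1) / (modulus p i : ℤ) : ℤ) : ZMod (p i)),
        (((b.2 - a.2) / (modulus p i : ℤ) : ℤ) : ZMod (p i))] P = 0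

/-- the number of the exceptional slopes of a point of a node with the dimension `d` -/
theorem dim_slopes (S : Finset ℚ) (hS : S.Nonempty) (p : ℕ → ℕ) (hp : ∀ i, (p i).Prime)
    (hdist : ∀ i, ∀ r ∈ S, ∀ r' ∈ S, r ≠ r' →
      ¬ (p i : ℤ) ∣ (r.den : ℤ) * r'.num - r'.den * r.num)
    (A : Finset (ℤ × ℤ)) (a : ℤ × ℤ) (ha : a ∈ A) (i : ℕ) (d κ : ℝ) (hκ1 : κ ≤ 1) (hκ : 0 < κ)
    (hd1 : 1 ≤ d) (hd2 : d ≤ 2 - κ) (hK : 2 * (S.card : ℝ) ^ (1 - κ) ≤ κ * S.card)
    (h : HasDim κ d S p i A a) :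
    ((S.filter fun r => (S.card : ℝ) ^ (d - 1 + κ) <
      mult (modulus p i) (modulus p (i + 1)) r A a).card : ℝ) ≤ κ * S.card := by
  have hK1 : (1:ℝ) ≤ S.card := by exact_mod_cast card_pos.2 hS
  have hK0 : (0:ℝ) < S.card := by linarith
  have hmod : ∀ i, modulus p (i + 1) = modulus p i * p i := fun i => by
    unfold modulus
    rw [prod_range_succ]
  have hmod0 : ∀ i, modulus p i ≠ 0 := fun i => by
    unfold modulus
    exact prod_ne_zero_iff.2 fun j _ => (hp j).ne_zero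
  have hcop : ∀ i, ∀ r ∈ S, ∀ r' ∈ S, r ≠ r' →
      IsCoprime ((r.den : ℤ) * r'.num - r'.den * r.num) (modulus p i : ℤ) := by
    intro i r hr r' hr' hne
    unfold modulus
    push_cast
    refine IsCoprime.prod_right fun j _ => ?_
    exact ((Nat.prime_iff_prime_int.1 (hp j)).coprime_iff_not_dvd.2
      (hdist j r hr r' hr' hne)).symm
  have : Fact (p i).Prime := ⟨hp i⟩
  have hmono : (S.card : ℝ) ^ (d - 1) ≤ (S.card : ℝ) ^ (d - 1 + κ) :=
    Real.rpow_le_rpow_of_exponent_le hK1 (by linarith)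
  rcases h with h3 | h3 | ⟨P, hP0, hPd, hP⟩
  · have h4 : ∑ r ∈ S, (mult (modulus p i) (modulus p (i + 1)) r A a : ℝ) ≤
        S.card + classes (modulus p (i + 1)) (cls (modulus p i) A a) := by
      have haG : a ∈ cls (modulus p i) A a := (mem_cls _ _ _ _).2 ⟨ha, rfl⟩
      have h5 := num_sum (cls (modulus p i) A a) (red (modulus p (i + 1))) S
        (fun r => pr (modulus p (i + 1)) r)
        (fun r _ b _ b' _ h => red_pr _ r h) haG
        (fun b hb r hr r' hr' hne h1 h2 => pr_pair _ r r' (hcop (i + 1) r hr r' hr' hne) h1 h2)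
      refine le_trans (le_of_eq (sum_congr rfl fun r _ => ?_)) h5
      rw [num_mult]
    have h5 : ∑ r ∈ S.filter (fun r => (S.card : ℝ) ^ (d - 1 + κ) <
        mult (modulus p i) (modulus p (i + 1)) r A a), (S.card : ℝ) ^ (d - 1 + κ) ≤
        ∑ r ∈ S, (mult (modulus p i) (modulus p (i + 1)) r A a : ℝ) := by
      refine le_trans (sum_le_sum fun r hr => (mem_filter.1 hr).2.le) ?_
      exact sum_le_sum_of_subset_of_nonneg (filter_subset _ _) fun _ _ _ => Nat.cast_nonneg _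
    rw [sum_const, nsmul_eq_mul] at h5
    have h6 : (S.card : ℝ) ≤ (S.card : ℝ) ^ d := by
      calc (S.card : ℝ) = (S.card : ℝ) ^ (1:ℝ) := (Real.rpow_one _).symm
        _ ≤ _ := Real.rpow_le_rpow_of_exponent_le hK1 hd1
    have h7 : (S.card : ℝ) ^ d = (S.card : ℝ) ^ (1 - κ) * (S.card : ℝ) ^ (d - 1 + κ) := by
      rw [← Real.rpow_add hK0]
      congr 1
      ring
    have h8 : (0:ℝ) < (S.card : ℝ) ^ (d - 1 + κ) := by positivity
    have h9 : ((S.filter fun r => (S.card : ℝ) ^ (d - 1 + κ) <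
        mult (modulus p i) (modulus p (i + 1)) r A a).card : ℝ) * (S.card : ℝ) ^ (d - 1 + κ) ≤
        (2 * (S.card : ℝ) ^ (1 - κ)) * (S.card : ℝ) ^ (d - 1 + κ) := by
      calc _ ≤ _ := h5
        _ ≤ _ := h4
        _ ≤ 2 * (S.card : ℝ) ^ d := by linarith
        _ = _ := by rw [h7]; ring
    exact (le_of_mul_le_mul_right h9 h8).trans hK
  · refine le_trans ?_ h3
    have : (S.filter fun r => (S.card : ℝ) ^ (d - 1 + κ) <
        mult (modulus p i) (modulus p (i + 1)) r A a).card ≤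
        (S.filter fun r => (S.card : ℝ) ^ (d - 1) <
          mult (modulus p i) (modulus p (i + 1)) r A a).card := by
      refine card_le_card fun r hr => ?_
      rw [mem_filter] at hr ⊢
      exact ⟨hr.1, lt_of_le_of_lt hmono hr.2⟩
    exact_mod_cast this
  · obtain ⟨E, hES, hEc, hE⟩ := curve P hP0 le_rfl S
      (fun r => ((r.den : ℤ) : ZMod (p i))) (fun r => (r.num : ZMod (p i)))
      (by
        intro r hr r' hr' hne h
        refine hdist i r hr r' hr' hne ?_
        rw [← ZMod.intCast_zmod_eq_zero_iff_dvd]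
        push_cast at h ⊢
        exact h)
    have h4 : (S.filter fun r => (S.card : ℝ) ^ (d - 1 + κ) <
        mult (modulus p i) (modulus p (i + 1)) r A a).card ≤ E.card := by
      refine card_le_card fun r hr => ?_
      rw [mem_filter] at hr
      by_contra hrE
      have h5 := mult_curve (modulus p i) (p i) (hmod0 i) A a r P.totalDegree P hP
        (hE r hr.1 hrE)
      rw [← hmod] at h5
      have h6 : (mult (modulus p i) (modulus p (i + 1)) r A a : ℝ) ≤ P.totalDegree := by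
        exact_mod_cast h5
      linarith [hr.2]
    have h5 : ((S.filter fun r => (S.card : ℝ) ^ (d - 1 + κ) <
        mult (modulus p i) (modulus p (i + 1)) r A a).card : ℝ) ≤
        (P.totalDegree : ℝ) + 1 := by
      exact_mod_cast h4.trans hEc
    have h6 : (S.card : ℝ) ^ (d - 1) ≤ (S.card : ℝ) ^ (1 - κ) :=
      Real.rpow_le_rpow_of_exponent_le hK1 (by linarith)
    have h7 : (1:ℝ) ≤ (S.card : ℝ) ^ (1 - κ) := Real.one_le_rpow hK1 (by linarith)
    linarith

/-- the inequality at a node with the dimension `d` -/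
theorem dim_node (S : Finset ℚ) (hS : 2 ≤ S.card) (p : ℕ → ℕ) (hp : ∀ i, (p i).Prime)
    (hdist : ∀ i, ∀ r ∈ S, ∀ r' ∈ S, r ≠ r' →
      ¬ (p i : ℤ) ∣ (r.den : ℤ) * r'.num - r'.den * r.num)
    (A : Finset (ℤ × ℤ)) (a : ℤ × ℤ) (i : ℕ) (d κ T : ℝ) (hκ : 0 < κ) (hκ1 : κ ≤ 1)
    (hd1 : 1 ≤ d) (hT : 1 < T)
    (hK : 2 * (S.card : ℝ) ^ (1 - κ) ≤ κ * S.card)
    (h : d = 2 ∨ ∀ b ∈ cls (modulus p i) A a, HasDim κ d S p i A b) :
    ∑ r ∈ S, (L (cls (modulus p i) A a) (pr (modulus p (i + 1)) r) -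
        L (cls (modulus p i) A a) (red (modulus p (i + 1)))) ≤
      (T + S.card * (1 - 1 / d + (2 * κ + 2 / Real.log T))) *
      ((cls (modulus p i) A a).card * Real.log (cls (modulus p i) A a).card -
        L (cls (modulus p i) A a) (red (modulus p (i + 1)))) := by
  have hSne : S.Nonempty := card_pos.1 (by omega)
  have hK0 : (0:ℝ) < S.card := by exact_mod_cast card_pos.2 hSne
  have hlT : 0 < Real.log T := Real.log_pos hT
  have hcop : ∀ i, ∀ r ∈ S, ∀ r' ∈ S, r ≠ r' →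
      IsCoprime ((r.den : ℤ) * r'.num - r'.den * r.num) (modulus p i : ℤ) := by
    intro i r hr r' hr' hne
    unfold modulus
    push_cast
    refine IsCoprime.prod_right fun j _ => ?_
    exact ((Nat.prime_iff_prime_int.1 (hp j)).coprime_iff_not_dvd.2
      (hdist j r hr r' hr' hne)).symm
  set G : Finset (ℤ × ℤ) := cls (modulus p i) A a with hG
  have hGA : ∀ b ∈ G, b ∈ A := fun b hb => ((mem_cls _ _ _ _).1 hb).1
  have hz : ∀ r ∈ S, ∀ b b', red (modulus p (i + 1)) b = red (modulus p (i + 1)) b' →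
      pr (modulus p (i + 1)) r b = pr (modulus p (i + 1)) r b' := fun r _ b b' h => red_pr _ r h
  have hpair : ∀ b ∈ G, ∀ b' ∈ G, ∀ r ∈ S, ∀ r' ∈ S, r ≠ r' →
      pr (modulus p (i + 1)) r b' = pr (modulus p (i + 1)) r b →
      pr (modulus p (i + 1)) r' b' = pr (modulus p (i + 1)) r' b →
      red (modulus p (i + 1)) b' = red (modulus p (i + 1)) b :=
    fun b _ b' _ r hr r' hr' hne h1 h2 => pr_pair _ r r' (hcop (i + 1) r hr r' hr' hne) h1 h2
  have hE : 0 ≤ (G.card : ℝ) * Real.log G.card - L G (red (modulus p (i + 1))) := by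
    unfold L
    rw [← nsmul_eq_mul, ← sum_const, ← sum_sub_distrib]
    refine sum_nonneg fun b hb => sub_nonneg.2 ?_
    exact Real.log_le_log (fib_pos _ hb) (fib_le_card _ _ _)
  rcases le_or_gt d (2 - κ) with hd | hd
  · have hcond : ∀ b ∈ G, ((S.filter fun r => (S.card : ℝ) ^ (d - 1 + κ) <
        num G (red (modulus p (i + 1))) (pr (modulus p (i + 1)) r) b).card : ℝ) ≤
        κ * S.card := by
      intro b hb
      have h1 : HasDim κ d S p i A b := by
        rcases h with h2 | h2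
        · linarith
        · exact h2 b hb
      have h2 := dim_slopes S hSne p hp hdist A b (hGA b hb) i d κ hκ1 hκ hd1 hd hK h1
      have h3 : G = cls (modulus p i) A b := by rw [hG, cls_congr hb]
      rw [h3]
      simp only [num_mult]
      exact h2
    refine (node2 G (red (modulus p (i + 1))) S hSne (fun r => pr (modulus p (i + 1)) r) hz hpair
      T 2 (d - 1 + κ) κ hT (by norm_num) (by linarith) hcond).trans ?_
    refine mul_le_mul_of_nonneg_right ?_ hE
    have h1 : (d - 1 + κ) / (1 + (d - 1 + κ)) ≤ 1 - 1 / d + κ := by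
      have e1 : 1 + (d - 1 + κ) = d + κ := by ring
      rw [e1, div_le_iff₀ (by linarith)]
      have e2 : (1 - 1 / d + κ) * (d + κ) = (d - 1 + κ) + κ * (d + κ - 1 / d) := by
        have : d ≠ 0 := by linarith
        field_simp
        ring
      rw [e2]
      have e3 : 1 / d ≤ 1 := by
        rw [div_le_iff₀ (by linarith)]
        linarith
      have : 0 ≤ κ * (d + κ - 1 / d) := mul_nonneg hκ.le (by linarith)
      linarith
    have h2 : (Real.log 2 + Real.log 2 + 1 / 2) / Real.log T ≤ 2 / Real.log T := by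
      refine div_le_div_of_nonneg_right ?_ hlT.le
      have := Real.log_two_lt_d9
      linarith
    have h3 : (S.card : ℝ) * ((d - 1 + κ) / (1 + (d - 1 + κ)) + κ +
        (Real.log 2 + Real.log 2 + 1 / 2) / Real.log T) ≤
        S.card * (1 - 1 / d + (2 * κ + 2 / Real.log T)) :=
      mul_le_mul_of_nonneg_left (by linarith) hK0.le
    linarith
  · refine (node_half G (red (modulus p (i + 1))) S hS (fun r => pr (modulus p (i + 1)) r) hpair
      hz).trans ?_
    refine mul_le_mul_of_nonneg_right ?_ hE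
    have h1 : 1 / 2 ≤ 1 - 1 / d + (2 * κ + 2 / Real.log T) := by
      have h2 : 0 < 2 / Real.log T := by positivity
      have h3 : 1 / d ≤ 1 / 2 + κ := by
        rw [div_le_iff₀ (by linarith)]
        nlinarith
      linarith
    have h2 := mul_le_mul_of_nonneg_left h1 hK0.le
    linarith

theorem params3 (ε' : ℝ) (h0 : 0 < ε') (h1 : ε' ≤ 1 / 4) : ∃ K₀ : ℕ, 2 ≤ K₀ ∧
    ∀ K : ℕ, K₀ ≤ K → ∃ T : ℝ, 1 < T ∧ T / K ≤ ε' / 4 ∧ 2 / Real.log T ≤ ε' / 4 ∧
      2 * (K : ℝ) ^ (1 - ε' / 4) ≤ ε' / 4 * K := by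
  have t1 : Filter.Tendsto (fun K : ℕ => Real.log (K : ℝ)) Filter.atTop Filter.atTop :=
    Real.tendsto_log_atTop.comp tendsto_natCast_atTop_atTop
  have e1 := t1.eventually_ge_atTop (16 / ε' + 4 * Real.log (8 / ε') / ε')
  obtain ⟨K₀, hK₀⟩ := Filter.eventually_atTop.1 e1
  refine ⟨max K₀ 2, le_max_right _ _, fun K hK => ?_⟩
  have h2 := hK₀ K ((le_max_left _ _).trans hK)
  have hK2 : (2:ℝ) ≤ K := by exact_mod_cast (le_max_right K₀ 2).trans hK
  have hK0 : (0:ℝ) < K := by linarith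
  have hlK : 0 < Real.log (K : ℝ) := Real.log_pos (by linarith)
  have hl8 : 0 ≤ Real.log (8 / ε') := Real.log_nonneg (by
    rw [le_div_iff₀ h0]
    linarith)
  have p1 : 0 < 16 / ε' := by positivity
  have p2 : 0 ≤ 4 * Real.log (8 / ε') / ε' := by positivity
  have key : 8 / ε' ≤ (K : ℝ) ^ (ε' / 4) := by
    rw [← Real.log_le_log_iff (by positivity) (by positivity), Real.log_rpow hK0]
    have h5 : 4 * Real.log (8 / ε') / ε' ≤ Real.log K := by linarith
    rw [div_le_iff₀ h0] at h5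
    linarith
  have key2 : 2 * (K : ℝ) ^ (1 - ε' / 4) ≤ ε' / 4 * K := by
    rw [Real.rpow_sub hK0, Real.rpow_one]
    have hp : (0:ℝ) < (K : ℝ) ^ (ε' / 4) := by positivity
    have h6 : 2 * (K / (K : ℝ) ^ (ε' / 4)) = 2 * K / (K : ℝ) ^ (ε' / 4) := by ring
    rw [h6, div_le_iff₀ hp]
    rw [div_le_iff₀ h0] at key
    nlinarith
  refine ⟨(K : ℝ) ^ (1 - ε' / 4), Real.one_lt_rpow (by linarith) (by linarith), ?_, ?_, key2⟩
  · rw [div_le_iff₀ hK0]
    have : 0 < (K : ℝ) ^ (1 - ε' / 4) := by positivity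
    linarith
  · rw [Real.log_rpow hK0]
    have h5 : 16 / ε' ≤ Real.log K := by linarith
    rw [div_le_iff₀ h0] at h5
    rw [div_le_iff₀ (mul_pos (by linarith) hlK)]
    nlinarith

/-- the mean over `a ∈ A` of the sum over the levels `i < n` of `l_i(a)` divided by the dimension of the
node of `a` -/
noncomputable def dimSum (p : ℕ → ℕ) (n : ℕ) (A : Finset (ℤ × ℤ)) (d : ℕ → ℤ × ℤ → ℝ) : ℝ :=
  (∑ a ∈ A, ∑ i ∈ range n, Real.log ((cls (modulus p i) A a).card /
    (cls (modulus p (i + 1)) A a).card) / d i a) / A.card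

/-- **The sharp inequality.** -/
theorem sharp (ε : ℝ) (hε : 0 < ε) : ∃ κ : ℝ, 0 < κ ∧ ∃ K₀ : ℕ, ∀ S : Finset ℚ, K₀ ≤ S.card →
    ∀ p : ℕ → ℕ, (∀ i, (p i).Prime) → (∀ i, ∀ r ∈ S, ∀ r' ∈ S, r ≠ r' →
      ¬ (p i : ℤ) ∣ (r.den : ℤ) * r'.num - r'.den * r.num) →
    ∀ (A : Finset (ℤ × ℤ)) (n : ℕ), (∀ a ∈ A, ∀ b ∈ A, (modulus p n : ℤ) ∣ b.1 - a.1 →
      (modulus p n : ℤ) ∣ b.2 - a.2 → b = a) →
    ∀ d : ℕ → ℤ × ℤ → ℝ, (∀ i < n, ∀ a ∈ A, 1 ≤ d i a ∧ d i a ≤ 2) →
      (∀ i < n, ∀ a ∈ A, ∀ b ∈ cls (modulus p i) A a, d i b = d i a) →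
      (∀ i < n, ∀ a ∈ A, d i a = 2 ∨ HasDim κ (d i a) S p i A a) →
      dimSum p n A d ≤ Real.log ((S.sup fun r => (proj r A).card : ℕ) : ℝ) +
        ε * Real.log A.card := by
  set ε' : ℝ := min ε (1 / 4) with hε'
  have hε'0 : 0 < ε' := lt_min hε (by norm_num)
  have hε'1 : ε' ≤ 1 / 4 := min_le_right _ _
  have hε'2 : ε' ≤ ε := min_le_left _ _
  obtain ⟨K₀, hK₀2, hpar⟩ := params3 ε' hε'0 hε'1
  refine ⟨ε' / 4, by linarith, K₀, fun S hS p hp hdist A n hn d hd12 hdc hdd => ?_⟩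
  obtain ⟨T, hT1, hTK, hlT2, hK⟩ := hpar S.card hS
  have hS2 : 2 ≤ S.card := hK₀2.trans hS
  rcases A.eq_empty_or_nonempty with rfl | hAne
  · unfold dimSum
    simp only [sum_empty, card_empty, Nat.cast_zero, div_zero, Real.log_zero, mul_zero, add_zero]
    exact Real.log_natCast_nonneg _
  have hSne : S.Nonempty := card_pos.1 (by omega)
  have hmod : ∀ i, modulus p (i + 1) = modulus p i * p i := fun i => by
    unfold modulus
    rw [prod_range_succ]
  have hmoddvd : ∀ i, modulus p i ∣ modulus p (i + 1) := fun i => ⟨p i, hmod i⟩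
  have hN : (0:ℝ) < A.card := by exact_mod_cast card_pos.2 hAne
  have hN1 : (1:ℝ) ≤ A.card := by exact_mod_cast card_pos.2 hAne
  have hlN : 0 ≤ Real.log A.card := Real.log_nonneg hN1
  set η : ℝ := 2 * (ε' / 4) + 2 / Real.log T with hη
  obtain ⟨r, hr, h1⟩ := int_main3 S hSne n (modulus p) (by unfold modulus; simp)
    (fun i _ => hmoddvd i) A hAne hn T (fun i a => 1 - 1 / d i a + η)
    (fun i hi a ha b hb => by simp only [hdc i hi a ha b hb])
    (by
      intro i hi a ha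
      refine dim_node S hS2 p hp hdist A a i (d i a) (ε' / 4) T (by linarith) (by linarith)
        (hd12 i hi a ha).1 hT1 hK ?_
      by_cases h2 : d i a = 2
      · exact Or.inl h2
      · right
        intro b hb
        have hbA : b ∈ A := ((mem_cls _ _ _ _).1 hb).1
        have h3 := hdd i hi b hbA
        rw [hdc i hi a ha b hb] at h3
        exact h3.resolve_left h2)
  have hcpos : ∀ a ∈ A, ∀ q : ℕ, (0:ℝ) < (cls q A a).card := by
    intro a ha q
    have : 0 < (cls q A a).card := card_pos.2 ⟨a, (mem_cls _ _ _ _).2 ⟨ha, rfl⟩⟩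
    exact_mod_cast this
  have h2 : (∑ a ∈ A, ∑ i ∈ range n, (Real.log (cls (modulus p i) A a).card -
        Real.log (cls (modulus p (i + 1)) A a).card) * (1 - 1 / d i a + η)) / A.card =
      (1 + η) * Real.log A.card - dimSum p n A d := by
    unfold dimSum
    have h3 : ∀ a ∈ A, ∑ i ∈ range n, (Real.log (cls (modulus p i) A a).card -
        Real.log (cls (modulus p (i + 1)) A a).card) * (1 - 1 / d i a + η) =
        (1 + η) * Real.log A.card - ∑ i ∈ range n, Real.log ((cls (modulus p i) A a).card /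
          (cls (modulus p (i + 1)) A a).card) / d i a := by
      intro a ha
      have h4 : ∑ i ∈ range n, (Real.log (cls (modulus p i) A a).card -
          Real.log (cls (modulus p (i + 1)) A a).card) = Real.log A.card := by
        rw [sum_range_sub' (fun i => Real.log ((cls (modulus p i) A a).card : ℝ)) n]
        have h5 : cls (modulus p 0) A a = A := by
          unfold cls modulus
          rw [filter_true_of_mem]
          intro b _
          simp
        have h6 : cls (modulus p n) A a = {a} := by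
          ext b
          unfold cls
          rw [mem_filter, mem_singleton]
          constructor
          · rintro ⟨hb, h3, h4⟩
            exact hn a ha b hb h3 h4
          · rintro rfl
            simp [ha]
        rw [h5, h6, card_singleton, Nat.cast_one, Real.log_one, sub_zero]
      rw [← h4, mul_sum, ← sum_sub_distrib]
      refine sum_congr rfl fun i _ => ?_
      rw [Real.log_div (hcpos a ha _).ne' (hcpos a ha _).ne']
      ring
    rw [sum_congr rfl h3, sum_sub_distrib, sum_const, nsmul_eq_mul, sub_div]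
    congr 1
    field_simp
  rw [h2] at h1
  have hMr : (proj r A).card ≤ S.sup fun r => (proj r A).card :=
    le_sup (f := fun r => (proj r A).card) hr
  have hpr : (1:ℝ) ≤ (proj r A).card := by
    have : 0 < (proj r A).card := card_pos.2 (hAne.image _)
    exact_mod_cast this
  have h3 : Real.log (proj r A).card ≤
      Real.log ((S.sup fun r => (proj r A).card : ℕ) : ℝ) :=
    Real.log_le_log (by linarith) (by exact_mod_cast hMr)
  have h4 : T / S.card + η ≤ ε := by
    rw [hη]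
    linarith
  have h5 := mul_le_mul_of_nonneg_right h4 hlN
  linarith

/-- The sharp inequality with an exponent. -/
theorem sharp_pow (ε : ℝ) (hε : 0 < ε) : ∃ κ : ℝ, 0 < κ ∧ ∃ K₀ : ℕ, ∀ S : Finset ℚ, K₀ ≤ S.card →
    ∀ p : ℕ → ℕ, (∀ i, (p i).Prime) → (∀ i, ∀ r ∈ S, ∀ r' ∈ S, r ≠ r' →
      ¬ (p i : ℤ) ∣ (r.den : ℤ) * r'.num - r'.den * r.num) →
    ∀ (A : Finset (ℤ × ℤ)) (n : ℕ), (∀ a ∈ A, ∀ b ∈ A, (modulus p n : ℤ) ∣ b.1 - a.1 →
      (modulus p n : ℤ) ∣ b.2 - a.2 → b = a) →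
    ∀ d : ℕ → ℤ × ℤ → ℝ, (∀ i < n, ∀ a ∈ A, 1 ≤ d i a ∧ d i a ≤ 2) →
      (∀ i < n, ∀ a ∈ A, ∀ b ∈ cls (modulus p i) A a, d i b = d i a) →
      (∀ i < n, ∀ a ∈ A, d i a = 2 ∨ HasDim κ (d i a) S p i A a) →
    ∀ m : ℝ, 1 / 2 ≤ m → m * Real.log A.card ≤ dimSum p n A d →
      (A.card : ℝ) ≤ ((S.sup fun r => (proj r A).card : ℕ) : ℝ) ^ (1 / m + ε) := by
  set ε' : ℝ := min (ε / 8) (1 / 4) with hε'
  have hε'0 : 0 < ε' := lt_min (by positivity) (by norm_num)
  have hε'1 : ε' ≤ 1 / 4 := min_le_right _ _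
  have hε'2 : ε' ≤ ε / 8 := min_le_left _ _
  obtain ⟨κ, hκ, K₀, h⟩ := sharp ε' hε'0
  refine ⟨κ, hκ, max K₀ 1, fun S hS p hp hdist A n hn d hd12 hdc hdd m hm hmA => ?_⟩
  have h1 := h S ((le_max_left _ _).trans hS) p hp hdist A n hn d hd12 hdc hdd
  have hSne : S.Nonempty := card_pos.1 ((le_max_right K₀ 1).trans hS)
  obtain ⟨r, hr⟩ := hSne
  have hm0 : 0 < m := by linarith
  rcases A.eq_empty_or_nonempty with rfl | hAne
  · simp only [card_empty, Nat.cast_zero]
    positivity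
  have hN : (0:ℝ) < A.card := by exact_mod_cast card_pos.2 hAne
  have hMr : (proj r A).card ≤ S.sup fun r => (proj r A).card :=
    le_sup (f := fun r => (proj r A).card) hr
  have hpr : 1 ≤ (proj r A).card := card_pos.2 (hAne.image _)
  set M : ℕ := S.sup fun r => (proj r A).card with hM
  have hM1 : (1:ℝ) ≤ M := by exact_mod_cast hpr.trans hMr
  have hM0 : (0:ℝ) < M := by linarith
  have hlM : 0 ≤ Real.log M := Real.log_nonneg hM1
  have h5 : 0 < m - ε' := by linarith
  have h6 : Real.log A.card ≤ (1 / m + ε) * Real.log M := by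
    have h7 : Real.log A.card ≤ Real.log M / (m - ε') := by
      rw [le_div_iff₀ h5]
      linarith
    refine h7.trans ?_
    rw [div_eq_mul_inv, mul_comm]
    refine mul_le_mul_of_nonneg_right ?_ hlM
    rw [inv_le_iff_one_le_mul₀ h5]
    have h9 : (1 / m + ε) * (m - ε') = 1 - ε' / m + ε * (m - ε') := by
      field_simp
    rw [h9]
    have h10 : ε' / m ≤ 2 * ε' := by
      rw [div_le_iff₀ hm0]
      nlinarith
    nlinarith
  rw [← Real.log_le_log_iff hN (by positivity), Real.log_rpow hM0]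
  exact h6

end Pool.Agent.V7H74.AK
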