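import Pool.Agent.N269.PF.Ent

set_option autoImplicit false

/-!
# The inequality at one node

`Ω` is a finite set with the uniform distribution, `z` a function on `Ω` and `w r`, `r ∈ S`, are
functions of `z`, such that two different values of `z` have the same value of `w r` for at most one
`r`. Let `n r ω` be the number of the values of `z` on the fibre of `w r` through `ω` and
`l ω = log (|Ω| / |{ω' : z ω' = z ω}|)`, the mean of which is the entropy `H(z)`. Then for all `T > 1`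
`∑ r, H(z | w r)` is at most the mean of `(T + (∑ r, min (log (n r ω)) (log T)) / log T) l ω`.
-/

open Finset

namespace Pool.Agent.V7H74.AK

open Pool.Agent.N269.PF

variable {α σ ζ β : Type*}

open Classical in
/-- The number of the values of `z` on the fibre of `w` through `ω`. -/
noncomputable def num (Ω : Finset α) (z : α → ζ) (w : α → β) (ω : α) : ℕ :=
  ((Ω.filter fun ω' => w ω' = w ω).image z).card

theorem num_eq [DecidableEq ζ] [DecidableEq β] (Ω : Finset α) (z : α → ζ) (w : α → β) (ω : α) :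
    num Ω z w ω = ((Ω.filter fun ω' => w ω' = w ω).image z).card := by
  unfold num
  congr 1
  ext x
  simp only [mem_image, mem_filter]

theorem num_pos {Ω : Finset α} (z : α → ζ) (w : α → β) {ω : α} (h : ω ∈ Ω) :
    1 ≤ num Ω z w ω := by
  classical
  unfold num
  refine card_pos.2 ⟨z ω, ?_⟩
  rw [mem_image]
  exact ⟨ω, by simp [h], rfl⟩

theorem num_congr {Ω : Finset α} (z : α → ζ) {w : α → β} {ω ω' : α} (h : w ω = w ω') :
    num Ω z w ω = num Ω z w ω' := by
  unfold num
  rw [h]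

theorem fib_le_card (Ω : Finset α) (f : α → β) (ω : α) : fib Ω f ω ≤ Ω.card := by
  classical
  unfold fib
  exact_mod_cast card_le_card (filter_subset _ _)

theorem fib_mono {Ω : Finset α} {f : α → β} {g : α → ζ} {ω : α}
    (h : ∀ ω', f ω' = f ω → g ω' = g ω) : fib Ω f ω ≤ fib Ω g ω := by
  classical
  unfold fib
  have : (Ω.filter fun ω' => f ω' = f ω).card ≤ (Ω.filter fun ω' => g ω' = g ω).card := by
    refine card_le_card fun ω' h' => ?_
    rw [mem_filter] at h' ⊢
    exact ⟨h'.1, h ω' h'.2⟩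
  exact_mod_cast this

theorem sum_diff (Ω : Finset α) (z : α → ζ) (S : Finset σ) (w : σ → α → β)
    (hz : ∀ r ∈ S, ∀ ω ω', z ω = z ω' → w r ω = w r ω')
    (hpair : ∀ ω ∈ Ω, ∀ ω' ∈ Ω, ∀ r ∈ S, ∀ r' ∈ S, r ≠ r' → w r ω' = w r ω →
      w r' ω' = w r' ω → z ω' = z ω) {ω : α} (hω : ω ∈ Ω) :
    ∑ r ∈ S, (fib Ω (w r) ω - fib Ω z ω) ≤ Ω.card - fib Ω z ω := by
  classical
  have e1 : ∀ r ∈ S, fib Ω (w r) ω - fib Ω z ω =
      ((Ω.filter fun ω' => w r ω' = w r ω ∧ z ω' ≠ z ω).card : ℝ) := by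
    intro r hr
    have h1 : (Ω.filter fun ω' => w r ω' = w r ω) =
        (Ω.filter fun ω' => w r ω' = w r ω ∧ z ω' ≠ z ω) ∪ Ω.filter fun ω' => z ω' = z ω := by
      ext ω'
      simp only [mem_filter, mem_union]
      constructor
      · rintro ⟨h1, h2⟩
        by_cases h3 : z ω' = z ω
        · exact Or.inr ⟨h1, h3⟩
        · exact Or.inl ⟨h1, h2, h3⟩
      · rintro (⟨h1, h2, h3⟩ | ⟨h1, h2⟩)
        · exact ⟨h1, h2⟩
        · exact ⟨h1, hz r hr _ _ h2⟩
    have h2 : Disjoint (Ω.filter fun ω' => w r ω' = w r ω ∧ z ω' ≠ z ω)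
        (Ω.filter fun ω' => z ω' = z ω) := by
      rw [disjoint_left]
      intro ω' h3 h4
      rw [mem_filter] at h3 h4
      exact h3.2.2 h4.2
    unfold fib
    rw [h1, card_union_of_disjoint h2]
    push_cast
    ring
  have e2 : (Ω.card : ℝ) - fib Ω z ω = ((Ω.filter fun ω' => z ω' ≠ z ω).card : ℝ) := by
    have h1 := card_filter_add_card_filter_not (s := Ω) (fun ω' => z ω' = z ω)
    unfold fib
    have h2 : (Ω.card : ℝ) = ((Ω.filter fun ω' => z ω' = z ω).card : ℝ) +
        ((Ω.filter fun ω' => ¬ z ω' = z ω).card : ℝ) := by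
      exact_mod_cast h1.symm
    linarith
  rw [sum_congr rfl e1, e2, ← Nat.cast_sum, ← card_biUnion]
  · have : (S.biUnion fun r => Ω.filter fun ω' => w r ω' = w r ω ∧ z ω' ≠ z ω).card ≤
        (Ω.filter fun ω' => z ω' ≠ z ω).card := by
      refine card_le_card fun ω' h' => ?_
      rw [mem_biUnion] at h'
      obtain ⟨r, -, h1⟩ := h'
      rw [mem_filter] at h1 ⊢
      exact ⟨h1.1, h1.2.2⟩
    exact_mod_cast this
  · intro r hr r' hr' hne
    rw [Function.onFun, disjoint_left]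
    intro ω' h1 h2
    rw [mem_filter] at h1 h2
    exact h1.2.2 (hpair ω hω ω' h1.1 r hr r' hr' hne h1.2.1 h2.2.1)

/-- the entropy of `z` on the light part of one fibre -/
theorem light_fibre [DecidableEq ζ] (G : Finset α) (hG : G.Nonempty) (z : α → ζ) (n : ℕ)
    (hn : (G.image z).card ≤ n) :
    ∑ ω ∈ G, (Real.log G.card - Real.log (fib G z ω)) ≤ G.card * Real.log n := by
  have h1 := log_card_le G hG z
  have h2 : (1:ℝ) ≤ ((G.image z).card : ℝ) := by
    exact_mod_cast card_pos.2 (hG.image z)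
  have h3 : Real.log (G.image z).card ≤ Real.log n :=
    Real.log_le_log (by linarith) (by exact_mod_cast hn)
  have h4 : (G.card : ℝ) * Real.log (G.image z).card ≤ G.card * Real.log n :=
    mul_le_mul_of_nonneg_left h3 (Nat.cast_nonneg _)
  rw [sum_sub_distrib, sum_const, nsmul_eq_mul]
  unfold L at h1
  linarith

theorem node (Ω : Finset α) (z : α → ζ) (S : Finset σ) (w : σ → α → β)
    (hz : ∀ r ∈ S, ∀ ω ω', z ω = z ω' → w r ω = w r ω')
    (hpair : ∀ ω ∈ Ω, ∀ ω' ∈ Ω, ∀ r ∈ S, ∀ r' ∈ S, r ≠ r' → w r ω' = w r ω →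
      w r' ω' = w r' ω → z ω' = z ω) (T : ℝ) (hT : 1 < T) :
    ∑ r ∈ S, (L Ω (w r) - L Ω z) ≤
      ∑ ω ∈ Ω, (T + (∑ r ∈ S, min (Real.log (num Ω z (w r) ω)) (Real.log T)) / Real.log T) *
        (Real.log Ω.card - Real.log (fib Ω z ω)) := by
  classical
  have hlT : 0 < Real.log T := Real.log_pos hT
  have hT0 : 0 < T := by linarith
  set N : ℝ := (Ω.card : ℝ) with hN
  set γ : α → ℝ := fun ω => fib Ω z ω with hγ
  set φ : σ → α → ℝ := fun r ω => fib Ω (w r) ω with hφ
  set l : α → ℝ := fun ω => Real.log N - Real.log (γ ω) with hl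
  set q : σ → α → ℝ := fun r ω => min (Real.log (num Ω z (w r) ω)) (Real.log T) with hq
  have hγ0 : ∀ ω ∈ Ω, 0 < γ ω := fun ω hω => fib_pos z hω
  have hγφ : ∀ r ∈ S, ∀ ω ∈ Ω, γ ω ≤ φ r ω := fun r hr ω _ =>
    fib_mono fun ω' h => hz r hr _ _ h
  have hφN : ∀ r ∈ S, ∀ ω ∈ Ω, φ r ω ≤ N := fun r _ ω _ => fib_le_card _ _ _
  have hφ0 : ∀ r ∈ S, ∀ ω ∈ Ω, 0 < φ r ω := fun r hr ω hω => (hγ0 ω hω).trans_le (hγφ r hr ω hω)
  have hγN : ∀ ω ∈ Ω, γ ω ≤ N := fun ω _ => fib_le_card _ _ _
  have hN0 : ∀ ω ∈ Ω, 0 < N := fun ω hω => (hγ0 ω hω).trans_le (hγN ω hω)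
  have hl0 : ∀ ω ∈ Ω, 0 ≤ l ω := fun ω hω =>
    sub_nonneg.2 (Real.log_le_log (hγ0 ω hω) (hγN ω hω))
  have hq0 : ∀ r ∈ S, ∀ ω ∈ Ω, 0 ≤ q r ω := fun r _ ω hω =>
    le_min (Real.log_nonneg (by exact_mod_cast num_pos z (w r) hω)) hlT.le
  have hsum : ∀ ω ∈ Ω, ∑ r ∈ S, (φ r ω - γ ω) ≤ N - γ ω := fun ω hω =>
    sum_diff Ω z S w hz hpair hω
  set Lt : Finset α := Ω.filter fun ω => T * γ ω < N with hLt
  set Hv : Finset α := Ω.filter fun ω => ¬ T * γ ω < N with hHv
  -- the goal as a sum over `ω`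
  have goal1 : ∑ r ∈ S, (L Ω (w r) - L Ω z) =
      ∑ ω ∈ Lt, ∑ r ∈ S, (Real.log (φ r ω) - Real.log (γ ω)) +
      ∑ ω ∈ Hv, ∑ r ∈ S, (Real.log (φ r ω) - Real.log (γ ω)) := by
    rw [hLt, hHv, sum_filter_add_sum_filter_not, sum_comm]
    refine sum_congr rfl fun r _ => ?_
    unfold L
    rw [sum_sub_distrib]
  -- heavy points
  have heavy : ∀ ω ∈ Hv, ∑ r ∈ S, (Real.log (φ r ω) - Real.log (γ ω)) ≤ T * l ω := by
    intro ω hω
    rw [hHv, mem_filter] at hω
    obtain ⟨hω, hh⟩ := hω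
    have g0 := hγ0 ω hω
    have n0 := hN0 ω hω
    have h1 : ∀ r ∈ S, Real.log (φ r ω) - Real.log (γ ω) ≤ (φ r ω - γ ω) / γ ω := by
      intro r hr
      have h2 := Real.log_le_sub_one_of_pos (div_pos (hφ0 r hr ω hω) g0)
      rw [Real.log_div (hφ0 r hr ω hω).ne' g0.ne'] at h2
      rw [sub_div, div_self g0.ne']
      exact h2
    refine (sum_le_sum h1).trans ?_
    rw [← sum_div]
    have h3 : (∑ r ∈ S, (φ r ω - γ ω)) / γ ω ≤ (N - γ ω) / γ ω :=
      div_le_div_of_nonneg_right (hsum ω hω) g0.le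
    refine h3.trans ?_
    -- x - 1 ≤ x log x
    have h4 := Real.one_sub_inv_le_log_of_pos (div_pos n0 g0)
    rw [Real.log_div n0.ne' g0.ne', inv_div] at h4
    have h5 : (N - γ ω) / γ ω = (N / γ ω) * (1 - γ ω / N) := by
      field_simp
    rw [h5]
    have h6 : N / γ ω ≤ T := by
      rw [div_le_iff₀ g0]
      exact not_lt.1 hh
    calc (N / γ ω) * (1 - γ ω / N) ≤ (N / γ ω) * l ω :=
          mul_le_mul_of_nonneg_left h4 (div_pos n0 g0).le
      _ ≤ T * l ω := mul_le_mul_of_nonneg_right h6 (hl0 ω hω)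
  -- light points
  set h : σ → α → ℝ := fun r ω => ((Hv.filter fun ω' => w r ω' = w r ω).card : ℝ) with hh
  set g : σ → α → ℝ := fun r ω => ((Lt.filter fun ω' => w r ω' = w r ω).card : ℝ) with hg
  have hφgh : ∀ r ω, φ r ω = g r ω + h r ω := by
    intro r ω
    have h1 := card_filter_add_card_filter_not (s := Ω.filter fun ω' => w r ω' = w r ω)
      (fun ω' => T * γ ω' < N)
    rw [hφ, hg, hh, hLt, hHv]
    simp only
    unfold fib
    rw [← h1, filter_filter, filter_filter, filter_filter, filter_filter]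
    push_cast
    congr 3 <;>
    · ext ω'
      simp only [mem_filter]
      tauto
  have hltl : ∀ ω ∈ Lt, Real.log T ≤ l ω := by
    intro ω hω
    rw [hLt, mem_filter] at hω
    have h1 := Real.log_le_log (mul_pos hT0 (hγ0 ω hω.1)) hω.2.le
    rw [Real.log_mul hT0.ne' (hγ0 ω hω.1).ne'] at h1
    rw [hl]
    simp only
    linarith
  have hclass : ∀ r ∈ S, ∀ ω ∈ Lt, γ ω ≤ g r ω := by
    intro r hr ω hω
    rw [hLt, mem_filter] at hω
    rw [hγ, hg]
    simp only
    unfold fib
    have : (Ω.filter fun ω' => z ω' = z ω).card ≤ (Lt.filter fun ω' => w r ω' = w r ω).card := by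
      refine card_le_card fun ω' h' => ?_
      rw [mem_filter] at h'
      rw [mem_filter, hLt, mem_filter]
      refine ⟨⟨h'.1, ?_⟩, hz r hr _ _ h'.2⟩
      have : γ ω' = γ ω := fib_congr h'.2
      rw [this]
      exact hω.2
    exact_mod_cast this
  have light1 : ∀ ω ∈ Lt, ∑ r ∈ S, (Real.log (γ ω + h r ω) - Real.log (γ ω)) ≤ T * l ω := by
    intro ω hω
    have hωΩ : ω ∈ Ω := (mem_filter.1 hω).1
    have g0 := hγ0 ω hωΩ
    have n0 := hN0 ω hωΩ
    have h1 : ∀ r ∈ S, Real.log (γ ω + h r ω) - Real.log (γ ω) ≤ (h r ω * T / N) * l ω := by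
      intro r hr
      by_cases hem : (Hv.filter fun ω' => w r ω' = w r ω) = ∅
      · have : h r ω = 0 := by
          rw [hh]
          simp only
          rw [hem, card_empty, Nat.cast_zero]
        rw [this]
        simp
      · obtain ⟨ω', hω'⟩ := nonempty_iff_ne_empty.2 hem
        rw [mem_filter, hHv, mem_filter] at hω'
        obtain ⟨⟨hω'Ω, hheavy⟩, hw⟩ := hω'
        have h2 : γ ω' ≤ h r ω := by
          rw [hγ, hh]
          simp only
          unfold fib
          have : (Ω.filter fun ω'' => z ω'' = z ω').card ≤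
              (Hv.filter fun ω'' => w r ω'' = w r ω).card := by
            refine card_le_card fun ω'' h' => ?_
            rw [mem_filter] at h'
            rw [mem_filter, hHv, mem_filter]
            refine ⟨⟨h'.1, ?_⟩, (hz r hr _ _ h'.2).trans hw⟩
            have : γ ω'' = γ ω' := fib_congr h'.2
            rw [this]
            exact hheavy
          exact_mod_cast this
        have h3 : 1 ≤ h r ω * T / N := by
          rw [le_div_iff₀ n0, one_mul]
          have := not_lt.1 hheavy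
          nlinarith
        have h4 : γ ω + h r ω ≤ N := by
          have h5 := hclass r hr ω hω
          have h6 := hφgh r ω
          have h7 := hφN r hr ω hωΩ
          linarith
        have h5 : Real.log (γ ω + h r ω) ≤ Real.log N := by
          refine Real.log_le_log ?_ h4
          have : (0:ℝ) ≤ h r ω := Nat.cast_nonneg _
          linarith
        calc Real.log (γ ω + h r ω) - Real.log (γ ω) ≤ l ω := by
              rw [hl]
              simp only
              linarith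
          _ = 1 * l ω := (one_mul _).symm
          _ ≤ _ := mul_le_mul_of_nonneg_right h3 (hl0 ω hωΩ)
    refine (sum_le_sum h1).trans ?_
    rw [← sum_mul, ← sum_div, ← sum_mul]
    refine mul_le_mul_of_nonneg_right ?_ (hl0 ω hωΩ)
    rw [div_le_iff₀ n0, mul_comm]
    refine mul_le_mul_of_nonneg_left ?_ hT0.le
    have h2 : ∑ r ∈ S, h r ω ≤ ∑ r ∈ S, (φ r ω - γ ω) := by
      refine sum_le_sum fun r hr => ?_
      rw [hφgh r ω]
      have := hclass r hr ω hω
      linarith
    have := hsum ω hωΩ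
    linarith
  have light2 : ∀ r ∈ S, ∑ ω ∈ Lt, (Real.log (φ r ω) - Real.log (γ ω)) ≤
      ∑ ω ∈ Lt, ((Real.log (γ ω + h r ω) - Real.log (γ ω)) + q r ω / Real.log T * l ω) := by
    intro r hr
    rw [← sum_fiberwise_of_maps_to (s := Lt) (t := Lt.image (w r)) (g := w r)
      (fun ω hω => mem_image_of_mem _ hω),
      ← sum_fiberwise_of_maps_to (s := Lt) (t := Lt.image (w r)) (g := w r)
      (fun ω hω => mem_image_of_mem _ hω) (f := fun ω =>
        ((Real.log (γ ω + h r ω) - Real.log (γ ω)) + q r ω / Real.log T * l ω))]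
    refine sum_le_sum fun v hv => ?_
    obtain ⟨ω₀, hω₀, rfl⟩ := mem_image.1 hv
    set G : Finset α := Lt.filter fun ω => w r ω = w r ω₀ with hG
    have hGne : G.Nonempty := ⟨ω₀, by rw [hG, mem_filter]; exact ⟨hω₀, rfl⟩⟩
    have hGL : ∀ ω ∈ G, ω ∈ Lt := fun ω hω => (mem_filter.1 hω).1
    have hGΩ : ∀ ω ∈ G, ω ∈ Ω := fun ω hω => (mem_filter.1 (hGL ω hω)).1
    have hGw : ∀ ω ∈ G, w r ω = w r ω₀ := fun ω hω => (mem_filter.1 hω).2
    have hnn : ∀ ω ∈ G, num Ω z (w r) ω = num Ω z (w r) ω₀ := fun ω hω => num_congr z (hGw ω hω)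
    by_cases hbig : Real.log T < Real.log (num Ω z (w r) ω₀)
    · refine sum_le_sum fun ω hω => ?_
      have h1 : q r ω = Real.log T := by
        rw [hq]
        simp only
        rw [hnn ω hω]
        exact min_eq_right hbig.le
      rw [h1, div_self hlT.ne', one_mul]
      have h3 : Real.log (γ ω) ≤ Real.log (γ ω + h r ω) :=
        Real.log_le_log (hγ0 ω (hGΩ ω hω)) (by
          have : (0:ℝ) ≤ h r ω := Nat.cast_nonneg _
          linarith)
      have h4 : Real.log (φ r ω) ≤ Real.log N :=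
        Real.log_le_log (hφ0 r hr ω (hGΩ ω hω)) (hφN r hr ω (hGΩ ω hω))
      rw [hl]
      simp only
      linarith
    · have h1 : ∀ ω ∈ G, q r ω = Real.log (num Ω z (w r) ω₀) := by
        intro ω hω
        rw [hq]
        simp only
        rw [hnn ω hω]
        exact min_eq_left (not_lt.1 hbig)
      have hn0 : 0 ≤ Real.log (num Ω z (w r) ω₀) := by
        refine Real.log_nonneg ?_
        exact_mod_cast num_pos z (w r) (hGΩ ω₀ (by rw [hG, mem_filter]; exact ⟨hω₀, rfl⟩))
      have hgG : ∀ ω ∈ G, g r ω = G.card := by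
        intro ω hω
        rw [hg, hG]
        simp only
        rw [hGw ω hω]
      have hfG : ∀ ω ∈ G, fib G z ω = γ ω := by
        intro ω hω
        rw [hγ]
        simp only
        unfold fib
        congr 2
        ext ω'
        simp only [hG, hLt, mem_filter]
        constructor
        · rintro ⟨⟨⟨h1, h2⟩, h3⟩, h4⟩
          exact ⟨h1, h4⟩
        · rintro ⟨h1, h4⟩
          have h5 : γ ω' = γ ω := fib_congr h4
          have h6 := (mem_filter.1 (hGL ω hω)).2
          refine ⟨⟨⟨h1, ?_⟩, (hz r hr _ _ h4).trans (hGw ω hω)⟩, h4⟩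
          rw [h5]
          exact h6
      have h2 := light_fibre G hGne z (num Ω z (w r) ω₀) (by
        rw [num_eq]
        refine card_le_card (image_subset_image ?_)
        intro ω hω
        rw [mem_filter]
        exact ⟨hGΩ ω hω, hGw ω hω⟩)
      have h3 : (G.card : ℝ) * Real.log (num Ω z (w r) ω₀) ≤
          ∑ ω ∈ G, q r ω / Real.log T * l ω := by
        rw [← nsmul_eq_mul, ← sum_const]
        refine sum_le_sum fun ω hω => ?_
        rw [h1 ω hω, div_mul_eq_mul_div, le_div_iff₀ hlT]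
        exact mul_le_mul_of_nonneg_left (hltl ω (hGL ω hω)) hn0
      have h4 : ∀ ω ∈ G, Real.log (φ r ω) - Real.log (γ ω) ≤
          (Real.log (γ ω + h r ω) - Real.log (γ ω)) +
          (Real.log G.card - Real.log (fib G z ω)) := by
        intro ω hω
        have g0 := hγ0 ω (hGΩ ω hω)
        have c0 : (0:ℝ) ≤ h r ω := Nat.cast_nonneg _
        have c1 := hclass r hr ω (hGL ω hω)
        rw [hgG ω hω] at c1
        have c2 : (0:ℝ) < G.card := g0.trans_le c1
        have h5 : φ r ω * γ ω ≤ (γ ω + h r ω) * G.card := by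
          rw [hφgh r ω, hgG ω hω]
          nlinarith
        have h6 := Real.log_le_log (mul_pos (hφ0 r hr ω (hGΩ ω hω)) g0) h5
        rw [Real.log_mul (hφ0 r hr ω (hGΩ ω hω)).ne' g0.ne',
          Real.log_mul (by positivity : γ ω + h r ω ≠ 0) c2.ne'] at h6
        rw [hfG ω hω]
        linarith
      calc _ ≤ _ := sum_le_sum h4
        _ = ∑ ω ∈ G, (Real.log (γ ω + h r ω) - Real.log (γ ω)) +
            ∑ ω ∈ G, (Real.log G.card - Real.log (fib G z ω)) := sum_add_distrib
        _ ≤ ∑ ω ∈ G, (Real.log (γ ω + h r ω) - Real.log (γ ω)) +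
            ∑ ω ∈ G, q r ω / Real.log T * l ω := by linarith
        _ = _ := sum_add_distrib.symm
  have light : ∑ ω ∈ Lt, ∑ r ∈ S, (Real.log (φ r ω) - Real.log (γ ω)) ≤
      ∑ ω ∈ Lt, (T + (∑ r ∈ S, q r ω) / Real.log T) * l ω := by
    rw [sum_comm]
    refine (sum_le_sum light2).trans ?_
    rw [sum_comm]
    refine sum_le_sum fun ω hω => ?_
    rw [sum_add_distrib, ← sum_mul, ← sum_div, add_mul]
    have h1 := light1 ω hω
    linarith
  have hgoal : ∑ ω ∈ Ω, (T + (∑ r ∈ S, q r ω) / Real.log T) * l ω =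
      ∑ ω ∈ Lt, (T + (∑ r ∈ S, q r ω) / Real.log T) * l ω +
      ∑ ω ∈ Hv, (T + (∑ r ∈ S, q r ω) / Real.log T) * l ω := by
    rw [hLt, hHv, sum_filter_add_sum_filter_not]
  rw [goal1, hgoal]
  refine add_le_add light (sum_le_sum fun ω hω => (heavy ω hω).trans ?_)
  have hωΩ := (mem_filter.1 hω).1
  refine mul_le_mul_of_nonneg_right ?_ (hl0 ω hωΩ)
  have : 0 ≤ (∑ r ∈ S, q r ω) / Real.log T :=
    div_nonneg (sum_nonneg fun r hr => hq0 r hr ω hωΩ) hlT.le
  linarith

end Pool.Agent.V7H74.AK
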