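import Pool.Agent.V7H74.AKNode

set_option autoImplicit false

/-!
# Summation over the nodes of a tree
-/

open Finset

namespace Pool.Agent.V7H74.AK

open Pool.Agent.N269.PF

variable {α σ ζ β : Type*}

theorem L_congr {Ω : Finset α} {f : α → β} {g : α → ζ}
    (h : ∀ ω ∈ Ω, ∀ ω' ∈ Ω, f ω' = f ω ↔ g ω' = g ω) : L Ω f = L Ω g := by
  classical
  unfold L
  refine sum_congr rfl fun ω hω => ?_
  unfold fib
  congr 3
  exact filter_congr fun ω' hω' => h ω hω ω' hω'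

theorem L_split [DecidableEq ζ] (Ω : Finset α) (q : α → β) (p : α → ζ)
    (h : ∀ ω ω', q ω = q ω' → p ω = p ω') :
    L Ω q = ∑ u ∈ Ω.image p, L (Ω.filter fun ω => p ω = u) q := by
  classical
  unfold L
  rw [← sum_fiberwise_of_maps_to (s := Ω) (t := Ω.image p) (g := p)
    (fun ω hω => mem_image_of_mem _ hω)]
  refine sum_congr rfl fun u _ => sum_congr rfl fun ω hω => ?_
  unfold fib
  congr 3
  ext ω'
  simp only [mem_filter]
  constructor
  · rintro ⟨h1, h2⟩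
    exact ⟨⟨h1, (h _ _ h2).trans (mem_filter.1 hω).2⟩, h2⟩
  · rintro ⟨⟨h1, _⟩, h2⟩
    exact ⟨h1, h2⟩

theorem L_const {Ω : Finset α} {p : α → ζ} (h : ∀ ω ∈ Ω, ∀ ω' ∈ Ω, p ω' = p ω) :
    L Ω p = Ω.card * Real.log Ω.card := by
  classical
  unfold L
  rw [← nsmul_eq_mul, ← sum_const]
  refine sum_congr rfl fun ω hω => ?_
  unfold fib
  congr 2
  rw [filter_true_of_mem fun ω' hω' => h ω hω ω' hω']

theorem L_inj {Ω : Finset α} {p : α → ζ} (h : ∀ ω ∈ Ω, ∀ ω' ∈ Ω, p ω' = p ω → ω' = ω) :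
    L Ω p = 0 := by
  classical
  unfold L
  refine sum_eq_zero fun ω hω => ?_
  unfold fib
  have : (Ω.filter fun ω' => p ω' = p ω) = {ω} := by
    ext ω'
    rw [mem_filter, mem_singleton]
    constructor
    · rintro ⟨h1, h2⟩
      exact h ω hω ω' h1 h2
    · rintro rfl
      exact ⟨hω, rfl⟩
  rw [this, card_singleton, Nat.cast_one, Real.log_one]

theorem tree {δ ε : ℕ → Type*} [∀ i, DecidableEq (δ i)] (Ω : Finset α) (S : Finset σ) (n : ℕ)
    (p : (i : ℕ) → α → δ i) (V : σ → α → β) (w : (i : ℕ) → σ → α → ε i)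
    (hp0 : ∀ ω ∈ Ω, ∀ ω' ∈ Ω, p 0 ω' = p 0 ω)
    (hp : ∀ i < n, ∀ ω ω', p (i + 1) ω = p (i + 1) ω' → p i ω = p i ω')
    (hpn : ∀ ω ∈ Ω, ∀ ω' ∈ Ω, p n ω' = p n ω → ω' = ω)
    (hw1 : ∀ i < n, ∀ r ∈ S, ∀ ω ω', p (i + 1) ω = p (i + 1) ω' → w i r ω = w i r ω')
    (hw2 : ∀ i < n, ∀ r ∈ S, ∀ ω ω', V r ω = V r ω' → p i ω = p i ω' → w i r ω = w i r ω')
    (hpair : ∀ i < n, ∀ ω ∈ Ω, ∀ ω' ∈ Ω, p i ω' = p i ω → ∀ r ∈ S, ∀ r' ∈ S, r ≠ r' →
      w i r ω' = w i r ω → w i r' ω' = w i r' ω → p (i + 1) ω' = p (i + 1) ω)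
    (T : ℝ) (hT : 1 < T) :
    ∑ r ∈ S, L Ω (V r) ≤ T * (Ω.card * Real.log Ω.card) +
      (∑ ω ∈ Ω, ∑ i ∈ range n, (Real.log (fib Ω (p i) ω) - Real.log (fib Ω (p (i + 1)) ω)) *
        ∑ r ∈ S, min (Real.log
          (num (Ω.filter fun ω' => p i ω' = p i ω) (p (i + 1)) (w i r) ω)) (Real.log T)) /
        Real.log T := by
  classical
  set Q : ℕ → α → ℝ := fun i ω => ∑ r ∈ S, min (Real.log
    (num (Ω.filter fun ω' => p i ω' = p i ω) (p (i + 1)) (w i r) ω)) (Real.log T) with hQ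
  set l : ℕ → α → ℝ := fun i ω => Real.log (fib Ω (p i) ω) - Real.log (fib Ω (p (i + 1)) ω)
    with hl
  -- one level
  have level : ∀ i < n, ∑ r ∈ S, (L Ω (fun ω => (w i r ω, p i ω)) - L Ω (p (i + 1))) ≤
      ∑ ω ∈ Ω, (T + Q i ω / Real.log T) * l i ω := by
    intro i hi
    have e1 : ∀ r ∈ S, L Ω (fun ω => (w i r ω, p i ω)) - L Ω (p (i + 1)) =
        ∑ u ∈ Ω.image (p i), (L (Ω.filter fun ω => p i ω = u) (w i r) -
          L (Ω.filter fun ω => p i ω = u) (p (i + 1))) := by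
      intro r _
      rw [sum_sub_distrib, ← L_split Ω (p (i + 1)) (p i) (hp i hi),
        L_split Ω (fun ω => (w i r ω, p i ω)) (p i) (fun ω ω' h => (Prod.ext_iff.1 h).2)]
      congr 1
      refine sum_congr rfl fun u _ => L_congr fun ω hω ω' hω' => ?_
      rw [mem_filter] at hω hω'
      rw [Prod.ext_iff]
      simp only
      rw [hω.2, hω'.2]
      simp
    rw [sum_congr rfl e1, sum_comm, ← sum_fiberwise_of_maps_to (s := Ω) (t := Ω.image (p i))
      (g := p i) (fun ω hω => mem_image_of_mem _ hω)]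
    refine sum_le_sum fun u hu => ?_
    refine (node (Ω.filter fun ω => p i ω = u) (p (i + 1)) S (w i) (hw1 i hi) ?_ T hT).trans
      (le_of_eq (sum_congr rfl fun ω hω => ?_))
    · intro ω hω ω' hω' r hr r' hr' hne h1 h2
      rw [mem_filter] at hω hω'
      exact hpair i hi ω hω.1 ω' hω'.1 (by rw [hω.2, hω'.2]) r hr r' hr' hne h1 h2
    · rw [mem_filter] at hω
      obtain ⟨hω, rfl⟩ := hω
      have e3 : fib (Ω.filter fun ω' => p i ω' = p i ω) (p (i + 1)) ω =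
          fib Ω (p (i + 1)) ω := by
        unfold fib
        congr 2
        ext ω'
        simp only [mem_filter]
        constructor
        · rintro ⟨⟨h1, _⟩, h2⟩
          exact ⟨h1, h2⟩
        · rintro ⟨h1, h2⟩
          exact ⟨⟨h1, hp i hi _ _ h2⟩, h2⟩
      have e4 : (((Ω.filter fun ω' => p i ω' = p i ω).card : ℕ) : ℝ) = fib Ω (p i) ω :=
        (fib_eq Ω (p i) ω).symm
      rw [e3, e4]
  -- the chain rule
  have step : ∀ r ∈ S, ∀ i < n, L Ω (fun ω => (V r ω, p i ω)) - L Ω (fun ω => (V r ω, p (i + 1) ω)) ≤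
      L Ω (fun ω => (w i r ω, p i ω)) - L Ω (p (i + 1)) := by
    intro r hr i hi
    have h1 := submod Ω (fun ω => (V r ω, p i ω)) (p (i + 1)) (fun ω => (w i r ω, p i ω))
      (by
        intro ω ω' h
        rw [Prod.ext_iff] at h ⊢
        exact ⟨hw2 i hi r hr _ _ h.1 h.2, h.2⟩)
      (by
        intro ω ω' h
        rw [Prod.ext_iff]
        exact ⟨hw1 i hi r hr _ _ h, hp i hi _ _ h⟩)
    have h2 : L Ω (fun ω => ((V r ω, p i ω), p (i + 1) ω)) =
        L Ω (fun ω => (V r ω, p (i + 1) ω)) := by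
      refine L_congr fun ω _ ω' _ => ?_
      simp only [Prod.ext_iff]
      constructor
      · rintro ⟨⟨h1, _⟩, h2⟩
        exact ⟨h1, h2⟩
      · rintro ⟨h1, h2⟩
        exact ⟨⟨h1, hp i hi _ _ h2⟩, h2⟩
    rw [h2] at h1
    linarith
  have total : ∀ r ∈ S, L Ω (V r) ≤
      ∑ i ∈ range n, (L Ω (fun ω => (w i r ω, p i ω)) - L Ω (p (i + 1))) := by
    intro r hr
    have h1 : ∑ i ∈ range n, (L Ω (fun ω => (V r ω, p i ω)) -
        L Ω (fun ω => (V r ω, p (i + 1) ω))) =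
        L Ω (fun ω => (V r ω, p 0 ω)) - L Ω (fun ω => (V r ω, p n ω)) :=
      sum_range_sub' (fun i => L Ω (fun ω => (V r ω, p i ω))) n
    have h2 : L Ω (fun ω => (V r ω, p 0 ω)) = L Ω (V r) := by
      refine L_congr fun ω hω ω' hω' => ?_
      rw [Prod.ext_iff]
      simp only [and_iff_left_iff_imp]
      exact fun _ => hp0 ω hω ω' hω'
    have h3 : L Ω (fun ω => (V r ω, p n ω)) = 0 := by
      refine L_inj fun ω hω ω' hω' h => ?_
      exact hpn ω hω ω' hω' (Prod.ext_iff.1 h).2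
    rw [h2, h3, sub_zero] at h1
    rw [← h1]
    exact sum_le_sum fun i hi => step r hr i (mem_range.1 hi)
  refine (sum_le_sum total).trans ?_
  rw [sum_comm]
  refine (sum_le_sum fun i hi => level i (mem_range.1 hi)).trans ?_
  rw [sum_comm]
  have e5 : ∀ ω ∈ Ω, ∑ i ∈ range n, (T + Q i ω / Real.log T) * l i ω =
      T * (Real.log (fib Ω (p 0) ω) - Real.log (fib Ω (p n) ω)) +
      (∑ i ∈ range n, l i ω * Q i ω) / Real.log T := by
    intro ω _
    rw [← sum_range_sub' (fun i => Real.log (fib Ω (p i) ω)) n, mul_sum, sum_div,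
      ← sum_add_distrib]
    refine sum_congr rfl fun i _ => ?_
    simp only [hl]
    ring
  rw [sum_congr rfl e5, sum_add_distrib, ← mul_sum, ← sum_div, sum_sub_distrib]
  have e6 := L_const hp0
  have e7 := L_inj hpn
  unfold L at e6 e7
  rw [e6, e7, sub_zero]

/-- There is a slope with a large projection. -/
theorem main {δ ε : ℕ → Type*} [∀ i, DecidableEq (δ i)] [DecidableEq β] (Ω : Finset α)
    (hΩ : Ω.Nonempty) (S : Finset σ) (hS : S.Nonempty) (n : ℕ)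
    (p : (i : ℕ) → α → δ i) (V : σ → α → β) (w : (i : ℕ) → σ → α → ε i)
    (hp0 : ∀ ω ∈ Ω, ∀ ω' ∈ Ω, p 0 ω' = p 0 ω)
    (hp : ∀ i < n, ∀ ω ω', p (i + 1) ω = p (i + 1) ω' → p i ω = p i ω')
    (hpn : ∀ ω ∈ Ω, ∀ ω' ∈ Ω, p n ω' = p n ω → ω' = ω)
    (hw1 : ∀ i < n, ∀ r ∈ S, ∀ ω ω', p (i + 1) ω = p (i + 1) ω' → w i r ω = w i r ω')
    (hw2 : ∀ i < n, ∀ r ∈ S, ∀ ω ω', V r ω = V r ω' → p i ω = p i ω' → w i r ω = w i r ω')
    (hpair : ∀ i < n, ∀ ω ∈ Ω, ∀ ω' ∈ Ω, p i ω' = p i ω → ∀ r ∈ S, ∀ r' ∈ S, r ≠ r' →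
      w i r ω' = w i r ω → w i r' ω' = w i r' ω → p (i + 1) ω' = p (i + 1) ω)
    (T : ℝ) (hT : 1 < T) :
    ∃ r ∈ S, (Ω.card : ℝ) ^ (1 - T / S.card) ≤ Real.exp
      ((∑ ω ∈ Ω, ∑ i ∈ range n, Real.log (fib Ω (p i) ω / fib Ω (p (i + 1)) ω) *
        (∑ r ∈ S, Real.log (min
          (num (Ω.filter fun ω' => p i ω' = p i ω) (p (i + 1)) (w i r) ω : ℝ) T)) / S.card) /
        Ω.card / Real.log T) * ((Ω.image (V r)).card : ℝ) := by
  have hK0 : (0:ℝ) < S.card := by exact_mod_cast card_pos.2 hS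
  have hN : (0:ℝ) < Ω.card := by exact_mod_cast card_pos.2 hΩ
  have hT0 : 0 < T := by linarith
  have h1 := tree Ω S n p V w hp0 hp hpn hw1 hw2 hpair T hT
  set E : ℝ := ∑ ω ∈ Ω, ∑ i ∈ range n, Real.log (fib Ω (p i) ω / fib Ω (p (i + 1)) ω) *
        (∑ r ∈ S, Real.log (min
          (num (Ω.filter fun ω' => p i ω' = p i ω) (p (i + 1)) (w i r) ω : ℝ) T)) / S.card with hE
  have e1 : ∑ ω ∈ Ω, ∑ i ∈ range n, (Real.log (fib Ω (p i) ω) -
      Real.log (fib Ω (p (i + 1)) ω)) * ∑ r ∈ S, min (Real.log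
        (num (Ω.filter fun ω' => p i ω' = p i ω) (p (i + 1)) (w i r) ω)) (Real.log T) =
      S.card * E := by
    rw [hE, mul_sum]
    refine sum_congr rfl fun ω hω => ?_
    rw [mul_sum]
    refine sum_congr rfl fun i _ => ?_
    rw [Real.log_div (fib_pos _ hω).ne' (fib_pos _ hω).ne']
    have e2 : ∀ r ∈ S, min (Real.log
        (num (Ω.filter fun ω' => p i ω' = p i ω) (p (i + 1)) (w i r) ω)) (Real.log T) =
        Real.log (min
          (num (Ω.filter fun ω' => p i ω' = p i ω) (p (i + 1)) (w i r) ω : ℝ) T) := by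
      intro r _
      have hmem : ω ∈ Ω.filter fun ω' => p i ω' = p i ω := mem_filter.2 ⟨hω, rfl⟩
      have h3 : (1:ℝ) ≤ (num (Ω.filter fun ω' => p i ω' = p i ω) (p (i + 1)) (w i r) ω : ℝ) := by
        exact_mod_cast num_pos (p (i + 1)) (w i r) hmem
      rcases le_total (num (Ω.filter fun ω' => p i ω' = p i ω) (p (i + 1)) (w i r) ω : ℝ) T
        with h5 | h5
      · rw [min_eq_left h5, min_eq_left (Real.log_le_log (by linarith) h5)]
      · rw [min_eq_right h5, min_eq_right (Real.log_le_log hT0 h5)]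
    rw [sum_congr rfl e2]
    field_simp
  rw [e1] at h1
  obtain ⟨r, hr, h2⟩ := exists_le_of_sum_le (s := S) hS
    (f := fun r => L Ω (V r)) (g := fun _ => T / S.card * (Ω.card * Real.log Ω.card) +
      E / Real.log T) (by
      rw [sum_const, nsmul_eq_mul]
      refine h1.trans (le_of_eq ?_)
      field_simp)
  refine ⟨r, hr, ?_⟩
  have h3 := log_card_le Ω hΩ (V r)
  have hI : (0:ℝ) < (Ω.image (V r)).card := by exact_mod_cast card_pos.2 (hΩ.image (V r))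
  rw [← Real.log_le_log_iff (by positivity) (by positivity), Real.log_rpow hN,
    Real.log_mul (Real.exp_pos _).ne' hI.ne', Real.log_exp]
  have h4 : (Ω.card : ℝ) * ((1 - T / S.card) * Real.log Ω.card) ≤
      Ω.card * (E / Ω.card / Real.log T + Real.log (Ω.image (V r)).card) := by
    have h5 : (Ω.card : ℝ) * (E / Ω.card / Real.log T + Real.log (Ω.image (V r)).card) =
        E / Real.log T + Ω.card * Real.log (Ω.image (V r)).card := by
      field_simp
    rw [h5]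
    nlinarith
  exact le_of_mul_le_mul_left h4 hN

end Pool.Agent.V7H74.AK
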