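import Pool.Agent.V7H74.AKTree

set_option autoImplicit false

/-!
# Summation over the nodes of a tree, with an arbitrary inequality at the nodes
-/

open Finset

namespace Pool.Agent.V7H74.AK

open Pool.Agent.N269.PF

variable {α σ ζ β : Type*}

theorem tree3 {δ ε : ℕ → Type*} [∀ i, DecidableEq (δ i)] (Ω : Finset α) (S : Finset σ)
    (n : ℕ)
    (p : (i : ℕ) → α → δ i) (V : σ → α → β) (w : (i : ℕ) → σ → α → ε i)
    (hp0 : ∀ ω ∈ Ω, ∀ ω' ∈ Ω, p 0 ω' = p 0 ω)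
    (hp : ∀ i < n, ∀ ω ω', p (i + 1) ω = p (i + 1) ω' → p i ω = p i ω')
    (hpn : ∀ ω ∈ Ω, ∀ ω' ∈ Ω, p n ω' = p n ω → ω' = ω)
    (hw1 : ∀ i < n, ∀ r ∈ S, ∀ ω ω', p (i + 1) ω = p (i + 1) ω' → w i r ω = w i r ω')
    (hw2 : ∀ i < n, ∀ r ∈ S, ∀ ω ω', V r ω = V r ω' → p i ω = p i ω' → w i r ω = w i r ω')
    (T : ℝ) (lam : ℕ → α → ℝ)
    (hlam : ∀ i < n, ∀ ω ∈ Ω, ∀ ω' ∈ Ω, p i ω' = p i ω → lam i ω' = lam i ω)
    (hnode : ∀ i < n, ∀ ω ∈ Ω, ∀ G : Finset α, (∀ ω', ω' ∈ G ↔ ω' ∈ Ω ∧ p i ω' = p i ω) →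
      ∑ r ∈ S, (L G (w i r) - L G (p (i + 1))) ≤
      (T + S.card * lam i ω) * (G.card * Real.log G.card - L G (p (i + 1)))) :
    ∑ r ∈ S, L Ω (V r) ≤ T * (Ω.card * Real.log Ω.card) +
      S.card * ∑ ω ∈ Ω, ∑ i ∈ range n,
        (Real.log (fib Ω (p i) ω) - Real.log (fib Ω (p (i + 1)) ω)) * lam i ω := by
  classical
  set l : ℕ → α → ℝ := fun i ω => Real.log (fib Ω (p i) ω) - Real.log (fib Ω (p (i + 1)) ω)
    with hl
  -- one level
  have level : ∀ i < n, ∑ r ∈ S, (L Ω (fun ω => (w i r ω, p i ω)) - L Ω (p (i + 1))) ≤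
      ∑ ω ∈ Ω, (T + S.card * lam i ω) * l i ω := by
    intro i hi
    have e1 : ∀ r ∈ S, L Ω (fun ω => (w i r ω, p i ω)) - L Ω (p (i + 1)) =
        ∑ u ∈ Ω.image (p i), (L (Ω.filter fun ω => p i ω = u) (w i r) -
          L (Ω.filter fun ω => p i ω = u) (p (i + 1))) := by
      intro r _
      rw [sum_sub_distrib, ← L_split Ω (p (i + 1)) (p i) (hp i hi),
        L_split Ω (fun ω => (w i r ω, p i ω)) (p i) (fun ω ω' h => (Prod.ext_iff.1 h).2)]
      congr 1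
      refine sum_congr rfl fun u _ => L_congr fun ω hω ω' hω' => ?_
      rw [mem_filter] at hω hω'
      rw [Prod.ext_iff]
      simp only
      rw [hω.2, hω'.2]
      simp
    rw [sum_congr rfl e1, sum_comm, ← sum_fiberwise_of_maps_to (s := Ω) (t := Ω.image (p i))
      (g := p i) (fun ω hω => mem_image_of_mem _ hω)]
    refine sum_le_sum fun u hu => ?_
    obtain ⟨ω₀, hω₀, rfl⟩ := mem_image.1 hu
    set G : Finset α := Ω.filter fun ω => p i ω = p i ω₀ with hG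
    have hGm : ∀ ω ∈ G, ω ∈ Ω ∧ p i ω = p i ω₀ := fun ω hω => mem_filter.1 hω
    have hl1 : ∀ ω ∈ G, l i ω = Real.log G.card - Real.log (fib G (p (i + 1)) ω) := by
      intro ω hω
      have e3 : fib G (p (i + 1)) ω = fib Ω (p (i + 1)) ω := by
        unfold fib
        congr 2
        ext ω'
        simp only [hG, mem_filter]
        constructor
        · rintro ⟨⟨h1, _⟩, h2⟩
          exact ⟨h1, h2⟩
        · rintro ⟨h1, h2⟩
          exact ⟨⟨h1, (hp i hi _ _ h2).trans (hGm ω hω).2⟩, h2⟩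
      have e4 : ((G.card : ℕ) : ℝ) = fib Ω (p i) ω := by
        rw [fib_eq, hG, (hGm ω hω).2]
      rw [e3, e4]
    have hGl0 : ∀ ω ∈ G, 0 ≤ l i ω := by
      intro ω hω
      rw [hl1 ω hω, sub_nonneg]
      exact Real.log_le_log (fib_pos _ hω) (fib_le_card _ _ _)
    have hsumG : (G.card : ℝ) * Real.log G.card - L G (p (i + 1)) = ∑ ω ∈ G, l i ω := by
      rw [sum_congr rfl hl1, sum_sub_distrib, sum_const, nsmul_eq_mul]
      rfl
    have hlamG : ∀ ω ∈ G, lam i ω = lam i ω₀ := fun ω hω =>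
      hlam i hi ω₀ hω₀ ω (hGm ω hω).1 (hGm ω hω).2
    have h1 := hnode i hi ω₀ hω₀ G (fun ω => mem_filter)
    rw [hsumG, mul_sum] at h1
    refine h1.trans (le_of_eq (sum_congr rfl fun ω hω => ?_))
    rw [hlamG ω hω]
  -- the chain rule
  have step : ∀ r ∈ S, ∀ i < n, L Ω (fun ω => (V r ω, p i ω)) -
      L Ω (fun ω => (V r ω, p (i + 1) ω)) ≤
      L Ω (fun ω => (w i r ω, p i ω)) - L Ω (p (i + 1)) := by
    intro r hr i hi
    have h1 := submod Ω (fun ω => (V r ω, p i ω)) (p (i + 1)) (fun ω => (w i r ω, p i ω))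
      (by
        intro ω ω' h
        rw [Prod.ext_iff] at h ⊢
        exact ⟨hw2 i hi r hr _ _ h.1 h.2, h.2⟩)
      (by
        intro ω ω' h
        rw [Prod.ext_iff]
        exact ⟨hw1 i hi r hr _ _ h, hp i hi _ _ h⟩)
    have h2 : L Ω (fun ω => ((V r ω, p i ω), p (i + 1) ω)) =
        L Ω (fun ω => (V r ω, p (i + 1) ω)) := by
      refine L_congr fun ω _ ω' _ => ?_
      simp only [Prod.ext_iff]
      constructor
      · rintro ⟨⟨h1, _⟩, h2⟩
        exact ⟨h1, h2⟩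
      · rintro ⟨h1, h2⟩
        exact ⟨⟨h1, hp i hi _ _ h2⟩, h2⟩
    rw [h2] at h1
    linarith
  have total : ∀ r ∈ S, L Ω (V r) ≤
      ∑ i ∈ range n, (L Ω (fun ω => (w i r ω, p i ω)) - L Ω (p (i + 1))) := by
    intro r hr
    have h1 : ∑ i ∈ range n, (L Ω (fun ω => (V r ω, p i ω)) -
        L Ω (fun ω => (V r ω, p (i + 1) ω))) =
        L Ω (fun ω => (V r ω, p 0 ω)) - L Ω (fun ω => (V r ω, p n ω)) :=
      sum_range_sub' (fun i => L Ω (fun ω => (V r ω, p i ω))) n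
    have h2 : L Ω (fun ω => (V r ω, p 0 ω)) = L Ω (V r) := by
      refine L_congr fun ω hω ω' hω' => ?_
      rw [Prod.ext_iff]
      simp only [and_iff_left_iff_imp]
      exact fun _ => hp0 ω hω ω' hω'
    have h3 : L Ω (fun ω => (V r ω, p n ω)) = 0 := by
      refine L_inj fun ω hω ω' hω' h => ?_
      exact hpn ω hω ω' hω' (Prod.ext_iff.1 h).2
    rw [h2, h3, sub_zero] at h1
    rw [← h1]
    exact sum_le_sum fun i hi => step r hr i (mem_range.1 hi)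
  refine (sum_le_sum total).trans ?_
  rw [sum_comm]
  refine (sum_le_sum fun i hi => level i (mem_range.1 hi)).trans ?_
  rw [sum_comm]
  have e5 : ∀ ω ∈ Ω, ∑ i ∈ range n, (T + S.card * lam i ω) * l i ω =
      T * (Real.log (fib Ω (p 0) ω) - Real.log (fib Ω (p n) ω)) +
      S.card * ∑ i ∈ range n, l i ω * lam i ω := by
    intro ω _
    rw [← sum_range_sub' (fun i => Real.log (fib Ω (p i) ω)) n, mul_sum, mul_sum,
      ← sum_add_distrib]
    refine sum_congr rfl fun i _ => ?_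
    simp only [hl]
    ring
  rw [sum_congr rfl e5, sum_add_distrib, ← mul_sum, ← mul_sum, sum_sub_distrib]
  have e6 := L_const hp0
  have e7 := L_inj hpn
  unfold L at e6 e7
  rw [e6, e7, sub_zero]

/-- There is a slope with a large projection. -/
theorem main3 {δ ε : ℕ → Type*} [∀ i, DecidableEq (δ i)] [DecidableEq β] (Ω : Finset α)
    (hΩ : Ω.Nonempty) (S : Finset σ) (hSne : S.Nonempty) (n : ℕ)
    (p : (i : ℕ) → α → δ i) (V : σ → α → β) (w : (i : ℕ) → σ → α → ε i)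
    (hp0 : ∀ ω ∈ Ω, ∀ ω' ∈ Ω, p 0 ω' = p 0 ω)
    (hp : ∀ i < n, ∀ ω ω', p (i + 1) ω = p (i + 1) ω' → p i ω = p i ω')
    (hpn : ∀ ω ∈ Ω, ∀ ω' ∈ Ω, p n ω' = p n ω → ω' = ω)
    (hw1 : ∀ i < n, ∀ r ∈ S, ∀ ω ω', p (i + 1) ω = p (i + 1) ω' → w i r ω = w i r ω')
    (hw2 : ∀ i < n, ∀ r ∈ S, ∀ ω ω', V r ω = V r ω' → p i ω = p i ω' → w i r ω = w i r ω')
    (T : ℝ) (lam : ℕ → α → ℝ)
    (hlam : ∀ i < n, ∀ ω ∈ Ω, ∀ ω' ∈ Ω, p i ω' = p i ω → lam i ω' = lam i ω)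
    (hnode : ∀ i < n, ∀ ω ∈ Ω, ∀ G : Finset α, (∀ ω', ω' ∈ G ↔ ω' ∈ Ω ∧ p i ω' = p i ω) →
      ∑ r ∈ S, (L G (w i r) - L G (p (i + 1))) ≤
      (T + S.card * lam i ω) * (G.card * Real.log G.card - L G (p (i + 1)))) :
    ∃ r ∈ S, (1 - T / S.card) * Real.log Ω.card ≤
      (∑ ω ∈ Ω, ∑ i ∈ range n,
        (Real.log (fib Ω (p i) ω) - Real.log (fib Ω (p (i + 1)) ω)) * lam i ω) / Ω.card +
      Real.log ((Ω.image (V r)).card : ℝ) := by
  have hK0 : (0:ℝ) < S.card := by exact_mod_cast card_pos.2 hSne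
  have hN : (0:ℝ) < Ω.card := by exact_mod_cast card_pos.2 hΩ
  have h1 := tree3 Ω S n p V w hp0 hp hpn hw1 hw2 T lam hlam hnode
  set E : ℝ := ∑ ω ∈ Ω, ∑ i ∈ range n,
    (Real.log (fib Ω (p i) ω) - Real.log (fib Ω (p (i + 1)) ω)) * lam i ω with hE
  obtain ⟨r, hr, h2⟩ := exists_le_of_sum_le (s := S) hSne
    (f := fun r => L Ω (V r)) (g := fun _ => T / S.card * (Ω.card * Real.log Ω.card) + E) (by
      rw [sum_const, nsmul_eq_mul]
      refine h1.trans (le_of_eq ?_)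
      field_simp)
  refine ⟨r, hr, ?_⟩
  have h3 := log_card_le Ω hΩ (V r)
  have h4 : (Ω.card : ℝ) * ((1 - T / S.card) * Real.log Ω.card) ≤
      Ω.card * (E / Ω.card + Real.log (Ω.image (V r)).card) := by
    have h5 : (Ω.card : ℝ) * (E / Ω.card + Real.log (Ω.image (V r)).card) =
        E + Ω.card * Real.log (Ω.image (V r)).card := by
      field_simp
    rw [h5]
    nlinarith
  exact le_of_mul_le_mul_left h4 hN

end Pool.Agent.V7H74.AK
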