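import Pool.Agent.N145.PC.Abs

/-!
Relations between products of functions on the coordinates of a finite set of points: elimination of
several coordinates at the same time, with hitting sets, which exist by the theorem of Hall.
-/

set_option autoImplicit false
set_option linter.overlappingInstances false
set_option linter.unusedSectionVars false

namespace Pool.Agent.V7H74.HL

open Module Pool.Agent.N145.PC

section

variable {Ω : Type} [Field Ω]

/-- a function in the span which is `1` at one point of the set and vanishes at the others -/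
theorem exists_psi {S X : Type} [DecidableEq S] {e : X → S → Ω} {H : Set X} {g : ℕ}
    (hsep : Sep e H g) (σ0 : S) (U : Finset S) (h0 : σ0 ∉ U) (hU : U.card + 1 < g) :
    ∃ ψ ∈ Submodule.span Ω (e '' H), ψ σ0 = 1 ∧ ∀ σ ∈ U, ψ σ = 0 := by
  classical
  obtain ⟨A, hA⟩ : ∃ A, A = insert σ0 U := ⟨_, rfl⟩
  have hAc : A.card < g := by
    rw [hA, Finset.card_insert_of_notMem h0]
    exact hU
  let R : (S → Ω) →ₗ[Ω] (A → Ω) := LinearMap.funLeft Ω Ω (fun a : A => (a : S))
  have htop : (Submodule.span Ω (e '' H)).map R = ⊤ := by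
    by_contra hne
    obtain ⟨ℓ, hℓ, hle⟩ := Submodule.exists_le_ker_of_lt_top _ (lt_top_iff_ne_top.2 hne)
    apply hℓ
    have hℓe : ∀ v : A → Ω, ℓ v = ∑ σ, ℓ (Pi.single σ 1) * v σ := by
      intro v
      conv_lhs => rw [← (Pi.basisFun Ω A).sum_repr v]
      rw [map_sum]
      refine Finset.sum_congr rfl fun σ _ => ?_
      rw [map_smul, smul_eq_mul, mul_comm, Pi.basisFun_apply, Pi.basisFun_repr]
    have h1 := hsep A hAc (fun σ => if h : σ ∈ A then ℓ (Pi.single ⟨σ, h⟩ 1) else 0) (by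
      intro f hf
      have h2 : R (e f) ∈ (Submodule.span Ω (e '' H)).map R :=
        Submodule.mem_map_of_mem (Submodule.subset_span ⟨f, hf, rfl⟩)
      have h3 : ℓ (R (e f)) = 0 := hle h2
      rw [hℓe] at h3
      rw [← h3, ← Finset.sum_coe_sort]
      refine Finset.sum_congr rfl fun σ _ => ?_
      rw [dif_pos σ.2]
      rfl)
    ext σ
    have h2 := h1 σ σ.2
    simp only [σ.2, dif_pos] at h2
    rw [LinearMap.comp_apply, LinearMap.zero_comp, LinearMap.zero_apply]
    exact h2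
  have hmem : (Pi.single (⟨σ0, by rw [hA]; exact Finset.mem_insert_self _ _⟩ : A) (1 : Ω) :
      A → Ω) ∈ (Submodule.span Ω (e '' H)).map R := by
    rw [htop]
    trivial
  obtain ⟨ψ, hψ, hR⟩ := hmem
  refine ⟨ψ, hψ, ?_, fun σ hσ => ?_⟩
  · have h1 := congrFun hR ⟨σ0, by rw [hA]; exact Finset.mem_insert_self _ _⟩
    rw [Pi.single_eq_same] at h1
    exact h1
  · have h1 := congrFun hR ⟨σ, by rw [hA]; exact Finset.mem_insert_of_mem hσ⟩
    rw [Pi.single_eq_of_ne] at h1
    · exact h1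
    · intro h2
      have h3 : σ = σ0 := congrArg Subtype.val h2
      rw [h3] at hσ
      exact h0 hσ

variable {T : Type} [Fintype T] {ι : Type} [Fintype ι] [DecidableEq ι] {S X : ι → Type}
  [∀ i, DecidableEq (S i)] {p : ∀ i, T → S i} {e : ∀ i, X i → S i → Ω} {H : ∀ i, Set (X i)}
  {c : T → Ω} {τ0 : T}

/-- **Elimination of several coordinates with functions in the spans.** -/
theorem rl_psi {G : Finset ι} (hQ : Rl p e H c τ0 ∅) (ψ : ∀ l, S l → Ω)
    (hψ1 : ∀ l ∈ G, ψ l ∈ Submodule.span Ω (e l '' H l)) (hψ2 : ∀ l ∈ G, ψ l (p l τ0) ≠ 0)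
    (hψ3 : ∀ τ, τ ∉ SJ p τ0 G → ∃ l ∈ G, ψ l (p l τ) = 0) : Rl p e H c τ0 G := by
  classical
  have key : ∀ G' : Finset ι, G' ⊆ G → ∀ f : ∀ i, X i, (∀ i ∉ G', f i ∈ H i) →
      ∑ τ, (c τ * ∏ l ∈ G', ψ l (p l τ)) * ∏ i ∈ G'ᶜ, e i (f i) (p i τ) = 0 := by
    intro G'
    induction G' using Finset.induction_on with
    | empty =>
      intro _ f hf
      have h1 := hQ f hf
      have h2 : SJ p τ0 ∅ = Finset.univ := by
        ext τ
        simp [mem_SJ]
      rw [h2] at h1
      rw [← h1]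
      refine Finset.sum_congr rfl fun τ _ => ?_
      rw [Finset.prod_empty, mul_one]
    | insert l G' hl ih =>
      intro hG f hf
      have h1 := ih ((Finset.subset_insert _ _).trans hG)
      have h3 : G'ᶜ = insert l (insert l G')ᶜ := by
        ext i
        simp only [Finset.mem_compl, Finset.mem_insert]
        by_cases h : i = l
        · subst h
          simp [hl]
        · simp [h]
      have h4 : l ∉ (insert l G')ᶜ := by simp
      have h5 : ∀ φ ∈ Submodule.span Ω (e l '' H l),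
          ∑ τ, (c τ * ∏ j ∈ G', ψ j (p j τ)) *
            (φ (p l τ) * ∏ i ∈ (insert l G')ᶜ, e i (f i) (p i τ)) = 0 := by
        intro φ hφ
        induction hφ using Submodule.span_induction with
        | mem φ hφ =>
          obtain ⟨a, ha, rfl⟩ := hφ
          have h6 := h1 (Function.update f l a) (by
            intro i hi
            by_cases h : i = l
            · subst h
              rw [Function.update_self]
              exact ha
            · rw [Function.update_of_ne h]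
              exact hf i (by
                rw [Finset.mem_insert, not_or]
                exact ⟨h, hi⟩))
          rw [← h6]
          refine Finset.sum_congr rfl fun τ _ => ?_
          rw [h3, Finset.prod_insert h4, Function.update_self]
          congr 2
          refine Finset.prod_congr rfl fun i hi => ?_
          have : i ≠ l := by
            rintro rfl
            exact h4 hi
          rw [Function.update_of_ne this]
        | zero => simp
        | add φ φ' _ _ h6 h7 =>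
          simp only [Pi.add_apply, add_mul, mul_add, Finset.sum_add_distrib] at h6 h7 ⊢
          rw [h6, h7, add_zero]
        | smul a φ _ h6 =>
          have h7 : ∀ τ, (c τ * ∏ j ∈ G', ψ j (p j τ)) *
              ((a • φ) (p l τ) * ∏ i ∈ (insert l G')ᶜ, e i (f i) (p i τ)) =
              a * ((c τ * ∏ j ∈ G', ψ j (p j τ)) *
              (φ (p l τ) * ∏ i ∈ (insert l G')ᶜ, e i (f i) (p i τ))) := by
            intro τ
            rw [Pi.smul_apply, smul_eq_mul]
            ring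
          rw [Finset.sum_congr rfl fun τ _ => h7 τ, ← Finset.mul_sum, h6, mul_zero]
      have h6 := h5 (ψ l) (hψ1 l (hG (Finset.mem_insert_self _ _)))
      rw [← h6]
      refine Finset.sum_congr rfl fun τ _ => ?_
      rw [Finset.prod_insert hl]
      ring
  intro f hf
  have h1 := key G (le_refl _) f hf
  have h0 : ∏ l ∈ G, ψ l (p l τ0) ≠ 0 := Finset.prod_ne_zero_iff.2 hψ2
  apply (mul_eq_zero.1 (?_ : (∏ l ∈ G, ψ l (p l τ0)) *
    ∑ τ ∈ SJ p τ0 G, c τ * ∏ i ∈ Gᶜ, e i (f i) (p i τ) = 0)).resolve_left h0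
  have h5 : (∏ l ∈ G, ψ l (p l τ0)) * ∑ τ ∈ SJ p τ0 G, c τ * ∏ i ∈ Gᶜ, e i (f i) (p i τ) =
      ∑ τ ∈ SJ p τ0 G, (c τ * ∏ l ∈ G, ψ l (p l τ)) * ∏ i ∈ Gᶜ, e i (f i) (p i τ) := by
    rw [Finset.mul_sum]
    refine Finset.sum_congr rfl fun τ hτ => ?_
    have h2 : ∏ l ∈ G, ψ l (p l τ) = ∏ l ∈ G, ψ l (p l τ0) :=
      Finset.prod_congr rfl fun l hl => by rw [mem_SJ.1 hτ l hl]
    rw [h2]
    ring
  rw [h5, ← h1, ← Finset.sum_subset (Finset.subset_univ (SJ p τ0 G))]
  · intro τ _ hτ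
    obtain ⟨l, hl, h2⟩ := hψ3 τ hτ
    rw [Finset.prod_eq_zero hl h2, mul_zero, zero_mul]

/-- **Elimination of several coordinates with hitting sets.** -/
theorem rl_hit {G : Finset ι} (hQ : Rl p e H c τ0 ∅) (g : ι → ℕ)
    (hsep : ∀ l ∈ G, Sep (e l) (H l) (g l)) (U : ∀ l, Finset (S l))
    (hU0 : ∀ l ∈ G, p l τ0 ∉ U l) (hUc : ∀ l ∈ G, (U l).card + 1 < g l)
    (hhit : ∀ τ, τ ∉ SJ p τ0 G → ∃ l ∈ G, p l τ ∈ U l) : Rl p e H c τ0 G := by
  classical
  have hex : ∀ l ∈ G, ∃ ψ ∈ Submodule.span Ω (e l '' H l), ψ (p l τ0) = 1 ∧ ∀ σ ∈ U l, ψ σ = 0 :=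
    fun l hl => exists_psi (hsep l hl) _ _ (hU0 l hl) (hUc l hl)
  choose! ψ hψ1 hψ2 hψ3 using hex
  refine rl_psi hQ ψ hψ1 (fun l hl => ?_) fun τ hτ => ?_
  · rw [hψ2 l hl]
    exact one_ne_zero
  · obtain ⟨l, hl, h⟩ := hhit τ hτ
    exact ⟨l, hl, hψ3 l hl _ h⟩

omit [Field Ω] in
/-- **Hitting sets.** -/
theorem hall_hit (p : ∀ i, T → S i) (τ0 : T) (G : Finset ι) (s : ι → ℕ) (q : ℕ) (hq : 0 < q)
    (hcls : ∀ τ, q ≤ (SJ p τ G).card)
    (hB : ∀ B ⊆ G, B.Nonempty → (SJ p τ0 (G \ B)).card ≤ q * (1 + ∑ l ∈ B, (s l - 1))) :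
    ∃ U : ∀ l, Finset (S l), (∀ l ∈ G, p l τ0 ∉ U l ∧ (U l).card ≤ s l - 1) ∧
      ∀ τ, τ ∉ SJ p τ0 G → ∃ l ∈ G, p l τ ∈ U l := by
  classical
  have hself : ∀ τ, τ ∈ SJ p τ G := fun τ => self_SJ G
  have heq : ∀ τ τ', τ ∈ SJ p τ' G → SJ p τ G = SJ p τ' G := by
    intro τ τ' h
    rw [mem_SJ] at h
    ext x
    rw [mem_SJ, mem_SJ]
    exact forall₂_congr fun i hi => by rw [h i hi]
  obtain ⟨P, hP⟩ : ∃ P, P = (Finset.univ.filter fun τ => τ ∉ SJ p τ0 G).image fun τ => SJ p τ G :=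
    ⟨_, rfl⟩
  have hrep : ∀ x : P, ∃ τ, τ ∉ SJ p τ0 G ∧ SJ p τ G = x := by
    rintro ⟨x, hx⟩
    rw [hP] at hx
    obtain ⟨τ, h1, h2⟩ := Finset.mem_image.1 hx
    exact ⟨τ, (Finset.mem_filter.1 h1).2, h2⟩
  choose r hr1 hr2 using hrep
  obtain ⟨t, ht⟩ : ∃ t : P → Finset ((_ : ι) × ℕ), t = fun x =>
    (G.filter fun l => p l (r x) ≠ p l τ0).sigma fun l => Finset.range (s l - 1) := ⟨_, rfl⟩
  have hall : ∃ f : P → (_ : ι) × ℕ, Function.Injective f ∧ ∀ x, f x ∈ t x := by
    rw [← Finset.all_card_le_biUnion_card_iff_exists_injective]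
    intro Y
    rcases Y.eq_empty_or_nonempty with rfl | hY
    · simp
    obtain ⟨B, hBdef⟩ : ∃ B, B = Y.biUnion fun x => G.filter fun l => p l (r x) ≠ p l τ0 := ⟨_, rfl⟩
    have h1 : Y.biUnion t = B.sigma fun l => Finset.range (s l - 1) := by
      ext ⟨l, i⟩
      rw [ht, hBdef]
      simp only [Finset.mem_biUnion, Finset.mem_sigma]
      constructor
      · rintro ⟨x, h1, h2, h3⟩
        exact ⟨⟨x, h1, h2⟩, h3⟩
      · rintro ⟨⟨x, h1, h2⟩, h3⟩
        exact ⟨x, h1, h2, h3⟩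
    have hBG : B ⊆ G := by
      rw [hBdef]
      intro l hl
      obtain ⟨x, -, h2⟩ := Finset.mem_biUnion.1 hl
      exact (Finset.mem_filter.1 h2).1
    have hBn : B.Nonempty := by
      obtain ⟨x, hx⟩ := hY
      have h2 := hr1 x
      rw [mem_SJ] at h2
      push Not at h2
      obtain ⟨l, hl, h3⟩ := h2
      refine ⟨l, ?_⟩
      rw [hBdef]
      exact Finset.mem_biUnion.2 ⟨x, hx, Finset.mem_filter.2 ⟨hl, h3⟩⟩
    have h2 := hB B hBG hBn
    have h3 : (SJ p τ0 G) ∪ (Y.biUnion fun x => SJ p (r x) G) ⊆ SJ p τ0 (G \ B) := by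
      intro τ hτ
      rcases Finset.mem_union.1 hτ with h4 | h4
      · exact SJ_anti Finset.sdiff_subset h4
      · obtain ⟨x, hx, h5⟩ := Finset.mem_biUnion.1 h4
        rw [mem_SJ] at h5 ⊢
        intro l hl
        rw [Finset.mem_sdiff] at hl
        rw [h5 l hl.1]
        by_contra hne
        apply hl.2
        rw [hBdef]
        exact Finset.mem_biUnion.2 ⟨x, hx, Finset.mem_filter.2 ⟨hl.1, hne⟩⟩
    have h4 : Disjoint (SJ p τ0 G) (Y.biUnion fun x => SJ p (r x) G) := by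
      rw [Finset.disjoint_left]
      intro τ h5 h6
      obtain ⟨x, hx, h7⟩ := Finset.mem_biUnion.1 h6
      apply hr1 x
      rw [← heq _ _ h5, heq _ _ h7]
      exact hself _
    have h5 : (Y.biUnion fun x => SJ p (r x) G).card = ∑ x ∈ Y, (SJ p (r x) G).card := by
      apply Finset.card_biUnion
      intro x _ y _ hxy
      refine Finset.disjoint_left.2 ?_
      intro τ h5 h6
      apply hxy
      apply Subtype.ext
      rw [← hr2 x, ← hr2 y, ← heq _ _ h5, ← heq _ _ h6]
    have h6 : Y.card * q ≤ ∑ x ∈ Y, (SJ p (r x) G).card := by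
      rw [← smul_eq_mul, ← Finset.sum_const]
      exact Finset.sum_le_sum fun x _ => hcls _
    have h7 := Finset.card_le_card h3
    rw [Finset.card_union_of_disjoint h4, h5] at h7
    have h8 := hcls τ0
    have h9 : q * (1 + Y.card) ≤ q * (1 + ∑ l ∈ B, (s l - 1)) := by
      calc q * (1 + Y.card) = q + Y.card * q := by ring
        _ ≤ _ := by omega
    have h10 := Nat.le_of_mul_le_mul_left h9 hq
    rw [h1, Finset.card_sigma]
    simp only [Finset.card_range]
    omega
  obtain ⟨a, ha1, ha2⟩ := hall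
  refine ⟨fun l => (Finset.univ.filter fun x : P => (a x).1 = l).image fun x => p l (r x),
    fun l hl => ⟨?_, ?_⟩, fun τ hτ => ?_⟩
  · intro h1
    obtain ⟨x, h2, h3⟩ := Finset.mem_image.1 h1
    have h4 := (Finset.mem_filter.1 h2).2
    have h5 := ha2 x
    rw [ht] at h5
    have h6 := (Finset.mem_filter.1 (Finset.mem_sigma.1 h5).1).2
    rw [h4] at h6
    exact h6 h3
  · refine Finset.card_image_le.trans ?_
    rw [← Finset.card_range (s l - 1)]
    refine Finset.card_le_card_of_injOn (fun x => (a x).2) ?_ ?_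
    · intro x hx
      have h4 := (Finset.mem_filter.1 hx).2
      have h5 := ha2 x
      rw [ht] at h5
      have h6 := (Finset.mem_sigma.1 h5).2
      rw [h4] at h6
      exact h6
    · intro x hx y hy hxy
      apply ha1
      have h4 := (Finset.mem_filter.1 hx).2
      have h5 := (Finset.mem_filter.1 hy).2
      exact Sigma.ext (h4.trans h5.symm) (heq_of_eq hxy)
  · have hx : SJ p τ G ∈ P := by
      rw [hP]
      exact Finset.mem_image.2 ⟨τ, Finset.mem_filter.2 ⟨Finset.mem_univ _, hτ⟩, rfl⟩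
    have h5 := ha2 ⟨_, hx⟩
    rw [ht] at h5
    have h6 := (Finset.mem_filter.1 (Finset.mem_sigma.1 h5).1).1
    refine ⟨_, h6, Finset.mem_image.2 ⟨⟨_, hx⟩, Finset.mem_filter.2 ⟨Finset.mem_univ _, rfl⟩, ?_⟩⟩
    have h7 : r ⟨_, hx⟩ ∈ SJ p τ G := by
      have h8 := hr2 ⟨_, hx⟩
      have h9 := hself (r ⟨_, hx⟩)
      rw [h8] at h9
      exact h9
    exact mem_SJ.1 h7 _ h6

omit [Field Ω] in
/-- **Hitting sets for several blocks.** -/
theorem hall_blk (p : ∀ i, T → S i) (τ0 : T) (G : Finset ι) (s b : ι → ℕ) (q : ℕ → ℕ)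
    (hq : ∀ t, 0 < q t) (hcls : ∀ t τ, q t ≤ (SJ p τ (G.filter fun l => b l ≤ t)).card)
    (hB : ∀ t, ∀ B ⊆ G, B.Nonempty → (∀ l ∈ B, b l = t) →
      (SJ p τ0 ((G.filter fun l => b l ≤ t) \ B)).card ≤ q t * (1 + ∑ l ∈ B, (s l - 1))) :
    ∃ U : ∀ l, Finset (S l), (∀ l ∈ G, p l τ0 ∉ U l ∧ (U l).card ≤ s l - 1) ∧
      ∀ τ, τ ∉ SJ p τ0 G → ∃ l ∈ G, p l τ ∈ U l := by
  classical
  have key : ∀ t, ∃ U : ∀ l, Finset (S l),
      (∀ l ∈ G.filter fun l => b l = t, p l τ0 ∉ U l ∧ (U l).card ≤ s l - 1) ∧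
      ∀ τ, τ ∈ SJ p τ0 (G.filter fun l => b l < t) → τ ∉ SJ p τ0 (G.filter fun l => b l = t) →
        ∃ l ∈ G.filter fun l => b l = t, p l τ ∈ U l := by
    intro t
    obtain ⟨A, hA⟩ : ∃ A, A = SJ p τ0 (G.filter fun l => b l < t) := ⟨_, rfl⟩
    have h0 : τ0 ∈ A := by
      rw [hA]
      exact self_SJ _
    have hAm : ∀ τ, τ ∈ A ↔ ∀ i ∈ G.filter fun l => b l < t, p i τ = p i τ0 := by
      intro τ
      rw [hA, mem_SJ]
    have hcard : ∀ (τ : A) (J : Finset ι),
        (SJ (fun i (τ : A) => p i τ) τ J).card =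
          (SJ p (τ : T) ((G.filter fun l => b l < t) ∪ J)).card := by
      intro τ J
      rw [← Finset.card_map (Function.Embedding.subtype _)]
      congr 1
      have h1 := (hAm _).1 τ.2
      ext τ'
      simp only [Finset.mem_map, Function.Embedding.coe_subtype, mem_SJ, Finset.mem_union]
      constructor
      · rintro ⟨τ'', h2, rfl⟩ i hi
        rcases hi with hi | hi
        · rw [(hAm _).1 τ''.2 i hi, h1 i hi]
        · exact h2 i hi
      · intro h2
        refine ⟨⟨τ', (hAm _).2 fun i hi => ?_⟩, fun i hi => h2 i (Or.inr hi), rfl⟩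
        rw [h2 i (Or.inl hi), h1 i hi]
    have hun : (G.filter fun l => b l < t) ∪ (G.filter fun l => b l = t) =
        G.filter fun l => b l ≤ t := by
      ext l
      simp only [Finset.mem_union, Finset.mem_filter]
      constructor
      · rintro (⟨h1, h2⟩ | ⟨h1, h2⟩)
        · exact ⟨h1, h2.le⟩
        · exact ⟨h1, h2.le⟩
      · rintro ⟨h1, h2⟩
        rcases h2.lt_or_eq with h3 | h3
        · exact Or.inl ⟨h1, h3⟩
        · exact Or.inr ⟨h1, h3⟩
    obtain ⟨U, hU1, hU2⟩ := hall_hit (fun i (τ : A) => p i τ) ⟨τ0, h0⟩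
      (G.filter fun l => b l = t) s (q t) (hq t) (fun τ => by
        rw [hcard, hun]
        exact hcls t _) (fun B hBG hBn => by
        rw [hcard]
        have h1 : (G.filter fun l => b l < t) ∪ ((G.filter fun l => b l = t) \ B) =
            (G.filter fun l => b l ≤ t) \ B := by
          rw [← hun, Finset.union_sdiff_distrib]
          congr 1
          symm
          rw [Finset.sdiff_eq_self_iff_disjoint, Finset.disjoint_left]
          intro l h1 h2
          have h3 := (Finset.mem_filter.1 h1).2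
          have h4 := (Finset.mem_filter.1 (hBG h2)).2
          omega
        rw [h1]
        exact hB t B (hBG.trans (Finset.filter_subset _ _)) hBn
          fun l hl => (Finset.mem_filter.1 (hBG hl)).2)
    refine ⟨U, hU1, fun τ h1 h2 => ?_⟩
    rw [← hA] at h1
    exact hU2 ⟨τ, h1⟩ (by
      rw [mem_SJ] at h2 ⊢
      exact h2)
  choose U hU1 hU2 using key
  refine ⟨fun l => U (b l) l, fun l hl => hU1 (b l) l (Finset.mem_filter.2 ⟨hl, rfl⟩),
    fun τ hτ => ?_⟩
  rw [mem_SJ] at hτ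
  push Not at hτ
  obtain ⟨l0, hl0, hne⟩ := hτ
  obtain ⟨P, hP⟩ : ∃ P, P = G.filter fun l => p l τ ≠ p l τ0 := ⟨_, rfl⟩
  have hPn : P.Nonempty := ⟨l0, by
    rw [hP]
    exact Finset.mem_filter.2 ⟨hl0, hne⟩⟩
  obtain ⟨l, hl, hmin⟩ := Finset.exists_min_image P b hPn
  rw [hP, Finset.mem_filter] at hl
  obtain ⟨l', hl', h5⟩ := hU2 (b l) τ (by
    rw [mem_SJ]
    intro i hi
    obtain ⟨h1, h2⟩ := Finset.mem_filter.1 hi
    by_contra h3
    have h4 := hmin i (by
      rw [hP]
      exact Finset.mem_filter.2 ⟨h1, h3⟩)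
    omega) (by
    rw [mem_SJ]
    intro h
    exact hl.2 (h l (Finset.mem_filter.2 ⟨hl.1, rfl⟩)))
  obtain ⟨h6, h7⟩ := Finset.mem_filter.1 hl'
  refine ⟨l', h6, ?_⟩
  change p l' τ ∈ U (b l') l'
  rw [h7]
  exact h5

end

end Pool.Agent.V7H74.HL
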