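import Pool.Agent.N145.SX.Chain
import Pool.Agent.V7H74.Hall

/-!
Elimination of several coordinates at the same time for the points of one fibre and of two fibres.
-/

set_option autoImplicit false
set_option linter.overlappingInstances false
set_option linter.unusedSectionVars false
set_option linter.unusedVariables false
set_option maxHeartbeats 4000000
set_option synthInstance.maxHeartbeats 400000

open Polynomial FF IsDedekindDomain IntermediateField Module

namespace Pool.Agent.V7H74.HL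

open Pool.Agent.W603.LV Pool.Agent.W619.PQ Pool.Agent.N145.PC Pool.Agent.N145.SX
open Pool.Agent.W602.GT (Divisorial RegAt IsPluri DerReg)

open scoped Classical

section

variable {K : Type} [Field K] [Algebra ℂ K] {n : ℕ} {F : Fin n → IntermediateField ℂ K}
  {L Ω : Type} [Field L] [Field Ω] [Algebra ℂ L] [Algebra ℂ Ω]
  [Algebra L K] [IsScalarTower ℂ L K] [Algebra L Ω] [IsScalarTower ℂ L Ω]
  [FiniteDimensional L K] [IsAlgClosed Ω]

/-- **One fibre.** -/
theorem rl_one {H : ∀ i, Set (F i)} {c : (K →ₐ[L] Ω) → Ω} (τ0 : K →ₐ[L] Ω) (G : Finset (Fin n))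
    (s b : Fin n → ℕ) (hs : ∀ l ∈ G, 1 ≤ s l)
    (hsep : ∀ l ∈ G, Sep (ev Ω F l) (H l) (s l + 1))
    (hcount : ∀ t, ∀ B ⊆ G, B.Nonempty → (∀ l ∈ B, b l = t) →
      finrank (MF F L ((G.filter fun l => b l ≤ t) \ B)) K ≤
        finrank (MF F L (G.filter fun l => b l ≤ t)) K * (1 + ∑ l ∈ B, (s l - 1)))
    (h0 : Rl (fun i => res (K := K) (L := L) (Ω := Ω) (F i)) (ev Ω F) H c τ0 ∅) :
    Rl (fun i => res (K := K) (L := L) (Ω := Ω) (F i)) (ev Ω F) H c τ0 G := by
  obtain ⟨U, hU1, hU2⟩ := hall_blk (fun i => res (K := K) (L := L) (Ω := Ω) (F i)) τ0 G s b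
    (fun t => finrank (MF F L (G.filter fun l => b l ≤ t)) K) (fun _ => finrank_pos)
    (fun t τ => (Ch.card_le' τ _).ge) (fun t B hB hBn hBt => by
      rw [Ch.card_le']
      exact hcount t B hB hBn hBt)
  refine rl_hit h0 (fun l => s l + 1) hsep U (fun l hl => (hU1 l hl).1) (fun l hl => ?_) hU2
  have h1 := (hU1 l hl).2
  have h2 := hs l hl
  omega

end

section

variable {K : Type} [Field K] [Algebra ℂ K] {n : ℕ} {F : Fin n → IntermediateField ℂ K}
  {L Ω Ω' : Type} [Field L] [Field Ω] [Algebra ℂ L] [Algebra ℂ Ω]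
  [Algebra L K] [IsScalarTower ℂ L K] [Algebra L Ω] [IsScalarTower ℂ L Ω]
  [FiniteDimensional L K] [IsAlgClosed Ω] [Field Ω'] [Algebra ℂ Ω'] (ι θ : Ω →ₐ[ℂ] Ω')

/-- **Two fibres.** -/
theorem rl_two {H : ∀ i, Set (F i)} {c : (K →ₐ[L] Ω) ⊕ (K →ₐ[L] Ω) → Ω'} (τ0 : K →ₐ[L] Ω)
    (G : Finset (Fin n)) (s b : Fin n → ℕ) (hs : ∀ l ∈ G, 1 ≤ s l)
    (hsep : ∀ l ∈ G, Sep (ev Ω' F l) (H l) (s l + 1))
    (hcount : ∀ t, ∀ B ⊆ G, B.Nonempty → (∀ l ∈ B, b l = t) →
      2 * finrank (MF F L ((G.filter fun l => b l ≤ t) \ B)) K ≤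
        finrank (MF F L (G.filter fun l => b l ≤ t)) K * (1 + ∑ l ∈ B, (s l - 1)))
    (h0 : Rl (P2 ι θ F L) (ev Ω' F) H c (Sum.inl τ0) ∅) :
    Rl (P2 ι θ F L) (ev Ω' F) H c (Sum.inl τ0) G := by
  have hcls : ∀ (G : Finset (Fin n)) (ρ), finrank (MF F L G) K ≤ (SJ (P2 ι θ F L) ρ G).card := by
    intro G ρ
    rcases ρ with τ | τ
    · rw [← Ch.card_le' τ G]
      refine Finset.card_le_card_of_injOn (fun σ => Sum.inl σ) ?_ (Sum.inl_injective.injOn)
      intro σ hσ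
      have h1 := mem_SJ.1 hσ
      refine mem_SJ.2 fun i hi => ?_
      change ι.comp (res (F i) σ) = ι.comp (res (F i) τ)
      rw [h1 i hi]
    · rw [← Ch.card_le' τ G]
      refine Finset.card_le_card_of_injOn (fun σ => Sum.inr σ) ?_ (Sum.inr_injective.injOn)
      intro σ hσ
      have h1 := mem_SJ.1 hσ
      refine mem_SJ.2 fun i hi => ?_
      change θ.comp (res (F i) σ) = θ.comp (res (F i) τ)
      rw [h1 i hi]
  obtain ⟨U, hU1, hU2⟩ := hall_blk (P2 ι θ F L) (Sum.inl τ0) G s b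
    (fun t => finrank (MF F L (G.filter fun l => b l ≤ t)) K) (fun _ => finrank_pos)
    (fun t ρ => hcls _ ρ) (fun t B hB hBn hBt =>
      (Ch.card2_le ι θ τ0 _).trans (hcount t B hB hBn hBt))
  refine rl_hit h0 (fun l => s l + 1) hsep U (fun l hl => (hU1 l hl).1) (fun l hl => ?_) hU2
  have h1 := (hU1 l hl).2
  have h2 := hs l hl
  omega

end

end Pool.Agent.V7H74.HL
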