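import Pool.Agent.V7H50.Defs

/-! The numerical condition on the fixed points, with determinants of linear systems on the
curves: definitions. -/

set_option autoImplicit false
set_option linter.overlappingInstances false
set_option linter.unusedSectionVars false

universe u v

open FF IntermediateField Pool.Agent.W603.LV Pool.Agent.W619.TW Pool.Agent.V7H50

namespace Pool.Agent.V7H74

section

variable {k : Type v} {L : Type u} [Field k] [Field L] [Algebra k L] {n : ℕ}

/-- The divisors `ν i + c μ i`. -/
noncomputable def tot {F : Fin n → IntermediateField k L} (c : ℕ)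
    (ν μ : ∀ i, Place k (F i) →₀ ℕ) (i : Fin n) : Place k (F i) →₀ ℕ :=
  ν i + c • μ i

/-- The determinant of the functions `T i j` (`j < n`) on the curves `F i` (`i < n`), a function
on the product of the curves. It vanishes if two rows are equal: if `F i` and `F i'` are the
function fields of two copies of a curve, and `T i j` and `T i' j` are the same function for every
`j`, then it vanishes along the diagonal. -/
noncomputable def dt {F : Fin n → IntermediateField k L} (T : ∀ i, Fin n → F i) : L :=
  (Matrix.of fun i j => (T i j : L)).det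

/-- The curves on whose orbit the element `g` permutes the functions `T i j`, for every `j`, and,
if `a i ≠ 0`, on which these functions are regular at `q i`. -/
def Good (G : Subgroup (L ≃ₐ[k] L)) (σ : G →* Equiv.Perm (Fin n))
    {F : Fin n → IntermediateField k L} (T : ∀ i, Fin n → F i) (g : G) (a : Fin n → ℕ)
    (q : ∀ i, Place k (F i)) : Set (Fin n) :=
  {i | (∀ (s : ℕ) (j : Fin n), ((g ^ s : G) : L ≃ₐ[k] L) (T i j : L) = T (σ (g ^ s) i) j) ∧
    (a i ≠ 0 → ∀ j, (q i).Reg (T i j))}

/-- The number `r (|J| - o) / 2` for a set `J` of curves, where `o` is the number of the orbits of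
the permutation `τ` in `J` (each orbit has one smallest element). -/
noncomputable def gain (τ : Equiv.Perm (Fin n)) (r : ℕ) (J : Set (Fin n)) : ℝ :=
  r * ((J.ncard : ℝ) - {i | i ∈ J ∧ ∀ s : ℕ, i ≤ (τ ^ s) i}.ncard) / 2

open scoped Classical in
/-- The number `N r / s` if `g` acts nontrivially on `Y` (with function field `M`), `s` being the
order of this action, and `0` otherwise (the elements of `M` which `g` maps outside `M` do not count
for the nontriviality). -/
noncomputable def yAge (M : IntermediateField k L) (N : ℕ) (g : L ≃ₐ[k] L) (r : ℕ) : ℝ :=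
  if ∃ y y' : M, (y' : L) = g y ∧ y' ≠ y then
    (N : ℝ) * r / (sInf {s : ℕ | 0 < s ∧ ∀ y ∈ M, (g ^ s) y = y} : ℕ) else 0

/-- The corrected age of `g`, times `N r`, where `r` is the order of `g`: the sum of
`age = ∑ i, a i (N + ν i (q i)) / l i + N r (n - o) / 2`, where `l i` is the length of the cycle of
`i` under `σ g` and `o` is the number of the cycles, of `c r (|J| - o') / 2`, where `J = Good` is the
set of the curves on whose orbits `g` permutes the functions `T i j`, these being regular at `q i`
if `a i ≠ 0`, and `o'` is the number of the orbits in `J`, and of `N r / s` if `g` acts on `Y` with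
order `s > 1`. -/
noncomputable def cage (M : IntermediateField k L) (G : Subgroup (L ≃ₐ[k] L))
    (σ : G →* Equiv.Perm (Fin n)) (F : Fin n → IntermediateField k L) (N c : ℕ)
    (ν : ∀ i, Place k (F i) →₀ ℕ) (T : ∀ i, Fin n → F i) (g : G) (a : Fin n → ℕ)
    (q : ∀ i, Place k (F i)) : ℝ :=
  age F N ν (σ g) (orderOf g) a q + c * gain (σ g) (orderOf g) (Good G σ T g a q) +
    yAge M N (g : L ≃ₐ[k] L) (orderOf g)

/-- The condition on the ages, for a finite group `G` permuting the curves through `σ`.
Let `g ≠ 1` in `G` have a fixed point on `Y` (in the sense of `FixIn`) and order `r`, let `l i` be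
the length of the cycle of `i` under `σ g`, fix a
point `q i` on each of the curves `F i` on which `g ^ l i` is not trivial, let `g` map these points
to each other, and let `g ^ l i` act on the cotangent space at `q i` by `ζ ^ a i` with
`0 < a i < r`, where `ζ` is a primitive `r`-th root of unity; put `a i = 0` for the curves on which
`g ^ l i` is trivial (and let `q i` be any point of these). Then `N r` is at most the corrected age
`cage`, or the stratum given by the `q i` with `a i ≠ 0` belongs to the
finite set `S`, and the sum of `cage` and of `wt i * a i / l i` is at least `N r` for each of the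
curves in `Big F N ξ` with `a i ≠ 0`, where `wt i` is the weight of the stratum (in the conditions
below `ξ i = ν i + c μ i`). -/
def AgeCond (M : IntermediateField k L) (G : Subgroup (L ≃ₐ[k] L)) (σ : G →* Equiv.Perm (Fin n))
    (F : Fin n → IntermediateField k L) (N c : ℕ)
    (ν ξ : ∀ i, Place k (F i) →₀ ℕ) (T : ∀ i, Fin n → F i)
    (S : Finset (∀ i : Big F N ξ, Option (Place k (F i))))
    (wt : (∀ i : Big F N ξ, Option (Place k (F i))) → Big F N ξ → ℝ) : Prop :=
  ∀ g : G, g ≠ 1 → FixIn M (g : L ≃ₐ[k] L) → ∀ ζ : k, IsPrimitiveRoot ζ (orderOf g) →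
    ∀ (a : Fin n → ℕ) (q : ∀ i, Place k (F i)),
      (∀ i, (a i = 0 ∧ ∀ z ∈ F i,
          ((g ^ Function.minimalPeriod (σ g) i : G) : L ≃ₐ[k] L) z = z) ∨
        (0 < a i ∧ a i < orderOf g ∧
          IsRot (F i) ((g ^ Function.minimalPeriod (σ g) i : G) : L ≃ₐ[k] L) (q i) (ζ ^ a i))) →
      (∀ i, a i ≠ 0 → ∀ (z : F i) (z' : F (σ g i)), (z' : L) = (g : L ≃ₐ[k] L) z →
        (q (σ g i)).ord z' = (q i).ord z) →
      (N : ℝ) * orderOf g ≤ cage M G σ F N c ν T g a q ∨
        (pt F N ξ a q ∈ S ∧ ∀ i : Big F N ξ, a i ≠ 0 →
          (N : ℝ) * orderOf g ≤ cage M G σ F N c ν T g a q +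
            wt (pt F N ξ a q) i * (a i / Function.minimalPeriod (σ g) (i : Fin n)))

/-- The numerical condition for nonvanishing: for some `N ≥ 1` and `c ≥ 0`, effective divisors
`ν i` and `μ i` on the curves, functions `T i j` with poles bounded by `μ i` and with nonzero
determinant, and weights, the conditions on the ages and the volumes hold, and
`N K - ν i - c μ i` has positive degree or is `ℚ`-effective for each of the irrational curves. -/
def NumCond (M : IntermediateField k L) (G : Subgroup (L ≃ₐ[k] L)) (σ : G →* Equiv.Perm (Fin n))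
    (F : Fin n → IntermediateField k L) : Prop :=
  ∃ (N c : ℕ) (ν μ : ∀ i, Place k (F i) →₀ ℕ) (T : ∀ i, Fin n → F i)
    (S : Finset (∀ i : Big F N (tot c ν μ), Option (Place k (F i))))
    (wt : (∀ i : Big F N (tot c ν μ), Option (Place k (F i))) → Big F N (tot c ν μ) → ℝ),
    1 ≤ N ∧ dt T ≠ 0 ∧ (∀ i j, T i j ≠ 0 → ∀ q : Place k (F i), -(μ i q : ℤ) ≤ q.ord (T i j)) ∧
      AgeCond M G σ F N c ν (tot c ν μ) T S wt ∧ VolCond F N (tot c ν μ) S wt ∧
      ∀ i, (¬ ∃ t : F i, k⟮t⟯ = ⊤) → 0 < rdeg N (tot c ν μ i) ∨ SubCan N (tot c ν μ i)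

/-- The numerical condition for abundance: for some `N ≥ 1` and `c ≥ 0`, effective divisors
`ν i` and `μ i` on the curves, functions `T i j` with poles bounded by `μ i` and with nonzero
determinant, and weights, the conditions on the ages and the volumes hold, and
`N K - ν i - c μ i` has positive degree for each of the curves of genus at least two and is
`ℚ`-effective for each of the elliptic curves. -/
def NumCondPos (M : IntermediateField k L) (G : Subgroup (L ≃ₐ[k] L))
    (σ : G →* Equiv.Perm (Fin n)) (F : Fin n → IntermediateField k L) : Prop :=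
  ∃ (N c : ℕ) (ν μ : ∀ i, Place k (F i) →₀ ℕ) (T : ∀ i, Fin n → F i)
    (S : Finset (∀ i : Big F N (tot c ν μ), Option (Place k (F i))))
    (wt : (∀ i : Big F N (tot c ν μ), Option (Place k (F i))) → Big F N (tot c ν μ) → ℝ),
    1 ≤ N ∧ dt T ≠ 0 ∧ (∀ i j, T i j ≠ 0 → ∀ q : Place k (F i), -(μ i q : ℤ) ≤ q.ord (T i j)) ∧
      AgeCond M G σ F N c ν (tot c ν μ) T S wt ∧ VolCond F N (tot c ν μ) S wt ∧
      ∀ i, (0 < canDeg k (F i) → 0 < rdeg N (tot c ν μ i)) ∧
        (canDeg k (F i) = 0 → SubCan N (tot c ν μ i))

end

end Pool.Agent.V7H74
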