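import Pool.Agent.W619.Y.Parts
import Pool.Agent.V7H50.Perm
import Pool.Agent.V7H50.PDefs
import Pool.Agent.V7H74.Defs

/-! The order of a determinant some of whose rows are permuted. -/

set_option autoImplicit false
set_option linter.overlappingInstances false
set_option linter.unusedSectionVars false

universe u v

open FF IntermediateField Pool.Agent.W619.PQ Pool.Agent.W619.PL Pool.Agent.W619.TW
  Pool.Agent.W603.LV Pool.Agent.W619.Y Pool.Agent.W391.PG.REGLOG

namespace Pool.Agent.V7H74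

section

variable {k : Type v} {L : Type u} [Field k] [CharZero k] [IsAlgClosed k] [Field L] [Algebra k L]
  {n : ℕ}

open scoped Classical in
theorem det_gain (w : Place k L) (h : L ≃ₐ[k] L) (ζ : k) (e : ℕ) (he : 0 < e)
    (hζ : IsPrimitiveRoot ζ e) (hch : IsChar w h ζ) (τ : Equiv.Perm (Fin n)) (hτ : τ ^ e = 1)
    (T : Fin n → Fin n → L) (J : Set (Fin n)) (hJ : ∀ i ∈ J, τ i ∈ J)
    (hT : ∀ i ∈ J, ∀ j, h (T i j) = T (τ i) j) (hT0 : ∀ i ∈ J, ∀ j, Ge w 0 (T i j))
    (b : Fin n → ℤ) (hb0 : ∀ i, 0 ≤ b i) (hb : ∀ i, i ∉ J → ∀ j, Ge w (-b i) (T i j))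
    (hdet : (Matrix.of T).det ≠ 0) :
    (e : ℝ) * ((J.ncard : ℝ) - {i | i ∈ J ∧ ∀ s : ℕ, i ≤ (τ ^ s) i}.ncard) ≤
      2 * (w.ord (Matrix.of T).det + ∑ i, b i : ℤ) := by
  obtain ⟨π, hπ0, hπ⟩ := w.surj
  have hJit : ∀ (s : ℕ) i, i ∈ J → (τ ^ s) i ∈ J := by
    intro s
    induction s with
    | zero => intro i hi; simpa using hi
    | succ s ih =>
      intro i hi
      rw [pow_succ', Equiv.Perm.mul_apply]
      exact hJ _ (ih i hi)
  have hJiff : ∀ i, τ i ∈ J ↔ i ∈ J := by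
    intro i
    refine ⟨fun hi => ?_, hJ i⟩
    have h1 := hJit (e - 1) _ hi
    have h2 : (τ ^ (e - 1)) (τ i) = i := by
      rw [← Equiv.Perm.mul_apply, ← pow_succ, Nat.sub_add_cancel he, hτ]
      rfl
    rwa [h2] at h1
  let u : Fin n → L := fun i => if i ∈ J then 1 else π ^ (b i).toNat
  have hu0 : ∀ i, u i ≠ 0 := by
    intro i
    by_cases hi : i ∈ J
    · simp only [u, if_pos hi]; exact one_ne_zero
    · simp only [u, if_neg hi]; exact pow_ne_zero _ hπ0
  have huord : ∀ i, w.ord (u i) ≤ b i := by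
    intro i
    by_cases hi : i ∈ J
    · simp only [u, if_pos hi]
      rw [w.ord_one]
      exact hb0 i
    · simp only [u, if_neg hi]
      rw [w.ord_pow, hπ, mul_one, Int.toNat_of_nonneg (hb0 i)]
  let M : Matrix (Fin n) (Fin n) L := Matrix.of fun i j => u i * T i j
  have hMdet : M.det = (∏ i, u i) * (Matrix.of T).det := Matrix.det_mul_column u (Matrix.of T)
  have hM0 : ∀ i j, Ge w 0 (M i j) := by
    intro i j
    change Ge w 0 (u i * T i j)
    by_cases hi : i ∈ J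
    · simp only [u, if_pos hi, one_mul]
      exact hT0 i hi j
    · simp only [u, if_neg hi]
      have h1 : Ge w (b i) (π ^ (b i).toNat) := Or.inr (by
        rw [w.ord_pow, hπ, mul_one, Int.toNat_of_nonneg (hb0 i)])
      simpa using h1.mul (hb i hi j)
  let n1 : ℕ := Fintype.card {i // i ∉ J}
  let n2 : ℕ := Fintype.card {i // i ∈ J}
  let e1 : Fin n1 ≃ {i // i ∉ J} := (Fintype.equivFin _).symm
  let e2 : Fin n2 ≃o {i // i ∈ J} := Fintype.orderIsoFinOfCardEq _ rfl
  let E : Fin (n1 + n2) ≃ Fin n := finSumFinEquiv.symm.trans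
    ((Equiv.sumCongr e1 e2.toEquiv).trans ((Equiv.sumComm _ _).trans
      (Equiv.sumCompl (fun i => i ∈ J))))
  have hE1 : ∀ i, E (Fin.castAdd n2 i) = (e1 i : Fin n) := by
    intro i
    simp [E]
  have hE2 : ∀ i, E (Fin.natAdd n1 i) = (e2 i : Fin n) := by
    intro i
    simp [E]
  let τ0 : Equiv.Perm {i // i ∈ J} := τ.subtypePerm hJiff
  let τ' : Equiv.Perm (Fin n2) := e2.toEquiv.symm.permCongr τ0
  have hτ'1 : ∀ i, (e2 (τ' i) : Fin n) = τ (e2 i : Fin n) := by
    intro i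
    simp [τ', τ0, Equiv.permCongr_apply]
  have hτ's : ∀ (s : ℕ) i, (e2 ((τ' ^ s) i) : Fin n) = (τ ^ s) (e2 i : Fin n) := by
    intro s
    induction s with
    | zero => intro i; simp
    | succ s ih =>
      intro i
      rw [pow_succ', Equiv.Perm.mul_apply, hτ'1, ih, pow_succ', Equiv.Perm.mul_apply]
  have hτ'e : τ' ^ e = 1 := by
    ext i
    have h1 := hτ's e i
    rw [hτ] at h1
    have h2 : e2 ((τ' ^ e) i) = e2 i := Subtype.ext h1
    rw [e2.injective h2]
    rfl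
  let M0 : Matrix (Fin (n1 + n2)) (Fin (n1 + n2)) L := M.submatrix E E
  have hM0det : M0.det = M.det := Matrix.det_submatrix_equiv_self _ _
  have hdetM0 : M0.det ≠ 0 := by
    rw [hM0det, hMdet]
    exact mul_ne_zero (Finset.prod_ne_zero_iff.2 fun i _ => hu0 i) hdet
  have key := pDET2 k L n1 n2 e w h ζ τ' M0 he hζ
    (fun a y hy hhy => hch.dvd he hζ a y hy hhy) hτ'e (by
      intro i j
      change h (M (E (Fin.natAdd n1 i)) (E j)) = M (E (Fin.natAdd n1 (τ' i))) (E j)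
      rw [hE2, hE2, hτ'1]
      change h (u (e2 i : Fin n) * T (e2 i : Fin n) (E j)) = u (τ (e2 i : Fin n)) *
        T (τ (e2 i : Fin n)) (E j)
      simp only [u, if_pos (e2 i).2, if_pos (hJ _ (e2 i).2), one_mul]
      exact hT _ (e2 i).2 _) (fun i j => hM0 _ _) hdetM0
  have hcard1 : J.ncard = n2 := by
    rw [← Nat.card_coe_set_eq, Nat.card_eq_fintype_card]
  have hcard2 : {i | i ∈ J ∧ ∀ s : ℕ, i ≤ (τ ^ s) i}.ncard =
      {i : Fin n2 | ∀ r : ℕ, i ≤ (τ' ^ r) i}.ncard := by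
    have h1 : {i | i ∈ J ∧ ∀ s : ℕ, i ≤ (τ ^ s) i} =
        (fun i => (e2 i : Fin n)) '' {i : Fin n2 | ∀ r : ℕ, i ≤ (τ' ^ r) i} := by
      ext i
      constructor
      · rintro ⟨hi, h2⟩
        refine ⟨e2.symm ⟨i, hi⟩, fun r => ?_, by simp⟩
        rw [← e2.le_iff_le]
        change ((e2 (e2.symm ⟨i, hi⟩) : {i // i ∈ J}) : Fin n) ≤ _
        rw [hτ's]
        simpa using h2 r
      · rintro ⟨i', h2, rfl⟩
        refine ⟨(e2 i').2, fun s => ?_⟩
        rw [← hτ's]
        exact e2.le_iff_le.2 (h2 s)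
    rw [h1, Set.ncard_image_of_injective _ (fun a b hab => e2.injective (Subtype.ext hab))]
  have hordM : w.ord M0.det ≤ w.ord (Matrix.of T).det + ∑ i, b i := by
    rw [hM0det, hMdet, w.ord_mul (Finset.prod_ne_zero_iff.2 fun i _ => hu0 i) hdet]
    have h1 : w.ord (∏ i, u i) ≤ ∑ i, b i := by
      have h2 : w.ord (∏ i, u i) = ∑ i, w.ord (u i) := by
        have h3 : ∀ s : Finset (Fin n), w.ord (∏ i ∈ s, u i) = ∑ i ∈ s, w.ord (u i) := by
          intro s
          induction s using Finset.induction_on with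
          | empty => simpa using w.ord_one
          | insert a s ha ih =>
            rw [Finset.prod_insert ha, Finset.sum_insert ha,
              w.ord_mul (hu0 a) (Finset.prod_ne_zero_iff.2 fun i _ => hu0 i), ih]
        exact h3 _
      rw [h2]
      exact Finset.sum_le_sum fun i _ => huord i
    linarith
  rw [hcard1, hcard2]
  have h5 : ((e : ℤ) * (n2 - ({i : Fin n2 | ∀ r : ℕ, i ≤ (τ' ^ r) i}.ncard : ℤ)) : ℤ) ≤
      2 * (w.ord (Matrix.of T).det + ∑ i, b i) := by linarith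
  exact_mod_cast h5

theorem yAge_le (M : IntermediateField k L) (N : ℕ) (w : Place k L) (h : L ≃ₐ[k] L) (ζ : k)
    (e : ℕ) (he : 0 < e) (hζ : IsPrimitiveRoot ζ e) (hch : IsChar w h ζ) (hhe : h ^ e = 1) (b : ℕ)
    (hb : Pool.Agent.V7H50.RamIn M w b) : yAge M N h e ≤ N * b := by
  unfold yAge
  split_ifs with hmov
  · obtain ⟨y, y', hyy', hne⟩ := hmov
    rcases hb with ⟨rfl, htriv⟩ | ⟨v, hv⟩
    · exfalso
      have hy0 : (y : L) ≠ 0 := by
        intro h0
        apply hne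
        apply Subtype.ext
        rw [hyy', h0, map_zero]
      have h1 := hch (y : L) hy0
      rw [htriv _ y.2, zpow_zero, map_one, one_mul, zero_add, ← hyy'] at h1
      have h2 : ((y' : L) - y) ≠ 0 := sub_ne_zero.2 fun h3 => hne (Subtype.ext h3)
      have h3 := h1.resolve_left h2
      rw [htriv _ (sub_mem y'.2 y.2)] at h3
      omega
    · have hs : sInf {s : ℕ | 0 < s ∧ ∀ y ∈ M, (h ^ s) y = y} ∈
          {s : ℕ | 0 < s ∧ ∀ y ∈ M, (h ^ s) y = y} :=
        Nat.sInf_mem ⟨e, he, fun y _ => by rw [hhe]; rfl⟩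
      obtain ⟨s, hs'⟩ : ∃ s : ℕ, s = sInf {s : ℕ | 0 < s ∧ ∀ y ∈ M, (h ^ s) y = y} := ⟨_, rfl⟩
      rw [← hs'] at hs ⊢
      obtain ⟨u, hu0, hu⟩ := v.surj
      have h1 : w.ord (u : L) = b := by
        have h2 := hv.2 u
        rw [hu, mul_one] at h2
        exact h2
      have hb0 : 0 < w.ord (u : L) := by
        rw [h1]
        exact_mod_cast hv.1
      have h2 := hch.le he hζ hs.1 hb0 (hs.2 _ u.2)
      rw [h1] at h2
      have hsR : (0 : ℝ) < s := by exact_mod_cast hs.1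
      rw [div_le_iff₀ hsR]
      have h3 : (e : ℝ) ≤ s * b := by exact_mod_cast h2
      have h4 := mul_le_mul_of_nonneg_left h3 (Nat.cast_nonneg (α := ℝ) N)
      linarith
  · positivity

end

end Pool.Agent.V7H74
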