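import Pool.Agent.N145.SX.MOne
import Pool.Agent.N145.SX.MFin
import Pool.Agent.V7H74.Cnt

/-!
Varieties dominated by the product of several varieties: elimination of several coordinates at the
same time. The proofs of the two main lemmas follow the ones in `N145/SX/MOne` and `N145/SX/Multi`.
-/

set_option autoImplicit false
set_option linter.overlappingInstances false
set_option linter.unusedSectionVars false
set_option linter.unusedVariables false
set_option maxHeartbeats 4000000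
set_option synthInstance.maxHeartbeats 400000

open Polynomial FF IntermediateField Module

namespace Pool.Agent.V7H74.HL

open Pool.Agent.W603.LV Pool.Agent.W619.PQ Pool.Agent.N145.PC Pool.Agent.N145.PL
open Pool.Agent.N145.SX
open Pool.Agent.W602.GT (Divisorial RegAt IsPluri DerReg DerLog LogAt KodGe LogSec Psef)
open Pool.Agent.Y184.NT (trForm trForm_pluri)
open Pool.Agent.R882.LT (SecAt LogGenusZero)
open Pool.Agent.W619.PL (IsA1Uniruled)

open scoped Classical

section

variable {K : Type} [Field K] [Algebra ℂ K] {k : ℕ} {F : Fin (k + 1) → IntermediateField ℂ K}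
  {m : Fin k → ℕ} {L : Type} [Field L] [Algebra ℂ L]
  [Algebra L K] [IsScalarTower ℂ L K] [FiniteDimensional L K]

/-- **Logarithmic genus zero.** -/
theorem one_last [Algebra.EssFiniteType ℂ K]
    [∀ i, Algebra.EssFiniteType ℂ (F i)] [IsFF ℂ (F (Fin.last k))] (hsup : ⨆ i, F i = ⊤)
    (hm : ∀ i : Fin k, Algebra.trdeg ℂ (F i.castSucc) = m i)
    (hK : Algebra.trdeg ℂ K = (∑ i, m i + 1 : ℕ)) {x : ∀ i : Fin k, Fin (m i) → F i.castSucc}
    (hx : ∀ i, IsTranscendenceBasis ℂ (x i)) {BX : ∀ i : Fin k, Place ℂ (F i.castSucc) → Prop}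
    {B : Set (Place ℂ (F (Fin.last k)))} (hBf : B.Finite) {BL : Place ℂ L → Prop}
    (hB : ∀ (P : Place ℂ L) (Q : Place ℂ K) (e : ℕ), Over Q P e → (BL P ↔ BdM BX B Q))
    (τ0 : K →ₐ[L] AlgebraicClosure L)
    (hel : ∀ H : ∀ i, Set (F i), (∀ i : Fin k, H i.castSucc = HX (x i) (BX i)) →
      ∀ c : (K →ₐ[L] AlgebraicClosure L) → AlgebraicClosure L,
      Rl (fun i => res (K := K) (L := L) (Ω := AlgebraicClosure L) (F i))
        (ev (AlgebraicClosure L) F) H c τ0 ∅ →
      Rl (fun i => res (K := K) (L := L) (Ω := AlgebraicClosure L) (F i))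
        (ev (AlgebraicClosure L) F) H c τ0 (Finset.univ.erase (Fin.last k)))
    (hz0 : LogGenusZero L (∑ i, m i + 1) BL) : IsA1Uniruled ℂ L (∑ i, m i + 1) BL := by
  have hL : Algebra.trdeg ℂ L = (∑ i, m i + 1 : ℕ) := Pool.Agent.Y184.NT.trdeg_below (K := K) hK
  have hessL : Algebra.EssFiniteType ℂ L := Pool.Agent.TH466.QG.ess_below (K := K)
  obtain ⟨N, hN⟩ : ∃ N, N = ∑ i, m i := ⟨_, rfl⟩
  obtain ⟨e⟩ : Nonempty (Fin N ≃ (i : Fin k) × Fin (m i)) := by
    rw [hN]
    exact ⟨finSigmaFinEquiv.symm⟩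
  have hind := ind_all hsup hK hx
  rw [← hN] at hK hL hz0 ⊢
  obtain ⟨E, hE⟩ : ∃ E, E = ⨆ i : Fin k, F i.castSucc := ⟨_, rfl⟩
  have hle : ∀ i : Fin k, F i.castSucc ≤ E := fun i => by
    rw [hE]
    exact le_iSup (fun i : Fin k => F i.castSucc) i
  have hessE : Algebra.EssFiniteType ℂ E := ess_iSup (F := fun i : Fin k => F i.castSucc) hE
  have hz := basis_zS x hle e hx hind hE
  have htrE := trdeg_basis hz
  have hsup' : E ⊔ F (Fin.last k) = ⊤ := by
    rw [eq_top_iff, ← hsup]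
    refine iSup_le fun i => ?_
    induction i using Fin.lastCases with
    | last => exact le_sup_right
    | cast i => exact (hle i).trans le_sup_left
  obtain ⟨t, ht, hBt⟩ := exists_xB hBf
  obtain ⟨D0, hD0⟩ := exists_D ht
  obtain ⟨hna, -, hcl⟩ := closed K N E (F (Fin.last k)) hsup' htrE hK
  have hBd1 : ∀ Q : Place ℂ K, BdX (BdS (F := fun i : Fin k => F i.castSucc) hle BX) B Q →
      BdM BX B Q := by
    rintro Q (⟨P, a, ⟨i, P', b, h1, h2, h3⟩, ha, hQ⟩ | h1)
    · refine Or.inl ⟨i, P', a * b, h1, Nat.mul_pos ha h2, fun v => ?_⟩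
      have h4 := hQ (⟨(v : K), hle i v.2⟩ : E)
      rw [h3 v] at h4
      have h5 : algebraMap E K (⟨(v : K), hle i v.2⟩ : E) = algebraMap (F i.castSucc) K v := rfl
      rw [h5] at h4
      rw [h4]
      push_cast
      ring
    · exact Or.inr h1
  have hBd2 : ∀ Q : Place ℂ K, BdM BX B Q →
      BdX (BdS (F := fun i : Fin k => F i.castSucc) hle BX) B Q := by
    rintro Q (⟨i, P, a, h1, ha, h2⟩ | h1)
    · obtain ⟨u, -, hu⟩ := P.surj
      have h3 : Q.ord ((algebraMap E K : E →+* K) (⟨(u : K), hle i u.2⟩ : E)) ≠ 0 := by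
        have h4 := h2 u
        rw [hu] at h4
        change Q.ord (u : K) ≠ 0
        change Q.ord (u : K) = _ at h4
        rw [h4]
        have : (a : ℤ) ≠ 0 := by exact_mod_cast ha.ne'
        simpa using this
      obtain ⟨v, b, hb, hv⟩ := Pool.Agent.W619.Y.exists_restrict (k := ℂ) Q
        (algebraMap E K : E →+* K) (fun c hc => by
          have h4 : (algebraMap E K : E →+* K) (algebraMap ℂ E c) = algebraMap ℂ K c := rfl
          rw [h4]
          exact Q.ord_const hc) h3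
      refine Or.inl ⟨v, b, ?_, hb, hv⟩
      have hv' : ∀ f : F i.castSucc, (a : ℤ) * P.ord f = b * v.ord (⟨(f : K), hle i f.2⟩ : E) := by
        intro f
        rw [← h2 f, ← hv (⟨(f : K), hle i f.2⟩ : E)]
        rfl
      have h5 := hv' u
      rw [hu, mul_one] at h5
      have ha' : (0 : ℤ) < a := by exact_mod_cast ha
      have hb' : (0 : ℤ) < b := by exact_mod_cast hb
      have hc' : 0 < v.ord (⟨(u : K), hle i u.2⟩ : E) := by
        rw [h5] at ha'
        exact (mul_pos_iff_of_pos_left hb').1 ha'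
      obtain ⟨c, hc⟩ : ∃ c : ℕ, (c : ℤ) = v.ord (⟨(u : K), hle i u.2⟩ : E) :=
        ⟨_, Int.toNat_of_nonneg hc'.le⟩
      refine ⟨i, P, c, h1, by omega, fun f => ?_⟩
      have h6 := hv' f
      rw [h5, ← hc, mul_assoc] at h6
      exact (mul_left_cancel₀ hb'.ne' h6).symm
    · exact Or.inr h1
  obtain ⟨y, G, h, hy, hG, hh, hreg, hval⟩ := exists_traceX (L := L) sec htrE hK hz
    (BdS (F := fun i : Fin k => F i.castSucc) hle BX) ht (basis_zz hK hz (hna t ht)) hD0 B
    (BL := BL) fun P Q e h1 h2 => (hB P Q e h1).2 (hBd1 Q h2)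
  have her := erase K N E (F (Fin.last k)) hsup' htrE hK _ hz t ht D0 hD0
    (BdS (F := fun i : Fin k => F i.castSucc) hle BX) B hBt L BL
    (fun P Q e h1 h2 => hBd2 Q ((hB P Q e h1).1 h2)) h hval
  have hT' : IsScalarTower ℂ L (AlgebraicClosure L) := inferInstance
  obtain ⟨H, hH⟩ : ∃ H, H = HS x BX (HL D0 B : Set (F (Fin.last k))) := ⟨_, rfl⟩
  have hHl : H (Fin.last k) = (HL D0 B : Set (F (Fin.last k))) := by
    rw [hH]
    exact HS_last x BX _
  have hHc : ∀ i : Fin k, H i.castSucc = HX (x i) (BX i) := fun i => by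
    rw [hH]
    exact HS_cast x BX _ i
  let I := {f : ∀ i, F i // ∀ i, f i ∈ H i}
  obtain ⟨T, hT⟩ : ∃ T : I → L, ∀ f, T f =
    Algebra.trace L K (h * ∏ i, algebraMap (F i) K (f.1 i)) := ⟨_, fun _ => rfl⟩
  have hTreg : ∀ f, ∀ P : Place ℂ L, Divisorial (N + 1) P → SecAt BL P (trForm y (T f)) := by
    intro f P hP
    obtain ⟨q, hq1, hq2⟩ := prods sec2 k (fun i => F i.castSucc) m hm x hx hind BX E hE hle N e
      (fun i => f.1 i.castSucc) (fun i => by
        have := f.2 i.castSucc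
        rwa [hHc] at this)
    have h1 := hreg q hq2 (f.1 (Fin.last k)) (by
      have := f.2 (Fin.last k)
      rwa [hHl] at this) P hP
    have h2 : algebraMap E K q * algebraMap (F (Fin.last k)) K (f.1 (Fin.last k)) =
        ∏ i, algebraMap (F i) K (f.1 i) := by
      rw [Fin.prod_univ_castSucc]
      congr 1
    rw [h2] at h1
    rw [hT]
    exact h1
  have htr1 : (∀ f : ∀ i, F i, f (Fin.last k) ∈ H (Fin.last k) →
      Algebra.trace (MF F L (Finset.univ.erase (Fin.last k))) K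
        (h * ∏ i, algebraMap (F i) K (f i)) = 0) → IsA1Uniruled ℂ L (N + 1) BL := by
    intro h0
    refine her fun φ hφ => ?_
    have h1 := h0 (Fin.lastCases (motive := fun i => F i) φ (fun _ => 1)) (by
      rw [Fin.lastCases_last, hHl]
      exact hφ)
    rw [Fin.prod_univ_castSucc, Fin.lastCases_last] at h1
    simp only [Fin.lastCases_castSucc, map_one, Finset.prod_const_one, one_mul] at h1
    rw [MF_erase hE] at h1
    exact h1
  have hθE : ∀ t, trForm y t G = t := by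
    intro t
    have h1 : (Matrix.of fun i j => G i (y j) : Matrix (Fin (N + 1)) (Fin (N + 1)) L) = 1 := by
      ext i j
      rw [Matrix.of_apply, hG, Matrix.one_apply]
    rw [trForm, h1, Matrix.det_one, one_mul]
  have hT0 : ∀ f, T f = 0 := by
    intro f
    have h1 := hz0 (trForm y (T f)) ⟨trForm_pluri y _, fun P hP => (hTreg f P hP).1,
      fun P hP hB => (hTreg f P hP).2 hB⟩ G
    rwa [hθE] at h1
  have h0 := Ch.rel_zero (F := F) (H := H) (h := h) (fun f hf => by
    have := hT0 ⟨f, hf⟩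
    rwa [hT] at this) τ0
  have h1 := hel H hHc _ h0
  exact htr1 fun f hf => Ch.rel_erase h1 f hf

/-- **Several factors.** -/
theorem two_last [Algebra.EssFiniteType ℂ K]
    [∀ i, Algebra.EssFiniteType ℂ (F i)] [IsFF ℂ (F (Fin.last k))] (hsup : ⨆ i, F i = ⊤)
    (hm : ∀ i : Fin k, Algebra.trdeg ℂ (F i.castSucc) = m i)
    (hK : Algebra.trdeg ℂ K = (∑ i, m i + 1 : ℕ)) {x : ∀ i : Fin k, Fin (m i) → F i.castSucc}
    (hx : ∀ i, IsTranscendenceBasis ℂ (x i)) {BX : ∀ i : Fin k, Place ℂ (F i.castSucc) → Prop}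
    {B : Set (Place ℂ (F (Fin.last k)))} (hBf : B.Finite) {BL : Place ℂ L → Prop}
    (hB : ∀ (P : Place ℂ L) (Q : Place ℂ K) (e : ℕ), Over Q P e → (BL P ↔ BdM BX B Q))
    {s b : Fin (k + 1) → ℕ} (hs1 : ∀ i : Fin k, 1 ≤ s i.castSucc)
    (hsep : ∀ i : Fin k, SepX (x i) (BX i) (s i.castSucc + 1))
    (hcount : ∀ t, ∀ B ⊆ Finset.univ.erase (Fin.last k), B.Nonempty → (∀ l ∈ B, b l = t) →
      2 * finrank (MF F L (((Finset.univ.erase (Fin.last k)).filter fun l => b l ≤ t) \ B)) K ≤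
        finrank (MF F L ((Finset.univ.erase (Fin.last k)).filter fun l => b l ≤ t)) K *
          (1 + ∑ l ∈ B, (s l - 1))) :
    IsA1Uniruled ℂ L (∑ i, m i + 1) BL ∨
    ∃ (y : Fin (∑ i, m i + 1) → L) (G : Fin (∑ i, m i + 1) → Derivation ℂ L L) (ι : Type)
      (T : ι → L), (∀ i j, G i (y j) = if i = j then 1 else 0) ∧ (∃ f, T f ≠ 0) ∧
      (∀ f, ∀ P : Place ℂ L, Divisorial (∑ i, m i + 1) P → SecAt BL P (trForm y (T f))) ∧
      ∃ x' : Fin (∑ i, m i) → K, AlgebraicIndependent ℂ x' ∧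
        ∀ j, IsAlgebraic (Rt T) (x' j) := by
  have hL : Algebra.trdeg ℂ L = (∑ i, m i + 1 : ℕ) := Pool.Agent.Y184.NT.trdeg_below (K := K) hK
  have hessL : Algebra.EssFiniteType ℂ L := Pool.Agent.TH466.QG.ess_below (K := K)
  obtain ⟨N, hN⟩ : ∃ N, N = ∑ i, m i := ⟨_, rfl⟩
  obtain ⟨e⟩ : Nonempty (Fin N ≃ (i : Fin k) × Fin (m i)) := by
    rw [hN]
    exact ⟨finSigmaFinEquiv.symm⟩
  have hind := ind_all hsup hK hx
  rw [← hN] at hK hL ⊢
  obtain ⟨E, hE⟩ : ∃ E, E = ⨆ i : Fin k, F i.castSucc := ⟨_, rfl⟩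
  have hle : ∀ i : Fin k, F i.castSucc ≤ E := fun i => by
    rw [hE]
    exact le_iSup (fun i : Fin k => F i.castSucc) i
  have hessE : Algebra.EssFiniteType ℂ E := ess_iSup (F := fun i : Fin k => F i.castSucc) hE
  have hz := basis_zS x hle e hx hind hE
  have htrE := trdeg_basis hz
  have hsup' : E ⊔ F (Fin.last k) = ⊤ := by
    rw [eq_top_iff, ← hsup]
    refine iSup_le fun i => ?_
    induction i using Fin.lastCases with
    | last => exact le_sup_right
    | cast i => exact (hle i).trans le_sup_left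
  obtain ⟨t, ht, hBt⟩ := exists_xB hBf
  obtain ⟨D0, hD0⟩ := exists_D ht
  obtain ⟨hna, -, hcl⟩ := closed K N E (F (Fin.last k)) hsup' htrE hK
  have hBd1 : ∀ Q : Place ℂ K, BdX (BdS (F := fun i : Fin k => F i.castSucc) hle BX) B Q →
      BdM BX B Q := by
    rintro Q (⟨P, a, ⟨i, P', b, h1, h2, h3⟩, ha, hQ⟩ | h1)
    · refine Or.inl ⟨i, P', a * b, h1, Nat.mul_pos ha h2, fun v => ?_⟩
      have h4 := hQ (⟨(v : K), hle i v.2⟩ : E)
      rw [h3 v] at h4
      have h5 : algebraMap E K (⟨(v : K), hle i v.2⟩ : E) = algebraMap (F i.castSucc) K v := rfl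
      rw [h5] at h4
      rw [h4]
      push_cast
      ring
    · exact Or.inr h1
  have hBd2 : ∀ Q : Place ℂ K, BdM BX B Q →
      BdX (BdS (F := fun i : Fin k => F i.castSucc) hle BX) B Q := by
    rintro Q (⟨i, P, a, h1, ha, h2⟩ | h1)
    · obtain ⟨u, -, hu⟩ := P.surj
      have h3 : Q.ord ((algebraMap E K : E →+* K) (⟨(u : K), hle i u.2⟩ : E)) ≠ 0 := by
        have h4 := h2 u
        rw [hu] at h4
        change Q.ord (u : K) ≠ 0
        change Q.ord (u : K) = _ at h4
        rw [h4]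
        have : (a : ℤ) ≠ 0 := by exact_mod_cast ha.ne'
        simpa using this
      obtain ⟨v, b, hb, hv⟩ := Pool.Agent.W619.Y.exists_restrict (k := ℂ) Q
        (algebraMap E K : E →+* K) (fun c hc => by
          have h4 : (algebraMap E K : E →+* K) (algebraMap ℂ E c) = algebraMap ℂ K c := rfl
          rw [h4]
          exact Q.ord_const hc) h3
      refine Or.inl ⟨v, b, ?_, hb, hv⟩
      have hv' : ∀ f : F i.castSucc, (a : ℤ) * P.ord f = b * v.ord (⟨(f : K), hle i f.2⟩ : E) := by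
        intro f
        rw [← h2 f, ← hv (⟨(f : K), hle i f.2⟩ : E)]
        rfl
      have h5 := hv' u
      rw [hu, mul_one] at h5
      have ha' : (0 : ℤ) < a := by exact_mod_cast ha
      have hb' : (0 : ℤ) < b := by exact_mod_cast hb
      have hc' : 0 < v.ord (⟨(u : K), hle i u.2⟩ : E) := by
        rw [h5] at ha'
        exact (mul_pos_iff_of_pos_left hb').1 ha'
      obtain ⟨c, hc⟩ : ∃ c : ℕ, (c : ℤ) = v.ord (⟨(u : K), hle i u.2⟩ : E) :=
        ⟨_, Int.toNat_of_nonneg hc'.le⟩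
      refine ⟨i, P, c, h1, by omega, fun f => ?_⟩
      have h6 := hv' f
      rw [h5, ← hc, mul_assoc] at h6
      exact (mul_left_cancel₀ hb'.ne' h6).symm
    · exact Or.inr h1
  obtain ⟨y, G, h, hy, hG, hh, hreg, hval⟩ := exists_traceX (L := L) sec htrE hK hz
    (BdS (F := fun i : Fin k => F i.castSucc) hle BX) ht (basis_zz hK hz (hna t ht)) hD0 B
    (BL := BL) fun P Q e h1 h2 => (hB P Q e h1).2 (hBd1 Q h2)
  have her := erase K N E (F (Fin.last k)) hsup' htrE hK _ hz t ht D0 hD0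
    (BdS (F := fun i : Fin k => F i.castSucc) hle BX) B hBt L BL
    (fun P Q e h1 h2 => hBd2 Q ((hB P Q e h1).1 h2)) h hval
  obtain ⟨τ0⟩ : Nonempty (K →ₐ[L] AlgebraicClosure L) :=
    ⟨IsAlgClosed.lift (R := L) (M := AlgebraicClosure L) (S := K)⟩
  have hT' : IsScalarTower ℂ L (AlgebraicClosure L) := inferInstance
  obtain ⟨H, hH⟩ : ∃ H, H = HS x BX (HL D0 B : Set (F (Fin.last k))) := ⟨_, rfl⟩
  have hHl : H (Fin.last k) = (HL D0 B : Set (F (Fin.last k))) := by
    rw [hH]
    exact HS_last x BX _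
  have hHc : ∀ i : Fin k, H i.castSucc = HX (x i) (BX i) := fun i => by
    rw [hH]
    exact HS_cast x BX _ i
  let I := {f : ∀ i, F i // ∀ i, f i ∈ H i}
  obtain ⟨T, hT⟩ : ∃ T : I → L, ∀ f, T f =
    Algebra.trace L K (h * ∏ i, algebraMap (F i) K (f.1 i)) := ⟨_, fun _ => rfl⟩
  have hTreg : ∀ f, ∀ P : Place ℂ L, Divisorial (N + 1) P → SecAt BL P (trForm y (T f)) := by
    intro f P hP
    obtain ⟨q, hq1, hq2⟩ := prods sec2 k (fun i => F i.castSucc) m hm x hx hind BX E hE hle N e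
      (fun i => f.1 i.castSucc) (fun i => by
        have := f.2 i.castSucc
        rwa [hHc] at this)
    have h1 := hreg q hq2 (f.1 (Fin.last k)) (by
      have := f.2 (Fin.last k)
      rwa [hHl] at this) P hP
    have h2 : algebraMap E K q * algebraMap (F (Fin.last k)) K (f.1 (Fin.last k)) =
        ∏ i, algebraMap (F i) K (f.1 i) := by
      rw [Fin.prod_univ_castSucc]
      congr 1
    rw [h2] at h1
    rw [hT]
    exact h1
  have hS : ∀ (Ω : Type) [Field Ω] [Algebra ℂ Ω] [IsAlgClosed Ω],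
      ∀ l ∈ Finset.univ.erase (Fin.last k), Sep (ev Ω F l) (H l) (s l + 1) := by
    intro Ω _ _ _ l hl
    obtain ⟨i, rfl⟩ := Fin.exists_castSucc_eq.2 (Finset.mem_erase.1 hl).1
    intro A hA c hc
    rw [hHc] at hc
    exact hsep i Ω A hA c hc
  have hs1' : ∀ l ∈ Finset.univ.erase (Fin.last k), 1 ≤ s l := by
    intro l hl
    obtain ⟨i, rfl⟩ := Fin.exists_castSucc_eq.2 (Finset.mem_erase.1 hl).1
    exact hs1 i
  have htr1 : (∀ f : ∀ i, F i, f (Fin.last k) ∈ H (Fin.last k) →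
      Algebra.trace (MF F L (Finset.univ.erase (Fin.last k))) K
        (h * ∏ i, algebraMap (F i) K (f i)) = 0) → IsA1Uniruled ℂ L (N + 1) BL := by
    intro h0
    refine her fun φ hφ => ?_
    have h1 := h0 (Fin.lastCases (motive := fun i => F i) φ (fun _ => 1)) (by
      rw [Fin.lastCases_last, hHl]
      exact hφ)
    rw [Fin.prod_univ_castSucc, Fin.lastCases_last] at h1
    simp only [Fin.lastCases_castSucc, map_one, Finset.prod_const_one, one_mul] at h1
    rw [MF_erase hE] at h1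
    exact h1
  by_cases hT0 : ∃ f, T f ≠ 0
  swap
  · left
    push Not at hT0
    have h0 := Ch.rel_zero (F := F) (H := H) (h := h) (fun f hf => by
      have := hT0 ⟨f, hf⟩
      rwa [hT] at this) τ0
    have h1 := rl_one τ0 (Finset.univ.erase (Fin.last k)) s b hs1' (hS (AlgebraicClosure L))
      (fun t B hB hBn hBt =>
        le_trans (Nat.le_mul_of_pos_left _ two_pos) (hcount t B hB hBn hBt)) h0
    exact htr1 fun f hf => Ch.rel_erase h1 f hf
  · obtain ⟨f1, hf1⟩ := hT0
    obtain ⟨Ω', iF, iA, iC, i1, i2, lam, hlam, hlamT, hpts⟩ := exists_pts T (f1 := f1) hf1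
    have h0 : Rl (P2 i1 i2 F L) (ev Ω' F) H (C2 i1 i2 h lam) (Sum.inl τ0) ∅ :=
      Ch.rel2_zero i1 i2 (fun f hf => by
        have := hlamT ⟨f, hf⟩
        rw [hT] at this
        exact this) _
    have h1 := rl_two i1 i2 τ0 (Finset.univ.erase (Fin.last k)) s b hs1' (hS Ω') hcount h0
    rcases Ch.rel2_erase i1 i2 hlam h1 with ⟨τ, hτ⟩ | h3
    · right
      refine ⟨y, G, I, T, hG, ⟨f1, hf1⟩, hTreg, fun l => (x (e l).1 (e l).2 : K),
        hind.comp e e.injective, fun l => ?_⟩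
      exact alg_back τ0 (hpts _ _ (hτ (e l).1.castSucc (Fin.castSucc_ne_last _)
        (x (e l).1 (e l).2)).symm)
    · exact Or.inl (htr1 h3)

end

end Pool.Agent.V7H74.HL
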