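import Pool.Agent.V7H74.Img

/-!
Varieties dominated by the product of several varieties: elimination of all coordinates.
-/

set_option autoImplicit false
set_option linter.overlappingInstances false
set_option linter.unusedSectionVars false
set_option linter.unusedVariables false
set_option maxHeartbeats 4000000
set_option synthInstance.maxHeartbeats 400000

open Polynomial FF IntermediateField Module

namespace Pool.Agent.V7H74.HL

open Pool.Agent.W603.LV Pool.Agent.W619.PQ Pool.Agent.N145.PC Pool.Agent.N145.PL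
open Pool.Agent.N145.SX
open Pool.Agent.W602.GT (Divisorial RegAt IsPluri DerReg DerLog LogAt KodGe LogSec Psef)
open Pool.Agent.Y184.NT (trForm trForm_pluri)
open Pool.Agent.R882.LT (SecAt LogGenusZero)
open Pool.Agent.W619.PL (IsA1Uniruled)

open scoped Classical

section

variable {K L : Type} [Field K] [Field L] [Algebra ℂ K] [Algebra ℂ L]
  [Algebra L K] [IsScalarTower ℂ L K] [FiniteDimensional L K]

/-- the traces of canonical forms -/
theorem traceG (L : Type) [Field L] [Algebra ℂ L]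
    [Algebra L K] [IsScalarTower ℂ L K] [FiniteDimensional L K] [Algebra.EssFiniteType ℂ K] {N : ℕ}
    (hK : Algebra.trdeg ℂ K = (N : ℕ)) {z : Fin N → K}
    (hz : IsTranscendenceBasis ℂ z) :
    ∃ (y : Fin N → L) (G : Fin N → Derivation ℂ L L) (h : K),
      IsTranscendenceBasis ℂ y ∧ (∀ i j, G i (y j) = if i = j then 1 else 0) ∧ h ≠ 0 ∧
      ∀ f ∈ HX z (fun _ => False), ∀ P : Place ℂ L, Divisorial N P →
        SecAt (fun _ => False) P (trForm y (Algebra.trace L K (h * f))) := by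
  have hL : Algebra.trdeg ℂ L = (N : ℕ) := Pool.Agent.Y184.NT.trdeg_below (K := K) hK
  have hessL : Algebra.EssFiniteType ℂ L := Pool.Agent.TH466.QG.ess_below (K := K)
  obtain ⟨y, G, hy, hG⟩ := Pool.Agent.Y172.exists_crd hL
  choose G' hG' using fun i => Pool.Agent.Y172.exists_lift (L := K) hL (G i)
  have hyK : IsTranscendenceBasis ℂ (fun j => algebraMap L K (y j)) := hy.algebraMap_comp
  have hGK := Pool.Agent.Y172.lift_dual hG hG'
  obtain ⟨h, hdef⟩ : ∃ h, h = (Matrix.of fun i j => G' i (z j) :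
    Matrix (Fin N) (Fin N) K).det := ⟨_, rfl⟩
  have hval : ∀ g : K, trForm z g G' = h * g := by
    intro g
    rw [trForm, hdef]
  refine ⟨y, G, h, hy, hG, ?_, ?_⟩
  · intro h0
    choose Z hZ using fun i : Fin N => Pool.Agent.W602.GT.exists_der _ hz
      fun j => if i = j then (1 : K) else 0
    have h1 := Pool.Agent.Y172.pluri_coord hyK hGK (trForm_pluri z (1 : K)) Z
    rw [hval, h0, zero_mul, mul_zero] at h1
    have h2 : (Matrix.of fun i j => Z i (z j) : Matrix (Fin N) (Fin N) K) = 1 := by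
      ext i j
      rw [Matrix.of_apply, hZ, Matrix.one_apply]
    rw [trForm, h2, Matrix.det_one, one_mul] at h1
    exact one_ne_zero h1
  · intro f hf P hP
    rw [← hval]
    exact Pool.Agent.R882.LT.trForm_sec (BK := fun _ => False) (BL := fun _ => False) hL hy hG hG'
      _ (trForm_pluri _ _) (fun _ _ _ _ h => h) (fun Q hQ => hf Q hQ) P hP

end

section

variable {K : Type} [Field K] [Algebra ℂ K]

/-- the coordinates are independent -/
theorem ind_G {k : ℕ} {F : Fin k → IntermediateField ℂ K} {m : Fin k → ℕ} (hsup : ⨆ i, F i = ⊤)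
    (hK : Algebra.trdeg ℂ K = (∑ i, m i : ℕ)) {x : ∀ i : Fin k, Fin (m i) → F i}
    (hx : ∀ i, IsTranscendenceBasis ℂ (x i)) :
    AlgebraicIndependent ℂ fun p : (i : Fin k) × Fin (m i) => (x p.1 p.2 : K) := by
  obtain ⟨e⟩ : Nonempty (Fin (∑ i, m i) ≃ (i : Fin k) × Fin (m i)) := ⟨finSigmaFinEquiv.symm⟩
  obtain ⟨X, hX⟩ : ∃ X : ((i : Fin k) × Fin (m i)) → K, X = fun p => (x p.1 p.2 : K) := ⟨_, rfl⟩
  obtain ⟨w, hw⟩ : ∃ w : Fin (∑ i, m i) → K, w = X ∘ e := ⟨_, rfl⟩
  obtain ⟨S, hS⟩ : ∃ S, S = IntermediateField.adjoin ℂ (Set.range w) := ⟨_, rfl⟩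
  have hwS : ∀ l, w l ∈ S := fun l => by
    rw [hS]
    exact IntermediateField.subset_adjoin _ _ ⟨l, rfl⟩
  have h3 : ∀ i, ∀ v ∈ F i, IsAlgebraic S v := by
    intro i v hv
    refine alg_of_basis (hx i) (fun j => ?_) hv
    have h1 := hwS (e.symm ⟨i, j⟩)
    rw [hw, Function.comp_apply, Equiv.apply_symm_apply, hX] at h1
    exact h1
  have h4 := le_algCl h3 (T := ⊤) hsup.symm
  have h5 : Algebra.IsAlgebraic (Algebra.adjoin ℂ (Set.range w)) K := by
    refine Pool.Agent.W619.PQ.alg_adjoin fun z => ?_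
    have h6 := h4 (IntermediateField.mem_top (x := z))
    rw [mem_restrictScalars, mem_algebraicClosure_iff, hS] at h6
    exact h6
  have h6 : IsTranscendenceBasis ℂ w := by
    refine Algebra.IsAlgebraic.isTranscendenceBasis_of_lift_le_trdeg_of_finite ℂ _ ?_
    rw [hK]
    simp
  have h7 := h6.1.comp e.symm e.symm.injective
  have h8 : (w ∘ e.symm) = X := by
    funext p
    rw [Function.comp_apply, hw, Function.comp_apply, Equiv.apply_symm_apply]
  rw [h8, hX] at h7
  exact h7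

variable {k : ℕ} {F : Fin (k + 1) → IntermediateField ℂ K} {m : Fin (k + 1) → ℕ}

/-- products of canonical forms -/
theorem prodG [∀ i, Algebra.EssFiniteType ℂ (F i)] (hsup : ⨆ i, F i = ⊤)
    (hm : ∀ i, Algebra.trdeg ℂ (F i) = m i)
    (hK : Algebra.trdeg ℂ K = (∑ i, m i : ℕ)) {x : ∀ i, Fin (m i) → F i}
    (hx : ∀ i, IsTranscendenceBasis ℂ (x i)) :
    ∃ (N : ℕ) (_ : N = ∑ i, m i) (z : Fin N → K), IsTranscendenceBasis ℂ z ∧
      ∀ f : ∀ i, F i, (∀ i, f i ∈ HX (x i) (fun _ => False)) →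
        ∏ i, algebraMap (F i) K (f i) ∈ HX z (fun _ => False) := by
  have hind := ind_G hsup hK hx
  obtain ⟨T', hT'⟩ : ∃ T', T' = ⨆ i : Fin k, F i.castSucc := ⟨_, rfl⟩
  have hle' : ∀ i : Fin k, F i.castSucc ≤ T' := fun i => by
    rw [hT']
    exact le_iSup (fun i : Fin k => F i.castSucc) i
  obtain ⟨N', hN'⟩ : ∃ N', N' = ∑ i : Fin k, m i.castSucc := ⟨_, rfl⟩
  obtain ⟨e'⟩ : Nonempty (Fin N' ≃ (i : Fin k) × Fin (m i.castSucc)) := by
    rw [hN']
    exact ⟨finSigmaFinEquiv.symm⟩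
  have hNN : N' + m (Fin.last k) = ∑ i, m i := by
    rw [Fin.sum_univ_castSucc, hN']
  have hind' : AlgebraicIndependent ℂ fun p : (i : Fin k) × Fin (m i.castSucc) =>
      (x p.1.castSucc p.2 : K) := by
    refine hind.comp (fun p : (i : Fin k) × Fin (m i.castSucc) =>
      (⟨p.1.castSucc, p.2⟩ : (i : Fin (k + 1)) × Fin (m i))) ?_
    rintro ⟨i, j⟩ ⟨i', j'⟩ h
    simp only [Sigma.mk.injEq] at h
    obtain ⟨h1, h2⟩ := h
    have h3 := Fin.castSucc_injective k h1
    subst h3
    rw [eq_of_heq h2]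
  have hb' := basis_zS (fun i : Fin k => x i.castSucc) hle' e' (fun i => hx _) hind' hT'
  have hess' : Algebra.EssFiniteType ℂ T' := ess_iSup (F := fun i : Fin k => F i.castSucc) hT'
  refine ⟨N' + m (Fin.last k), hNN, Fin.append (fun i => algebraMap T' K
    (zS (fun i : Fin k => x i.castSucc) hle' e' i))
    (fun j => algebraMap (F (Fin.last k)) K (x (Fin.last k) j)), ?_, fun f hf => ?_⟩
  · have h1 : AlgebraicIndependent ℂ (Fin.append (fun i => algebraMap T' K
        (zS (fun i : Fin k => x i.castSucc) hle' e' i))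
        (fun j => algebraMap (F (Fin.last k)) K (x (Fin.last k) j))) := by
      have h2 := hind.comp (fun l : Fin (N' + m (Fin.last k)) =>
        (sigmaLast m (Sum.map e' id (finSumFinEquiv.symm l)))) (by
          refine (sigmaLast m).injective.comp (Function.Injective.comp ?_
            finSumFinEquiv.symm.injective)
          exact Sum.map_injective.2 ⟨e'.injective, Function.injective_id⟩)
      have h3 : ((fun p : (i : Fin (k + 1)) × Fin (m i) => (x p.1 p.2 : K)) ∘
          fun l : Fin (N' + m (Fin.last k)) =>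
            (sigmaLast m (Sum.map e' id (finSumFinEquiv.symm l)))) =
          Fin.append (fun i => algebraMap T' K
            (zS (fun i : Fin k => x i.castSucc) hle' e' i))
            (fun j => algebraMap (F (Fin.last k)) K (x (Fin.last k) j)) := by
        funext l
        refine Fin.addCases (fun i => ?_) (fun j => ?_) l
        · rw [Fin.append_left, Function.comp_apply, finSumFinEquiv_symm_apply_castAdd]
          rfl
        · rw [Fin.append_right, Function.comp_apply, finSumFinEquiv_symm_apply_natAdd]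
          rfl
      rwa [h3] at h2
    refine h1.isTranscendenceBasis_of_lift_trdeg_le_of_finite ?_
    rw [hK, hNN]
    simp
  · obtain ⟨p, hp1, hp2⟩ := prods sec2 k (fun i => F i.castSucc) (fun i => m i.castSucc)
      (fun i => hm _) (fun i => x i.castSucc) (fun i => hx _) hind' (fun _ _ => False) T' hT' hle'
      N' e' (fun i => f i.castSucc) (fun i => hf _)
    have h1 := sec2 K T' (F (Fin.last k)) N' (m (Fin.last k)) (trdeg_basis hb') (hm _)
      (by rw [hK, hNN]) _ hb' _ (hx (Fin.last k)) _ (fun _ => False) p hp2 _ (hf (Fin.last k))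
    have h2 : algebraMap T' K p * algebraMap (F (Fin.last k)) K (f (Fin.last k)) =
        ∏ i, algebraMap (F i) K (f i) := by
      rw [Fin.prod_univ_castSucc]
      congr 1
    rw [h2] at h1
    refine hx_mono ?_ h1
    rintro Q (⟨P, a, ⟨i, P', b, h3, -⟩, -⟩ | ⟨P, a, h3, -⟩)
    · exact h3
    · exact h3

end

section

variable {K : Type} [Field K] [Algebra ℂ K] {k : ℕ} {F : Fin (k + 1) → IntermediateField ℂ K}
  {m : Fin (k + 1) → ℕ} {L : Type} [Field L] [Algebra ℂ L]
  [Algebra L K] [IsScalarTower ℂ L K] [FiniteDimensional L K]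

theorem MF_univ (hsup : ⨆ i, F i = ⊤) : MF F L Finset.univ = ⊤ := by
  rw [eq_top_iff]
  have h1 : (⊤ : IntermediateField ℂ K) ≤ (MF F L Finset.univ).restrictScalars ℂ := by
    rw [← hsup]
    refine iSup_le fun i v hv => ?_
    rw [mem_restrictScalars]
    exact mem_MJ (E := fun i => F i) _ (Finset.mem_univ i) (⟨v, hv⟩ : F i)
  intro z _
  exact h1 (IntermediateField.mem_top (x := z))

theorem mem_univ' (hsup : ⨆ i, F i = ⊤) (h : K) : h ∈ MF F L Finset.univ := by
  rw [MF_univ hsup]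
  trivial

/-- **Canonical forms.** -/
theorem all_ne [Algebra.EssFiniteType ℂ K] [∀ i, Algebra.EssFiniteType ℂ (F i)]
    (hsup : ⨆ i, F i = ⊤) (hm : ∀ i, Algebra.trdeg ℂ (F i) = m i)
    (hK : Algebra.trdeg ℂ K = (∑ i, m i : ℕ)) {x : ∀ i, Fin (m i) → F i}
    (hx : ∀ i, IsTranscendenceBasis ℂ (x i)) {s b : Fin (k + 1) → ℕ} (hs1 : ∀ i, 1 ≤ s i)
    (hsep : ∀ i, SepX (x i) (fun _ => False) (s i + 1))
    (hcount : ∀ t, ∀ B : Finset (Fin (k + 1)), B.Nonempty → (∀ l ∈ B, b l = t) →
      finrank (MF F L ((Finset.univ.filter fun l => b l ≤ t) \ B)) K ≤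
        finrank (MF F L (Finset.univ.filter fun l => b l ≤ t)) K * (1 + ∑ l ∈ B, (s l - 1))) :
    ¬ PGZ L (∑ i, m i) := by
  intro hz0
  obtain ⟨N, hN, z, hz, hprod⟩ := prodG hsup hm hK hx
  rw [← hN] at hK hz0
  obtain ⟨y, G, h, hy, hG, hh, hreg⟩ := traceG L hK hz
  have hT' : IsScalarTower ℂ L (AlgebraicClosure L) := inferInstance
  obtain ⟨τ0⟩ : Nonempty (K →ₐ[L] AlgebraicClosure L) :=
    ⟨IsAlgClosed.lift (R := L) (M := AlgebraicClosure L) (S := K)⟩
  have hθE : ∀ t, trForm y t G = t := by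
    intro t
    have h1 : (Matrix.of fun i j => G i (y j) : Matrix (Fin N) (Fin N) L) = 1 := by
      ext i j
      rw [Matrix.of_apply, hG, Matrix.one_apply]
    rw [trForm, h1, Matrix.det_one, one_mul]
  have h0 := Ch.rel_zero (F := F) (H := fun i => HX (x i) (fun _ => False)) (h := h) (fun f hf => by
    have h1 := hz0 (trForm y (Algebra.trace L K (h * ∏ i, algebraMap (F i) K (f i))))
      (trForm_pluri y _) (fun P hP => (hreg _ (hprod f hf) P hP).2 not_false) G
    rwa [hθE] at h1) τ0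
  have hfr : finrank (MF F L Finset.univ) K = 1 := by
    rw [MF_univ hsup]
    exact IntermediateField.finrank_top
  have h1 := rl_one τ0 Finset.univ s b (fun l _ => hs1 l)
    (fun l _ A hA c hc => hsep l (AlgebraicClosure L) A hA c hc)
    (fun t B _ hBn hBt => hcount t B hBn hBt) h0
  have h2 := h1 (fun _ => 0) (fun i hi => absurd (Finset.mem_univ i) hi)
  rw [Finset.compl_univ] at h2
  have h3 : ∀ τ ∈ SJ (fun i => res (K := K) (L := L) (Ω := AlgebraicClosure L) (F i)) τ0
      Finset.univ, τ h * ∏ i ∈ (∅ : Finset (Fin (k + 1))), ev (AlgebraicClosure L) F i 0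
        (res (K := K) (L := L) (F i) τ) = τ0 h := by
    intro τ hτ
    rw [Finset.prod_empty, mul_one]
    exact (mem_iff τ0 _ τ).1 hτ h (mem_univ' hsup h)
  rw [Finset.sum_congr rfl h3, Finset.sum_const, Ch.card_le', hfr, one_smul] at h2
  exact hh (by simpa using h2)

/-- **The canonical map is generically finite.** -/
theorem all_can [Algebra.EssFiniteType ℂ K] [∀ i, Algebra.EssFiniteType ℂ (F i)]
    (hsup : ⨆ i, F i = ⊤) (hm : ∀ i, Algebra.trdeg ℂ (F i) = m i)
    (hK : Algebra.trdeg ℂ K = (∑ i, m i : ℕ)) {x : ∀ i, Fin (m i) → F i}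
    (hx : ∀ i, IsTranscendenceBasis ℂ (x i)) {s b : Fin (k + 1) → ℕ} (hs1 : ∀ i, 1 ≤ s i)
    (hsep : ∀ i, SepX (x i) (fun _ => False) (s i + 1))
    (hcount : ∀ t, ∀ B : Finset (Fin (k + 1)), B.Nonempty → (∀ l ∈ B, b l = t) →
      2 * finrank (MF F L ((Finset.univ.filter fun l => b l ≤ t) \ B)) K ≤
        finrank (MF F L (Finset.univ.filter fun l => b l ≤ t)) K * (1 + ∑ l ∈ B, (s l - 1))) :
    CanGe L (∑ i, m i) (∑ i, m i) := by
  have hne : ¬ PGZ L (∑ i, m i) := all_ne hsup hm hK hx hs1 hsep fun t B hB hBt =>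
    le_trans (Nat.le_mul_of_pos_left _ two_pos) (hcount t B hB hBt)
  have hind := ind_G hsup hK hx
  obtain ⟨e⟩ : Nonempty (Fin (∑ i, m i) ≃ (i : Fin (k + 1)) × Fin (m i)) :=
    ⟨finSigmaFinEquiv.symm⟩
  obtain ⟨N, hN, z, hz, hprod⟩ := prodG hsup hm hK hx
  rw [← hN] at hK hne e ⊢
  have hL : Algebra.trdeg ℂ L = (N : ℕ) := Pool.Agent.Y184.NT.trdeg_below (K := K) hK
  have hessL : Algebra.EssFiniteType ℂ L := Pool.Agent.TH466.QG.ess_below (K := K)
  obtain ⟨y, G, h, hy, hG, hh, hreg⟩ := traceG L hK hz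
  have hT' : IsScalarTower ℂ L (AlgebraicClosure L) := inferInstance
  obtain ⟨τ0⟩ : Nonempty (K →ₐ[L] AlgebraicClosure L) :=
    ⟨IsAlgClosed.lift (R := L) (M := AlgebraicClosure L) (S := K)⟩
  have hfr : finrank (MF F L Finset.univ) K = 1 := by
    rw [MF_univ hsup]
    exact IntermediateField.finrank_top
  let I := {f : ∀ i, F i // ∀ i, f i ∈ HX (x i) (fun _ => False)}
  obtain ⟨T, hT⟩ : ∃ T : I → L, ∀ f, T f =
    Algebra.trace L K (h * ∏ i, algebraMap (F i) K (f.1 i)) := ⟨_, fun _ => rfl⟩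
  have hTreg : ∀ f, ∀ P : Place ℂ L, Divisorial N P →
      SecAt (fun _ => False) P (trForm y (T f)) := by
    intro f P hP
    rw [hT]
    exact hreg _ (hprod f.1 f.2) P hP
  by_cases hT0 : ∃ f, T f ≠ 0
  swap
  · exfalso
    push Not at hT0
    have h0 := Ch.rel_zero (F := F) (H := fun i => HX (x i) (fun _ => False)) (h := h)
      (fun f hf => by
        have := hT0 ⟨f, hf⟩
        rwa [hT] at this) τ0
    have h1 := rl_one τ0 Finset.univ s b (fun l _ => hs1 l)
      (fun l _ A hA c hc => hsep l (AlgebraicClosure L) A hA c hc)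
      (fun t B _ hBn hBt =>
        le_trans (Nat.le_mul_of_pos_left _ two_pos) (hcount t B hBn hBt)) h0
    have h2 := h1 (fun _ => 0) (fun i hi => absurd (Finset.mem_univ i) hi)
    rw [Finset.compl_univ] at h2
    have h3 : ∀ τ ∈ SJ (fun i => res (K := K) (L := L) (Ω := AlgebraicClosure L) (F i)) τ0
        Finset.univ, τ h * ∏ i ∈ (∅ : Finset (Fin (k + 1))), ev (AlgebraicClosure L) F i 0
          (res (K := K) (L := L) (F i) τ) = τ0 h := by
      intro τ hτ
      rw [Finset.prod_empty, mul_one]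
      exact (mem_iff τ0 _ τ).1 hτ h (mem_univ' hsup h)
    rw [Finset.sum_congr rfl h3, Finset.sum_const, Ch.card_le', hfr, one_smul] at h2
    exact hh (by simpa using h2)
  · obtain ⟨f1, hf1⟩ := hT0
    obtain ⟨Ω', iF, iA, iC, i1, i2, lam, hlam, hlamT, hpts⟩ := exists_pts T (f1 := f1) hf1
    have h0 : Rl (P2 i1 i2 F L) (ev Ω' F) (fun i => HX (x i) (fun _ => False)) (C2 i1 i2 h lam)
        (Sum.inl τ0) ∅ :=
      Ch.rel2_zero i1 i2 (fun f hf => by
        have := hlamT ⟨f, hf⟩
        rw [hT] at this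
        exact this) _
    have h1 := rl_two i1 i2 τ0 Finset.univ s b (fun l _ => hs1 l)
      (fun l _ A hA c hc => hsep l Ω' A hA c hc)
      (fun t B _ hBn hBt => hcount t B hBn hBt) h0
    obtain ⟨τ, hτ⟩ := Ch.rel2_univ i1 i2 hlam hh (mem_univ' hsup h) h1
    refine canGe_of_alg hL hG T ⟨f1, hf1⟩ (fun f P hP => (hTreg f P hP).2 not_false)
      (x := fun l => (x (e l).1 (e l).2 : K)) (trdeg_adj (hind.comp e e.injective)) fun l => ?_
    exact alg_back τ0 (hpts _ _ (hτ (e l).1 (x (e l).1 (e l).2)).symm)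

end

end Pool.Agent.V7H74.HL
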