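import Pool.Agent.V7H74.ImgLang

/-!
Varieties dominated by the product of several varieties: the canonical map is birational.
-/

set_option autoImplicit false
set_option linter.overlappingInstances false
set_option linter.unusedSectionVars false
set_option linter.unusedVariables false
set_option maxHeartbeats 4000000
set_option synthInstance.maxHeartbeats 400000

open Polynomial FF IntermediateField Module

namespace Pool.Agent.V7H74.HL

open Pool.Agent.W603.LV Pool.Agent.W619.PQ Pool.Agent.N145.PC Pool.Agent.N145.PL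
open Pool.Agent.N145.SX
open Pool.Agent.W602.GT (Divisorial RegAt IsPluri DerReg DerLog LogAt KodGe LogSec Psef)
open Pool.Agent.Y184.NT (trForm trForm_pluri)
open Pool.Agent.R882.LT (SecAt LogGenusZero)
open Pool.Agent.W619.PL (IsA1Uniruled)

open scoped Classical

section

variable {K : Type} [Field K] [Algebra ℂ K] {k : ℕ} {F : Fin (k + 1) → IntermediateField ℂ K}
  {m : Fin (k + 1) → ℕ} {L : Type} [Field L] [Algebra ℂ L]
  [Algebra L K] [IsScalarTower ℂ L K] [FiniteDimensional L K]

/-- **The canonical map is birational.** -/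
theorem all_bir [Algebra.EssFiniteType ℂ K] [∀ i, Algebra.EssFiniteType ℂ (F i)]
    (hsup : ⨆ i, F i = ⊤) (hm : ∀ i, Algebra.trdeg ℂ (F i) = m i)
    (hK : Algebra.trdeg ℂ K = (∑ i, m i : ℕ)) {x : ∀ i, Fin (m i) → F i}
    (hx : ∀ i, IsTranscendenceBasis ℂ (x i)) {s b : Fin (k + 1) → ℕ} (hs1 : ∀ i, 1 ≤ s i)
    (hsep : ∀ i, SepX (x i) (fun _ => False) (s i + 1))
    (hcount : ∀ t, ∀ B : Finset (Fin (k + 1)), B.Nonempty → (∀ l ∈ B, b l = t) →
      2 * finrank (MF F L ((Finset.univ.filter fun l => b l ≤ t) \ B)) K ≤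
        finrank (MF F L (Finset.univ.filter fun l => b l ≤ t)) K * (1 + ∑ l ∈ B, (s l - 1))) :
    IntermediateField.adjoin ℂ {z : L | ∃ (ω ω' : (Fin (∑ i, m i) → Derivation ℂ L L) → L)
      (D : Fin (∑ i, m i) → Derivation ℂ L L), (IsPluri 1 ω ∧ ∀ P : Place ℂ L,
        Divisorial (∑ i, m i) P → RegAt P ω) ∧ (IsPluri 1 ω' ∧ ∀ P : Place ℂ L,
        Divisorial (∑ i, m i) P → RegAt P ω') ∧ ω' D ≠ 0 ∧ z = ω D / ω' D} = ⊤ := by
  have hne : ¬ PGZ L (∑ i, m i) := all_ne hsup hm hK hx hs1 hsep fun t B hB hBt =>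
    le_trans (Nat.le_mul_of_pos_left _ two_pos) (hcount t B hB hBt)
  obtain ⟨N, hN, z, hz, hprod⟩ := prodG hsup hm hK hx
  rw [← hN] at hK hne ⊢
  have hL : Algebra.trdeg ℂ L = (N : ℕ) := Pool.Agent.Y184.NT.trdeg_below (K := K) hK
  have hessL : Algebra.EssFiniteType ℂ L := Pool.Agent.TH466.QG.ess_below (K := K)
  obtain ⟨y, G, h, hy, hG, hh, hreg⟩ := traceG L hK hz
  have hT' : IsScalarTower ℂ L (AlgebraicClosure L) := inferInstance
  obtain ⟨τ0⟩ : Nonempty (K →ₐ[L] AlgebraicClosure L) :=
    ⟨IsAlgClosed.lift (R := L) (M := AlgebraicClosure L) (S := K)⟩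
  have hfr : finrank (MF F L Finset.univ) K = 1 := by
    rw [MF_univ hsup]
    exact IntermediateField.finrank_top
  have hθE : ∀ t, trForm y t G = t := by
    intro t
    have h1 : (Matrix.of fun i j => G i (y j) : Matrix (Fin N) (Fin N) L) = 1 := by
      ext i j
      rw [Matrix.of_apply, hG, Matrix.one_apply]
    rw [trForm, h1, Matrix.det_one, one_mul]
  let I := {f : ∀ i, F i // ∀ i, f i ∈ HX (x i) (fun _ => False)}
  obtain ⟨T, hT⟩ : ∃ T : I → L, ∀ f, T f =
    Algebra.trace L K (h * ∏ i, algebraMap (F i) K (f.1 i)) := ⟨_, fun _ => rfl⟩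
  have hTreg : ∀ f, ∀ P : Place ℂ L, Divisorial N P → RegAt P (trForm y (T f)) := by
    intro f P hP
    rw [hT]
    exact (hreg _ (hprod f.1 f.2) P hP).2 not_false
  have hmain : ∀ {Ω' : Type} [Field Ω'] [Algebra ℂ Ω'] [IsAlgClosed Ω']
      (i1 i2 : AlgebraicClosure L →ₐ[ℂ] Ω') (lam : Ω'), lam ≠ 0 →
      (∀ f, i2 (algebraMap L (AlgebraicClosure L) (T f)) =
        lam * i1 (algebraMap L (AlgebraicClosure L) (T f))) →
      ∃ τ : K →ₐ[L] AlgebraicClosure L, ∀ (i : Fin (k + 1)) (z : F i), i2 (τ z) = i1 (τ0 z) := by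
    intro Ω' _ _ _ i1 i2 lam hlam hlamT
    have h0 : Rl (P2 i1 i2 F L) (ev Ω' F) (fun i => HX (x i) (fun _ => False)) (C2 i1 i2 h lam)
        (Sum.inl τ0) ∅ :=
      Ch.rel2_zero i1 i2 (fun f hf => by
        have := hlamT ⟨f, hf⟩
        rw [hT] at this
        exact this) _
    have h1 := rl_two i1 i2 τ0 Finset.univ s b (fun l _ => hs1 l)
      (fun l _ A hA c hc => hsep l Ω' A hA c hc)
      (fun t B _ hBn hBt => hcount t B hBn hBt) h0
    exact Ch.rel2_univ i1 i2 hlam hh (mem_univ' hsup h) h1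
  obtain ⟨f1, hf1⟩ : ∃ f, T f ≠ 0 := by
    by_contra hT0
    push Not at hT0
    have h0 := Ch.rel_zero (F := F) (H := fun i => HX (x i) (fun _ => False)) (h := h)
      (fun f hf => by
        have := hT0 ⟨f, hf⟩
        rwa [hT] at this) τ0
    have h1 := rl_one τ0 Finset.univ s b (fun l _ => hs1 l)
      (fun l _ A hA c hc => hsep l (AlgebraicClosure L) A hA c hc)
      (fun t B _ hBn hBt =>
        le_trans (Nat.le_mul_of_pos_left _ two_pos) (hcount t B hBn hBt)) h0
    have h2 := h1 (fun _ => 0) (fun i hi => absurd (Finset.mem_univ i) hi)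
    rw [Finset.compl_univ] at h2
    have h3 : ∀ τ ∈ SJ (fun i => res (K := K) (L := L) (Ω := AlgebraicClosure L) (F i)) τ0
        Finset.univ, τ h * ∏ i ∈ (∅ : Finset (Fin (k + 1))), ev (AlgebraicClosure L) F i 0
          (res (K := K) (L := L) (F i) τ) = τ0 h := by
      intro τ hτ
      rw [Finset.prod_empty, mul_one]
      exact (mem_iff τ0 _ τ).1 hτ h (mem_univ' hsup h)
    rw [Finset.sum_congr rfl h3, Finset.sum_const, Ch.card_le', hfr, one_smul] at h2
    exact hh (by simpa using h2)
  -- everything is algebraic over the ratios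
  have halgK : ∀ v : K, IsAlgebraic (Rt T) v := by
    obtain ⟨Ω', iF, iA, iC, i1, i2, lam, hlam, hlamT, hpts⟩ := exists_pts T (f1 := f1) hf1
    obtain ⟨τ, hτ⟩ := hmain i1 i2 lam hlam hlamT
    have h2 : (⊤ : IntermediateField ℂ K) ≤ (algebraicClosure (Rt T) K).restrictScalars ℂ := by
      rw [← hsup]
      refine iSup_le fun i v hv => ?_
      rw [mem_restrictScalars, mem_algebraicClosure_iff]
      exact alg_back τ0 (hpts _ _ (hτ i ⟨v, hv⟩).symm)
    intro v
    have h3 := h2 (IntermediateField.mem_top (x := v))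
    rwa [mem_restrictScalars, mem_algebraicClosure_iff] at h3
  have halgL : Algebra.IsAlgebraic (Rt T) L := by
    constructor
    intro w
    exact (isAlgebraic_algebraMap_iff (R := Rt T) (algebraMap L K).injective).1
      (halgK (algebraMap L K w))
  have halgΩ : Algebra.IsAlgebraic (Rt T) (AlgebraicClosure L) :=
    Algebra.IsAlgebraic.trans (Rt T) L (AlgebraicClosure L)
  have hchR : CharZero (Rt T) := charZero_of_injective_algebraMap (algebraMap ℂ (Rt T)).injective
  have hcl : IsAlgClosure (Rt T) (AlgebraicClosure L) := ⟨inferInstance, halgΩ⟩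
  have hnorm : Normal (Rt T) (AlgebraicClosure L) := IsAlgClosure.normal _ _
  have hgal : IsGalois (Rt T) (AlgebraicClosure L) := IsGalois.mk
  have hRt : Rt T = ⊤ := by
    rw [eq_top_iff]
    intro w _
    have h1 : algebraMap L (AlgebraicClosure L) w ∈
        (⊥ : IntermediateField (Rt T) (AlgebraicClosure L)) := by
      rw [InfiniteGalois.mem_bot_iff_fixed]
      intro σ
      obtain ⟨lam, hlam⟩ : ∃ lam, lam = σ (algebraMap L (AlgebraicClosure L) (T f1)) /
        algebraMap L (AlgebraicClosure L) (T f1) := ⟨_, rfl⟩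
      have hb : algebraMap L (AlgebraicClosure L) (T f1) ≠ 0 := by simpa using hf1
      have hlam0 : lam ≠ 0 := by
        rw [hlam]
        exact div_ne_zero (by simpa using hf1) hb
      have htow : ∀ c : ℂ, algebraMap ℂ (AlgebraicClosure L) c =
          algebraMap (Rt T) (AlgebraicClosure L) (algebraMap ℂ (Rt T) c) := by
        intro c
        rw [IsScalarTower.algebraMap_apply ℂ L (AlgebraicClosure L)]
        rfl
      let i2 : AlgebraicClosure L →ₐ[ℂ] AlgebraicClosure L :=
        { (σ : AlgebraicClosure L →+* AlgebraicClosure L) with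
          commutes' := fun c => by
            change σ (algebraMap ℂ (AlgebraicClosure L) c) = _
            rw [htow, σ.commutes] }
      obtain ⟨τ, hτ⟩ := hmain (AlgHom.id ℂ (AlgebraicClosure L)) i2 lam hlam0 (by
        intro f
        change σ (algebraMap L (AlgebraicClosure L) (T f)) =
          lam * algebraMap L (AlgebraicClosure L) (T f)
        have h2 : algebraMap L (AlgebraicClosure L) (T f) =
            algebraMap (Rt T) (AlgebraicClosure L) ⟨T f / T f1, ratio_mem T f f1⟩ *
              algebraMap L (AlgebraicClosure L) (T f1) := by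
          have h3 : algebraMap (Rt T) (AlgebraicClosure L) ⟨T f / T f1, ratio_mem T f f1⟩ =
            algebraMap L (AlgebraicClosure L) (T f / T f1) := rfl
          rw [h3, ← map_mul, div_mul_cancel₀ _ hf1]
        rw [h2, map_mul, σ.commutes, hlam]
        field_simp)
      have h4 : (⊤ : IntermediateField ℂ K) ≤
          { (AlgHom.equalizer (i2.comp (τ.restrictScalars ℂ)) (τ0.restrictScalars ℂ)) with
            inv_mem' := fun a ha => by
              have ha' : i2.comp (τ.restrictScalars ℂ) a = (τ0.restrictScalars ℂ) a := ha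
              change i2.comp (τ.restrictScalars ℂ) a⁻¹ = (τ0.restrictScalars ℂ) a⁻¹
              rw [map_inv₀, map_inv₀, ha'] } := by
        rw [← hsup]
        refine iSup_le fun i v hv => ?_
        exact hτ i ⟨v, hv⟩
      have h5 : i2 (τ (algebraMap L K w)) = τ0 (algebraMap L K w) :=
        h4 (IntermediateField.mem_top (x := algebraMap L K w))
      rw [AlgHom.commutes, AlgHom.commutes] at h5
      exact h5
    rw [IntermediateField.mem_bot] at h1
    obtain ⟨r, hr⟩ := h1
    have h2 : (r : L) = w := (algebraMap L (AlgebraicClosure L)).injective hr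
    rw [← h2]
    exact r.2
  rw [eq_top_iff, ← hRt]
  unfold Rt
  rw [IntermediateField.adjoin_le_iff]
  rintro _ ⟨⟨f, g⟩, rfl⟩
  by_cases hg : T g = 0
  · change T f / T g ∈ _
    rw [hg, div_zero]
    exact zero_mem _
  · refine IntermediateField.subset_adjoin _ _ ⟨trForm y (T f), trForm y (T g), G,
      ⟨trForm_pluri y _, hTreg f⟩, ⟨trForm_pluri y _, hTreg g⟩, ?_, ?_⟩
    · rw [hθE]
      exact hg
    · rw [hθE, hθE]

end

end Pool.Agent.V7H74.HL
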