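import Pool.Agent.V7H74.ImgPsi

/-!
Varieties dominated by the product of a variety and a curve: the Cayley-Bacharach condition.
-/

set_option autoImplicit false
set_option linter.overlappingInstances false
set_option linter.unusedSectionVars false
set_option linter.unusedVariables false
set_option maxHeartbeats 4000000
set_option synthInstance.maxHeartbeats 400000

open Polynomial FF IntermediateField Module

namespace Pool.Agent.V7H74.HL

open Pool.Agent.W603.LV Pool.Agent.W619.PQ Pool.Agent.N145.PC Pool.Agent.N145.PL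
open Pool.Agent.N145.SX
open Pool.Agent.W602.GT (Divisorial RegAt IsPluri DerReg DerLog LogAt KodGe LogSec Psef)

open scoped Classical

variable {K : Type} [Field K] [Algebra ℂ K] {E C : IntermediateField ℂ K}
  {m : ℕ} {L : Type} [Field L] [Algebra ℂ L]
  [Algebra L K] [IsScalarTower ℂ L K] [FiniteDimensional L K]

/-- **The product of a variety and a curve.** -/
theorem cb_tfae [Algebra.EssFiniteType ℂ K] [Algebra.EssFiniteType ℂ E] [IsFF ℂ C]
    (hEC : E ⊔ C = ⊤) (hE : Algebra.trdeg ℂ E = m) (hK : Algebra.trdeg ℂ K = (m + 1 : ℕ))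
    (D : Fin m → Derivation ℂ E E) (τ0 : K →ₐ[L] AlgebraicClosure L)
    (ψ : (E →ₐ[ℂ] AlgebraicClosure L) → AlgebraicClosure L)
    (hψ1 : ψ ∈ Submodule.span (AlgebraicClosure L)
      {e : (E →ₐ[ℂ] AlgebraicClosure L) → AlgebraicClosure L |
        ∃ ω : (Fin m → Derivation ℂ E E) → E,
          IsPluri 1 ω ∧ (∀ P : Place ℂ E, Divisorial m P → RegAt P ω) ∧
          e = fun σ => σ (ω D)})
    (hψ2 : ψ (res (K := K) (L := L) E τ0) ≠ 0)
    (hψ3 : ∀ τ : K →ₐ[L] AlgebraicClosure L, (∃ z ∈ E, τ z ≠ τ0 z) →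
      ψ (res (K := K) (L := L) E τ) = 0) :
    [PGZ L (m + 1), ¬ KodGe ℂ L (m + 1) (fun _ => False) 0,
      ¬ Psef ℂ L (m + 1) (fun _ => False), IsUniruled ℂ L (m + 1)].TFAE := by
  have hess1 : ∀ i : Fin 2, Algebra.EssFiniteType ℂ ((![E, C] : Fin 2 → IntermediateField ℂ K) i) := by
    intro i
    fin_cases i
    · change Algebra.EssFiniteType ℂ E
      infer_instance
    · change Algebra.EssFiniteType ℂ C
      exact IsFF.ess
  have hff : IsFF ℂ ((![E, C] : Fin 2 → IntermediateField ℂ K) (Fin.last 1)) := by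
    change IsFF ℂ C
    infer_instance
  have hsup : ⨆ i, (![E, C] : Fin 2 → IntermediateField ℂ K) i = ⊤ := by
    rw [← hEC]
    refine le_antisymm (iSup_le fun i => ?_) (sup_le ?_ ?_)
    · fin_cases i
      · exact le_sup_left
      · exact le_sup_right
    · exact le_iSup (![E, C] : Fin 2 → IntermediateField ℂ K) 0
    · exact le_iSup (![E, C] : Fin 2 → IntermediateField ℂ K) 1
  have key := psi_tfae (k := 1) (F := ![E, C]) (m := fun _ => m) (L := L) hsup
    (fun i => by
      fin_cases i
      exact hE) (by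
      rw [hK]
      simp) (fun i => match i with | ⟨0, _⟩ => D) τ0 (fun i => match i with | ⟨0, _⟩ => ψ)
      (fun i => match i with | ⟨0, _⟩ => hψ1) (fun i => match i with | ⟨0, _⟩ => hψ2)
      (fun τ h => by
        obtain ⟨i, z, hz, h⟩ := h
        exact ⟨0, hψ3 τ ⟨z, match i, hz with | ⟨0, _⟩, hz => hz, h⟩⟩)
  simpa using key

end Pool.Agent.V7H74.HL
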