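import Pool.Agent.V7H74.ImgAll

/-!
Varieties dominated by the product of several varieties: counting the points of the fibres.
-/

set_option autoImplicit false
set_option linter.overlappingInstances false
set_option linter.unusedSectionVars false
set_option linter.unusedVariables false
set_option maxHeartbeats 4000000
set_option synthInstance.maxHeartbeats 400000

open Polynomial FF IntermediateField Module

namespace Pool.Agent.V7H74.HL

open Pool.Agent.W603.LV Pool.Agent.W619.PQ Pool.Agent.N145.PC Pool.Agent.N145.PL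
open Pool.Agent.N145.SX
open Pool.Agent.W602.GT (Divisorial RegAt IsPluri DerReg DerLog LogAt KodGe LogSec Psef)
open Pool.Agent.Y184.NT (trForm trForm_pluri)
open Pool.Agent.R882.LT (SecAt LogGenusZero)
open Pool.Agent.W619.PL (IsA1Uniruled)

open scoped Classical

section

variable {K : Type} [Field K] [Algebra ℂ K] {k : ℕ} {F : Fin (k + 1) → IntermediateField ℂ K}
  {L : Type} [Field L] [Algebra ℂ L]
  [Algebra L K] [IsScalarTower ℂ L K] [FiniteDimensional L K]

/-- the number of the points of a general fibre with given coordinates in `S` -/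
noncomputable def agr (F : Fin (k + 1) → IntermediateField ℂ K) (L : Type) [Field L] [Algebra L K]
    (S : Set (Fin (k + 1))) : ℕ :=
  finrank (IntermediateField.adjoin L {z | ∃ l ∈ S, z ∈ F l}) K

theorem MF_eq (A : Finset (Fin (k + 1))) :
    MF F L A = IntermediateField.adjoin L {z | ∃ l ∈ (A : Set (Fin (k + 1))), z ∈ F l} := by
  unfold MF MJ
  congr 1
  ext z
  simp only [Set.mem_iUnion, Set.mem_range, exists_prop, Set.mem_setOf_eq, Finset.mem_coe]
  constructor
  · rintro ⟨l, hl, z, rfl⟩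
    exact ⟨l, hl, z.2⟩
  · rintro ⟨l, hl, hz⟩
    exact ⟨l, hl, ⟨z, hz⟩, rfl⟩

theorem agr_eq (A : Finset (Fin (k + 1))) :
    finrank (MF F L A) K = agr F L (A : Set (Fin (k + 1))) := by
  unfold agr
  rw [MF_eq]

theorem MF_perm (σ : Equiv.Perm (Fin (k + 1))) (A : Finset (Fin (k + 1))) :
    MF (fun i => F (σ i)) L A = MF F L (A.image σ) := by
  unfold MF MJ
  congr 1
  ext z
  simp only [Set.mem_iUnion, Finset.mem_image, Set.mem_range, exists_prop]
  constructor
  · rintro ⟨l, hl, z, rfl⟩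
    exact ⟨σ l, ⟨l, hl, rfl⟩, z, rfl⟩
  · rintro ⟨_, ⟨l, hl, rfl⟩, z, rfl⟩
    exact ⟨l, hl, z, rfl⟩

theorem MF_mono {A B : Finset (Fin (k + 1))} (h : A ⊆ B) : MF F L A ≤ MF F L B := by
  unfold MF MJ
  exact IntermediateField.adjoin.mono _ _ _ (Set.biUnion_subset_biUnion_left h)

theorem agr_set {A : Finset (Fin (k + 1))} {S : Set (Fin (k + 1))}
    (h : ∀ l, l ∈ A ↔ l ∈ S) : finrank (MF F L A) K = agr F L S := by
  rw [agr_eq]
  congr 1
  ext l
  exact h l

theorem agr_pos (S : Set (Fin (k + 1))) : 0 < agr F L S := by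
  have h1 : agr F L S = finrank (MF F L (Finset.univ.filter fun l => l ∈ S)) K :=
    (agr_set fun l => by simp).symm
  rw [h1]
  exact finrank_pos

theorem agr_dvd {S T : Set (Fin (k + 1))} (h : S ⊆ T) : agr F L T ∣ agr F L S := by
  have h1 : ∀ S, agr F L S = finrank (MF F L (Finset.univ.filter fun l => l ∈ S)) K :=
    fun S => (agr_set fun l => by simp).symm
  rw [h1, h1]
  refine IntermediateField.finrank_dvd_of_le_left (MF_mono ?_)
  intro l hl
  rw [Finset.mem_filter] at hl ⊢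
  exact ⟨hl.1, h hl.2⟩

theorem agr_univ (hsup : ⨆ i, F i = ⊤) {S : Set (Fin (k + 1))} (h : ∀ l, l ∈ S) :
    agr F L S = 1 := by
  rw [← agr_set (A := Finset.univ) fun l => by simp [h l], MF_univ hsup]
  exact IntermediateField.finrank_top

/-- the numbers of points, for blocks of factors -/
def Spr (F : Fin (k + 1) → IntermediateField ℂ K) (L : Type) [Field L] [Algebra L K]
    (m s b : Fin (k + 1) → ℕ) (c : ℕ) : Prop :=
  ∀ (t : ℕ) (A : Finset (Fin (k + 1))), A.Nonempty → (∀ l ∈ A, b l = t) →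
    c * agr F L {l | b l ≤ t ∧ l ∉ A} ≤ agr F L {l | b l ≤ t} * (1 + ∑ l ∈ A, (s l - 1)) ∨
    ∃ j, A = {j} ∧ m j = 1 ∧ ∀ i, b i ≤ b j

/-- all factors have canonical forms, except for a curve alone in the last block -/
def Hs (m s b : Fin (k + 1) → ℕ) : Prop :=
  ∀ i, 1 ≤ s i ∨ (m i = 1 ∧ ∀ j, j ≠ i → b j < b i)

variable {m s : Fin (k + 1) → ℕ}

/-- the reduction to the last factor -/
theorem perm_data [∀ i, Algebra.EssFiniteType ℂ (F i)] (hsup : ⨆ i, F i = ⊤)
    (hm : ∀ i, Algebra.trdeg ℂ (F i) = m i)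
    {x : ∀ i, Fin (m i) → F i} (hx : ∀ i, IsTranscendenceBasis ℂ (x i)) {i0 : Fin (k + 1)}
    (hi0 : m i0 = 1) :
    ∃ σ : Equiv.Perm (Fin (k + 1)), σ (Fin.last k) = i0 ∧
      ⨆ i, F (σ i) = ⊤ ∧ IsFF ℂ (F (σ (Fin.last k))) ∧
      ∑ i : Fin k, m (σ i.castSucc) + 1 = ∑ i, m i ∧
      (Finset.univ.erase (Fin.last k)).image σ = Finset.univ.erase i0 := by
  refine ⟨Equiv.swap i0 (Fin.last k), Equiv.swap_apply_right _ _, ?_, ?_, ?_, ?_⟩
  · rw [← hsup]
    exact (Equiv.swap i0 (Fin.last k)).iSup_comp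
  · rw [Equiv.swap_apply_right]
    exact ⟨inferInstance, by rw [hm, hi0]; simp⟩
  · have h1 := Equiv.sum_comp (Equiv.swap i0 (Fin.last k)) m
    rw [Fin.sum_univ_castSucc, Equiv.swap_apply_right, hi0] at h1
    exact h1
  · ext j
    simp only [Finset.mem_image, Finset.mem_erase, Finset.mem_univ, and_true]
    constructor
    · rintro ⟨i, hi, rfl⟩ h
      apply hi
      rw [Equiv.swap_apply_eq_iff, Equiv.swap_apply_left] at h
      exact h
    · intro h
      refine ⟨Equiv.swap i0 (Fin.last k) j, ?_, by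
        rw [← Equiv.Perm.mul_apply, Equiv.swap_mul_self, Equiv.Perm.one_apply]⟩
      intro h1
      apply h
      rw [Equiv.swap_apply_eq_iff, Equiv.swap_apply_right] at h1
      exact h1

theorem arith1 {c r q s0 S : ℕ} (hc : c = 1 ∨ c = 2) (hr : 0 < r) (h1 : s0 < c * r)
    (h2 : c * (r * q) ≤ 1 * (1 + (s0 - 1 + S))) : c * (r * q) ≤ r * (1 + S) := by
  rcases hc with rfl | rfl
  · rw [one_mul] at h1 h2 ⊢
    have h3 : r * q ≤ r + S := by omega
    have h4 : S ≤ r * S := Nat.le_mul_of_pos_left _ hr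
    nlinarith
  · have h12 : 2 * q ≤ 1 + S := by
      by_contra hcon
      push Not at hcon
      have h13 : 2 + S ≤ 2 * q := by omega
      have h4 : S ≤ r * S := Nat.le_mul_of_pos_left _ hr
      have h15 : r * (2 + S) ≤ r * (2 * q) := Nat.mul_le_mul_left _ h13
      have h16 : r * (2 * q) = 2 * (r * q) := by ring
      have h17 : r * (2 + S) = 2 * r + r * S := by ring
      omega
    calc 2 * (r * q) = r * (2 * q) := by ring
      _ ≤ r * (1 + S) := Nat.mul_le_mul_left _ h12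

variable {b : Fin (k + 1) → ℕ}

/-- no exceptions -/
theorem blk_noexc (hs : Hs m s b) {c : ℕ} (hc : 1 ≤ c) (hS : Spr F L m s b c)
    (hex : ∀ j, m j = 1 → (∀ i, b i ≤ b j) → c * agr F L {l | l ≠ j} ≤ s j) :
    (∀ i, 1 ≤ s i) ∧ ∀ (t : ℕ) (B : Finset (Fin (k + 1))), B.Nonempty → (∀ l ∈ B, b l = t) →
      c * finrank (MF F L ((Finset.univ.filter fun l => b l ≤ t) \ B)) K ≤
        finrank (MF F L (Finset.univ.filter fun l => b l ≤ t)) K * (1 + ∑ l ∈ B, (s l - 1)) := by
  have h1 : ∀ i, 1 ≤ s i := by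
    intro i
    rcases hs i with h | ⟨h, h'⟩
    · exact h
    · have h2 := hex i h (fun j => by
        by_cases hj : j = i
        · rw [hj]
        · exact (h' j hj).le)
      have h3 := agr_pos (F := F) (L := L) {l | l ≠ i}
      exact le_trans (Nat.mul_pos hc h3) h2
  refine ⟨h1, fun t B hB hBt => ?_⟩
  have h2 : finrank (MF F L ((Finset.univ.filter fun l => b l ≤ t) \ B)) K =
      agr F L {l | b l ≤ t ∧ l ∉ B} := agr_set fun l => by simp
  have h3 : finrank (MF F L (Finset.univ.filter fun l => b l ≤ t)) K =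
      agr F L {l | b l ≤ t} := agr_set fun l => by simp
  rw [h2, h3]
  rcases hS t B hB hBt with h | ⟨j, rfl, hj, hj'⟩
  · exact h
  · have h4 : b j = t := hBt j (Finset.mem_singleton_self j)
    have h5 : {l | b l ≤ t ∧ l ∉ ({j} : Finset (Fin (k + 1)))} = {l | l ≠ j} := by
      ext l
      simp only [Set.mem_setOf_eq, Finset.mem_singleton]
      exact ⟨fun h => h.2, fun h => ⟨h4 ▸ hj' l, h⟩⟩
    rw [h5, Finset.sum_singleton]
    have h6 := hex j hj hj'
    have h7 := h1 j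
    have h8 : 1 + (s j - 1) = s j := by omega
    rw [h8]
    exact h6.trans (Nat.le_mul_of_pos_left _ (agr_pos _))

/-- the other coordinates if there is an exception -/
theorem blk_perm (hsup : ⨆ i, F i = ⊤) {c : ℕ} (hc : c = 1 ∨ c = 2) (hS : Spr F L m s b c)
    {i0 : Fin (k + 1)} (hlast : ∀ i, b i ≤ b i0) (hr : s i0 < c * agr F L {l | l ≠ i0})
    {σ : Equiv.Perm (Fin (k + 1))} (h1 : σ (Fin.last k) = i0) (t : ℕ)
    (B : Finset (Fin (k + 1))) (hB : B ⊆ Finset.univ.erase (Fin.last k)) (hBn : B.Nonempty)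
    (hBt : ∀ l ∈ B, b (σ l) = t) :
    c * finrank (MF (fun i => F (σ i)) L
      (((Finset.univ.erase (Fin.last k)).filter fun l => b (σ l) ≤ t) \ B)) K ≤
      finrank (MF (fun i => F (σ i)) L
        ((Finset.univ.erase (Fin.last k)).filter fun l => b (σ l) ≤ t)) K *
        (1 + ∑ l ∈ B, (s (σ l) - 1)) := by
  have h8 : i0 ∉ B.image σ := by
    intro h
    obtain ⟨i, hi, h9⟩ := Finset.mem_image.1 h
    rw [← h1] at h9
    rw [σ.injective h9] at hi
    exact (Finset.mem_erase.1 (hB hi)).1 rfl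
  have h9 : ∑ l ∈ B, (s (σ l) - 1) = ∑ l ∈ B.image σ, (s l - 1) :=
    (Finset.sum_image (f := fun l => s l - 1) fun a _ b _ h => σ.injective h).symm
  have hlt : ∀ l, l = Fin.last k ↔ σ l = i0 := by
    intro l
    rw [← h1]
    exact σ.injective.eq_iff.symm
  have h2 : finrank (MF (fun i => F (σ i)) L
      (((Finset.univ.erase (Fin.last k)).filter fun l => b (σ l) ≤ t) \ B)) K =
      agr F L {l | l ≠ i0 ∧ b l ≤ t ∧ l ∉ B.image σ} := by
    rw [MF_perm]
    refine agr_set fun l => ?_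
    simp only [Finset.mem_image, Finset.mem_sdiff, Finset.mem_filter, Finset.mem_erase,
      Finset.mem_univ, and_true, Set.mem_setOf_eq]
    constructor
    · rintro ⟨i, ⟨⟨h2, h3⟩, h4⟩, rfl⟩
      refine ⟨fun h => h2 ((hlt i).2 h), h3, ?_⟩
      rintro ⟨j, hj, h5⟩
      rw [σ.injective h5] at hj
      exact h4 hj
    · rintro ⟨h2, h3, h4⟩
      refine ⟨σ.symm l, ⟨⟨fun h => h2 ?_, ?_⟩, fun h => h4 ⟨_, h, ?_⟩⟩, ?_⟩
      · have h5 := (hlt _).1 h
        rwa [Equiv.apply_symm_apply] at h5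
      · rwa [Equiv.apply_symm_apply]
      · rw [Equiv.apply_symm_apply]
      · rw [Equiv.apply_symm_apply]
  have h3 : finrank (MF (fun i => F (σ i)) L
      ((Finset.univ.erase (Fin.last k)).filter fun l => b (σ l) ≤ t)) K =
      agr F L {l | l ≠ i0 ∧ b l ≤ t} := by
    rw [MF_perm]
    refine agr_set fun l => ?_
    simp only [Finset.mem_image, Finset.mem_filter, Finset.mem_erase,
      Finset.mem_univ, and_true, Set.mem_setOf_eq]
    constructor
    · rintro ⟨i, ⟨h2, h3⟩, rfl⟩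
      exact ⟨fun h => h2 ((hlt i).2 h), h3⟩
    · rintro ⟨h2, h3⟩
      refine ⟨σ.symm l, ⟨fun h => h2 ?_, ?_⟩, ?_⟩
      · have h5 := (hlt _).1 h
        rwa [Equiv.apply_symm_apply] at h5
      · rwa [Equiv.apply_symm_apply]
      · rw [Equiv.apply_symm_apply]
  rw [h2, h3, h9]
  obtain ⟨B', hB'⟩ : ∃ B', B' = B.image σ := ⟨_, rfl⟩
  rw [← hB'] at h8 ⊢
  have hBn' : B'.Nonempty := by
    rw [hB']
    exact hBn.image σ
  have hBt' : ∀ l ∈ B', b l = t := by
    intro l hl
    rw [hB', Finset.mem_image] at hl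
    obtain ⟨i, hi, rfl⟩ := hl
    exact hBt i hi
  obtain ⟨l0, hl0⟩ := hBn'
  have ht : t ≤ b i0 := by
    rw [← hBt' l0 hl0]
    exact hlast l0
  rcases ht.lt_or_eq with ht | ht
  · have h4 : {l | l ≠ i0 ∧ b l ≤ t ∧ l ∉ B'} = {l | b l ≤ t ∧ l ∉ B'} := by
      ext l
      simp only [Set.mem_setOf_eq]
      refine ⟨fun h => h.2, fun h => ⟨?_, h⟩⟩
      rintro rfl
      omega
    have h5 : {l | l ≠ i0 ∧ b l ≤ t} = {l | b l ≤ t} := by
      ext l
      simp only [Set.mem_setOf_eq]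
      refine ⟨fun h => h.2, fun h => ⟨?_, h⟩⟩
      rintro rfl
      omega
    rw [h4, h5]
    refine (hS t B' ⟨l0, hl0⟩ hBt').resolve_right ?_
    rintro ⟨j, hj, -, hj'⟩
    have h6 : l0 = j := by
      rw [hj] at hl0
      exact Finset.mem_singleton.1 hl0
    have h7 := hj' i0
    rw [← h6, hBt' l0 hl0] at h7
    omega
  · have h4 : {l | l ≠ i0 ∧ b l ≤ t ∧ l ∉ B'} = {l | b l ≤ t ∧ l ∉ insert i0 B'} := by
      ext l
      simp only [Set.mem_setOf_eq, Finset.mem_insert, not_or]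
      tauto
    have h5 : {l | l ≠ i0 ∧ b l ≤ t} = {l | l ≠ i0} := by
      ext l
      simp only [Set.mem_setOf_eq]
      exact ⟨fun h => h.1, fun h => ⟨h, ht ▸ hlast l⟩⟩
    rw [h4, h5]
    have h10 := (hS t (insert i0 B') (Finset.insert_nonempty _ _) (by
      intro l hl
      rcases Finset.mem_insert.1 hl with rfl | hl
      · exact ht.symm
      · exact hBt' l hl)).resolve_right (by
      rintro ⟨j, hj, -⟩
      have h11 : i0 ∈ ({j} : Finset (Fin (k + 1))) := by
        rw [← hj]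
        exact Finset.mem_insert_self _ _
      have h12 : l0 ∈ ({j} : Finset (Fin (k + 1))) := by
        rw [← hj]
        exact Finset.mem_insert_of_mem hl0
      rw [Finset.mem_singleton] at h11 h12
      rw [h12, ← h11] at hl0
      exact h8 hl0)
    have h11 : agr F L {l | b l ≤ t} = 1 := agr_univ hsup fun l => by
      change b l ≤ t
      rw [ht]
      exact hlast l
    rw [Finset.sum_insert h8, h11] at h10
    obtain ⟨q, hq⟩ : agr F L {l | l ≠ i0} ∣ agr F L {l | b l ≤ t ∧ l ∉ insert i0 B'} := by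
      refine agr_dvd fun l hl => ?_
      intro h
      exact hl.2 (Finset.mem_insert.2 (Or.inl h))
    rw [hq] at h10 ⊢
    exact arith1 hc (agr_pos _) hr h10

/-- **One fibre.** -/
theorem one_main [Algebra.EssFiniteType ℂ K] [∀ i, Algebra.EssFiniteType ℂ (F i)]
    (hsup : ⨆ i, F i = ⊤) (hm : ∀ i, Algebra.trdeg ℂ (F i) = m i)
    (hK : Algebra.trdeg ℂ K = (∑ i, m i : ℕ)) {x : ∀ i, Fin (m i) → F i}
    (hx : ∀ i, IsTranscendenceBasis ℂ (x i)) (hs : Hs m s b)
    (hsep : ∀ i, SepX (x i) (fun _ => False) (s i + 1)) (hS : Spr F L m s b 1)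
    (hz0 : PGZ L (∑ i, m i)) :
    (∃ j, m j = 1 ∧ (∀ i, b i ≤ b j) ∧ s j < agr F L {l | l ≠ j}) ∧
      IsUniruled ℂ L (∑ i, m i) := by
  by_cases hex : ∃ i0, m i0 = 1 ∧ (∀ i, b i ≤ b i0) ∧ s i0 < agr F L {l | l ≠ i0}
  swap
  · exfalso
    push Not at hex
    obtain ⟨h1, h2⟩ := blk_noexc hs le_rfl hS (fun j hj hj' => by
      rw [one_mul]
      exact hex j hj hj')
    refine all_ne (L := L) (b := b) hsup hm hK hx h1 hsep (fun t B hB hBt => ?_) hz0
    have h3 := h2 t B hB hBt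
    rwa [one_mul] at h3
  refine ⟨hex, ?_⟩
  obtain ⟨i0, hi0, hlast, hr⟩ := hex
  obtain ⟨σ, h1, h2, h3, h4, h5⟩ := perm_data hsup hm hx hi0
  have hess : ∀ i, Algebra.EssFiniteType ℂ (F (σ i)) := fun i => inferInstance
  obtain ⟨τ0⟩ : Nonempty (K →ₐ[L] AlgebraicClosure L) :=
    ⟨IsAlgClosed.lift (R := L) (M := AlgebraicClosure L) (S := K)⟩
  have hKK : Algebra.trdeg ℂ K = (∑ i : Fin k, m (σ i.castSucc) + 1 : ℕ) := by
    rw [hK, h4]
  have hs1 : ∀ i : Fin k, 1 ≤ s (σ i.castSucc) := by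
    intro i
    rcases hs (σ i.castSucc) with h | ⟨-, h⟩
    · exact h
    · exfalso
      have h6 := h i0 (by
        rw [← h1]
        exact fun h7 => Fin.castSucc_ne_last i (σ.injective h7).symm)
      have h7 := hlast (σ i.castSucc)
      omega
  rw [← h4] at hz0 ⊢
  obtain ⟨M, j1, j2, φ, h6, h7, -⟩ := one_last (F := fun i => F (σ i)) (L := L)
    (m := fun i => m (σ i.castSucc)) h2 (fun i => hm _) hKK (x := fun i => x (σ i.castSucc))
    (fun i => hx _) (B := ∅) Set.finite_empty (BX := fun _ _ => False) (BL := fun _ => False)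
    (fun P Q e h => ⟨fun h => absurd h id, fun h => absurd h (bdM_false Q)⟩)
    τ0
    (fun H hH c h0 => by
      refine rl_one τ0 (Finset.univ.erase (Fin.last k)) (fun i => s (σ i)) (fun i => b (σ i))
        (fun l hl => ?_) (fun l hl => ?_) (fun t B hB hBn hBt => ?_) h0
      · obtain ⟨i, rfl⟩ := Fin.exists_castSucc_eq.2 (Finset.mem_erase.1 hl).1
        exact hs1 i
      · obtain ⟨i, rfl⟩ := Fin.exists_castSucc_eq.2 (Finset.mem_erase.1 hl).1
        intro A hA c hc
        rw [hH] at hc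
        exact hsep _ (AlgebraicClosure L) A hA c hc
      · have h8 := blk_perm hsup (Or.inl rfl) hS hlast (by rwa [one_mul]) h1 t B hB hBn hBt
        rwa [one_mul] at h8)
    (log_pgz hz0)
  exact ⟨M, j1, j2, h6, h7, ⟨φ⟩⟩

/-- **All conditions.** -/
theorem one_tfae [Algebra.EssFiniteType ℂ K] [∀ i, Algebra.EssFiniteType ℂ (F i)]
    (hsup : ⨆ i, F i = ⊤) (hm : ∀ i, Algebra.trdeg ℂ (F i) = m i)
    (hK : Algebra.trdeg ℂ K = (∑ i, m i : ℕ)) {x : ∀ i, Fin (m i) → F i}
    (hx : ∀ i, IsTranscendenceBasis ℂ (x i)) (hs : Hs m s b)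
    (hsep : ∀ i, SepX (x i) (fun _ => False) (s i + 1)) (hS : Spr F L m s b 1) :
    [PGZ L (∑ i, m i), ¬ KodGe ℂ L (∑ i, m i) (fun _ => False) 0,
      ¬ Psef ℂ L (∑ i, m i) (fun _ => False), IsUniruled ℂ L (∑ i, m i)].TFAE := by
  have hL : Algebra.trdeg ℂ L = (∑ i, m i : ℕ) := Pool.Agent.Y184.NT.trdeg_below (K := K) hK
  have hessL : Algebra.EssFiniteType ℂ L := Pool.Agent.TH466.QG.ess_below (K := K)
  tfae_have 1 → 4 := fun h => (one_main hsup hm hK hx hs hsep hS h).2
  tfae_have 4 → 3 := fun h' h =>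
    (Pool.Agent.W619.Y.uniruled_neg _ hL h').1 ((Pool.Agent.TH466.QG.psef_iff _).1 h)
  tfae_have 3 → 2 := fun h1 h2 => h1 (psef_of_kodGe' h2)
  tfae_have 2 → 1 := by
    intro h2
    apply pgz_log
    intro ω hω D
    by_contra hne
    exact h2 ⟨1, one_pos, fun _ => ω, fun _ => hω, D, hne, algebraicIndependent_empty_type⟩
  tfae_finish

/-- **Two fibres.** -/
theorem two_main [Algebra.EssFiniteType ℂ K] [∀ i, Algebra.EssFiniteType ℂ (F i)]
    (hsup : ⨆ i, F i = ⊤) (hm : ∀ i, Algebra.trdeg ℂ (F i) = m i) {n : ℕ}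
    (hn : ∑ i, m i = n + 1)
    (hK : Algebra.trdeg ℂ K = (∑ i, m i : ℕ)) {x : ∀ i, Fin (m i) → F i}
    (hx : ∀ i, IsTranscendenceBasis ℂ (x i)) (hs : Hs m s b)
    (hsep : ∀ i, SepX (x i) (fun _ => False) (s i + 1)) (hS : Spr F L m s b 2) :
    IsUniruled ℂ L (n + 1) ∨ CanGe L (n + 1) n := by
  by_cases hex : ∃ i0, m i0 = 1 ∧ (∀ i, b i ≤ b i0) ∧ s i0 < 2 * agr F L {l | l ≠ i0}
  swap
  · right
    push Not at hex
    obtain ⟨h1, h2⟩ := blk_noexc hs one_le_two hS hex
    rw [← hn]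
    exact canGe_mono (by omega) (all_can (L := L) (b := b) hsup hm hK hx h1 hsep h2)
  obtain ⟨i0, hi0, hlast, hr⟩ := hex
  obtain ⟨σ, h1, h2, h3, h4, h5⟩ := perm_data hsup hm hx hi0
  have hess : ∀ i, Algebra.EssFiniteType ℂ (F (σ i)) := fun i => inferInstance
  have hL : Algebra.trdeg ℂ L = (∑ i, m i : ℕ) := Pool.Agent.Y184.NT.trdeg_below (K := K) hK
  have hessL : Algebra.EssFiniteType ℂ L := Pool.Agent.TH466.QG.ess_below (K := K)
  have hKK : Algebra.trdeg ℂ K = (∑ i : Fin k, m (σ i.castSucc) + 1 : ℕ) := by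
    rw [hK, h4]
  have hn' : ∑ i : Fin k, m (σ i.castSucc) = n := by omega
  have hs1 : ∀ i : Fin k, 1 ≤ s (σ i.castSucc) := by
    intro i
    rcases hs (σ i.castSucc) with h | ⟨-, h⟩
    · exact h
    · exfalso
      have h6 := h i0 (by
        rw [← h1]
        exact fun h7 => Fin.castSucc_ne_last i (σ.injective h7).symm)
      have h7 := hlast (σ i.castSucc)
      omega
  rw [← h4, hn'] at hL
  have key := two_last (F := fun i => F (σ i)) (L := L)
    (m := fun i => m (σ i.castSucc)) h2 (fun i => hm _) hKK (x := fun i => x (σ i.castSucc))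
    (fun i => hx _) (B := ∅) Set.finite_empty (BX := fun _ _ => False) (BL := fun _ => False)
    (fun P Q e h => ⟨fun h => absurd h id, fun h => absurd h (bdM_false Q)⟩)
    (s := fun i => s (σ i)) (b := fun i => b (σ i)) hs1 (fun i => hsep _)
    (fun t B hB hBn hBt => blk_perm hsup (Or.inr rfl) hS hlast hr h1 t B hB hBn hBt)
  rw [hn'] at key
  rcases key with h | h
  · obtain ⟨M, j1, j2, φ, h6, h7, -⟩ := h
    exact Or.inl ⟨M, j1, j2, h6, h7, ⟨φ⟩⟩
  · obtain ⟨y, G, ι, T, hG, hT0, hreg, x', hx', halg⟩ := h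
    exact Or.inr (canGe_of_alg hL hG T hT0 (fun f P hP => (hreg f P hP).2 not_false)
      (trdeg_adj hx') halg)

end

end Pool.Agent.V7H74.HL
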