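import Pool.Agent.V7H74.ImgFin

/-!
Varieties dominated by the product of several varieties: coverings by rational and elliptic curves.
The first lemma follows the proof of the one in `N145/SX/MLang`.
-/

set_option autoImplicit false
set_option linter.overlappingInstances false
set_option linter.unusedSectionVars false
set_option linter.unusedVariables false
set_option maxHeartbeats 4000000
set_option synthInstance.maxHeartbeats 400000

open Polynomial FF IntermediateField Module

namespace Pool.Agent.V7H74.HL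

open Pool.Agent.W603.LV Pool.Agent.W619.PQ Pool.Agent.N145.PC Pool.Agent.N145.PL
open Pool.Agent.N145.SX
open Pool.Agent.W602.GT (Divisorial RegAt IsPluri DerReg DerLog LogAt KodGe LogSec Psef)
open Pool.Agent.Y184.NT (trForm trForm_pluri)
open Pool.Agent.R882.LT (SecAt LogGenusZero)
open Pool.Agent.W619.PL (IsA1Uniruled)

open scoped Classical

section

variable {K : Type} [Field K] [Algebra ℂ K] {k : ℕ} {F : Fin (k + 1) → IntermediateField ℂ K}
  {m : Fin k → ℕ} {L : Type} [Field L] [Algebra ℂ L]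
  [Algebra L K] [IsScalarTower ℂ L K] [FiniteDimensional L K]

/-- **General type, or a covering by curves of genus at most one.** -/
theorem lang_last [Algebra.EssFiniteType ℂ K]
    [∀ i, Algebra.EssFiniteType ℂ (F i)] [IsFF ℂ (F (Fin.last k))] (hsup : ⨆ i, F i = ⊤)
    (hm : ∀ i : Fin k, Algebra.trdeg ℂ (F i.castSucc) = m i)
    (hK : Algebra.trdeg ℂ K = (∑ i, m i + 1 : ℕ)) {x : ∀ i : Fin k, Fin (m i) → F i.castSucc}
    (hx : ∀ i, IsTranscendenceBasis ℂ (x i))
    {s b : Fin (k + 1) → ℕ} (hs1 : ∀ i : Fin k, 1 ≤ s i.castSucc)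
    (hsep : ∀ i : Fin k, SepX (x i) (fun _ => False) (s i.castSucc + 1))
    (hcount : ∀ t, ∀ B ⊆ Finset.univ.erase (Fin.last k), B.Nonempty → (∀ l ∈ B, b l = t) →
      2 * finrank (MF F L (((Finset.univ.erase (Fin.last k)).filter fun l => b l ≤ t) \ B)) K ≤
        finrank (MF F L ((Finset.univ.erase (Fin.last k)).filter fun l => b l ≤ t)) K *
          (1 + ∑ l ∈ B, (s l - 1))) :
    CanGe L (∑ i, m i + 1) (∑ i, m i + 1) ∨ Cov1 L (∑ i, m i) := by
  have hL : Algebra.trdeg ℂ L = (∑ i, m i + 1 : ℕ) := Pool.Agent.Y184.NT.trdeg_below (K := K) hK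
  have hessL : Algebra.EssFiniteType ℂ L := Pool.Agent.TH466.QG.ess_below (K := K)
  obtain ⟨N, hN⟩ : ∃ N, N = ∑ i, m i := ⟨_, rfl⟩
  obtain ⟨e⟩ : Nonempty (Fin N ≃ (i : Fin k) × Fin (m i)) := by
    rw [hN]
    exact ⟨finSigmaFinEquiv.symm⟩
  have hind := ind_all hsup hK hx
  rw [← hN] at hK hL ⊢
  obtain ⟨E, hE⟩ : ∃ E, E = ⨆ i : Fin k, F i.castSucc := ⟨_, rfl⟩
  have hle : ∀ i : Fin k, F i.castSucc ≤ E := fun i => by
    rw [hE]
    exact le_iSup (fun i : Fin k => F i.castSucc) i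
  have hessE : Algebra.EssFiniteType ℂ E := ess_iSup (F := fun i : Fin k => F i.castSucc) hE
  have hz := basis_zS x hle e hx hind hE
  have htrE := trdeg_basis hz
  have hsup' : E ⊔ F (Fin.last k) = ⊤ := by
    rw [eq_top_iff, ← hsup]
    refine iSup_le fun i => ?_
    induction i using Fin.lastCases with
    | last => exact le_sup_right
    | cast i => exact (hle i).trans le_sup_left
  obtain ⟨t, ht⟩ := IsFF.exists_transcendental (k := ℂ) (K := F (Fin.last k))
  obtain ⟨D0, hD0⟩ := exists_D ht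
  obtain ⟨hna, -, hcl⟩ := closed K N E (F (Fin.last k)) hsup' htrE hK
  obtain ⟨y, G, h, hy, hG, hh, hreg, hval⟩ := exists_traceX (L := L) (BL := fun _ => False) sec
    htrE hK hz (fun _ => False) ht (basis_zz hK hz (hna t ht)) hD0
    (∅ : Set (Place ℂ (F (Fin.last k))))
    fun P Q e h1 h2 => by
      rcases h2 with ⟨_, _, h3, -⟩ | ⟨_, h3, -⟩
      · exact h3
      · exact h3
  have hge := geo K N E (F (Fin.last k)) hsup' htrE hK _ hz t ht D0 hD0 L h hval
  have hfin : (∀ φ ∈ HL D0 (∅ : Set (Place ℂ (F (Fin.last k)))),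
      Algebra.trace (IntermediateField.adjoin L (E : Set K)) K (h * (φ : K)) = 0) →
      Cov1 L N := by
    intro h0
    obtain ⟨s, hs, hsL⟩ := hge h0
    exact cov1_of_rat htrE hs hsL
  obtain ⟨τ0⟩ : Nonempty (K →ₐ[L] AlgebraicClosure L) :=
    ⟨IsAlgClosed.lift (R := L) (M := AlgebraicClosure L) (S := K)⟩
  have hT' : IsScalarTower ℂ L (AlgebraicClosure L) := inferInstance
  by_cases hz0 : ∀ φ ∈ HL D0 (∅ : Set (Place ℂ (F (Fin.last k)))),
      Algebra.trace (IntermediateField.adjoin L (E : Set K)) K (h * (φ : K)) = 0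
  · exact Or.inr (hfin hz0)
  push Not at hz0
  obtain ⟨ψ0, hψ0, hS0⟩ := hz0
  obtain ⟨H, hH⟩ : ∃ H, H = HS x (fun _ _ => False) (HL D0 ∅ : Set (F (Fin.last k))) := ⟨_, rfl⟩
  have hHl : H (Fin.last k) = (HL D0 ∅ : Set (F (Fin.last k))) := by
    rw [hH]
    exact HS_last x _ _
  have hHc : ∀ i : Fin k, H i.castSucc = HX (x i) (fun _ => False) := fun i => by
    rw [hH]
    exact HS_cast x _ _ i
  let I := {f : ∀ i, F i // ∀ i, f i ∈ H i}
  obtain ⟨T, hT⟩ : ∃ T : I → L, ∀ f, T f =
    Algebra.trace L K (h * ∏ i, algebraMap (F i) K (f.1 i)) := ⟨_, fun _ => rfl⟩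
  have hTreg : ∀ f, ∀ P : Place ℂ L, Divisorial (N + 1) P → RegAt P (trForm y (T f)) := by
    intro f P hP
    obtain ⟨q, hq1, hq2⟩ := prods sec2 k (fun i => F i.castSucc) m hm x hx hind
      (fun _ _ => False) E hE hle N e
      (fun i => f.1 i.castSucc) (fun i => by
        have := f.2 i.castSucc
        rwa [hHc] at this)
    have h1 := hreg q (hx_mono (by
      rintro Q ⟨_, _, _, h3, -⟩
      exact h3) hq2) (f.1 (Fin.last k)) (by
      have := f.2 (Fin.last k)
      rwa [hHl] at this) P hP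
    have h2 : algebraMap E K q * algebraMap (F (Fin.last k)) K (f.1 (Fin.last k)) =
        ∏ i, algebraMap (F i) K (f.1 i) := by
      rw [Fin.prod_univ_castSucc]
      congr 1
    rw [h2] at h1
    rw [hT]
    exact h1.2 not_false
  have hS : ∀ (Ω : Type) [Field Ω] [Algebra ℂ Ω] [IsAlgClosed Ω],
      ∀ l ∈ Finset.univ.erase (Fin.last k), Sep (ev Ω F l) (H l) (s l + 1) := by
    intro Ω _ _ _ l hl
    obtain ⟨i, rfl⟩ := Fin.exists_castSucc_eq.2 (Finset.mem_erase.1 hl).1
    intro A hA c hc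
    rw [hHc] at hc
    exact hsep i Ω A hA c hc
  have hs1' : ∀ l ∈ Finset.univ.erase (Fin.last k), 1 ≤ s l := by
    intro l hl
    obtain ⟨i, rfl⟩ := Fin.exists_castSucc_eq.2 (Finset.mem_erase.1 hl).1
    exact hs1 i
  have hno : ¬ (∀ f : ∀ i, F i, f (Fin.last k) ∈ H (Fin.last k) →
      Algebra.trace (MF F L (Finset.univ.erase (Fin.last k))) K
        (h * ∏ i, algebraMap (F i) K (f i)) = 0) := by
    intro h0
    have h1 := h0 (Fin.lastCases (motive := fun i => F i) ψ0 (fun _ => 1)) (by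
      rw [Fin.lastCases_last, hHl]
      exact hψ0)
    rw [Fin.prod_univ_castSucc, Fin.lastCases_last] at h1
    simp only [Fin.lastCases_castSucc, map_one, Finset.prod_const_one, one_mul] at h1
    rw [MF_erase hE] at h1
    exact hS0 h1
  obtain ⟨f1, hf1⟩ : ∃ f, T f ≠ 0 := by
    by_contra hT0
    push Not at hT0
    have h0 := Ch.rel_zero (F := F) (H := H) (h := h) (fun f hf => by
      have := hT0 ⟨f, hf⟩
      rwa [hT] at this) τ0
    have h1 := rl_one τ0 (Finset.univ.erase (Fin.last k)) s b hs1' (hS (AlgebraicClosure L))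
      (fun t B hB hBn hBt =>
        le_trans (Nat.le_mul_of_pos_left _ two_pos) (hcount t B hB hBn hBt)) h0
    exact hno fun f hf => Ch.rel_erase h1 f hf
  obtain ⟨Ω', iF, iA, iC, i1, i2, lam, hlam, hlamT, hpts⟩ := exists_pts T (f1 := f1) hf1
  have h0 : Rl (P2 i1 i2 F L) (ev Ω' F) H (C2 i1 i2 h lam) (Sum.inl τ0) ∅ :=
    Ch.rel2_zero i1 i2 (fun f hf => by
      have := hlamT ⟨f, hf⟩
      rw [hT] at this
      exact this) _
  have h1 := rl_two i1 i2 τ0 (Finset.univ.erase (Fin.last k)) s b hs1' (hS Ω') hcount h0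
  obtain ⟨τ, hτ⟩ := (Ch.rel2_erase i1 i2 hlam h1).resolve_right hno
  -- the functions of `X` are algebraic over the ratios
  have hEalg : ∀ z : E, IsAlgebraic (Rt T) (z : K) := by
    have h2 : E ≤ (algebraicClosure (Rt T) K).restrictScalars ℂ := by
      rw [hE]
      refine iSup_le fun i v hv => ?_
      rw [mem_restrictScalars, mem_algebraicClosure_iff]
      exact alg_back τ0 (hpts _ _ (hτ i.castSucc (Fin.castSucc_ne_last _) ⟨v, hv⟩).symm)
    intro z
    have h3 := h2 z.2
    rwa [mem_restrictScalars, mem_algebraicClosure_iff] at h3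
  -- the general case
  have hgen : ∀ u : K, ¬ IsAlgebraic E u → IsAlgebraic (Rt T) u → CanGe L (N + 1) (N + 1) := by
    intro u hu hu'
    refine canGe_of_alg hL hG T ⟨f1, hf1⟩ hTreg (trdeg_adj (indep_snoc hz hu))
      fun j => ?_
    induction j using Fin.lastCases with
    | last =>
      rw [Fin.snoc_last]
      exact hu'
    | cast i =>
      rw [Fin.snoc_castSucc]
      exact hEalg _
  by_cases hex : ∃ u : K, ¬ IsAlgebraic E u ∧ IsAlgebraic (Rt T) u
  · obtain ⟨u, hu, hu'⟩ := hex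
    exact Or.inl (hgen u hu hu')
  push Not at hex
  have hall : ∀ u : K, IsAlgebraic (Rt T) u → u ∈ E := fun u hu => by
    by_contra hcon
    exact hex u (fun h => hcon (hcl u h)) hu
  -- the ratios of the traces
  have hrat : ∀ φ ∈ HL D0 (∅ : Set (Place ℂ (F (Fin.last k)))), ∃ c : E,
      ((Algebra.trace (IntermediateField.adjoin L (E : Set K)) K (h * (φ : K)) :
        IntermediateField.adjoin L (E : Set K)) : K) = (c : K) *
      ((Algebra.trace (IntermediateField.adjoin L (E : Set K)) K (h * (ψ0 : K)) :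
        IntermediateField.adjoin L (E : Set K)) : K) := by
    intro φ hφ
    have hr : ∀ ψ ∈ HL D0 (∅ : Set (Place ℂ (F (Fin.last k)))),
        i2 (τ ((Algebra.trace (IntermediateField.adjoin L (E : Set K)) K (h * (ψ : K)) :
          IntermediateField.adjoin L (E : Set K)) : K)) =
        lam * i1 (τ0 ((Algebra.trace (IntermediateField.adjoin L (E : Set K)) K (h * (ψ : K)) :
          IntermediateField.adjoin L (E : Set K)) : K)) := by
      intro ψ hψ
      rw [← MF_erase hE]
      exact rel2_both i1 i2 hτ h1 (by rw [hHl]; exact hψ)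
    obtain ⟨a, ha⟩ : ∃ a : K, a = ((Algebra.trace (IntermediateField.adjoin L (E : Set K)) K
      (h * (φ : K)) : IntermediateField.adjoin L (E : Set K)) : K) := ⟨_, rfl⟩
    obtain ⟨b, hb⟩ : ∃ b : K, b = ((Algebra.trace (IntermediateField.adjoin L (E : Set K)) K
      (h * (ψ0 : K)) : IntermediateField.adjoin L (E : Set K)) : K) := ⟨_, rfl⟩
    have hb0 : b ≠ 0 := by
      rw [hb]
      intro h0
      exact hS0 (Subtype.ext h0)
    have h1 := hr φ hφ
    have h2 := hr ψ0 hψ0
    rw [← ha] at h1 ⊢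
    rw [← hb] at h2 ⊢
    have h3 : i1 (τ0 (a / b)) = i2 (τ (a / b)) := by
      rw [map_div₀, map_div₀, map_div₀, map_div₀, h1, h2, mul_div_mul_left _ _ hlam]
    have h4 := hall _ (alg_back τ0 (hpts _ _ h3))
    exact ⟨⟨a / b, h4⟩, (div_mul_cancel₀ a hb0).symm⟩
  -- the base
  obtain ⟨M, hM⟩ : ∃ M : IntermediateField ℂ L, M = (algebraicClosure (Rt T) L).restrictScalars ℂ :=
    ⟨_, rfl⟩
  have hNmem : ∀ z : L, z ∈ M ↔ IsAlgebraic (Rt T) z := by
    intro z
    rw [hM, mem_restrictScalars]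
    exact mem_algebraicClosure_iff
  have hRN : Rt T ≤ M := fun z hz => (hNmem z).2 (isAlgebraic_algebraMap (⟨z, hz⟩ : Rt T))
  have hNE : ∀ z ∈ M, algebraMap L K z ∈ E := by
    intro z hz
    have h7 : IsAlgebraic (Rt T) (algebraMap L K z) := ((hNmem z).1 hz).algebraMap
    exact hall _ h7
  have hEN : ∀ z ∈ E, IsAlgebraic M z := by
    intro z hz
    obtain ⟨p, hp0, hp⟩ := hEalg ⟨z, hz⟩
    let f : Rt T →+* M := (IntermediateField.inclusion hRN).toRingHom
    refine ⟨p.map f, (Polynomial.map_ne_zero_iff f.injective).2 hp0, ?_⟩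
    rw [Polynomial.aeval_def, Polynomial.eval₂_map]
    exact hp
  let ι : M →+* E :=
    { toFun := fun z => ⟨algebraMap L K (z : L), hNE z z.2⟩
      map_one' := Subtype.ext (by simp)
      map_mul' := fun a b => Subtype.ext (by simp)
      map_zero' := Subtype.ext (by simp)
      map_add' := fun a b => Subtype.ext (by simp) }
  let iB : Algebra M E := ι.toAlgebra
  have hBK : IsScalarTower M E K := IsScalarTower.of_algebraMap_eq fun _ => rfl
  have hCB : IsScalarTower ℂ M E := IsScalarTower.of_algebraMap_eq fun c =>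
    Subtype.ext (IsScalarTower.algebraMap_apply ℂ L K c)
  have hMalg : Algebra.IsAlgebraic M E := by
    constructor
    intro b
    exact (isAlgebraic_algebraMap_iff (R := M) (algebraMap E K).injective).1 (hEN _ b.2)
  have hMtr : Algebra.trdeg ℂ M = (N : ℕ) := by
    have h8 := trdeg_add_eq ℂ M (A := E)
    have h9 : Algebra.trdeg M E = 0 := by
      rw [trdeg_eq_zero_iff]
      infer_instance
    rw [h9, add_zero, htrE] at h8
    exact h8
  refine Or.inr (cov1_of_fib hMtr ?_)
  exact cov K N E (F (Fin.last k)) hsup' htrE hK _ hz t ht D0 hD0 L h hval _ hrat M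
    (fun z hz => isAlgebraic_algebraMap (⟨algebraMap L K z, hNE z hz⟩ : E)) hEN

end

section

variable {K : Type} [Field K] [Algebra ℂ K] {k : ℕ} {F : Fin (k + 1) → IntermediateField ℂ K}
  {L : Type} [Field L] [Algebra ℂ L]
  [Algebra L K] [IsScalarTower ℂ L K] [FiniteDimensional L K] {m s b : Fin (k + 1) → ℕ}

/-- **General type, or a covering by curves of genus at most one.** -/
theorem lang_main [Algebra.EssFiniteType ℂ K] [∀ i, Algebra.EssFiniteType ℂ (F i)]
    (hsup : ⨆ i, F i = ⊤) (hm : ∀ i, Algebra.trdeg ℂ (F i) = m i) {n : ℕ}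
    (hn : ∑ i, m i = n + 1)
    (hK : Algebra.trdeg ℂ K = (∑ i, m i : ℕ)) {x : ∀ i, Fin (m i) → F i}
    (hx : ∀ i, IsTranscendenceBasis ℂ (x i)) (hs : Hs m s b)
    (hsep : ∀ i, SepX (x i) (fun _ => False) (s i + 1)) (hS : Spr F L m s b 2) :
    CanGe L (n + 1) (n + 1) ∨ Cov1 L n := by
  by_cases hex : ∃ i0, m i0 = 1 ∧ (∀ i, b i ≤ b i0) ∧ s i0 < 2 * agr F L {l | l ≠ i0}
  swap
  · left
    push Not at hex
    obtain ⟨h1, h2⟩ := blk_noexc hs one_le_two hS hex
    rw [← hn]
    exact all_can (L := L) (b := b) hsup hm hK hx h1 hsep h2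
  obtain ⟨i0, hi0, hlast, hr⟩ := hex
  obtain ⟨σ, h1, h2, h3, h4, h5⟩ := perm_data hsup hm hx hi0
  have hess : ∀ i, Algebra.EssFiniteType ℂ (F (σ i)) := fun i => inferInstance
  have hKK : Algebra.trdeg ℂ K = (∑ i : Fin k, m (σ i.castSucc) + 1 : ℕ) := by
    rw [hK, h4]
  have hn' : ∑ i : Fin k, m (σ i.castSucc) = n := by omega
  have hs1 : ∀ i : Fin k, 1 ≤ s (σ i.castSucc) := by
    intro i
    rcases hs (σ i.castSucc) with h | ⟨-, h⟩
    · exact h
    · exfalso
      have h6 := h i0 (by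
        rw [← h1]
        exact fun h7 => Fin.castSucc_ne_last i (σ.injective h7).symm)
      have h7 := hlast (σ i.castSucc)
      omega
  have key := lang_last (F := fun i => F (σ i)) (L := L)
    (m := fun i => m (σ i.castSucc)) h2 (fun i => hm _) hKK (x := fun i => x (σ i.castSucc))
    (fun i => hx _) (s := fun i => s (σ i)) (b := fun i => b (σ i)) hs1 (fun i => hsep _)
    (fun t B hB hBn hBt => blk_perm hsup (Or.inr rfl) hS hlast hr h1 t B hB hBn hBt)
  rwa [hn'] at key

/-- **All conditions.** -/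
theorem two_all [Algebra.EssFiniteType ℂ K] [∀ i, Algebra.EssFiniteType ℂ (F i)]
    (hsup : ⨆ i, F i = ⊤) (hm : ∀ i, Algebra.trdeg ℂ (F i) = m i) {n : ℕ}
    (hn : ∑ i, m i = n + 1)
    (hK : Algebra.trdeg ℂ K = (∑ i, m i : ℕ)) {x : ∀ i, Fin (m i) → F i}
    (hx : ∀ i, IsTranscendenceBasis ℂ (x i)) (hs : Hs m s b)
    (hsep : ∀ i, SepX (x i) (fun _ => False) (s i + 1)) (hS : Spr F L m s b 2) :
    [Psef ℂ L (n + 1) (fun _ => False), KodGe ℂ L (n + 1) (fun _ => False) n,
      ¬ IsUniruled ℂ L (n + 1)].TFAE ∧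
    [KodGe ℂ L (n + 1) (fun _ => False) (n + 1),
      CanGe L (n + 1) (n + 1), ¬ Cov1 L n].TFAE ∧
    ∀ j : ℕ, KodGe ℂ L (n + 1) (fun _ => False) j ↔ CanGe L (n + 1) j := by
  have hL : Algebra.trdeg ℂ L = (n + 1 : ℕ) := by
    have h := Pool.Agent.Y184.NT.trdeg_below (K := K) (L := L) hK
    rwa [hn] at h
  have hessL : Algebra.EssFiniteType ℂ L := Pool.Agent.TH466.QG.ess_below (K := K)
  have h13 : Psef ℂ L (n + 1) (fun _ => False) → ¬ IsUniruled ℂ L (n + 1) :=
    fun h h' => (Pool.Agent.W619.Y.uniruled_neg _ hL h').1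
      ((Pool.Agent.TH466.QG.psef_iff _).1 h)
  have h32 : ¬ IsUniruled ℂ L (n + 1) → CanGe L (n + 1) n := fun h =>
    (two_main hsup hm hn hK hx hs hsep hS).resolve_left h
  have hlang : [KodGe ℂ L (n + 1) (fun _ => False) (n + 1),
      CanGe L (n + 1) (n + 1), ¬ Cov1 L n].TFAE := by
    tfae_have 1 → 3 := fun h1 h2 => not_gt_of_cov1 hL h2 h1
    tfae_have 3 → 2 := fun h => (lang_main hsup hm hn hK hx hs hsep hS).resolve_right h
    tfae_have 2 → 1 := kodGe_of_canGe
    tfae_finish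
  refine ⟨?_, hlang, ?_⟩
  · tfae_have 1 → 3 := h13
    tfae_have 3 → 2 := fun h => kodGe_of_canGe (h32 h)
    tfae_have 2 → 1 := psef_of_kodGe'
    tfae_finish
  · intro j
    refine ⟨fun h => ?_, kodGe_of_canGe⟩
    have h1 : CanGe L (n + 1) n := h32 (h13 (psef_of_kodGe' h))
    rcases lt_trichotomy j (n + 1) with hj | hj | hj
    · exact canGe_mono (by omega) h1
    · subst hj
      exact (hlang.out 0 1).1 h
    · exfalso
      obtain ⟨w, hw, ω, hω, D, hD, hind⟩ := h
      have h2 := hind.lift_cardinalMk_le_trdeg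
      rw [hL] at h2
      simp only [Cardinal.mk_fin, Cardinal.lift_natCast] at h2
      have h3 : j ≤ n + 1 := by exact_mod_cast h2
      omega

end

end Pool.Agent.V7H74.HL
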