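import Pool.Agent.V7H74.ImgFin

/-!
Varieties dominated by the product of several varieties and a curve: a point of a general fibre which
can be separated from the other points by canonical forms with coefficients in a larger field.
-/

set_option autoImplicit false
set_option linter.overlappingInstances false
set_option linter.unusedSectionVars false
set_option linter.unusedVariables false
set_option maxHeartbeats 4000000
set_option synthInstance.maxHeartbeats 400000

open Polynomial FF IntermediateField Module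

namespace Pool.Agent.V7H74.HL

open Pool.Agent.W603.LV Pool.Agent.W619.PQ Pool.Agent.N145.PC Pool.Agent.N145.PL
open Pool.Agent.N145.SX
open Pool.Agent.W602.GT (Divisorial RegAt IsPluri DerReg DerLog LogAt KodGe LogSec Psef)
open Pool.Agent.Y184.NT (trForm trForm_pluri)
open Pool.Agent.R882.LT (SecAt LogGenusZero)
open Pool.Agent.W619.PL (IsA1Uniruled)

open scoped Classical

/-- change of the frame -/
theorem span_frame {E : Type} [Field E] [Algebra ℂ E] {m : ℕ} {x : Fin m → E}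
    (hx : IsTranscendenceBasis ℂ x) {D0 : Fin m → Derivation ℂ E E}
    (hD0 : ∀ i j, D0 i (x j) = if i = j then 1 else 0) (D : Fin m → Derivation ℂ E E)
    {Ω : Type} [Field Ω] [Algebra ℂ Ω] {ψ : (E →ₐ[ℂ] Ω) → Ω}
    (hψ : ψ ∈ Submodule.span Ω {e : (E →ₐ[ℂ] Ω) → Ω | ∃ ω : (Fin m → Derivation ℂ E E) → E,
      IsPluri 1 ω ∧ (∀ P : Place ℂ E, Divisorial m P → RegAt P ω) ∧ e = fun σ => σ (ω D)})
    {τ : E →ₐ[ℂ] Ω} (hτ : ψ τ ≠ 0) :
    ∃ δ : E, δ ≠ 0 ∧ (fun σ : E →ₐ[ℂ] Ω => (σ δ)⁻¹ * ψ σ) ∈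
      Submodule.span Ω ((fun (f : E) (σ : E →ₐ[ℂ] Ω) => σ f) '' HX x (fun _ => False)) := by
  obtain ⟨δ, hδ⟩ : ∃ δ, δ = (Matrix.of fun i j => D i (x j) : Matrix (Fin m) (Fin m) E).det :=
    ⟨_, rfl⟩
  have hval : ∀ ω : (Fin m → Derivation ℂ E E) → E, IsPluri 1 ω → ω D = δ * ω D0 := by
    intro ω hω
    rw [Pool.Agent.Y172.pluri_coord hx hD0 hω D, pow_one, hδ]
  have hδ0 : δ ≠ 0 := by
    rintro h0
    apply hτ
    have h1 : ∀ φ ∈ Submodule.span Ω {e : (E →ₐ[ℂ] Ω) → Ω |
        ∃ ω : (Fin m → Derivation ℂ E E) → E, IsPluri 1 ω ∧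
          (∀ P : Place ℂ E, Divisorial m P → RegAt P ω) ∧ e = fun σ => σ (ω D)}, φ τ = 0 := by
      intro φ hφ
      induction hφ using Submodule.span_induction with
      | mem φ hφ =>
        obtain ⟨ω, h1, h2, rfl⟩ := hφ
        change τ (ω D) = 0
        rw [hval ω h1, h0, zero_mul, map_zero]
      | zero => rfl
      | add φ φ' _ _ h1 h2 =>
        rw [Pi.add_apply, h1, h2, add_zero]
      | smul a φ _ h1 =>
        rw [Pi.smul_apply, h1, smul_zero]
    exact h1 ψ hψ
  refine ⟨δ, hδ0, ?_⟩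
  clear hτ
  induction hψ using Submodule.span_induction with
  | mem φ hφ =>
    obtain ⟨ω, h1, h2, rfl⟩ := hφ
    refine Submodule.subset_span ⟨ω D0, fun P hP => ?_, ?_⟩
    · rw [form_coord hx hD0 h1]
      exact ⟨fun D' hD' => h2 P hP D' fun i => Pool.Agent.TH466.QG.derReg_of_log (hD' i),
        fun _ => h2 P hP⟩
    · funext σ
      have h3 : σ δ ≠ 0 := by simpa using hδ0
      change σ (ω D0) = (σ δ)⁻¹ * σ (ω D)
      rw [hval ω h1, map_mul, inv_mul_cancel_left₀ h3]
  | zero =>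
    convert Submodule.zero_mem _ using 1
    funext σ
    exact mul_zero _
  | add φ φ' _ _ h1 h2 =>
    convert Submodule.add_mem _ h1 h2 using 1
    funext σ
    exact mul_add _ _ _
  | smul a φ _ h1 =>
    convert Submodule.smul_mem _ a h1 using 1
    funext σ
    simp only [Pi.smul_apply, smul_eq_mul]
    ring

section

variable {K : Type} [Field K] [Algebra ℂ K] {k : ℕ} {F : Fin (k + 1) → IntermediateField ℂ K}
  {m : Fin k → ℕ} {L : Type} [Field L] [Algebra ℂ L]
  [Algebra L K] [IsScalarTower ℂ L K] [FiniteDimensional L K]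

/-- **A point separated from the other points of the fibre.** -/
theorem psi_tfae [Algebra.EssFiniteType ℂ K]
    [∀ i, Algebra.EssFiniteType ℂ (F i)] [IsFF ℂ (F (Fin.last k))] (hsup : ⨆ i, F i = ⊤)
    (hm : ∀ i : Fin k, Algebra.trdeg ℂ (F i.castSucc) = m i)
    (hK : Algebra.trdeg ℂ K = (∑ i, m i + 1 : ℕ))
    (D : ∀ i : Fin k, Fin (m i) → Derivation ℂ (F i.castSucc) (F i.castSucc))
    (τ0 : K →ₐ[L] AlgebraicClosure L)
    (ψ : ∀ i : Fin k, (F i.castSucc →ₐ[ℂ] AlgebraicClosure L) → AlgebraicClosure L)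
    (hψ1 : ∀ i, ψ i ∈ Submodule.span (AlgebraicClosure L)
      {e : (F i.castSucc →ₐ[ℂ] AlgebraicClosure L) → AlgebraicClosure L |
        ∃ ω : (Fin (m i) → Derivation ℂ (F i.castSucc) (F i.castSucc)) → F i.castSucc,
          IsPluri 1 ω ∧ (∀ P : Place ℂ (F i.castSucc), Divisorial (m i) P → RegAt P ω) ∧
          e = fun σ => σ (ω (D i))})
    (hψ2 : ∀ i, ψ i (res (K := K) (L := L) (F i.castSucc) τ0) ≠ 0)
    (hψ3 : ∀ τ : K →ₐ[L] AlgebraicClosure L, (∃ i : Fin k, ∃ z ∈ F i.castSucc, τ z ≠ τ0 z) →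
      ∃ i : Fin k, ψ i (res (K := K) (L := L) (F i.castSucc) τ) = 0) :
    [PGZ L (∑ i, m i + 1), ¬ KodGe ℂ L (∑ i, m i + 1) (fun _ => False) 0,
      ¬ Psef ℂ L (∑ i, m i + 1) (fun _ => False), IsUniruled ℂ L (∑ i, m i + 1)].TFAE := by
  have hL : Algebra.trdeg ℂ L = (∑ i, m i + 1 : ℕ) := Pool.Agent.Y184.NT.trdeg_below (K := K) hK
  have hessL : Algebra.EssFiniteType ℂ L := Pool.Agent.TH466.QG.ess_below (K := K)
  have hT' : IsScalarTower ℂ L (AlgebraicClosure L) := inferInstance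
  choose x D0 hx hD0 using fun i : Fin k => Pool.Agent.Y172.exists_crd (hm i)
  choose δ hδ0 hδ using fun i : Fin k => span_frame (hx i) (hD0 i) (D i) (hψ1 i) (hψ2 i)
  tfae_have 1 → 4 := by
    intro hz0
    obtain ⟨M, j1, j2, φ, h6, h7, -⟩ := one_last (F := F) (L := L) (m := m) hsup hm hK
      hx (B := ∅) Set.finite_empty (BX := fun _ _ => False) (BL := fun _ => False)
      (fun P Q e h => ⟨fun h => absurd h id, fun h => absurd h (bdM_false Q)⟩) τ0
      (fun H hH c h0 => by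
        obtain ⟨Ψ, hΨ⟩ : ∃ Ψ : ∀ l : Fin (k + 1), (F l →ₐ[ℂ] AlgebraicClosure L) →
            AlgebraicClosure L, ∀ i : Fin k, Ψ i.castSucc =
              fun σ => (σ (δ i))⁻¹ * ψ i σ :=
          ⟨Fin.lastCases (motive := fun l => (F l →ₐ[ℂ] AlgebraicClosure L) →
            AlgebraicClosure L) (fun _ => 0) (fun i σ => (σ (δ i))⁻¹ * ψ i σ),
            fun i => Fin.lastCases_castSucc i⟩
        refine rl_psi h0 Ψ (fun l hl => ?_) (fun l hl => ?_) fun τ hτ => ?_
        · obtain ⟨i, rfl⟩ := Fin.exists_castSucc_eq.2 (Finset.mem_erase.1 hl).1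
          rw [hΨ, hH]
          exact hδ i
        · obtain ⟨i, rfl⟩ := Fin.exists_castSucc_eq.2 (Finset.mem_erase.1 hl).1
          rw [hΨ]
          exact mul_ne_zero (inv_ne_zero (by simpa using hδ0 i)) (hψ2 i)
        · rw [mem_SJ] at hτ
          push Not at hτ
          obtain ⟨l, hl, hne⟩ := hτ
          obtain ⟨i, rfl⟩ := Fin.exists_castSucc_eq.2 (Finset.mem_erase.1 hl).1
          obtain ⟨j, hj⟩ := hψ3 τ (by
            by_contra hcon
            push Not at hcon
            exact hne (AlgHom.ext fun z => hcon i (z : K) z.2))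
          refine ⟨j.castSucc, Finset.mem_erase.2 ⟨Fin.castSucc_ne_last _, Finset.mem_univ _⟩, ?_⟩
          rw [hΨ]
          change _ * ψ j (res (F j.castSucc) τ) = 0
          rw [hj, mul_zero])
      (log_pgz hz0)
    exact ⟨M, j1, j2, h6, h7, ⟨φ⟩⟩
  tfae_have 4 → 3 := fun h' h =>
    (Pool.Agent.W619.Y.uniruled_neg _ hL h').1 ((Pool.Agent.TH466.QG.psef_iff _).1 h)
  tfae_have 3 → 2 := fun h1 h2 => h1 (psef_of_kodGe' h2)
  tfae_have 2 → 1 := by
    intro h2
    apply pgz_log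
    intro ω hω D
    by_contra hne
    exact h2 ⟨1, one_pos, fun _ => ω, fun _ => hω, D, hne, algebraicIndependent_empty_type⟩
  tfae_finish

end

end Pool.Agent.V7H74.HL
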