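import Pool.Agent.V7H50.Log
import Pool.Agent.V7H50.PReg
import Pool.Agent.V7H74.Det

/-! The logarithmic estimate at a place of `L`, with a determinant: adaptation of
`Pool.Agent.V7H50.Log`. -/

set_option autoImplicit false
set_option linter.overlappingInstances false
set_option linter.unusedSectionVars false

universe u v

open Algebra FF IntermediateField Pool.Agent.W619.PQ Pool.Agent.W619.PL Pool.Agent.W619.TW
  Pool.Agent.W603.LV Pool.Agent.W619.Y Pool.Agent.W391.PG.REGLOG
open Pool.Agent.V7H50 hiding AgeCond NumCond NumCondPos log_est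

namespace Pool.Agent.V7H74

section

variable {k : Type v} {L : Type u} [Field k] [CharZero k] [IsAlgClosed k] [Field L] [Algebra k L]

open scoped Classical in
theorem log_est {d n : ℕ} (M0 : IntermediateField k L) (F : Fin n → IntermediateField k L) [∀ i, IsFF k (F i)]
    (G : Subgroup (L ≃ₐ[k] L)) [Finite G] (σ : G →* Equiv.Perm (Fin n))
    (hσ : ∀ (g : G) i, ∀ z ∈ F i, (g : L ≃ₐ[k] L) z ∈ F (σ g i))
    (N cT : ℕ) (hN : 1 ≤ N) (ν μ ξ : ∀ i, Place k (F i) →₀ ℕ)
    (hξ : ∀ i q, (ξ i q : ℤ) = ν i q + cT * μ i q) (T : ∀ i, Fin n → F i) (hdt : dt T ≠ 0)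
    (hT : ∀ i j (q : Place k (F i)), Ge q (-(μ i q : ℤ)) (T i j))
    (S : Finset (∀ i : Big F N ξ, Option (Place k (F i))))
    (wt : (∀ i : Big F N ξ, Option (Place k (F i))) → Big F N ξ → ℝ)
    (hage : AgeCond M0 G σ F N cT ν ξ T S wt)
    (w : Place k L) (h : G) (ζ : k) (e : ℕ) (hord : orderOf h = e)
    (hζ : IsPrimitiveRoot ζ e)
    (hgen : ∀ z : L, z ≠ 0 → Ge w (w.ord z + 1)
      ((h : L ≃ₐ[k] L) z - algebraMap k L (ζ ^ (w.ord z)) * z))
    (hne : e = 1 → ∃ i, ∃ z ∈ F i, w.ord z ≠ 0)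
    (x : ∀ i, F i) (hx : ∀ i, Transcendental k (x i))
    (hxσ : ∀ (g : G) i, (g : L ≃ₐ[k] L) (x i : L) = x (σ g i))
    (D0 : ∀ i, Derivation k (F i) (F i))
    (hD0 : ∀ i, D0 i (x i) = 1) (m c P : ℕ) (hm1 : 1 ≤ m) (hPm : P ≤ m)
    (hPc : (P * e + 1) * (2 * n.factorial) ≤ c)
    (y : Fin d → L) (a0 : L) (b0 : ℕ) (hb0 : RamIn M0 w b0) (hY : YGoodB d (N * m) b0 w y a0)
    {κ : Type*} [Fintype κ] (cc : κ → k) (γ : κ → ∀ i, F i)
    (hγ : ∀ K i (q : Place k (F i)), Ge q (m * (N * vo q (D0 i) + ξ i q)) (γ K i))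
    (f zz : L) (φ : ∀ i, F i) (hφ : ∀ i, ¬ 0 < rdeg N (ξ i) → ∀ q : Place k (F i),
      Ge q (m * (N * vo q (D0 i) + ξ i q)) (φ i))
    (hsum : (∏ i : {i // ¬ 0 < rdeg N (ξ i)}, (φ i : L)) * f * zz =
      ∑ K, cc K • ∏ i, (γ K i : L))
    (hzz : ∀ (q : ∀ i, Place k (F i)) (B : Fin n → ℕ),
      (∀ i, Over w (q i) (B i) ∨ ∀ z ∈ F i, w.ord z = 0) → Ge w 0 zz ∨ ∃ i, Ge w (-(P * B i)) zz)
    (hf : ∀ p ∈ S, ∀ q : ∀ i : Big F N ξ, Place k (F i), (∀ i, p i ≠ none → p i = some (q i)) →
        (∀ i, p i ≠ none → 0 < wt p i) → ∀ b : Big F N ξ → ℕ,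
        (∀ i, p i ≠ none → Over w (q i) (b i)) →
        (∀ i : Big F N ξ, p i = none → ∀ y ∈ F i, w.ord y = 0) →
        ∀ δ : ℝ, 0 ≤ δ → (∀ i, p i ≠ none → δ ≤ wt p i * b i) →
        ∀ X : ℤ, (X : ℝ) ≤ (m + c) * δ → Ge w X
          (f * ∏ i : {i : Big F N ξ // p i ≠ none},
            ((((D0 i (unif (q i)) : F i) : L)⁻¹) ^ (N * m) *
              (((unif (q i) : F i) : L)⁻¹) ^ (m * ξ i (q i)))))
    (E' : Fin (d + n) → Derivation k L L) (hE' : ∀ j, ∀ z, w.Reg (E' j z / z))
    (hE'h : ∀ j z, (h : L ≃ₐ[k] L) (E' j z) = E' j ((h : L ≃ₐ[k] L) z)) :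
    Ge w (((N * m : ℕ) : ℤ) * e)
      ((a0 * ((∏ i : {i // ¬ 0 < rdeg N (ξ i)}, (φ i : L)) * f * zz * dt T ^ (cT * m))) *
      (Matrix.of fun i j => E' j ((Fin.append y (fun i => (x i : L)) :
        Fin (d + n) → L) i)).det ^ (N * m)) := by
  have he0 : 0 < e := hord ▸ orderOf_pos h
  have hζ0 : ζ ≠ 0 := hζ.ne_zero he0.ne'
  have hch : IsChar w (h : L ≃ₐ[k] L) ζ := hgen
  have hordr : ∀ (r : ℕ) (z : L), w.ord (((h ^ r : G) : L ≃ₐ[k] L) z) = w.ord z := fun r z =>
    (hch.pow hζ0 r).ord_eq (pow_ne_zero _ hζ0) z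
  obtain ⟨Z, y0, hy0, hyD, hyZ, hyb⟩ := hY
  obtain ⟨hUg, s, hst, hsU, hsh⟩ := exists_s F G σ hσ w h hordr x hx hxσ
  let τ : Equiv.Perm (Fin n) := σ h
  let ℓ : Fin n → ℕ := fun i => Function.minimalPeriod τ i
  have hℓ0 : ∀ i, 0 < ℓ i := fun i => len_pos τ i
  have hτr : ∀ (r : ℕ) i, σ (h ^ r) i = (τ ^ r) i := fun r i => by rw [map_pow]
  have hℓσ : ∀ i, σ (h ^ ℓ i) i = i := fun i => by rw [hτr]; exact pow_len τ i
  -- the local data
  have hs0 : ∀ i, (s i : L) ≠ 0 := by
    intro i h0
    apply hst i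
    have : s i = 0 := Subtype.ext h0
    rw [this]
    exact isAlgebraic_zero
  have hqB : ∀ i, ∃ (q : Place k (F i)) (B : ℕ), ((∃ z ∈ F i, w.ord z ≠ 0) ∧ Over w q B) ∨
      ((∀ z ∈ F i, w.ord z = 0) ∧ B = 0) := by
    intro i
    by_cases hU : ∃ z ∈ F i, w.ord z ≠ 0
    · obtain ⟨z0, hz0, hz0'⟩ := hU
      obtain ⟨B, q, hq⟩ := exists_over (K := F i) w ⟨⟨z0, hz0⟩, hz0'⟩
      exact ⟨q, B, Or.inl ⟨⟨z0, hz0, hz0'⟩, hq⟩⟩
    · push Not at hU
      obtain ⟨q, -⟩ := exists_place (k := k) (K := F i)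
      exact ⟨q, 0, Or.inr ⟨hU, rfl⟩⟩
  choose q B hloc using hqB
  have hD0' : ∀ i, D0 i ≠ 0 := by
    intro i h0
    have := hD0 i
    rw [h0] at this
    simp at this
  let lam : ∀ i, F i := fun i => s i / D0 i (s i)
  have hDs : ∀ i, D0 i (s i) ≠ 0 := fun i => der_ne_zero (hD0' i) (hst i)
  have hlam0 : ∀ i, lam i ≠ 0 := fun i => div_ne_zero (fun h0 => hs0 i (by rw [h0]; rfl)) (hDs i)
  have hlam : ∀ i (δ : Derivation k L L), δ (x i : L) = (lam i : L) * (δ (s i : L) / (s i : L)) := by
    intro i δ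
    obtain ⟨r, hr1, hr2⟩ := ratio' (K := L) (hst i) (x i)
    have hr : r = (D0 i (s i))⁻¹ := by
      have h1 := hr1 (D0 i)
      rw [hD0] at h1
      exact eq_inv_of_mul_eq_one_left h1.symm
    have h2 := hr2 δ
    change δ (x i : L) = (r : L) * δ (s i : L) at h2
    rw [h2, hr]
    have h3 : ((lam i : F i) : L) = (s i : L) * (((D0 i (s i))⁻¹ : F i) : L) := by
      simp only [lam]
      push_cast
      rw [div_eq_mul_inv]
    rw [h3]
    field_simp [hs0 i]
  have hlamU : ∀ i, Over w (q i) (B i) → (q i).ord (lam i) = 1 - vo (q i) (D0 i) := by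
    intro i hi
    have h1 : (q i).ord (s i) ≠ 0 := by
      intro h0
      have h2 := hi.2 (s i)
      rw [h0, mul_zero] at h2
      rcases hloc i with ⟨h3, -⟩ | ⟨-, h3⟩
      · exact hsU i h3 h2
      · have := hi.1
        omega
    obtain ⟨h2, h3⟩ := ord_der (q i) (hD0' i) h1
    rw [(q i).ord_div (fun h0 => hs0 i (by rw [h0]; rfl)) h2, h3]
    ring
  -- the determinant
  let M : Matrix (Fin (d + n)) (Fin (d + n)) L := Matrix.of fun i j =>
    (Fin.append (fun c => E' j (y0 c)) (fun i => E' j (s i : L) / (s i : L)) :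
      Fin (d + n) → L) i
  have hM1 : ∀ c j, M (Fin.castAdd n c) j = E' j (y0 c) := by
    intro c j
    simp only [M, Matrix.of_apply, Fin.append_left]
  have hM2 : ∀ i j, M (Fin.natAdd d i) j = E' j (s i : L) / (s i : L) := by
    intro i j
    simp only [M, Matrix.of_apply, Fin.append_right]
  have hdet : (Matrix.of fun i j => E' j ((Fin.append y (fun i => (x i : L)) :
      Fin (d + n) → L) i)).det = Z.det * (∏ i, (lam i : L)) * M.det := by
    apply Pool.Agent.W409.PG.REGLOG2.det_block
    · intro l j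
      rw [Matrix.of_apply, Fin.append_left, hyD]
      refine Finset.sum_congr rfl fun s _ => ?_
      rw [hM1]
    · intro i j
      rw [Matrix.of_apply, Fin.append_right, hM2, hlam i (E' j)]
  have hM : ∀ i j, Ge w 0 (M i j) := by
    intro i j
    refine Fin.addCases (fun c => ?_) (fun i => ?_) i
    · rw [hM1]
      by_cases h4 : y0 c = 0
      · left
        rw [h4, map_zero]
      · have h5 : Ge w 0 (E' j (y0 c) / y0 c) := hE' j (y0 c)
        have h6 := h5.mul (hy0 c : Ge w 0 (y0 c))
        rwa [div_mul_cancel₀ _ h4, add_zero] at h6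
    · rw [hM2]
      exact hE' j _
  have hMh : ∀ i j, (h : L ≃ₐ[k] L) (M (Fin.natAdd d i) j) = M (Fin.natAdd d (τ i)) j := by
    intro i j
    rw [hM2, hM2, map_div₀, hE'h, hsh]
  -- the estimate for one factor
  have hge : ∀ i, Over w (q i) (B i) → ∀ (N : ℤ) (f : F i), Ge (q i) N f →
      Ge w (N * B i) (f : L) := by
    intro i hi N f hf
    rcases hf with rfl | hf
    · left; rfl
    · right
      have h1 := hi.2 f
      change w.ord (f : L) = _ at h1
      rw [h1, mul_comm N]
      exact mul_le_mul_of_nonneg_left hf (by positivity)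
  have hfac : ∀ i (g : F i), (∀ q : Place k (F i), Ge q (m * (N * vo q (D0 i) + ξ i q)) g) →
      Ge w (m * (B i * (N + ξ i (q i)))) ((g : L) * (lam i : L) ^ (N * m)) := by
    intro i g hg
    rcases hloc i with ⟨-, h1⟩ | ⟨h1, h2⟩
    · have h4 : Ge (q i) (m * (N + ξ i (q i))) (g * lam i ^ (N * m)) := by
        have h5 : Ge (q i) (1 - vo (q i) (D0 i)) (lam i) := Or.inr (hlamU i h1).ge
        refine ((hg (q i)).mul (h5.pow (N * m))).mono (le_of_eq ?_)
        push_cast
        ring
      have h5 := hge i h1 _ _ h4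
      push_cast at h5
      refine h5.mono (le_of_eq ?_)
      ring
    · rw [h2]
      have h5 : Ge w 0 (((g * lam i ^ (N * m) : F i)) : L) := Or.inr (h1 _ (Subtype.property _)).ge
      push_cast at h5
      simpa using h5
  -- the main part
  let R : L := (∏ i : {i // ¬ 0 < rdeg N (ξ i)}, (φ i : L)) * f * zz *
    ∏ i, (lam i : L) ^ (N * m)
  let o : ℕ := {i : Fin n | ∀ r : ℕ, i ≤ (τ ^ r) i}.ncard
  have ho : (o : ℤ) ≤ n := by
    have h1 : {i : Fin n | ∀ r : ℕ, i ≤ (τ ^ r) i}.ncard ≤ (Set.univ : Set (Fin n)).ncard :=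
      Set.ncard_le_ncard (Set.subset_univ _) (Set.toFinite _)
    rw [Set.ncard_univ, Nat.card_eq_fintype_card, Fintype.card_fin] at h1
    exact_mod_cast h1
  have hR1 : Ge w (m * ∑ i, (B i * (N + ξ i (q i)) : ℤ)) R := by
    have e1 : R = ∑ K, cc K • ∏ i, ((γ K i : L) * (lam i : L) ^ (N * m)) := by
      change (∏ i : {i // ¬ 0 < rdeg N (ξ i)}, (φ i : L)) * f * zz *
        ∏ i, (lam i : L) ^ (N * m) = _
      rw [hsum, Finset.sum_mul]
      refine Finset.sum_congr rfl fun K _ => ?_
      rw [Finset.prod_mul_distrib, smul_mul_assoc]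
    rw [e1]
    refine Ge.sum _ _ fun K _ => ge_smul _ ?_
    rw [Finset.mul_sum]
    exact Ge.prod _ _ _ fun i _ => hfac i _ (hγ K i)
  have hτe : τ ^ e = 1 := by
    change (σ h) ^ e = 1
    rw [← map_pow, ← hord, pow_orderOf_eq_one, map_one]
  have hTge : ∀ i j, Ge w (-(B i * μ i (q i) : ℤ)) (T i j : L) := by
    intro i j
    rcases hloc i with ⟨-, h1⟩ | ⟨h1, h2⟩
    · refine (hge i h1 _ _ (hT i j (q i))).mono (le_of_eq ?_)
      ring
    · rw [h2]
      right
      rw [h1 _ (T i j).2]
      simp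
  obtain ⟨U, hU⟩ : ∃ U : ℤ, U = w.ord (dt T) + ∑ i, (B i * μ i (q i) : ℤ) := ⟨_, rfl⟩
  have hU0 : 0 ≤ U := by
    have h1 := det_gain w (h : L ≃ₐ[k] L) ζ e he0 hζ hch τ hτe (fun i j => (T i j : L)) ∅
      (fun i hi => absurd hi (Set.notMem_empty i)) (fun i hi => absurd hi (Set.notMem_empty i))
      (fun i hi => absurd hi (Set.notMem_empty i)) (fun i => (B i * μ i (q i) : ℤ))
      (fun i => by positivity) (fun i _ j => hTge i j) hdt
    have h2 : {i : Fin n | i ∈ (∅ : Set (Fin n)) ∧ ∀ s : ℕ, i ≤ (τ ^ s) i} = ∅ := by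
      ext i
      simp
    rw [h2, Set.ncard_empty] at h1
    change _ ≤ 2 * ((w.ord (dt T) + ∑ i, (B i * μ i (q i) : ℤ) : ℤ) : ℝ) at h1
    rw [← hU] at h1
    have h3 : (0 : ℝ) ≤ U := by
      simp only [Nat.cast_zero, sub_zero, mul_zero] at h1
      linarith
    exact_mod_cast h3
  have hξsum : ∑ i, (B i * (N + ξ i (q i)) : ℤ) =
      ∑ i, (B i * (N + ν i (q i)) : ℤ) + cT * ∑ i, (B i * μ i (q i) : ℤ) := by
    rw [Finset.mul_sum, ← Finset.sum_add_distrib]
    refine Finset.sum_congr rfl fun i _ => ?_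
    rw [hξ]
    ring
  have hYeq : ∀ Y : ℤ, 2 * (m * ∑ i, (B i * (N + ξ i (q i)) : ℤ) + Y + cT * m * w.ord (dt T)) =
      2 * (m * ∑ i, (B i * (N + ν i (q i)) : ℤ) + Y) + 2 * (cT * m * U) := by
    intro Y
    rw [hξsum, hU]
    ring
  have hmain : ∃ Y : ℤ, Ge w Y R ∧ 2 * (m * (N * e) : ℤ) ≤
      2 * (Y + cT * m * w.ord (dt T)) + m * (N * (e * (n - o))) + 2 * (m * (N * b0)) := by
    by_cases hle : 2 * (N * e : ℤ) ≤
        2 * ∑ i, (B i * (N + ν i (q i)) : ℤ) + N * (e * (n - o)) + 2 * (N * b0)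
    · refine ⟨_, hR1, ?_⟩
      have h1 : (m : ℤ) * (2 * (N * e)) ≤
          m * (2 * ∑ i, (B i * (N + ν i (q i)) : ℤ) + N * (e * (n - o)) + 2 * (N * b0)) :=
        mul_le_mul_of_nonneg_left hle (by positivity)
      have h2 := hYeq 0
      have h3 : (0 : ℤ) ≤ cT * m * U := by positivity
      rw [add_zero] at h2
      rw [h2]
      linarith
    have hN1 : (1 : ℤ) ≤ N := by exact_mod_cast hN
    -- the orders are permuted
    have hBτ : ∀ i, B (τ i) = B i := by
      intro i
      have hU := hUg 1 i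
      rw [pow_one] at hU
      rcases hloc i with ⟨h1, h2⟩ | ⟨h1, h2⟩
      · rcases hloc (τ i) with ⟨h3, h4⟩ | ⟨h3, h4⟩
        · have h5 : (B (τ i) : ℤ) ∣ B i := by
            have h6 := h4.2 ⟨(h : L ≃ₐ[k] L) ((unif (q i) : F i) : L), hσ h i _ (unif (q i)).2⟩
            have h7 : w.ord ((h : L ≃ₐ[k] L) ((unif (q i) : F i) : L)) = w.ord ((unif (q i) : F i) : L) := by
              have := hordr 1 ((unif (q i) : F i) : L)
              rwa [pow_one] at this
            have h8 := h2.2 (unif (q i))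
            change w.ord ((h : L ≃ₐ[k] L) ((unif (q i) : F i) : L)) = _ at h6
            change w.ord ((unif (q i) : F i) : L) = _ at h8
            rw [ord_unif, mul_one] at h8
            rw [h7, h8] at h6
            exact ⟨_, h6⟩
          have h9 : (B i : ℤ) ∣ B (τ i) := by
            have hmem : ((h⁻¹ : G) : L ≃ₐ[k] L) ((unif (q (τ i)) : F (τ i)) : L) ∈ F i := by
              have h10 := hσ h⁻¹ (τ i) _ (unif (q (τ i))).2
              have h11 : σ h⁻¹ (τ i) = i := by
                rw [map_inv]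
                exact τ.symm_apply_apply i
              rwa [h11] at h10
            have h6 := h2.2 ⟨_, hmem⟩
            have h7 : w.ord (((h⁻¹ : G) : L ≃ₐ[k] L) ((unif (q (τ i)) : F (τ i)) : L)) =
                w.ord ((unif (q (τ i)) : F (τ i)) : L) := by
              have h12 := hordr 1 (((h⁻¹ : G) : L ≃ₐ[k] L) ((unif (q (τ i)) : F (τ i)) : L))
              rw [pow_one] at h12
              rw [← h12]
              congr 1
              rw [← AlgEquiv.mul_apply, ← Subgroup.coe_mul, mul_inv_cancel]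
              rfl
            have h8 := h4.2 (unif (q (τ i)))
            change w.ord (((h⁻¹ : G) : L ≃ₐ[k] L) ((unif (q (τ i)) : F (τ i)) : L)) = _ at h6
            change w.ord ((unif (q (τ i)) : F (τ i)) : L) = _ at h8
            rw [ord_unif, mul_one] at h8
            rw [h7, h8] at h6
            exact ⟨_, h6⟩
          exact Nat.dvd_antisymm (by exact_mod_cast h5) (by exact_mod_cast h9)
        · obtain ⟨z, hz, hz0⟩ := hU.1 h1
          exact absurd (h3 z hz) hz0
      · rcases hloc (τ i) with ⟨h3, h4⟩ | ⟨h3, h4⟩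
        · obtain ⟨z, hz, hz0⟩ := hU.2 h3
          exact absurd (h1 z hz) hz0
        · rw [h2, h4]
    have hbig : ∀ i, ¬ (e : ℤ) ≤ ℓ i * B i := by
      intro i hi
      apply hle
      have h1 : ((ℓ i * B i : ℕ) : ℤ) ≤ ((∑ j, B j : ℕ) : ℤ) := by
        exact_mod_cast len_mul_le τ B hBτ i
      have h2 : (N : ℤ) * ∑ j, (B j : ℤ) ≤ ∑ i, (B i * (N + ν i (q i)) : ℤ) := by
        rw [Finset.mul_sum]
        refine Finset.sum_le_sum fun j _ => ?_
        have h3 : (0 : ℤ) ≤ B j * ν j (q j) := by positivity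
        linarith
      have h4 : (0 : ℤ) ≤ N * (e * (n - o)) := by
        have : (0 : ℤ) ≤ n - o := by linarith
        positivity
      have h5 : (N : ℤ) * e ≤ N * ∑ j, (B j : ℤ) := by
        apply mul_le_mul_of_nonneg_left _ (by positivity)
        push_cast at h1
        linarith
      have h6 : (0 : ℤ) ≤ N * b0 := by positivity
      linarith
    push Not at hle
    -- the generator of the inertia group is not trivial
    have he1 : e ≠ 1 := by
      intro he1
      obtain ⟨i, hi⟩ := hne he1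
      apply hbig i
      rw [he1]
      rcases hloc i with ⟨-, h1⟩ | ⟨h1, -⟩
      · have h2 := hℓ0 i
        have h3 := h1.1
        have h4 : 1 ≤ ℓ i * B i := Nat.mul_pos h2 h3
        exact_mod_cast h4
      · obtain ⟨z, hz, hz0⟩ := hi
        exact absurd (h1 z hz) hz0
    have hh1 : h ≠ 1 := by
      rintro rfl
      rw [orderOf_one] at hord
      exact he1 hord.symm
    have hchr : ∀ i, IsChar w ((h ^ ℓ i : G) : L ≃ₐ[k] L) (ζ ^ ℓ i) := fun i => hch.pow hζ0 _
    have hmem : ∀ i, ∀ z ∈ F i, ((h ^ ℓ i : G) : L ≃ₐ[k] L) z ∈ F i := by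
      intro i z hz
      have h1 := hσ (h ^ ℓ i) i z hz
      rwa [hℓσ] at h1
    -- trivial places
    have htriv : ∀ i, (∀ z ∈ F i, w.ord z = 0) → ∀ z ∈ F i,
        ((h ^ ℓ i : G) : L ≃ₐ[k] L) z = z := by
      intro i hi z hz
      by_contra hcon
      have hz0 : z ≠ 0 := by
        rintro rfl
        exact hcon (map_zero _)
      have h1 := hchr i z hz0
      rw [hi z hz, zpow_zero, map_one, one_mul, zero_add] at h1
      have h2 := h1.resolve_left (sub_ne_zero.2 hcon)
      rw [hi _ (sub_mem (hmem i z hz) hz)] at h2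
      omega
    have htriv' : ∀ i, (∀ z ∈ F i, ((h ^ ℓ i : G) : L ≃ₐ[k] L) z = z) →
        ∀ z ∈ F i, w.ord z = 0 := by
      intro i hi
      rcases hloc i with ⟨-, h1⟩ | ⟨h1, -⟩
      · exfalso
        apply hbig i
        have h2 : w.ord ((unif (q i) : F i) : L) = B i := by
          have h3 := h1.2 (unif (q i))
          rw [ord_unif, mul_one] at h3
          exact h3
        have h4 : 0 < w.ord ((unif (q i) : F i) : L) := by
          rw [h2]
          exact_mod_cast h1.1
        have h5 := hch.le he0 hζ (hℓ0 i) h4 (hi _ (unif (q i)).2)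
        rwa [h2] at h5
      · exact h1
    let a : Fin n → ℕ := fun i => if ∀ z ∈ F i, ((h ^ ℓ i : G) : L ≃ₐ[k] L) z = z then 0 else
      (ℓ i * B i) % e
    have haB : ∀ i, a i ≤ ℓ i * B i := by
      intro i
      by_cases hi : ∀ z ∈ F i, ((h ^ ℓ i : G) : L ≃ₐ[k] L) z = z
      · simp only [a, if_pos hi]; exact Nat.zero_le _
      · simp only [a, if_neg hi]; exact Nat.mod_le _ _
    have hact : ∀ i, Over w (q i) (B i) → ∀ z z' : F i,
        ((h ^ ℓ i : G) : L ≃ₐ[k] L) z = z' → z ≠ 0 →
        Ge (q i) ((q i).ord z + 1)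
          (z' - algebraMap k (F i) (ζ ^ ((ℓ i * B i : ℕ) * (q i).ord z)) * z) := by
      intro i hi z z' hzz' hz
      have hzL : (z : L) ≠ 0 := fun h0 => hz (Subtype.ext h0)
      have h10 := hchr i (z : L) hzL
      have h11 := hi.2 z
      change w.ord (z : L) = _ at h11
      have h14 : (ζ ^ ℓ i) ^ ((B i : ℤ) * (q i).ord z) =
          ζ ^ ((ℓ i * B i : ℕ) * (q i).ord z) := by
        rw [← zpow_natCast, ← zpow_mul]
        congr 1
        push_cast
        ring
      rw [h11, hzz', h14] at h10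
      have h12 : (((z' - algebraMap k (F i) (ζ ^ ((ℓ i * B i : ℕ) * (q i).ord z)) * z : F i)) : L) =
          (z' : L) - algebraMap k L (ζ ^ ((ℓ i * B i : ℕ) * (q i).ord z)) * (z : L) := by
        push_cast
        rfl
      rw [← h12] at h10
      have hb : (0 : ℤ) < B i := by exact_mod_cast hi.1
      rcases h10 with h10 | h10
      · left; exact Subtype.ext h10
      · right
        have h13 := hi.2 (z' - algebraMap k (F i) (ζ ^ ((ℓ i * B i : ℕ) * (q i).ord z)) * z)
        change w.ord ((z' - algebraMap k (F i) (ζ ^ ((ℓ i * B i : ℕ) * (q i).ord z)) * z :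
          F i) : L) = _ at h13
        rw [h13] at h10
        by_contra hcon
        push Not at hcon
        have h11 : (B i : ℤ) * (q i).ord
            (z' - algebraMap k (F i) (ζ ^ ((ℓ i * B i : ℕ) * (q i).ord z)) * z) ≤
            B i * (q i).ord z := mul_le_mul_of_nonneg_left (by omega) hb.le
        omega
    have hcond : ∀ i, (a i = 0 ∧ ∀ z ∈ F i, ((h ^ ℓ i : G) : L ≃ₐ[k] L) z = z) ∨
        (0 < a i ∧ a i < orderOf h ∧
          IsRot (F i) ((h ^ ℓ i : G) : L ≃ₐ[k] L) (q i) (ζ ^ a i)) := by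
      intro i
      by_cases hi : ∀ z ∈ F i, ((h ^ ℓ i : G) : L ≃ₐ[k] L) z = z
      · left
        exact ⟨by simp only [a, if_pos hi], hi⟩
      · right
        have hai : a i = (ℓ i * B i) % e := by simp only [a, if_neg hi]
        have hov : Over w (q i) (B i) := by
          rcases hloc i with ⟨-, h1⟩ | ⟨h1, -⟩
          · exact h1
          · exact absurd (htriv i h1) hi
        rw [hord, hai]
        refine ⟨?_, Nat.mod_lt _ he0, ?_⟩
        · rw [Nat.pos_iff_ne_zero]
          intro h0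
          apply hi
          let H : Subgroup (L ≃ₐ[k] L) := stb G σ i
          have hHfin : Finite H :=
            Finite.of_injective (Subgroup.inclusion (Pool.Agent.W391.PG.REGLOG.stb_le G σ i)) (Subgroup.inclusion_injective _)
          have hHF : ∀ g ∈ H, ∀ z ∈ F i, g z ∈ F i := by
            rintro _ ⟨g, hg, rfl⟩ z hz
            have h1 := hσ g i z hz
            rwa [hg] at h1
          let η : H := ⟨((h ^ ℓ i : G) : L ≃ₐ[k] L), h ^ ℓ i, hℓσ i, rfl⟩
          have h1 : rho H (F i) hHF η = 1 := by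
            refine eq_one_of_unipotent (q i) _
              ((rho H (F i) hHF).isOfFinOrder (isOfFinOrder_of_finite η)) fun z hz => ?_
            have h10 := hact i hov z (rho H (F i) hHF η z) rfl hz
            have h11 : ζ ^ (((ℓ i * B i : ℕ) : ℤ) * (q i).ord z) = 1 := by
              obtain ⟨b', hb'⟩ := Nat.dvd_of_mod_eq_zero h0
              rw [hb']
              push_cast
              rw [mul_assoc, zpow_mul, zpow_natCast, hζ.pow_eq_one, one_zpow]
            rw [h11, map_one, one_mul] at h10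
            exact h10
          intro z hz
          exact congrArg (fun φ : F i ≃ₐ[k] F i => ((φ ⟨z, hz⟩ : F i) : L)) h1
        · intro z z' hzz' hz
          have hz0 : z ≠ 0 := by
            rintro rfl
            rw [(q i).ord_zero] at hz
            omega
          have h10 := hact i hov z z' hzz' hz0
          rw [hz, mul_one, zpow_natCast] at h10
          have h11 : ζ ^ (ℓ i * B i) = ζ ^ ((ℓ i * B i) % e) := by
            conv_lhs => rw [← Nat.div_add_mod (ℓ i * B i) e, pow_add, pow_mul, hζ.pow_eq_one,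
              one_pow, one_mul]
          rw [h11] at h10
          rw [Algebra.smul_def]
          exact h10.imp (fun h => sub_eq_zero.1 h) id
    have ha0 : ∀ i, a i = 0 → ∀ z ∈ F i, w.ord z = 0 := by
      intro i hi
      rcases hcond i with ⟨-, h1⟩ | ⟨h1, -⟩
      · exact htriv' i h1
      · omega
    have ha1 : ∀ i, a i ≠ 0 → Over w (q i) (B i) := by
      intro i hi
      rcases hloc i with ⟨-, h1⟩ | ⟨h1, -⟩
      · exact h1
      · exfalso
        apply hi
        simp only [a, if_pos (htriv i h1)]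
    have hcomp : ∀ i, a i ≠ 0 → ∀ (z : F i) (z' : F (σ h i)), (z' : L) = (h : L ≃ₐ[k] L) z →
        (q (σ h i)).ord z' = (q i).ord z := by
      intro i hi z z' hzz'
      have h1 := ha1 i hi
      have h2 : Over w (q (τ i)) (B (τ i)) := by
        rcases hloc (τ i) with ⟨-, h2⟩ | ⟨h2, -⟩
        · exact h2
        · exfalso
          have hU := hUg 1 i
          rw [pow_one] at hU
          rcases hloc i with ⟨h3, -⟩ | ⟨-, h3⟩
          · obtain ⟨z, hz, hz0⟩ := hU.1 h3
            exact hz0 (h2 z hz)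
          · have := h1.1
            omega
      have h3 : w.ord ((z' : F (τ i)) : L) = w.ord (z : L) := by
        rw [hzz']
        have := hordr 1 (z : L)
        rwa [pow_one] at this
      have h4 := h2.2 z'
      have h5 := h1.2 z
      change w.ord ((z' : F (τ i)) : L) = _ at h4
      change w.ord (z : L) = _ at h5
      rw [h3, h5, hBτ] at h4
      exact (mul_left_cancel₀ (by have := h1.1; omega) h4).symm
    -- the ages
    let sA : ℝ := ∑ i, (a i : ℝ) * (N + ν i (q i)) / ℓ i
    let sB : ℝ := ∑ i, (B i : ℝ) * (N + ν i (q i))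
    have hlR : ∀ i, (0 : ℝ) < ℓ i := fun i => by exact_mod_cast hℓ0 i
    have haBR : ∀ i, (a i : ℝ) / ℓ i ≤ B i := by
      intro i
      rw [div_le_iff₀ (hlR i), mul_comm]
      exact_mod_cast haB i
    have hsAB : ∀ i0 : Fin n, sA + ((B i0 : ℝ) - a i0 / ℓ i0) ≤ sB := by
      intro i0
      have h12 : ((B i0 : ℝ) - a i0 / ℓ i0) * (N + ν i0 (q i0)) ≤
          ∑ i, ((B i : ℝ) - a i / ℓ i) * (N + ν i (q i)) :=
        Finset.single_le_sum (f := fun i => ((B i : ℝ) - a i / ℓ i) * (N + ν i (q i)))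
          (fun i _ => by
            have := haBR i
            exact mul_nonneg (by linarith) (by positivity)) (Finset.mem_univ i0)
      have h13 : ((B i0 : ℝ) - a i0 / ℓ i0) * 1 ≤ ((B i0 : ℝ) - a i0 / ℓ i0) *
          (N + ν i0 (q i0)) := by
        apply mul_le_mul_of_nonneg_left
        · have h1 : (0 : ℝ) ≤ ν i0 (q i0) := by positivity
          have h2 : (1 : ℝ) ≤ N := by exact_mod_cast hN
          linarith
        · have := haBR i0
          linarith
      have h14 : ∑ i, ((B i : ℝ) - a i / ℓ i) * (N + ν i (q i)) = sB - sA := by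
        rw [← Finset.sum_sub_distrib]
        exact Finset.sum_congr rfl fun i _ => by ring
      linarith
    have hsAB0 : sA ≤ sB := by
      refine Finset.sum_le_sum fun i _ => ?_
      rw [mul_div_right_comm]
      exact mul_le_mul_of_nonneg_right (haBR i) (by positivity)
    have hageeq : age F N ν (σ h) (orderOf h) a q = sA + N * (e * (n - o)) / 2 := by
      unfold age
      rw [hord]
      change sA + (N : ℝ) * e * (n - o) / 2 = _
      ring
    -- the gain from the determinant
    let J : Set (Fin n) := Good G σ T h a q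
    have haτ : ∀ i, a (τ i) ≠ 0 → a i ≠ 0 := by
      intro i h1 h2
      have h3 := (ha1 (τ i) h1).1
      rw [hBτ] at h3
      rcases hloc i with ⟨⟨z, hz, hz0⟩, -⟩ | ⟨-, h4⟩
      · exact hz0 (ha0 i h2 z hz)
      · omega
    have hJ1 : ∀ i ∈ J, ∀ j, (h : L ≃ₐ[k] L) (T i j : L) = T (τ i) j := by
      intro i hi j
      have h1 := hi.1 1 j
      rwa [pow_one] at h1
    have hJ2 : ∀ i ∈ J, τ i ∈ J := by
      intro i hi
      refine ⟨fun s j => ?_, fun ha' j => ?_⟩
      · have h1 := hi.1 (s + 1) j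
        have h2 : ((h ^ (s + 1) : G) : L ≃ₐ[k] L) (T i j : L) =
            ((h ^ s : G) : L ≃ₐ[k] L) ((h : L ≃ₐ[k] L) (T i j : L)) := by
          rw [← AlgEquiv.mul_apply, ← Subgroup.coe_mul, ← pow_succ]
        rw [h2, hJ1 i hi j] at h1
        rw [h1, pow_succ, map_mul]
        rfl
      · have h1 := hi.2 (haτ i ha') j
        have h2 := hcomp i (haτ i ha') (T i j) (T (σ h i) j) (hJ1 i hi j).symm
        rcases h1 with h1 | h1
        · left
          apply Subtype.ext
          have h3 := hJ1 i hi j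
          rw [h1] at h3
          rw [← h3]
          exact map_zero _
        · right
          change 0 ≤ (q (σ h i)).ord (T (σ h i) j)
          rw [h2]
          exact h1
    have hJ3 : ∀ i ∈ J, ∀ j, Ge w 0 (T i j : L) := by
      intro i hi j
      by_cases hai : a i = 0
      · exact Or.inr (ha0 i hai _ (T i j).2).ge
      · have h1 : Ge (q i) 0 (T i j) := hi.2 hai j
        simpa using hge i (ha1 i hai) 0 _ h1
    obtain ⟨o', ho'⟩ : ∃ o' : ℕ, o' = {i | i ∈ J ∧ ∀ s : ℕ, i ≤ (τ ^ s) i}.ncard := ⟨_, rfl⟩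
    have hgain : (e : ℝ) * ((J.ncard : ℝ) - o') ≤ 2 * U := by
      have h1 := det_gain w (h : L ≃ₐ[k] L) ζ e he0 hζ hch τ hτe (fun i j => (T i j : L)) J
        hJ2 hJ1 hJ3 (fun i => (B i * μ i (q i) : ℤ)) (fun i => by positivity)
        (fun i _ j => hTge i j) hdt
      change _ ≤ 2 * ((w.ord (dt T) + ∑ i, (B i * μ i (q i) : ℤ) : ℤ) : ℝ) at h1
      rw [← hU, ← ho'] at h1
      exact h1
    have hgeq : gain (σ h) (orderOf h) J = (e : ℝ) * ((J.ncard : ℝ) - o') / 2 := by
      unfold gain
      rw [hord, ho']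
    have hcTU : (cT : ℝ) * m * ((e : ℝ) * ((J.ncard : ℝ) - o')) ≤ 2 * (cT * m * U) := by
      have h1 : (cT : ℝ) * m * ((e : ℝ) * ((J.ncard : ℝ) - o')) ≤ cT * m * (2 * U) :=
        mul_le_mul_of_nonneg_left hgain (by positivity)
      linarith
    have hyA : yAge M0 N (h : L ≃ₐ[k] L) (orderOf h) ≤ N * b0 := by
      rw [hord]
      refine yAge_le M0 N w (h : L ≃ₐ[k] L) ζ e he0 hζ hch ?_ b0 hb0
      rw [← Subgroup.coe_pow, ← hord, pow_orderOf_eq_one]
      rfl
    have hcaseA : (N : ℝ) * e ≤ sA + N * (e * (n - o)) / 2 +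
        cT * ((e : ℝ) * ((J.ncard : ℝ) - o') / 2) + N * b0 →
      ∃ Y : ℤ, Ge w Y R ∧ 2 * (m * (N * e) : ℤ) ≤
      2 * (Y + cT * m * w.ord (dt T)) + m * (N * (e * (n - o))) + 2 * (m * (N * b0)) := by
      intro h1
      refine ⟨_, hR1, ?_⟩
      have h2 := hYeq 0
      rw [add_zero, add_zero] at h2
      rw [h2]
      have h3 : (m : ℝ) * (2 * (N * e)) ≤ m * (2 * sB + N * (e * (n - o)) +
          cT * ((e : ℝ) * ((J.ncard : ℝ) - o')) + 2 * (N * b0)) :=
        mul_le_mul_of_nonneg_left (by linarith) (by positivity)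
      have h4 : ((2 * (m * (N * e) : ℤ) : ℤ) : ℝ) ≤
          ((2 * (m * ∑ i, (B i * (N + ν i (q i)) : ℤ)) + 2 * (cT * m * U) +
            m * (N * (e * (n - o))) + 2 * (m * (N * b0)) : ℤ) : ℝ) := by
        push_cast
        change 2 * ((m : ℝ) * (N * e)) ≤ 2 * (m * sB) + 2 * (cT * m * U) +
          m * (N * (e * (n - o))) + 2 * (m * (N * b0))
        linarith
      exact_mod_cast h4
    rcases hage h hh1 (fixIn hζ0 hch M0) ζ (by rw [hord]; exact hζ) a q hcond hcomp with
      h1 | ⟨hpS, h1⟩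
    · apply hcaseA
      change (N : ℝ) * orderOf h ≤ age F N ν (σ h) (orderOf h) a q +
        cT * gain (σ h) (orderOf h) J + yAge M0 N (h : L ≃ₐ[k] L) (orderOf h) at h1
      rw [hageeq, hgeq] at h1
      rw [hord] at h1 hyA
      linarith
    · by_cases hcA : (N : ℝ) * e ≤ sA + N * (e * (n - o)) / 2 +
        cT * ((e : ℝ) * ((J.ncard : ℝ) - o') / 2) + N * b0
      · exact hcaseA hcA
      push Not at hcA
      replace h1 : ∀ i : Big F N ξ, a i ≠ 0 → (N : ℝ) * e ≤ sA + N * (e * (n - o)) / 2 +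
          cT * ((e : ℝ) * ((J.ncard : ℝ) - o') / 2) + N * b0 +
          wt (pt F N ξ a q) i * (a i / ℓ i) := by
        intro i hi
        have h2 := h1 i hi
        change (N : ℝ) * orderOf h ≤ age F N ν (σ h) (orderOf h) a q +
          cT * gain (σ h) (orderOf h) J + yAge M0 N (h : L ≃ₐ[k] L) (orderOf h) + 
          wt (pt F N ξ a q) i * (a i / ℓ i) at h2
        rw [hageeq, hgeq] at h2
        have h3 := hyA
        rw [hord] at h2 h3
        linarith
      let Tr : ℝ := N * (e * (n - o)) + cT * ((e : ℝ) * ((J.ncard : ℝ) - o')) + 2 * (N * b0)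
      let δ : ℝ := N * e - sA - Tr / 2
      have hTr : Tr = N * (e * (n - o)) + cT * ((e : ℝ) * ((J.ncard : ℝ) - o')) +
        2 * (N * b0) := rfl
      have hδ0 : 0 < δ := by
        change 0 < (N : ℝ) * e - sA - Tr / 2
        linarith
      have hδint : 1 ≤ (2 * n.factorial : ℝ) * δ := by
        have h2 : ∀ i, ∃ t : ℕ, n.factorial = ℓ i * t := fun i => len_dvd τ i
        choose t ht using h2
        have h3 : (2 * n.factorial : ℝ) * δ = ((2 * n.factorial * (N * e) -
            2 * ∑ i, (a i * (N + ν i (q i)) * t i : ℤ) -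
            n.factorial * (N * (e * (n - o)) + cT * (e * (J.ncard - o')) + 2 * (N * b0)) : ℤ) :
              ℝ) := by
          have h4 : (n.factorial : ℝ) * sA = ∑ i, ((a i : ℝ) * (N + ν i (q i)) * t i) := by
            change (n.factorial : ℝ) * ∑ i, (a i : ℝ) * (N + ν i (q i)) / ℓ i = _
            rw [Finset.mul_sum]
            refine Finset.sum_congr rfl fun i _ => ?_
            have h5 : (n.factorial : ℝ) = ℓ i * t i := by exact_mod_cast ht i
            rw [h5]
            have := (hlR i).ne'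
            field_simp
          push_cast
          rw [← h4]
          change (2 * n.factorial : ℝ) * (N * e - sA - (N * (e * (n - o)) +
            cT * ((e : ℝ) * ((J.ncard : ℝ) - o')) + 2 * (N * b0)) / 2) = _
          ring
        have h5 : (0 : ℝ) < (2 * n.factorial : ℝ) * δ := by
          have : (0 : ℝ) < n.factorial := by exact_mod_cast Nat.factorial_pos n
          positivity
        rw [h3] at h5 ⊢
        have h6 : (0 : ℤ) < 2 * n.factorial * (N * e) -
            2 * ∑ i, (a i * (N + ν i (q i)) * t i : ℤ) -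
            n.factorial * (N * (e * (n - o)) + cT * (e * (J.ncard - o')) + 2 * (N * b0)) := by
          exact_mod_cast h5
        exact_mod_cast h6
      have hp1 : ∀ i : Big F N ξ, pt F N ξ a q i ≠ none ↔ a i ≠ 0 := by
        intro i
        unfold pt
        by_cases hi : a i = 0
        · simp [hi]
        · simp [hi]
      have hp2 : ∀ i : Big F N ξ, pt F N ξ a q i ≠ none → pt F N ξ a q i = some (q i) := by
        intro i hi
        unfold pt
        rw [if_neg ((hp1 i).1 hi)]
      have hwa : ∀ i : Big F N ξ, a i ≠ 0 → δ ≤ wt (pt F N ξ a q) i * (a i / ℓ i) := by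
        intro i hi
        have h2 := h1 i hi
        change (N : ℝ) * e - sA - Tr / 2 ≤ wt (pt F N ξ a q) i * (a i / ℓ i)
        linarith
      have hwpos : ∀ i : Big F N ξ, a i ≠ 0 → 0 < wt (pt F N ξ a q) i := by
        intro i hi
        by_contra hcon
        push Not at hcon
        have h2 : wt (pt F N ξ a q) i * (a i / ℓ i) ≤ 0 :=
          mul_nonpos_of_nonpos_of_nonneg hcon (by positivity)
        have := hwa i hi
        linarith
      have hwB : ∀ i : Big F N ξ, a i ≠ 0 → δ ≤ wt (pt F N ξ a q) i * B i := by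
        intro i hi
        exact (hwa i hi).trans (mul_le_mul_of_nonneg_left (haBR i) (hwpos i hi).le)
      let X : ℤ := ⌊((m : ℝ) + c) * δ⌋
      have hX1 : (X : ℝ) ≤ (m + c) * δ := Int.floor_le _
      have hX2 : ((m : ℝ) + c) * δ - 1 < X := Int.sub_one_lt_floor _
      have h2 := hf _ hpS (fun i => q i) hp2 (fun i hi => hwpos i ((hp1 i).1 hi)) (fun i => B i)
        (fun i hi => ha1 i ((hp1 i).1 hi))
        (fun i hi => ha0 i (by
          by_contra hcon
          exact (hp1 i).2 hcon hi)) δ hδ0.le (fun i hi => hwB i ((hp1 i).1 hi)) X hX1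
      -- the rest of the factors
      let lc : ∀ i, F i := fun i => (D0 i (unif (q i)))⁻¹ ^ (N * m) * (unif (q i))⁻¹ ^ (m * ξ i (q i))
      have hlc0 : ∀ i, lc i ≠ 0 := fun i => by
        have h3 := der_pi_ne_zero (hD0' i) (q i) (ord_unif _)
        have h4 : unif (q i) ≠ 0 := by
          intro h0
          have h5 := ord_unif (q i)
          rw [h0, (q i).ord_zero] at h5
          omega
        exact mul_ne_zero (pow_ne_zero _ (inv_ne_zero h3)) (pow_ne_zero _ (inv_ne_zero h4))
      let θ : ∀ i, F i := fun i => if a i = 0 then lam i ^ (N * m) else lam i ^ (N * m) / lc i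
      have hθ : ∀ i, Ge w (m * (B i * (N + ξ i (q i)))) (θ i : L) := by
        intro i
        by_cases hi : a i = 0
        · simp only [θ, if_pos hi]
          have h3 : B i = 0 := by
            rcases hloc i with ⟨⟨z, hz, hz0⟩, -⟩ | ⟨-, h3⟩
            · exact absurd (ha0 i hi z hz) hz0
            · exact h3
          rw [h3]
          have h4 := ha0 i hi _ (lam i ^ (N * m) : F i).2
          right
          rw [h4]
          simp
        · simp only [θ, if_neg hi]
          have h3 := ha1 i hi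
          have h4 : Ge (q i) (m * (N + ξ i (q i))) (lam i ^ (N * m) / lc i) := by
            right
            rw [(q i).ord_div (pow_ne_zero _ (hlam0 i)) (hlc0 i), (q i).ord_pow, hlamU i h3]
            have h5 := der_pi_ne_zero (hD0' i) (q i) (ord_unif _)
            have h6 : unif (q i) ≠ 0 := by
              intro h0
              have h5 := ord_unif (q i)
              rw [h0, (q i).ord_zero] at h5
              omega
            have h7 : (q i).ord (lc i) = -(N * m * vo (q i) (D0 i)) - m * ξ i (q i) := by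
              simp only [lc]
              rw [(q i).ord_mul (pow_ne_zero _ (inv_ne_zero h5)) (pow_ne_zero _ (inv_ne_zero h6)),
                (q i).ord_pow, (q i).ord_pow, (q i).ord_inv, (q i).ord_inv, ord_unif]
              unfold vo
              push_cast
              ring
            rw [h7]
            push_cast
            linarith
          refine (hge i h3 _ _ h4).mono (le_of_eq ?_)
          ring
      have hprodBig : ∏ i : Big F N ξ, (lam i : L) ^ (N * m) =
          (∏ i : {i : Big F N ξ // pt F N ξ a q i ≠ none},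
            ((((D0 i (unif (q i)) : F i) : L)⁻¹) ^ (N * m) *
              (((unif (q i) : F i) : L)⁻¹) ^ (m * ξ i (q i)))) * ∏ i : Big F N ξ, (θ i : L) := by
        have h3 : ∏ i : {i : Big F N ξ // pt F N ξ a q i ≠ none},
            ((((D0 i (unif (q i)) : F i) : L)⁻¹) ^ (N * m) *
              (((unif (q i) : F i) : L)⁻¹) ^ (m * ξ i (q i))) =
            ∏ i : Big F N ξ, (if a i = 0 then 1 else (lc i : L)) := by
          rw [← Fintype.prod_subtype_mul_prod_subtype (fun i => pt F N ξ a q i ≠ none)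
            (fun i : Big F N ξ => (if a i = 0 then (1 : L) else (lc i : L)))]
          have h4 : ∏ i : {i : Big F N ξ // ¬ pt F N ξ a q i ≠ none},
              (if a i = 0 then (1 : L) else (lc i : L)) = 1 := by
            refine Finset.prod_eq_one fun i _ => ?_
            rw [if_pos]
            by_contra hcon
            exact i.2 ((hp1 i).2 hcon)
          rw [h4, mul_one]
          refine Finset.prod_congr rfl fun i _ => ?_
          rw [if_neg ((hp1 i).1 i.2)]
          simp only [lc]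
          push_cast
          rfl
        rw [h3, ← Finset.prod_mul_distrib]
        refine Finset.prod_congr rfl fun i _ => ?_
        by_cases hi : a i = 0
        · simp only [θ, if_pos hi, one_mul]
          push_cast
          rfl
        · simp only [θ, if_neg hi]
          have h5 : ((lc i : F i) : L) ≠ 0 := fun h0 => hlc0 i (Subtype.ext h0)
          push_cast
          rw [mul_div_cancel₀ _ h5]
      have e1 : R = (∏ i : {i // ¬ 0 < rdeg N (ξ i)}, (φ i : L) * (lam i : L) ^ (N * m)) *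
          (f * ∏ i : {i : Big F N ξ // pt F N ξ a q i ≠ none},
            ((((D0 i (unif (q i)) : F i) : L)⁻¹) ^ (N * m) *
              (((unif (q i) : F i) : L)⁻¹) ^ (m * ξ i (q i)))) *
          (∏ i : Big F N ξ, (θ i : L)) * zz := by
        have h4 := Fintype.prod_subtype_mul_prod_subtype (fun i => 0 < rdeg N (ξ i))
          (fun i => (lam i : L) ^ (N * m))
        change (∏ i : {i // ¬ 0 < rdeg N (ξ i)}, (φ i : L)) * f * zz *
          ∏ i, (lam i : L) ^ (N * m) = _
        rw [← h4, Finset.prod_mul_distrib]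
        change _ * _ * _ * ((∏ i : Big F N ξ, (lam i : L) ^ (N * m)) * _) = _
        rw [hprodBig]
        ring
      have h3 : Ge w (∑ i : {i // ¬ 0 < rdeg N (ξ i)}, (m * (B i * (N + ξ i (q i))) : ℤ))
          (∏ i : {i // ¬ 0 < rdeg N (ξ i)}, (φ i : L) * (lam i : L) ^ (N * m)) :=
        Ge.prod _ _ _ fun i _ => hfac i _ (hφ i i.2)
      have h4 : Ge w (∑ i : Big F N ξ, (m * (B i * (N + ξ i (q i))) : ℤ))
          (∏ i : Big F N ξ, (θ i : L)) := Ge.prod _ _ _ fun i _ => hθ i
      have h5 := Fintype.sum_subtype_add_sum_subtype (fun i => 0 < rdeg N (ξ i))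
          (fun i => (m * (B i * (N + ξ i (q i))) : ℤ))
      have h6 := (h3.mul h2).mul h4
      have h7 : Ge w (m * ∑ i, (B i * (N + ξ i (q i)) : ℤ) + X)
          ((∏ i : {i // ¬ 0 < rdeg N (ξ i)}, (φ i : L) * (lam i : L) ^ (N * m)) *
          (f * ∏ i : {i : Big F N ξ // pt F N ξ a q i ≠ none},
            ((((D0 i (unif (q i)) : F i) : L)⁻¹) ^ (N * m) *
              (((unif (q i) : F i) : L)⁻¹) ^ (m * ξ i (q i)))) *
          (∏ i : Big F N ξ, (θ i : L))) := by
        refine h6.mono (le_of_eq ?_)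
        rw [Finset.mul_sum, ← h5]
        ring
      have hPmR : (P : ℝ) ≤ m := by exact_mod_cast hPm
      have hPcR : (P : ℝ) * e + 1 ≤ c * δ := by
        have h8 : ((P : ℝ) * e + 1) * (2 * n.factorial) ≤ c := by exact_mod_cast hPc
        have h9 : ((P : ℝ) * e + 1) * 1 ≤ (P * e + 1) * ((2 * n.factorial) * δ) :=
          mul_le_mul_of_nonneg_left hδint (by positivity)
        have h10 := mul_le_mul_of_nonneg_right h8 hδ0.le
        linarith
      have hae : ∀ i, (a i : ℝ) / ℓ i ≤ e := by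
        intro i
        have h13 : a i ≤ e := by
          rcases hcond i with ⟨h13, -⟩ | ⟨-, h13, -⟩
          · omega
          · rw [hord] at h13
            omega
        have h14 : (1 : ℝ) ≤ ℓ i := by exact_mod_cast hℓ0 i
        rw [div_le_iff₀ (hlR i)]
        have h15 : (a i : ℝ) ≤ e := by exact_mod_cast h13
        have h16 : (e : ℝ) * 1 ≤ e * ℓ i := mul_le_mul_of_nonneg_left h14 (by positivity)
        linarith
      rw [e1]
      rcases hzz q B (fun i => by
        rcases hloc i with ⟨-, h8⟩ | ⟨h8, -⟩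
        · exact Or.inl h8
        · exact Or.inr h8) with h8 | ⟨i0, h8⟩
      · refine ⟨_, h7.mul h8, ?_⟩
        have h10 := num_aux (m := m) (c := c) (P := 0) (e := e) (δ := δ) (N := N)
          (sB := sB) (sA := sA) (b := 0) (a := 0) (T := Tr) (X := X)
          (by positivity) (by
            have : (0 : ℝ) ≤ P * e := by positivity
            linarith) rfl hX2 le_rfl (by positivity) le_rfl (by positivity) (by linarith)
        have h11 : ((2 * (m * (N * e) : ℤ) : ℤ) : ℝ) ≤
            ((2 * (m * ∑ i, (B i * (N + ν i (q i)) : ℤ) + (X + 0)) + 2 * (cT * m * U) +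
              m * (N * (e * (n - o))) + 2 * (m * (N * b0)) : ℤ) : ℝ) := by
          push_cast
          change 2 * ((m : ℝ) * (N * e)) ≤ 2 * (m * sB + (X + 0)) + 2 * (cT * m * U) +
            m * (N * (e * (n - o))) + 2 * (m * (N * b0))
          rw [hTr] at h10
          linarith
        have h12 := hYeq (X + 0)
        rw [← add_assoc] at h12
        rw [h12]
        exact_mod_cast h11
      · refine ⟨_, h7.mul h8, ?_⟩
        have h10 := num_aux (m := m) (c := c) (P := P) (e := e) (δ := δ) (N := N)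
          (sB := sB) (sA := sA) (b := B i0) (a := a i0 / ℓ i0) (T := Tr) (X := X)
          hPmR hPcR rfl hX2 (haBR i0) (hae i0) (by positivity) (by positivity) (hsAB i0)
        have h11 : ((2 * (m * (N * e) : ℤ) : ℤ) : ℝ) ≤
            ((2 * (m * ∑ i, (B i * (N + ν i (q i)) : ℤ) + (X + -(P * B i0))) +
              2 * (cT * m * U) + m * (N * (e * (n - o))) + 2 * (m * (N * b0)) : ℤ) : ℝ) := by
          push_cast
          change 2 * ((m : ℝ) * (N * e)) ≤ 2 * (m * sB + (X + -(P * B i0))) + 2 * (cT * m * U) +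
            m * (N * (e * (n - o))) + 2 * (m * (N * b0))
          rw [hTr] at h10
          linarith
        have h12 := hYeq (X + -(P * B i0))
        rw [← add_assoc] at h12
        rw [h12]
        exact_mod_cast h11
  -- conclusion
  obtain ⟨Y, hY1, hY2⟩ := hmain
  have hNm0 : N * m ≠ 0 := by
    have := Nat.mul_pos hN hm1
    omega
  rw [hdet]
  have e2 : a0 * ((∏ i : {i // ¬ 0 < rdeg N (ξ i)}, (φ i : L)) * f * zz * dt T ^ (cT * m)) *
      (Z.det * (∏ i, (lam i : L)) * M.det) ^ (N * m) =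
      a0 * Z.det ^ (N * m) * (R * dt T ^ (cT * m)) * M.det ^ (N * m) := by
    change _ = a0 * Z.det ^ (N * m) * ((∏ i : {i // ¬ 0 < rdeg N (ξ i)}, (φ i : L)) * f * zz *
      (∏ i, (lam i : L) ^ (N * m)) * dt T ^ (cT * m)) * M.det ^ (N * m)
    rw [Finset.prod_pow, mul_pow, mul_pow]
    ring
  rw [e2]
  by_cases hMd : M.det = 0
  · left
    rw [hMd, zero_pow hNm0, mul_zero]
  -- the row of the uniformizer
  obtain ⟨M', u, hu0, hub, hMM, hM', hMh'⟩ : ∃ (M' : Matrix (Fin (d + n)) (Fin (d + n)) L) (u : L),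
      u ≠ 0 ∧ w.ord u = b0 ∧ M.det = u * M'.det ∧ (∀ i j, Ge w 0 (M' i j)) ∧
      ∀ i j, (h : L ≃ₐ[k] L) (M' (Fin.natAdd d i) j) = M' (Fin.natAdd d (τ i)) j := by
    rcases hyb with hb | ⟨i0, hz0, hzb⟩
    · exact ⟨M, 1, one_ne_zero, by rw [w.ord_one, hb]; rfl, by rw [one_mul], hM, hMh⟩
    · refine ⟨M.updateRow (Fin.castAdd n i0) (fun j => E' j (y0 i0) / y0 i0), y0 i0, hz0, hzb,
        ?_, ?_, ?_⟩
      · rw [← Matrix.det_updateRow_smul]
        congr 1
        ext i j
        by_cases hi : i = Fin.castAdd n i0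
        · subst hi
          rw [Matrix.updateRow_self, Pi.smul_apply, smul_eq_mul, hM1, mul_div_cancel₀ _ hz0]
        · rw [Matrix.updateRow_ne hi]
      · intro i j
        by_cases hi : i = Fin.castAdd n i0
        · subst hi
          rw [Matrix.updateRow_self]
          exact hE' j (y0 i0)
        · rw [Matrix.updateRow_ne hi]
          exact hM i j
      · intro i j
        have h3 : ∀ i, Fin.natAdd d i ≠ Fin.castAdd n i0 := by
          intro i h4
          have h5 := congrArg Fin.val h4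
          simp only [Fin.val_natAdd, Fin.val_castAdd] at h5
          have := i0.2
          omega
        rw [Matrix.updateRow_ne (h3 i), Matrix.updateRow_ne (h3 _)]
        exact hMh i j
  have hMd' : M'.det ≠ 0 := by
    intro h0
    apply hMd
    rw [hMM, h0, mul_zero]
  have hdet2 := pDET2 k L d n e w h ζ τ M' he0 hζ (fun a y hy hhy => hch.dvd he0 hζ a y hy hhy)
    hτe hMh' hM' hMd'
  have hordM : w.ord M.det = b0 + w.ord M'.det := by
    rw [hMM, w.ord_mul hu0 hMd', hub]
  have hGM : Ge w (w.ord M.det) M.det := Or.inr le_rfl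
  have hGT : Ge w (w.ord (dt T)) (dt T) := Or.inr le_rfl
  refine ((hyZ.mul (hY1.mul (hGT.pow (cT * m)))).mul (hGM.pow (N * m))).mono ?_
  have h1 : (m : ℤ) * N * (e * (n - o)) ≤ m * N * (2 * w.ord M'.det) :=
    mul_le_mul_of_nonneg_left hdet2 (by positivity)
  rw [hordM]
  push_cast
  linarith

end

end Pool.Agent.V7H74
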