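import Pool.Agent.V7H50.Low
import Pool.Agent.V7H74.Log

/-! The lower bound for the Kodaira dimension of the quotient: adaptation of
`Pool.Agent.V7H50.Low`. -/

set_option autoImplicit false
set_option linter.overlappingInstances false
set_option linter.unusedSectionVars false

universe u v

open Algebra FF IntermediateField Pool.Agent.W619.PQ Pool.Agent.W619.PL Pool.Agent.W619.TW
  Pool.Agent.W603.LV Pool.Agent.W619.Y Pool.Agent.W672.PG Pool.Agent.W140.PG.REG2
open Pool.Agent.V7H50 hiding AgeCond NumCond NumCondPos log_est kod_low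

namespace Pool.Agent.V7H74

section

variable {k : Type v} {L : Type u} [Field k] [CharZero k] [IsAlgClosed k] [Field L] [Algebra k L]

open scoped Classical in
theorem kod_low (d n A : ℕ) (hn : Algebra.trdeg k L = (d + n : ℕ))
    (M : IntermediateField k L) [Algebra.EssFiniteType k M] (hM : Algebra.trdeg k M = d)
    (F : Fin n → IntermediateField k L) [hF : ∀ i, IsFF k (F i)]
    (halg : Algebra.IsAlgebraic ↥(M ⊔ ⨆ i, F i) L)
    (G : Subgroup (L ≃ₐ[k] L)) [Finite G] (σ : G →* Equiv.Perm (Fin n))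
    (hσ : ∀ (g : G) i, ∀ z ∈ F i, (g : L ≃ₐ[k] L) z ∈ F (σ g i))
    (N cT : ℕ) (hN : 1 ≤ N) (ν μ ξ : ∀ i, Place k (F i) →₀ ℕ)
    (hξ : ∀ i q, (ξ i q : ℤ) = ν i q + cT * μ i q) (T : ∀ i, Fin n → F i) (hdt : dt T ≠ 0)
    (hT : ∀ i j (q : Place k (F i)), Ge q (-(μ i q : ℤ)) (T i j))
    (S : Finset (∀ i : Big F N ξ, Option (Place k (F i))))
    (wt : (∀ i : Big F N ξ, Option (Place k (F i))) → Big F N ξ → ℝ)
    (hage : AgeCond M G σ F N cT ν ξ T S wt) (hvol : VolCond F N ξ S wt)
    (hsub : ∀ i, ¬ 0 < rdeg N (ξ i) → SubCan N (ξ i)) (hY : KodTr k M d A) :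
    KodTr k (fixedField G) (d + n) (A + Fintype.card (Big F N ξ)) := by
  have : CharZero M := charZero_of_alg (k := k)
  obtain ⟨m1, hm1, ω, hω, DY, hDY, hind⟩ := hY
  obtain ⟨y, hy⟩ := exists_fin_basis (k := k) d hM
  choose E hE0 using fun j => exists_dual y hy j
  have hE : ∀ i j, E i (y j) = if i = j then 1 else 0 := by
    intro i j
    rw [hE0 i j]
    by_cases h : i = j
    · subst h; simp
    · rw [if_neg h, if_neg (Ne.symm h)]
  have hev : ∀ l, ω l DY = (Matrix.of fun a b => DY a (y b)).det ^ m1 * ω l E := fun l =>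
    pluri_frame (hω l).1 y hy E hE DY
  have hη0 : ∀ l, ω l E ≠ 0 := fun l h0 => hDY l (by rw [hev, h0, mul_zero])
  have hdet : (Matrix.of fun a b => DY a (y b)).det ^ m1 ≠ 0 := fun h0 =>
    hDY 0 (by rw [hev, h0, zero_mul])
  have hreg : ∀ l, ∀ u : Place k M, IsDivisorial u d → RegularAt u d (ω l) := by
    intro l u hu D hD
    rcases (hω l).2.1 u hu (fun h => h) D hD with h | ⟨s, hs, hs0, h⟩
    · exact Or.inl h
    · right
      simpa using h
  -- the curves
  obtain ⟨x, hxQ, hx, hxσ⟩ := exists_x F G σ hσ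
  choose D0 hD00 hD0 using fun i => exists_ddx (k := k) (hx i)
  have hsub' : ∀ i, ∃ (r : ℕ) (φ : F i), 1 ≤ r ∧ φ ≠ 0 ∧ (¬ 0 < rdeg N (ξ i) →
      ∀ q : Place k (F i), Ge q (r * (N * vo q (D0 i) + ξ i q)) φ) := by
    intro i
    by_cases hi : 0 < rdeg N (ξ i)
    · exact ⟨1, 1, le_rfl, one_ne_zero, fun h => absurd hi h⟩
    · obtain ⟨r, φ, h1, h2, h3⟩ := subcan_form (hsub i hi) (hx i) (hD0 i)
      exact ⟨r, φ, h1, h2, fun _ => h3⟩
  choose rr ψ hrr hψ0 hψ using hsub'
  choose P0 hP0 using fun i => exists_pole_bound (k := k) (x i)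
  let P : ℕ := ∑ i, P0 i
  have hP : ∀ i (q : Place k (F i)), -(P : ℤ) ≤ q.ord (x i) := by
    intro i q
    have h1 : P0 i ≤ P := Finset.single_le_sum (fun _ _ => Nat.zero_le _) (Finset.mem_univ i)
    have h2 := hP0 i q
    omega
  let c : ℕ := (P * Nat.card G + 1) * (2 * n.factorial)
  have hbasis := basis_mix M F halg hn (Fintype.card_fin d) y hy x hx
  have hxind : AlgebraicIndependent k (fun i : Big F N ξ => (x i : L)) := by
    have h1 := hbasis.1.comp (fun i : Big F N ξ => (Sum.inr (i : Fin n) : Fin d ⊕ Fin n)) (by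
      intro i j hij
      exact Subtype.ext (Sum.inr_injective hij))
    exact h1
  obtain ⟨m0, hm0⟩ := exists_section (k := k) (fun i : Big F N ξ => F i) (fun i => x i) hxind
    (fun i => D0 i) (fun i => hD00 i) (fun i => x i) N (fun i => ξ i) (fun i => i.2) S wt
    hvol.1 hvol.2 c
  let Rp : ℕ := ∏ i, rr i
  have hRp : 1 ≤ Rp := Nat.one_le_iff_ne_zero.2 (Finset.prod_ne_zero_iff.2 fun i _ => by
    have := hrr i
    omega)
  let M0 : ℕ := m0 + P + 1
  let m : ℕ := Rp * M0 * m1
  let r : ℕ := N * (Rp * M0)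
  have hNm : N * m = r * m1 := by
    change N * (Rp * M0 * m1) = N * (Rp * M0) * m1
    ring
  have hM0m : M0 ≤ m := by
    have h1 : 1 * M0 ≤ Rp * M0 := Nat.mul_le_mul_right _ hRp
    have h2 : Rp * M0 * 1 ≤ Rp * M0 * m1 := Nat.mul_le_mul_left _ hm1
    change M0 ≤ Rp * M0 * m1
    omega
  have hm0m : m0 ≤ m := by
    change m0 + P + 1 ≤ m at hM0m
    omega
  have hPm : P ≤ m := by
    change m0 + P + 1 ≤ m at hM0m
    omega
  have hm : 1 ≤ m := by
    change m0 + P + 1 ≤ m at hM0m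
    omega
  have hr1 : 1 ≤ r := by
    have h1 : 0 < Rp * M0 := Nat.mul_pos hRp (Nat.succ_pos _)
    exact Nat.mul_pos hN h1
  have hs : ∀ i, ∃ s, m = s * rr i := by
    intro i
    have h1 : rr i ∣ Rp := Finset.dvd_prod_of_mem rr (Finset.mem_univ i)
    obtain ⟨s, hs⟩ := (h1.mul_right M0).mul_right m1
    exact ⟨s, by rw [mul_comm]; exact hs⟩
  choose sx hsx using hs
  obtain ⟨κ, hκ, cc, β, hf0, hβ, hβv⟩ := hm0 m hm0m
  let f : L := ∑ K, cc K • ∏ i, (β K i : L)
  have hf0' : f ≠ 0 := hf0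
  let φ : ∀ i, F i := fun i => ψ i ^ sx i
  have hφ : ∀ i, ¬ 0 < rdeg N (ξ i) → ∀ q : Place k (F i),
      Ge q (m * (N * vo q (D0 i) + ξ i q)) (φ i) := by
    intro i hi q
    refine ((hψ i hi q).pow (sx i)).mono (le_of_eq ?_)
    rw [show (m : ℤ) = sx i * rr i by exact_mod_cast hsx i]
    ring
  let Φ : L := ∏ i : {i // ¬ 0 < rdeg N (ξ i)}, (φ i : L)
  have hΦ0 : Φ ≠ 0 := Finset.prod_ne_zero_iff.2 fun i _ h0 =>
    pow_ne_zero (sx i) (hψ0 i) (Subtype.ext h0)
  have hsplit : ∀ l : Option (Big F N ξ), ∃ γ : κ → ∀ i, F i,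
      (∀ K i (q : Place k (F i)), Ge q (m * (N * vo q (D0 i) + ξ i q)) (γ K i)) ∧
      Φ * f * zzf F x N ξ l = ∑ K, cc K • ∏ i, (γ K i : L) := by
    intro l
    refine ⟨fun K i => if hi : 0 < rdeg N (ξ i) then β K ⟨i, hi⟩ * chi F x N ξ l ⟨i, hi⟩ else φ i,
      ?_, ?_⟩
    · intro K i q
      by_cases hi : 0 < rdeg N (ξ i)
      · simp only [dif_pos hi]
        have h1 := hβ K ⟨i, hi⟩ q
        have h2 : Ge q (-(max (-q.ord (x i)) 0)) (chi F x N ξ l ⟨i, hi⟩) := by
          by_cases hl : l = some ⟨i, hi⟩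
          · have h3 : chi F x N ξ l ⟨i, hi⟩ = x i := by simp [chi, hl]
            rw [h3]
            right
            have := le_max_left (-q.ord (x i)) 0
            linarith
          · have h3 : chi F x N ξ l ⟨i, hi⟩ = 1 := by simp [chi, hl]
            rw [h3]
            refine Ge.one.mono ?_
            have := le_max_right (-q.ord (x i)) 0
            linarith
        refine (h1.mul h2).mono ?_
        linarith
      · simp only [dif_neg hi]
        exact hφ i hi q
    · have h1 : ∀ K, ∏ i, (((if hi : 0 < rdeg N (ξ i) then β K ⟨i, hi⟩ * chi F x N ξ l ⟨i, hi⟩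
          else φ i : F i) : F i) : L) = (∏ i : Big F N ξ, (β K i : L)) * zzf F x N ξ l * Φ := by
        intro K
        have h2 := Fintype.prod_subtype_mul_prod_subtype (fun i => 0 < rdeg N (ξ i))
          (fun i => (((if hi : 0 < rdeg N (ξ i) then β K ⟨i, hi⟩ * chi F x N ξ l ⟨i, hi⟩
            else φ i : F i) : F i) : L))
        rw [← h2, ← prod_chi F x N ξ l, ← Finset.prod_mul_distrib]
        congr 1
        · refine Finset.prod_congr rfl fun i _ => ?_
          rw [dif_pos i.2]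
          push_cast
          rfl
        · refine Finset.prod_congr rfl fun i _ => ?_
          rw [dif_neg i.2]
      simp only [h1]
      change Φ * (∑ K, cc K • ∏ i, (β K i : L)) * zzf F x N ξ l = _
      rw [Finset.mul_sum, Finset.sum_mul]
      refine Finset.sum_congr rfl fun K _ => ?_
      rw [mul_smul_comm, smul_mul_assoc]
      congr 1
      ring
  -- the ratios
  obtain ⟨b, hb⟩ : ∃ b, b = Fintype.card (Big F N ξ) := ⟨_, rfl⟩
  rw [← hb]
  let e : Fin b ≃ Big F N ξ := (Fintype.equivFinOfCardEq hb.symm).symm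
  have haL : ∀ l, ((ω l E : M) : L) ≠ 0 := fun l hl => hη0 l (Subtype.ext hl)
  let ratio : Fin (A + b) → L :=
    Fin.append (fun l : Fin A => ((ω l.succ E : M) : L) ^ r / ((ω 0 E : M) : L) ^ r)
      (fun l : Fin b => (x (e l) : L))
  have hratio : AlgebraicIndependent k ratio := by
    have h1 : AlgebraicIndependent k (fun l : Fin A => ω l.succ E ^ r / ω 0 E ^ r) := by
      have h2 : (fun l : Fin A => ω l.succ E ^ r / ω 0 E ^ r) =
          fun l : Fin A => (ω l.succ DY / ω 0 DY) ^ r := by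
        funext l
        rw [hev l.succ, hev 0, mul_div_mul_left _ _ hdet, div_pow]
      rw [h2]
      exact algInd_pow hind r (by omega)
    have h4 := indep_mix M F halg hn hM (fun l : Fin A => ω l.succ E ^ r / ω 0 E ^ r) h1 x hx
    have h5 := h4.comp (Sum.map (id : Fin A → Fin A)
      (fun l : Fin b => ((e l : Big F N ξ) : Fin n)) ∘ finSumFinEquiv.symm)
      ((Sum.map_injective.2 ⟨Function.injective_id, fun p q hpq =>
        e.injective (Subtype.ext hpq)⟩).comp finSumFinEquiv.symm.injective)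
    have e1 : ratio = Sum.elim (fun l : Fin A => ((ω l.succ E ^ r / ω 0 E ^ r : M) : L))
        (fun i => (x i : L)) ∘
        (Sum.map (id : Fin A → Fin A) (fun l : Fin b => ((e l : Big F N ξ) : Fin n)) ∘
          finSumFinEquiv.symm) := by
      funext l
      refine Fin.addCases (fun l => ?_) (fun l => ?_) l
      · simp [ratio]
      · simp [ratio]
    rw [e1]
    exact h5
  let Δ : L := dt T ^ (cT * m)
  have hΔ0 : Δ ≠ 0 := pow_ne_zero _ hdt
  let B : Fin (A + b + 1) → L := Fin.cons (((ω 0 E : M) : L) ^ r * (Φ * f * Δ))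
    (fun l => ((ω 0 E : M) : L) ^ r * (Φ * f * Δ) * ratio l)
  have hB : ∀ l, ∃ (l1 : Fin (A + 1)) (l2 : Option (Big F N ξ)),
      B l = ((ω l1 E : M) : L) ^ r * (Φ * f * zzf F x N ξ l2 * Δ) := by
    intro l
    refine Fin.cases ?_ (fun l => ?_) l
    · refine ⟨0, none, ?_⟩
      change ((ω 0 E : M) : L) ^ r * (Φ * f * Δ) = ((ω 0 E : M) : L) ^ r * (Φ * f * 1 * Δ)
      ring
    · refine Fin.addCases (fun l => ?_) (fun l => ?_) l
      · refine ⟨l.succ, none, ?_⟩
        change ((ω 0 E : M) : L) ^ r * (Φ * f * Δ) * ratio (Fin.castAdd b l) =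
          ((ω l.succ E : M) : L) ^ r * (Φ * f * 1 * Δ)
        have h1 : ratio (Fin.castAdd b l) = ((ω l.succ E : M) : L) ^ r / ((ω 0 E : M) : L) ^ r := by
          simp [ratio]
        rw [h1]
        have := pow_ne_zero r (haL 0)
        field_simp
      · refine ⟨0, some (e l), ?_⟩
        change ((ω 0 E : M) : L) ^ r * (Φ * f * Δ) * ratio (Fin.natAdd A l) =
          ((ω 0 E : M) : L) ^ r * (Φ * f * (x (e l) : L) * Δ)
        have h1 : ratio (Fin.natAdd A l) = (x (e l) : L) := by simp [ratio]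
        rw [h1]
        ring
  have hB0 : ∀ l, B l ≠ 0 := by
    intro l
    obtain ⟨l1, l2, h1⟩ := hB l
    rw [h1]
    refine mul_ne_zero (pow_ne_zero _ (haL l1)) (mul_ne_zero (mul_ne_zero
      (mul_ne_zero hΦ0 hf0') ?_) hΔ0)
    rcases l2 with _ | i
    · exact one_ne_zero
    · intro h0
      have h2 : x i = 0 := Subtype.ext h0
      have h3 := hx i
      rw [h2] at h3
      exact h3 isAlgebraic_zero
  have hbasis' : IsTranscendenceBasis k
      (Fin.append (fun l => (y l : L)) (fun i => (x i : L)) : Fin (d + n) → L) := by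
    refine (isTranscendenceBasis_equiv' finSumFinEquiv ?_).1 hbasis
    funext z
    rcases z with z | z <;> simp
  refine kod_abs k L (d + n) (A + b) G hn _ hbasis' (N * m) (Nat.mul_pos hN hm) B hB0 ?_ ?_
  · have h1 : (fun l : Fin (A + b) => B l.succ / B 0) = ratio := by
      funext l
      change ((ω 0 E : M) : L) ^ r * (Φ * f * Δ) * ratio l /
        (((ω 0 E : M) : L) ^ r * (Φ * f * Δ)) = _
      have h2 : ((ω 0 E : M) : L) ^ r * (Φ * f * Δ) ≠ 0 :=
        mul_ne_zero (pow_ne_zero _ (haL 0)) (mul_ne_zero (mul_ne_zero hΦ0 hf0') hΔ0)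
      rw [mul_div_assoc, mul_comm, div_mul_cancel₀ _ h2]
    rw [h1]
    exact hratio
  · intro v hv
    obtain ⟨w, e', I, hwv, hIe, hI⟩ := exists_inertia G v
    obtain ⟨g0, hgI, hgord, ζ, hζ, hgen⟩ := exists_rot_generator w I hI
    rw [hIe] at hgord hζ
    refine ⟨w, e', hwv, ?_⟩
    intro l D D' hD hDD s
    rw [← ge_comp]
    have hwv' := over_comp hwv s
    have hdiv : IsDivisorial (w.comp (s : L ≃ₐ[k] L)) (d + n) := div_up hwv' hv
    obtain ⟨l1, l2, hBl⟩ := hB l
    obtain ⟨γ, hγ, hγs⟩ := hsplit l2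
    -- the generator at the conjugate place
    let h' : G := s⁻¹ * g0 * s
    have hord' : orderOf h' = e' := by
      rw [Subgroup.orderOf_coe] at hgord
      rw [← hgord]
      have h5 : h' = MulAut.conj s⁻¹ g0 := by
        rw [MulAut.conj_apply, inv_inv]
      rw [h5]
      exact MulEquiv.orderOf_eq (MulAut.conj s⁻¹) g0
    have hgen' : ∀ z : L, z ≠ 0 → Ge (w.comp (s : L ≃ₐ[k] L))
        ((w.comp (s : L ≃ₐ[k] L)).ord z + 1)
        ((h' : L ≃ₐ[k] L) z - algebraMap k L (ζ ^ ((w.comp (s : L ≃ₐ[k] L)).ord z)) * z) := by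
      intro z hz
      rw [ge_comp, Place.comp_ord, map_sub, map_mul, AlgEquiv.commutes]
      have h5 := hgen ((s : L ≃ₐ[k] L) z) (by simpa using hz)
      have h6 : (s : L ≃ₐ[k] L) ((h' : L ≃ₐ[k] L) z) =
          (g0 : L ≃ₐ[k] L) ((s : L ≃ₐ[k] L) z) := by
        have h7 : (s : L ≃ₐ[k] L) * (h' : L ≃ₐ[k] L) =
            (g0 : L ≃ₐ[k] L) * (s : L ≃ₐ[k] L) := by
          simp only [h']
          push_cast
          group
        exact congrArg (fun f : L ≃ₐ[k] L => f z) h7
      rw [h6]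
      exact h5
    have he'G : e' ≤ Nat.card G := by
      rw [← hIe]
      exact Nat.card_le_card_of_injective (Subtype.val : I → G) Subtype.val_injective
    obtain ⟨b0, hb0, hYg⟩ : ∃ b0 : ℕ, RamIn M (w.comp (s : L ≃ₐ[k] L)) b0 ∧
        YGoodB d (N * m) b0 (w.comp (s : L ≃ₐ[k] L)) (fun l => (y l : L))
          (((ω l1 E : M) : L) ^ r) := by
      rw [hNm]
      obtain ⟨b0, h1, h2⟩ := ylocB k L M d (d + n) m1 hM hn (fun y hy => fin_over y hy) (ω l1)
        (hω l1).1 (hreg l1) y E hy hE _ hdiv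
      exact ⟨b0, h1, h2.pow r⟩
    refine core k L (d + n) G hn v (w.comp (s : L ≃ₐ[k] L)) e' hwv' _ (B l) (N * m)
      (∀ i, ∀ z ∈ F i, (w.comp (s : L ≃ₐ[k] L)).ord z = 0) ?_ ?_ D D' hD hDD
    · rintro ⟨-, htriv⟩ D'' hD''
      obtain ⟨Z, z, hz, hZ, hZa, -⟩ := hYg
      rw [det_append D'' (fun l => (y l : L)) z _ Z hZ, hBl, hγs]
      have h6 : Ge (w.comp (s : L ≃ₐ[k] L)) 0 (Matrix.of fun i j => D'' j
          ((Fin.append z (fun i => (x i : L)) : Fin (d + n) → L) i)).det := by
        apply ge_det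
        intro i j
        apply hD''
        induction i using Fin.addCases with
        | left i => rw [Fin.append_left]; exact hz i
        | right i => rw [Fin.append_right]; exact Or.inr (htriv i _ (x i).2).ge
      have h7 : Ge (w.comp (s : L ≃ₐ[k] L)) 0 (∑ K, cc K • ∏ i, (γ K i : L)) :=
        Ge.sum _ _ fun K _ => ge_smul _ (ge_prod0 _ _ fun i _ =>
          Or.inr (htriv i _ (γ K i).2).ge)
      have h7' : Ge (w.comp (s : L ≃ₐ[k] L)) 0 Δ := by
        have h10 : Ge (w.comp (s : L ≃ₐ[k] L)) 0 (dt T) := by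
          apply ge_det
          intro i j
          exact Or.inr (htriv i _ (T i j).2).ge
        simpa using h10.pow (cT * m)
      have h8 := ((hZa.mul h7).mul h7').mul (h6.pow (N * m))
      have h9 : ((ω l1 E : M) : L) ^ r * ((∑ K, cc K • ∏ i, (γ K i : L)) * Δ) * (Z.det *
          (Matrix.of fun i j => D'' j ((Fin.append z (fun i => (x i : L)) :
            Fin (d + n) → L) i)).det) ^ (N * m) =
          ((ω l1 E : M) : L) ^ r * Z.det ^ (N * m) * (∑ K, cc K • ∏ i, (γ K i : L)) * Δ *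
          (Matrix.of fun i j => D'' j ((Fin.append z (fun i => (x i : L)) :
            Fin (d + n) → L) i)).det ^ (N * m) := by
        rw [mul_pow]; ring
      rw [h9]
      simpa using h8
    · intro hcase E' hE' hE'g
      have hne : e' = 1 → ∃ i, ∃ z ∈ F i, (w.comp (s : L ≃ₐ[k] L)).ord z ≠ 0 := by
        intro he
        by_contra hcon
        push Not at hcon
        exact hcase ⟨he, hcon⟩
      rw [hBl]
      have hPc : (P * e' + 1) * (2 * n.factorial) ≤ c :=
        Nat.mul_le_mul_right _ (Nat.succ_le_succ (Nat.mul_le_mul_left _ he'G))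
      refine log_est M F G σ hσ N cT hN ν μ ξ hξ T hdt hT S wt hage (w.comp (s : L ≃ₐ[k] L)) h' ζ
        e' hord' hζ hgen' hne
        x hx hxσ D0 hD0 m c P hm hPm hPc (fun l => (y l : L)) _ b0 hb0 hYg cc γ hγ f
        (zzf F x N ξ l2) φ hφ hγs ?_ ?_ E' hE' (fun j z => hE'g h' j z)
      · intro q b' hb'
        rcases l2 with _ | i0
        · left; exact Ge.one
        · rcases hb' (i0 : Fin n) with h0 | h0
          · right
            refine ⟨i0, Or.inr ?_⟩
            have h1 := h0.2 (x i0)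
            change (w.comp (s : L ≃ₐ[k] L)).ord (x i0 : L) = _ at h1
            change -((P : ℤ) * b' i0) ≤ (w.comp (s : L ≃ₐ[k] L)).ord (x i0 : L)
            rw [h1]
            have h2 := hP i0 (q i0)
            have h3 : (b' i0 : ℤ) * (-(P : ℤ)) ≤ b' i0 * (q i0).ord (x i0) :=
              mul_le_mul_of_nonneg_left h2 (by positivity)
            linarith
          · left
            exact Or.inr (h0 _ (x i0).2).ge
      · intro p hp q hq hpos b' hb' hbt δ hδ0 hδ X hX
        exact hβv p hp q hq hpos (w.comp (s : L ≃ₐ[k] L)) b' hb' hbt δ hδ0 hδ X hX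

end

end Pool.Agent.V7H74
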