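import Pool.Agent.V7H50.Main
import Pool.Agent.V7H74.Low

/-! Final forms: adaptation of `Pool.Agent.V7H50.Main`. -/

set_option autoImplicit false
set_option linter.overlappingInstances false
set_option linter.unusedSectionVars false

universe u v

open Algebra FF IntermediateField Pool.Agent.W619.PQ Pool.Agent.W619.PL Pool.Agent.W619.TW
  Pool.Agent.W603.LV Pool.Agent.W619.Y Pool.Agent.W672.PG
open Pool.Agent.V7H50 hiding AgeCond NumCond NumCondPos log_est kod_low effN classN nvN abN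

namespace Pool.Agent.V7H74

section

variable {k : Type v} {L : Type u} [Field k] [CharZero k] [IsAlgClosed k] [Field L] [Algebra k L]

theorem tot_apply {n : ℕ} {F : Fin n → IntermediateField k L} (c : ℕ)
    (ν μ : ∀ i, Place k (F i) →₀ ℕ) (i : Fin n) (q : Place k (F i)) :
    (tot c ν μ i q : ℤ) = ν i q + c * μ i q := by
  simp [tot]

theorem poles {n : ℕ} {F : Fin n → IntermediateField k L} {μ : ∀ i, Place k (F i) →₀ ℕ}
    {T : ∀ i, Fin n → F i}
    (h : ∀ i j, T i j ≠ 0 → ∀ q : Place k (F i), -(μ i q : ℤ) ≤ q.ord (T i j)) (i j : Fin n)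
    (q : Place k (F i)) : Ge q (-(μ i q : ℤ)) (T i j) := by
  by_cases h0 : T i j = 0
  · exact Or.inl h0
  · exact Or.inr (h i j h0 q)

variable (d n : ℕ) (hn : Algebra.trdeg k L = (d + n : ℕ)) (M : IntermediateField k L)
    [Algebra.EssFiniteType k M] (hM : Algebra.trdeg k M = d)
    (F : Fin n → IntermediateField k L) [hF : ∀ i, IsFF k (F i)]

include hn hM in
theorem effN (halg : Algebra.IsAlgebraic ↥(M ⊔ ⨆ i, F i) L)
    (G : Subgroup (L ≃ₐ[k] L)) [Finite G] (σ : G →* Equiv.Perm (Fin n))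
    (hσ : ∀ (g : G) i, ∀ z ∈ F i, (g : L ≃ₐ[k] L) z ∈ F (σ g i))
    (h : NumCond M G σ F) (hirr : ∀ i, ¬ ∃ t : F i, k⟮t⟯ = ⊤)
    (hY : IsEff k M d (fun _ => False)) : IsEff k (fixedField G) (d + n) (fun _ => False) := by
  obtain ⟨N, c, ν, μ, T, S, wt, hN, hdt, hT, hage, hvol, hsub⟩ := h
  exact eff_of_kodTr (kod_low d n 0 hn M hM F halg G σ hσ N c hN ν μ _ (tot_apply c ν μ) T hdt
    (poles hT) S wt hage hvol
    (fun i hi => (hsub i (hirr i)).resolve_left hi) (kodTr_zero hY))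

include hn hM in
theorem classN (halg : Algebra.IsAlgebraic ↥(M ⊔ ⨆ i, F i) L)
    (G : Subgroup (L ≃ₐ[k] L)) [Finite G] (σ : G →* Equiv.Perm (Fin n))
    (hσ : ∀ (g : G) i, ∀ z ∈ F i, (g : L ≃ₐ[k] L) z ∈ F (σ g i))
    (h : NumCond M G σ F) (hκ : KodairaNeg k (fixedField G) (d + n)) :
    (KodairaNeg k M d ∨ ∃ i, ∃ t : F i, k⟮t⟯ = ⊤) ∧
    (M ⊔ (⨆ i, F i) = ⊤ → (KodairaNeg k M d → IsUniruled k M d) →
      IsUniruled k (fixedField G) (d + n)) := by
  have h1 : KodairaNeg k M d ∨ ∃ i, ∃ t : F i, k⟮t⟯ = ⊤ := by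
    by_contra hcon
    push Not at hcon
    have h2 : IsEff k M d (fun _ => False) := by
      by_contra h3
      exact hcon.1 (kodairaNeg_of_not_eff.1 h3)
    exact (kodairaNeg_of_not_eff.2 hκ) (effN d n hn M hM F halg G σ hσ h
      (fun i ⟨t, ht⟩ => hcon.2 i t ht) h2)
  refine ⟨h1, fun hsup hY => ?_⟩
  rcases h1 with h1 | h1
  · exact uniruled_down G (Pool.Agent.W904.PG.main k L d n M F hM hn hsup (hY h1))
  · exact (rat_mixed d n hn M hM F hsup G h1).2.2

include hn hM in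
theorem nvN (halg : Algebra.IsAlgebraic ↥(M ⊔ ⨆ i, F i) L)
    (G : Subgroup (L ≃ₐ[k] L)) [Finite G] (σ : G →* Equiv.Perm (Fin n))
    (hσ : ∀ (g : G) i, ∀ z ∈ F i, (g : L ≃ₐ[k] L) z ∈ F (σ g i))
    (h : NumCond M G σ F) :
    (IsEff k M d (fun _ => False) → (∀ i, ¬ ∃ t : F i, k⟮t⟯ = ⊤) →
      IsEff k (fixedField G) (d + n) (fun _ => False)) ∧
    (M ⊔ (⨆ i, F i) = ⊤ → IsPsef k (fixedField G) (d + n) (fun _ => False) →
      IsPsef k M d (fun _ => False) ∧ (∀ i, ¬ ∃ t : F i, k⟮t⟯ = ⊤) ∧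
        (IsEff k M d (fun _ => False) → IsEff k (fixedField G) (d + n) (fun _ => False))) := by
  have h1 : IsEff k M d (fun _ => False) → (∀ i, ¬ ∃ t : F i, k⟮t⟯ = ⊤) →
      IsEff k (fixedField G) (d + n) (fun _ => False) := fun hY hirr =>
    effN d n hn M hM F halg G σ hσ h hirr hY
  refine ⟨h1, fun hsup hp => ?_⟩
  have h2 : ∀ i, ¬ ∃ t : F i, k⟮t⟯ = ⊤ := fun i hi =>
    (rat_mixed d n hn M hM F hsup G ⟨i, hi⟩).1 hp
  exact ⟨(num_mixed pMANY d n hn M hM F hsup G).1 hp, h2, fun h3 => h1 h3 h2⟩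

include hn hM in
theorem abN (halg : Algebra.IsAlgebraic ↥(M ⊔ ⨆ i, F i) L)
    (G : Subgroup (L ≃ₐ[k] L)) [Finite G] (σ : G →* Equiv.Perm (Fin n))
    (hσ : ∀ (g : G) i, ∀ z ∈ F i, (g : L ≃ₐ[k] L) z ∈ F (σ g i))
    (h : NumCondPos M G σ F) :
    ((∀ i, ¬ ∃ t : F i, k⟮t⟯ = ⊤) → ∀ a, KodTr k M d a →
      KodTr k (fixedField G) (d + n) (a + {i | ¬ IsElliptic (F i)}.ncard) ∧
      KodGe k (fixedField G) (d + n) (fun _ => False) (a + {i | ¬ IsElliptic (F i)}.ncard)) ∧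
    (M ⊔ (⨆ i, F i) = ⊤ →
      ((∀ i, ¬ ∃ t : F i, k⟮t⟯ = ⊤) → ∀ a, NumLe k M d (fun _ => False) a →
        NumLe k (fixedField G) (d + n) (fun _ => False) (a + {i | ¬ IsElliptic (F i)}.ncard)) ∧
      ((NumNeg k M d (fun _ => False) ∨ ∃ i, ∃ t : F i, k⟮t⟯ = ⊤) →
        NumNeg k (fixedField G) (d + n) (fun _ => False))) := by
  have hK : Algebra.trdeg k (fixedField G) = (d + n : ℕ) := by
    have hfinL : FiniteDimensional (fixedField G) L := by
      have hGal : IsGaloisGroup G (fixedField G) L := isGaloisGroup_fixed G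
      exact IsGaloisGroup.finiteDimensional G (fixedField G) L
    rw [← hn, ← trdeg_add_eq k (fixedField G) (A := L),
      trdeg_eq_zero (R := fixedField G) (A := L), add_zero]
  refine ⟨fun hirr a ha => ?_, fun hsup => ⟨fun hirr a ha => ?_, fun h1 => ?_⟩⟩
  · obtain ⟨N, c, ν, μ, T, S, wt, hN, hdt, hT, hage, hvol, hsub⟩ := h
    have hpos : ∀ i, ¬ IsElliptic (F i) → 0 < rdeg N (tot c ν μ i) := fun i hi =>
      (hsub i).1 (canDeg_pos (hirr i) hi)
    have h1 := kod_low d n a hn M hM F halg G σ hσ N c hN ν μ _ (tot_apply c ν μ) T hdt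
      (poles hT) S wt hage hvol
      (fun i hi => (hsub i).2 (by
        have h2 : IsElliptic (F i) := by
          by_contra h3
          exact hi (hpos i h3)
        exact canDeg_elliptic h2)) ha
    have hcard : Fintype.card (Big F N (tot c ν μ)) = {i | ¬ IsElliptic (F i)}.ncard := by
      classical
      have h2 : {i | ¬ IsElliptic (F i)} = {i | 0 < rdeg N (tot c ν μ i)} := by
        ext i
        refine ⟨fun h => hpos i h, fun h3 he => ?_⟩
        have h4 : rdeg N (tot c ν μ i) =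
          N * canDeg k (F i) - (tot c ν μ i).sum fun _ x => (x : ℤ) := rfl
        have h5 : (0 : ℤ) ≤ (tot c ν μ i).sum fun _ x => (x : ℤ) :=
          Finset.sum_nonneg fun _ _ => by positivity
        rw [Set.mem_ofPred_eq, h4, canDeg_elliptic he] at h3
        omega
      rw [h2, Set.ncard_eq_toFinset_card', Fintype.card_subtype]
      congr 1
      ext i
      simp
    rw [hcard] at h1
    have : CharZero (fixedField G) := charZero_of_alg (k := k)
    exact ⟨h1, Pool.Agent.W300.PG.TRGE.main k (fixedField G) (d + n) _ hK h1⟩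
  · exact (num_mixed pMANY d n hn M hM F hsup G).2.2 a hirr ha
  · rcases h1 with h1 | h1
    · exact (num_mixed pMANY d n hn M hM F hsup G).2.1 h1
    · exact (rat_mixed d n hn M hM F hsup G h1).2.1

end

end Pool.Agent.V7H74
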