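import Pool.Agent.R882.CTow
import Pool.Agent.V7H74.ImgLang

/-!
Images of varieties with sections of the canonical bundle of positive multidegree: elimination of
several blocks of coordinates at the same time. The reduction to the trace follows the proofs in
`R882/TCore`.
-/

set_option autoImplicit false
set_option linter.overlappingInstances false
set_option linter.unusedSectionVars false
set_option linter.unusedVariables false
set_option maxHeartbeats 4000000
set_option synthInstance.maxHeartbeats 400000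

open Polynomial FF IntermediateField Module

namespace Pool.Agent.V7H74.MG

open Pool.Agent.W603.LV Pool.Agent.W619.PQ Pool.Agent.N145.PC Pool.Agent.N145.PL
open Pool.Agent.N145.SX Pool.Agent.V7H74.HL
open Pool.Agent.W602.GT (Divisorial RegAt IsPluri DerReg DerLog LogAt KodGe LogSec Psef GeneralType)
open Pool.Agent.Y184.NT (trForm trForm_pluri)
open Pool.Agent.R882.LT (SecAt LogGenusZero TraceNe)

open scoped Classical

section

variable {K : Type} [Field K] [Algebra ℂ K] {N p : ℕ}

/-- the field generated by the coordinates in a block -/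
noncomputable def FB (β : Fin N → Fin p) (t : Fin N → K) (i : Fin (p + 1)) :
    IntermediateField ℂ K :=
  IntermediateField.adjoin ℂ {z | ∃ j, (β j).castSucc = i ∧ z = t j}

variable {β : Fin N → Fin p} {t : Fin N → K} {M : Fin p → ℕ}

theorem mem_FB {i : Fin (p + 1)} {j : Fin N} (h : (β j).castSucc = i) : t j ∈ FB β t i :=
  IntermediateField.subset_adjoin ℂ _ ⟨j, h, rfl⟩

/-- monomials of bounded degree in a block -/
def HB (β : Fin N → Fin p) (t : Fin N → K) (M : Fin p → ℕ) (i : Fin (p + 1)) : Set (FB β t i) :=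
  {f | ∃ a : Fin N → ℕ, (∀ j, (β j).castSucc ≠ i → a j = 0) ∧
    (∀ l : Fin p, l.castSucc = i → ∑ j, a j ≤ M l) ∧ (f : K) = ∏ j, t j ^ a j}

theorem one_HB (i : Fin (p + 1)) : (1 : FB β t i) ∈ HB β t M i :=
  ⟨fun _ => 0, fun _ _ => rfl, fun _ _ => by simp, by simp⟩

theorem prod_HB (f : ∀ i, FB β t i) (hf : ∀ i, f i ∈ HB β t M i) :
    ∃ a : Fin N → ℕ, (∀ l, ∑ j with β j = l, a j ≤ M l) ∧
      ∏ i, algebraMap (FB β t i) K (f i) = ∏ j, t j ^ a j := by
  choose A h1 h2 h3 using hf
  refine ⟨fun j => A (β j).castSucc j, fun l => ?_, ?_⟩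
  · have h4 : ∑ j with β j = l, A (β j).castSucc j = ∑ j with β j = l, A l.castSucc j := by
      refine Finset.sum_congr rfl fun j hj => ?_
      rw [(Finset.mem_filter.1 hj).2]
    rw [h4]
    exact (Finset.sum_le_sum_of_subset (Finset.filter_subset _ _)).trans (h2 _ l rfl)
  · have h4 : ∀ i, algebraMap (FB β t i) K (f i) = ∏ j, t j ^ A i j := h3
    simp only [h4]
    rw [Finset.prod_comm]
    refine Finset.prod_congr rfl fun j _ => ?_
    rw [Finset.prod_eq_single (β j).castSucc]
    · intro i _ hi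
      rw [h1 i j (Ne.symm hi), pow_zero]
    · intro h
      exact absurd (Finset.mem_univ _) h

/-- **The monomials of degree at most `M l` separate `M l + 1` points.** -/
theorem sep_HB (Ω : Type) [Field Ω] [Algebra ℂ Ω] (l : Fin p) :
    Sep (ev Ω (FB β t) l.castSucc) (HB β t M l.castSucc) (M l + 1 + 1) := by
  intro A hA c hc σ0 hσ0
  obtain ⟨g, hg⟩ : ∃ g : Fin N → FB β t l.castSucc, ∀ j, (β j).castSucc = l.castSucc →
      (g j : K) = t j :=
    ⟨fun j => if h : (β j).castSucc = l.castSucc then ⟨t j, mem_FB h⟩ else 1, fun j hj => by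
      simp only [dif_pos hj]⟩
  have hdiff : ∀ σ : FB β t l.castSucc →ₐ[ℂ] Ω, σ ≠ σ0 →
      ∃ z : FB β t l.castSucc, (∃ j, (β j).castSucc = l.castSucc ∧ z = g j) ∧ σ z ≠ σ0 z := by
    intro σ hne
    by_contra hcon0
    have hcon : ∀ j, (β j).castSucc = l.castSucc → σ (g j) = σ0 (g j) := by
      intro j hj
      by_contra h
      exact hcon0 ⟨g j, ⟨j, hj, rfl⟩, h⟩
    apply hne
    have key : ∀ (z : K) (hz : z ∈ IntermediateField.adjoin ℂ
        {z | ∃ j, (β j).castSucc = l.castSucc ∧ z = t j}),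
        σ (⟨z, hz⟩ : FB β t l.castSucc) = σ0 (⟨z, hz⟩ : FB β t l.castSucc) := by
      intro z hz
      induction hz using IntermediateField.adjoin_induction with
      | mem z hz =>
        obtain ⟨j, hj, rfl⟩ := hz
        have h1 := hcon j hj
        have h2 : g j = (⟨t j, mem_FB hj⟩ : FB β t l.castSucc) := Subtype.ext (hg j hj)
        rw [h2] at h1
        exact h1
      | algebraMap z => exact (σ.commutes z).trans (σ0.commutes z).symm
      | add a b ha hb h1 h2 =>
        have h3 : (⟨a + b, add_mem ha hb⟩ : FB β t l.castSucc) = ⟨a, ha⟩ + ⟨b, hb⟩ := rfl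
        rw [h3, map_add, map_add, h1, h2]
      | inv a ha h1 =>
        have h3 : (⟨a⁻¹, inv_mem ha⟩ : FB β t l.castSucc) = (⟨a, ha⟩ : FB β t l.castSucc)⁻¹ := rfl
        rw [h3, map_inv₀, map_inv₀, h1]
      | mul a b ha hb h1 h2 =>
        have h3 : (⟨a * b, mul_mem ha hb⟩ : FB β t l.castSucc) = ⟨a, ha⟩ * ⟨b, hb⟩ := rfl
        rw [h3, map_mul, map_mul, h1, h2]
    exact AlgHom.ext fun z => key z z.2
  choose! J hJ1 hJ2 using hdiff
  have key : ∀ U : Finset (FB β t l.castSucc →ₐ[ℂ] Ω), U ⊆ A.erase σ0 → ∀ a : Fin N → ℕ,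
      (∀ j, (β j).castSucc ≠ l.castSucc → a j = 0) → U.card + ∑ j, a j ≤ M l →
      ∑ σ ∈ A, c σ * (∏ ρ ∈ U, (σ (J ρ) - ρ (J ρ))) * ∏ j, (σ (g j)) ^ a j = 0 := by
    intro U
    induction U using Finset.induction_on with
    | empty =>
      intro _ a ha hd
      have h1 := hc (∏ j, g j ^ a j) ⟨a, ha, fun l' hl' => by
        rw [Fin.castSucc_inj.1 hl']
        simpa using hd, by
          have h2 : ((∏ j, g j ^ a j : FB β t l.castSucc) : K) = ∏ j, ((g j : K)) ^ a j := by
            push_cast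
            rfl
          rw [h2]
          refine Finset.prod_congr rfl fun j _ => ?_
          by_cases hj : (β j).castSucc = l.castSucc
          · rw [hg j hj]
          · rw [ha j hj, pow_zero, pow_zero]⟩
      rw [← h1]
      refine Finset.sum_congr rfl fun σ _ => ?_
      rw [Finset.prod_empty, mul_one]
      congr 1
      change _ = σ (∏ j, g j ^ a j)
      rw [map_prod]
      refine Finset.prod_congr rfl fun j _ => ?_
      rw [map_pow]
    | insert ρ U hρ ih =>
      intro hU a ha hd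
      have hρA : ρ ∈ A.erase σ0 := hU (Finset.mem_insert_self _ _)
      have hρ0 : ρ ≠ σ0 := (Finset.mem_erase.1 hρA).1
      have hU' : U ⊆ A.erase σ0 := (Finset.subset_insert _ _).trans hU
      rw [Finset.card_insert_of_notMem hρ] at hd
      have h1 := ih hU' a ha (by omega)
      obtain ⟨j0, hj0, hJj⟩ := hJ1 ρ hρ0
      obtain ⟨a', ha'⟩ : ∃ a' : Fin N → ℕ, a' = Function.update a j0 (a j0 + 1) := ⟨_, rfl⟩
      have hsum : ∑ j, a' j = ∑ j, a j + 1 := by
        rw [ha', Finset.sum_update_of_mem (Finset.mem_univ _),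
          ← Finset.add_sum_erase _ a (Finset.mem_univ j0), Finset.sdiff_singleton_eq_erase]
        ring
      have h2 := ih hU' a' (fun j hj => by
        have h3 : j ≠ j0 := by
          rintro rfl
          exact hj hj0
        rw [ha', Function.update_of_ne h3]
        exact ha j hj) (by rw [hsum]; omega)
      have h3 : ∀ σ : FB β t l.castSucc →ₐ[ℂ] Ω, ∏ j, (σ (g j)) ^ a' j =
          σ (J ρ) * ∏ j, (σ (g j)) ^ a j := by
        intro σ
        rw [hJj, ← Finset.mul_prod_erase _ _ (Finset.mem_univ j0),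
          ← Finset.mul_prod_erase _ (fun j => (σ (g j)) ^ a j) (Finset.mem_univ j0), ha',
          Function.update_self, pow_succ]
        have h4 : ∏ x ∈ Finset.univ.erase j0, σ (g x) ^
            Function.update a j0 (a j0 + 1) x =
            ∏ x ∈ Finset.univ.erase j0, σ (g x) ^ a x := by
          refine Finset.prod_congr rfl fun x hx => ?_
          rw [Function.update_of_ne (Finset.mem_erase.1 hx).1]
        rw [h4]
        ring
      have h4 : ∑ σ ∈ A, c σ * (∏ ρ ∈ insert ρ U, (σ (J ρ) - ρ (J ρ))) *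
          ∏ j, (σ (g j)) ^ a j =
          ∑ σ ∈ A, c σ * (∏ ρ ∈ U, (σ (J ρ) - ρ (J ρ))) * ∏ j, (σ (g j)) ^ a' j -
          ρ (J ρ) * ∑ σ ∈ A, c σ * (∏ ρ ∈ U, (σ (J ρ) - ρ (J ρ))) *
            ∏ j, (σ (g j)) ^ a j := by
        rw [Finset.mul_sum, ← Finset.sum_sub_distrib]
        refine Finset.sum_congr rfl fun σ _ => ?_
        rw [Finset.prod_insert hρ, h3]
        ring
      rw [h4, h1, h2, mul_zero, sub_zero]
  have hcard : (A.erase σ0).card ≤ M l := by
    rw [Finset.card_erase_of_mem hσ0]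
    omega
  have h1 := key (A.erase σ0) (le_refl _) (fun _ => 0) (fun _ _ => rfl) (by simpa using hcard)
  rw [Finset.sum_eq_single σ0] at h1
  · have h2 : ∏ ρ ∈ A.erase σ0, (σ0 (J ρ) - ρ (J ρ)) ≠ 0 := by
      refine Finset.prod_ne_zero_iff.2 fun ρ hρ => ?_
      have h3 := hJ2 ρ (Finset.mem_erase.1 hρ).1
      exact sub_ne_zero.2 h3.symm
    simp only [pow_zero, Finset.prod_const_one, mul_one] at h1
    exact (mul_eq_zero.1 h1).resolve_right h2
  · intro σ hσ hne
    have h2 : ∏ ρ ∈ A.erase σ0, (σ (J ρ) - ρ (J ρ)) = 0 :=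
      Finset.prod_eq_zero (Finset.mem_erase.2 ⟨hne, hσ⟩) (sub_self _)
    rw [h2, mul_zero, zero_mul]
  · intro h
    exact absurd hσ0 h

end

section

variable {K : Type} [Field K] [Algebra ℂ K] {N p : ℕ} {β : Fin N → Fin p} {t : Fin N → K}
  {L : Type} [Field L] [Algebra ℂ L]
  [Algebra L K] [IsScalarTower ℂ L K] [FiniteDimensional L K]

theorem MF_FB (A : Finset (Fin (p + 1))) (S : Set (Fin N))
    (hS : ∀ j, j ∈ S ↔ (β j).castSucc ∈ A) :
    MF (FB β t) L A = IntermediateField.adjoin L (t '' S) := by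
  apply le_antisymm
  · unfold MF MJ
    rw [IntermediateField.adjoin_le_iff]
    intro z hz
    obtain ⟨i, hi, ⟨f, rfl⟩⟩ := Set.mem_iUnion₂.1 hz
    have h1 : FB β t i ≤ (IntermediateField.adjoin L (t '' S)).restrictScalars ℂ := by
      unfold FB
      rw [IntermediateField.adjoin_le_iff]
      rintro _ ⟨j, hj, rfl⟩
      refine IntermediateField.subset_adjoin L _ ⟨j, (hS j).2 ?_, rfl⟩
      rw [hj]
      exact hi
    exact h1 f.2
  · rw [IntermediateField.adjoin_le_iff]
    rintro _ ⟨j, hj, rfl⟩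
    exact mem_MJ (E := fun i => FB β t i) A ((hS j).1 hj) (⟨t j, mem_FB rfl⟩ : FB β t _)

/-- the number of points over one point of the image of `V` in the product of `W` and of the spaces
with the coordinates in `S` -/
noncomputable def cnt (t : Fin N → K) (L : Type) [Field L] [Algebra L K] (S : Set (Fin N)) : ℕ :=
  finrank (IntermediateField.adjoin L (t '' S)) K

/-- the counting condition -/
def Spread (β : Fin N → Fin p) (t : Fin N → K) (L : Type) [Field L] [Algebra L K]
    (M b : Fin p → ℕ) (c : ℕ) : Prop :=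
  ∀ (s : ℕ) (A : Finset (Fin p)), A.Nonempty → (∀ l ∈ A, b l = s) →
    c * cnt t L {j | b (β j) ≤ s ∧ β j ∉ A} ≤ cnt t L {j | b (β j) ≤ s} * (1 + ∑ l ∈ A, M l)

theorem count_of {M b : Fin p → ℕ} {c : ℕ} (h : Spread β t L M b c) (s : ℕ)
    (B : Finset (Fin (p + 1))) (hB : B ⊆ Finset.univ.erase (Fin.last p)) (hBn : B.Nonempty)
    (hBt : ∀ l ∈ B, (Fin.snoc (α := fun _ => ℕ) b 0 : Fin (p + 1) → ℕ) l = s) :
    c * finrank (MF (FB β t) L (((Finset.univ.erase (Fin.last p)).filter fun l =>
      (Fin.snoc (α := fun _ => ℕ) b 0 : Fin (p + 1) → ℕ) l ≤ s) \ B)) K ≤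
    finrank (MF (FB β t) L ((Finset.univ.erase (Fin.last p)).filter fun l =>
      (Fin.snoc (α := fun _ => ℕ) b 0 : Fin (p + 1) → ℕ) l ≤ s)) K *
      (1 + ∑ l ∈ B, ((Fin.snoc (α := fun _ => ℕ) (fun l => M l + 1) 1 : Fin (p + 1) → ℕ) l - 1)) := by
  obtain ⟨A, hA⟩ : ∃ A : Finset (Fin p), A = Finset.univ.filter fun l => l.castSucc ∈ B :=
    ⟨_, rfl⟩
  have hAB : B = A.map Fin.castSuccEmb := by
    ext i
    rw [Finset.mem_map]
    constructor
    · intro hi
      obtain ⟨l, rfl⟩ := Fin.exists_castSucc_eq.2 (Finset.mem_erase.1 (hB hi)).1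
      exact ⟨l, by rw [hA]; exact Finset.mem_filter.2 ⟨Finset.mem_univ _, hi⟩, rfl⟩
    · rintro ⟨l, hl, rfl⟩
      rw [hA] at hl
      exact (Finset.mem_filter.1 hl).2
  have hAm : ∀ l, l ∈ A ↔ l.castSucc ∈ B := by
    intro l
    rw [hA]
    simp
  have h1 := h s A (by
    obtain ⟨i, hi⟩ := hBn
    rw [hAB] at hi
    obtain ⟨l, hl, -⟩ := Finset.mem_map.1 hi
    exact ⟨l, hl⟩) (fun l hl => by
      have h2 := hBt _ ((hAm l).1 hl)
      rwa [Fin.snoc_castSucc] at h2)
  have h2 : MF (FB β t) L (((Finset.univ.erase (Fin.last p)).filter fun l =>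
      (Fin.snoc (α := fun _ => ℕ) b 0 : Fin (p + 1) → ℕ) l ≤ s) \ B) =
      IntermediateField.adjoin L (t '' {j | b (β j) ≤ s ∧ β j ∉ A}) := by
    refine MF_FB _ _ fun j => ?_
    rw [Finset.mem_sdiff, Finset.mem_filter, Fin.snoc_castSucc, Finset.mem_erase]
    have h3 := Fin.castSucc_ne_last (β j)
    have h4 := hAm (β j)
    simp only [Set.mem_setOf_eq, Finset.mem_univ, and_true]
    tauto
  have h3 : MF (FB β t) L ((Finset.univ.erase (Fin.last p)).filter fun l =>
      (Fin.snoc (α := fun _ => ℕ) b 0 : Fin (p + 1) → ℕ) l ≤ s) =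
      IntermediateField.adjoin L (t '' {j | b (β j) ≤ s}) := by
    refine MF_FB _ _ fun j => ?_
    rw [Finset.mem_filter, Fin.snoc_castSucc, Finset.mem_erase]
    have h3 := Fin.castSucc_ne_last (β j)
    simp only [Set.mem_setOf_eq, Finset.mem_univ, and_true]
    tauto
  have h4 : ∑ l ∈ B, ((Fin.snoc (α := fun _ => ℕ) (fun l => M l + 1) 1 : Fin (p + 1) → ℕ) l - 1) =
      ∑ l ∈ A, M l := by
    rw [hAB, Finset.sum_map]
    refine Finset.sum_congr rfl fun l _ => ?_
    change (Fin.snoc (α := fun _ => ℕ) (fun l => M l + 1) 1 : Fin (p + 1) → ℕ) l.castSucc - 1 = _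
    rw [Fin.snoc_castSucc]
    omega
  rw [h2, h3, h4]
  exact h1

/-- **Traces of forms of positive multidegree.** -/
theorem mg_main [Algebra.EssFiniteType ℂ K] {n : ℕ} (hK : Algebra.trdeg ℂ K = (n : ℕ))
    [hfd : FiniteDimensional (IntermediateField.adjoin ℂ (Set.range t)) K] (M b : Fin p → ℕ)
    {ω : (Fin n → Derivation ℂ K K) → K} (hω : IsPluri 1 ω)
    (hreg : ∀ a : Fin N → ℕ, (∀ l, ∑ j with β j = l, a j ≤ M l) → ∀ P : Place ℂ K,
      Divisorial n P → RegAt P (fun D => (∏ j, t j ^ a j) * ω D))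
    (htn : TraceNe ω ((IntermediateField.adjoin L (Set.range t)).restrictScalars ℂ)) :
    (Spread β t L M b 1 → ∃ η : (Fin n → Derivation ℂ L L) → L, IsPluri 1 η ∧
      (∀ P : Place ℂ L, Divisorial n P → RegAt P η) ∧ ∃ D, η D ≠ 0) ∧
    (Spread β t L M b 2 → CanGe L n n) := by
  have hessL : Algebra.EssFiniteType ℂ L := Pool.Agent.TH466.QG.ess_below (K := K)
  have hL : Algebra.trdeg ℂ L = n := Pool.Agent.Y184.NT.trdeg_below (K := K) hK
  obtain ⟨y, G, hy, hG⟩ := Pool.Agent.Y172.exists_crd (k := ℂ) (K := L) hL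
  choose G' hG' using fun i => Pool.Agent.Y172.exists_lift (k := ℂ) (K := L) (L := K) hL (G i)
  have hyK : IsTranscendenceBasis ℂ (fun j => algebraMap L K (y j)) := hy.algebraMap_comp
  have hGK := Pool.Agent.Y172.lift_dual hG hG'
  obtain ⟨h, hh⟩ : ∃ h, h = ω G' := ⟨_, rfl⟩
  have hne : Algebra.trace (IntermediateField.adjoin L (Set.range t)) K h ≠ 0 := by
    obtain ⟨D, D', hD, htr'⟩ := htn
    obtain ⟨F, hF⟩ : ∃ F : IntermediateField ℂ K,
      F = (IntermediateField.adjoin L (Set.range t)).restrictScalars ℂ := ⟨_, rfl⟩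
    have hLF : ∀ f : L, algebraMap L K f ∈
        (IntermediateField.adjoin L (Set.range t)).restrictScalars ℂ := fun f =>
      (IntermediateField.adjoin L (Set.range t)).algebraMap_mem f
    intro h0
    apply htr'
    have h1 : Algebra.trace ((IntermediateField.adjoin L (Set.range t)).restrictScalars ℂ) K
        h = 0 := by
      have h2 : ((Algebra.trace (IntermediateField.adjoin L (Set.range t)) K h :
          IntermediateField.adjoin L (Set.range t)) : K) = 0 := by
        rw [h0]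
        rfl
      apply Subtype.ext
      exact h2
    obtain ⟨δ, hδ⟩ : ∃ δ : (IntermediateField.adjoin L (Set.range t)).restrictScalars ℂ,
        δ = (Matrix.of fun i j => D i ⟨algebraMap L K (y j), hLF _⟩ :
      Matrix (Fin n) (Fin n) _).det := ⟨_, rfl⟩
    have h2 : ω D' = δ • h := by
      rw [hh, Pool.Agent.Y172.pluri_coord hyK hGK hω D', pow_one, Algebra.smul_def, hδ,
        RingHom.map_det]
      congr 1
      congr 1
      ext i j
      rw [RingHom.mapMatrix_apply, Matrix.map_apply, Matrix.of_apply, Matrix.of_apply]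
      exact hD i ⟨algebraMap L K (y j), hLF _⟩
    rw [h2, map_smul, h1, smul_zero]
  have hT' : IsScalarTower ℂ L (AlgebraicClosure L) := inferInstance
  obtain ⟨τ0⟩ : Nonempty (K →ₐ[L] AlgebraicClosure L) :=
    ⟨IsAlgClosed.lift (R := L) (M := AlgebraicClosure L) (S := K)⟩
  let I := {f : ∀ i, FB β t i // ∀ i, f i ∈ HB β t M i}
  obtain ⟨T, hT⟩ : ∃ T : I → L, ∀ f, T f =
    Algebra.trace L K (h * ∏ i, algebraMap (FB β t i) K (f.1 i)) := ⟨_, fun _ => rfl⟩
  have hTreg : ∀ f, ∀ P : Place ℂ L, Divisorial n P → RegAt P (trForm y (T f)) := by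
    intro f P hP
    obtain ⟨a, ha, hprod⟩ := prod_HB f.1 f.2
    have h1 := Pool.Agent.R882.LT.trForm_regAt (L := K) hL hy hG hG'
      (fun D => (∏ j, t j ^ a j) * ω D) (fun B D => by
        change (∏ j, t j ^ a j) * ω _ = _
        rw [hω B D]
        ring) P hP (fun Q e hQ => hreg a ha Q (Pool.Agent.Y172.divisorial_up hQ hP))
    have h2 : (∏ j, t j ^ a j) * ω G' = h * ∏ i, algebraMap (FB β t i) K (f.1 i) := by
      rw [hprod, hh]
      ring
    rw [hT, ← h2]
    exact h1
  have hθE : ∀ z, trForm y z G = z := by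
    intro z
    have h1 : (Matrix.of fun i j => G i (y j) : Matrix (Fin n) (Fin n) L) = 1 := by
      ext i j
      rw [Matrix.of_apply, hG, Matrix.one_apply]
    rw [trForm, h1, Matrix.det_one, one_mul]
  obtain ⟨s, hs⟩ : ∃ s : Fin (p + 1) → ℕ, s = Fin.snoc (α := fun _ => ℕ) (fun l => M l + 1) 1 :=
    ⟨_, rfl⟩
  have hs1 : ∀ l ∈ Finset.univ.erase (Fin.last p), 1 ≤ s l := by
    intro l hl
    obtain ⟨i, rfl⟩ := Fin.exists_castSucc_eq.2 (Finset.mem_erase.1 hl).1
    rw [hs, Fin.snoc_castSucc]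
    omega
  have hS : ∀ (Ω : Type) [Field Ω] [Algebra ℂ Ω],
      ∀ l ∈ Finset.univ.erase (Fin.last p), Sep (ev Ω (FB β t) l) (HB β t M l) (s l + 1) := by
    intro Ω _ _ l hl
    obtain ⟨i, rfl⟩ := Fin.exists_castSucc_eq.2 (Finset.mem_erase.1 hl).1
    rw [hs, Fin.snoc_castSucc]
    exact sep_HB Ω i
  have hMF : MF (FB β t) L (Finset.univ.erase (Fin.last p)) =
      IntermediateField.adjoin L (Set.range t) := by
    rw [MF_FB (S := Set.univ) _ (fun j => by simp), Set.image_univ]
  have hno : ¬ (∀ f : ∀ i, FB β t i, f (Fin.last p) ∈ HB β t M (Fin.last p) →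
      Algebra.trace (MF (FB β t) L (Finset.univ.erase (Fin.last p))) K
        (h * ∏ i, algebraMap (FB β t i) K (f i)) = 0) := by
    intro h0
    have h1 := h0 (fun _ => 1) (one_HB _)
    simp only [map_one, Finset.prod_const_one, mul_one] at h1
    rw [hMF] at h1
    exact hne h1
  have hex : Spread β t L M b 1 → ∃ f, T f ≠ 0 := by
    intro hcount
    by_contra hT0
    push Not at hT0
    have h0 := Ch.rel_zero (F := FB β t) (H := HB β t M) (h := h) (fun f hf => by
      have := hT0 ⟨f, hf⟩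
      rwa [hT] at this) τ0
    have h1 := rl_one τ0 (Finset.univ.erase (Fin.last p)) s
      (Fin.snoc (α := fun _ => ℕ) b 0 : Fin (p + 1) → ℕ) hs1 (hS (AlgebraicClosure L))
      (fun t B hB hBn hBt => by
        have h2 := count_of hcount t B hB hBn hBt
        rw [one_mul] at h2
        rw [hs]
        exact h2) h0
    exact hno fun f hf => Ch.rel_erase h1 f hf
  refine ⟨fun hcount => ?_, fun hcount => ?_⟩
  · obtain ⟨f, hf⟩ := hex hcount
    refine ⟨trForm y (T f), trForm_pluri y _, hTreg f, G, ?_⟩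
    rw [hθE]
    exact hf
  · obtain ⟨f1, hf1⟩ := hex (fun s A hA hAs =>
      le_trans (Nat.mul_le_mul_right _ one_le_two) (hcount s A hA hAs))
    obtain ⟨Ω', iF, iA, iC, i1, i2, lam, hlam, hlamT, hpts⟩ := exists_pts T (f1 := f1) hf1
    have h0 : Rl (P2 i1 i2 (FB β t) L) (ev Ω' (FB β t)) (HB β t M) (C2 i1 i2 h lam)
        (Sum.inl τ0) ∅ :=
      Ch.rel2_zero i1 i2 (fun f hf => by
        have := hlamT ⟨f, hf⟩
        rw [hT] at this
        exact this) _
    have h1 := rl_two i1 i2 τ0 (Finset.univ.erase (Fin.last p)) s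
      (Fin.snoc (α := fun _ => ℕ) b 0 : Fin (p + 1) → ℕ) hs1 (hS Ω')
      (fun t B hB hBn hBt => by
        have h2 := count_of hcount t B hB hBn hBt
        rw [hs]
        exact h2) h0
    obtain ⟨τ, hτ⟩ := (Ch.rel2_erase i1 i2 hlam h1).resolve_right hno
    have htalg : ∀ j, IsAlgebraic (Rt T) (t j) := fun j =>
      alg_back τ0 (hpts _ _ (hτ (β j).castSucc (Fin.castSucc_ne_last _)
        (⟨t j, mem_FB rfl⟩ : FB β t _)).symm)
    have hE : IntermediateField.adjoin ℂ (Set.range t) ≤
        (algebraicClosure (Rt T) K).restrictScalars ℂ := by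
      rw [IntermediateField.adjoin_le_iff]
      rintro _ ⟨j, rfl⟩
      change t j ∈ (algebraicClosure (Rt T) K).restrictScalars ℂ
      rw [mem_restrictScalars, mem_algebraicClosure_iff]
      exact htalg j
    have hall : ∀ z : K, IsAlgebraic (Rt T) z := by
      intro z
      have h2 : IsAlgebraic (IntermediateField.adjoin ℂ (Set.range t)) z :=
        (Algebra.IsIntegral.isIntegral z).isAlgebraic
      obtain ⟨q, hq0, hq⟩ := h2
      let φ : IntermediateField.adjoin ℂ (Set.range t) →+* algebraicClosure (Rt T) K :=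
        { toFun := fun c => ⟨c, hE c.2⟩
          map_one' := rfl
          map_mul' := fun _ _ => rfl
          map_zero' := rfl
          map_add' := fun _ _ => rfl }
      have h3 : IsAlgebraic (algebraicClosure (Rt T) K) z := by
        refine ⟨q.map φ, (Polynomial.map_ne_zero_iff φ.injective).2 hq0, ?_⟩
        rw [Polynomial.aeval_def, Polynomial.eval₂_map]
        exact hq
      have h4 : Algebra.IsAlgebraic (Rt T) (algebraicClosure (Rt T) K) := inferInstance
      exact IsAlgebraic.restrictScalars (Rt T) h3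
    obtain ⟨z, D, hz, hD⟩ := Pool.Agent.Y172.exists_crd (k := ℂ) (K := K) hK
    exact canGe_of_alg hL hG T ⟨f1, hf1⟩ hTreg (x := z) (trdeg_adj hz.1) fun j => hall _

end

end Pool.Agent.V7H74.MG
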