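import Pool.Agent.V7H74.MgT
import Pool.Agent.R882.HL

/-!
Images of towers of smooth complete intersections in products of projective lines: the counting
condition for the coordinates. Some steps follow the proofs in `R882/CDet` and `R882/HL`.
-/

set_option autoImplicit false
set_option linter.overlappingInstances false
set_option linter.unusedSectionVars false
set_option linter.unusedVariables false
set_option maxHeartbeats 4000000
set_option synthInstance.maxHeartbeats 400000

open FF Module MvPolynomial IntermediateField Pool.Agent Pool.Agent.W602.GT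
open Pool.Agent.W619.PQ (IsUniruled)
open Pool.Agent.R882.LT (TraceNe)
open Pool.Agent.R882.CI (cmat exists_form deg_le ci_reg cmat_pluri adjoin_top fin_of_alg Smooth)
open Pool.Agent.R882.HT (GenusZero Descends)
open Pool.Agent.R882.HL (IsSmooth IsGenericPoint)

namespace Pool.Agent.V7H74.MG

section

variable {K : Type} [Field K] [Algebra ℂ K] {n : ℕ}
  {κ : Type} [Fintype κ] [DecidableEq κ] {ι : Type} [Fintype ι] [DecidableEq ι]

/-- **Forms with nonzero traces.** -/
theorem detectsM [Algebra.EssFiniteType ℂ K] (hK : Algebra.trdeg ℂ K = n) {d : κ → ι → ℕ}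
    {m : ι → ℕ} (hm : ∀ i, ∑ k, d k i = m i + 2) {i0 : ι}
    {F : κ → MvPolynomial ι ℂ}
    (hF : ∀ k i, (F k).degreeOf i ≤ d k i) (hs : Smooth d F)
    (hcard : Fintype.card ι = n + Fintype.card κ) {x : ι → K} (hx : ∀ k, aeval x (F k) = 0)
    (hgen : IntermediateField.adjoin ℂ (Set.range x) = ⊤)
    (halg : IsAlgebraic (IntermediateField.adjoin ℂ (x '' {i0}ᶜ)) (x i0))
    (F' : IntermediateField ℂ K) (hF' : IntermediateField.adjoin ℂ (x '' {i0}ᶜ) < F') :
    ∃ ω : (Fin n → Derivation ℂ K K) → K, IsPluri 1 ω ∧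
      (∀ a : ι → ℕ, (∀ i, i ≠ i0 → a i ≤ m i) → a i0 = 0 → ∀ P : Place ℂ K,
        Divisorial n P → RegAt P (fun D => (∏ i, x i ^ a i) * ω D)) ∧ TraceNe ω F' := by
  classical
  have hxE : ∀ j, j ≠ i0 → x j ∈ IntermediateField.adjoin ℂ (x '' {i0}ᶜ) := fun j hj =>
    IntermediateField.subset_adjoin ℂ _ ⟨j, hj, rfl⟩
  have hxF : ∀ j, j ≠ i0 → x j ∈ F' := fun j hj => hF'.le (hxE j hj)
  have hfin : FiniteDimensional (IntermediateField.adjoin ℂ (x '' {i0}ᶜ)) K :=
    fin_of_alg hgen hxE halg
  have halgF : IsAlgebraic F' (x i0) := by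
    obtain ⟨p, hp0, hp⟩ := halg
    refine ⟨p.map (IntermediateField.inclusion hF'.le).toRingHom, ?_, ?_⟩
    · exact (Polynomial.map_ne_zero_iff (IntermediateField.inclusion hF'.le).injective).2 hp0
    · rw [Polynomial.aeval_def, Polynomial.eval₂_map]
      rw [Polynomial.aeval_def] at hp
      exact hp
  have hfinF : FiniteDimensional F' K := fin_of_alg hgen hxF halgF
  obtain ⟨e, C, hC, hdet⟩ := exists_form hs hcard hx hgen
  have hchar : CharZero F' := charZero_of_injective_algebraMap (algebraMap ℂ F').injective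
  have htrF : Algebra.trdeg ℂ F' = n := Pool.Agent.Y184.NT.trdeg_below (K := K) hK
  have hessF : Algebra.EssFiniteType ℂ F' := Pool.Agent.TH466.QG.ess_below (K := K)
  obtain ⟨z, D, hz, hD⟩ := Pool.Agent.Y172.exists_crd (k := ℂ) (K := F') htrF
  choose D' hD' using fun i => Pool.Agent.Y172.exists_lift (k := ℂ) (K := F') (L := K) htrF (D i)
  have hne := hdet D' (Pool.Agent.Y184.NT.lift_ind hD hD')
  -- the degree
  have hdeg : Module.finrank F' K ≤ m i0 + 1 := by
    obtain ⟨k0, hk0⟩ := deg_le hx hC hgen hne halg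
    have h2 := hF k0 i0
    have h3 : d k0 i0 ≤ ∑ k, d k i0 := Finset.single_le_sum (f := fun k => d k i0)
      (fun _ _ => Nat.zero_le _) (Finset.mem_univ k0)
    have h4 := hm i0
    obtain ⟨q, hq⟩ := IntermediateField.finrank_dvd_of_le_left hF'.le
    have hpos : 0 < Module.finrank (IntermediateField.adjoin ℂ (x '' {i0}ᶜ)) K :=
      Module.finrank_pos
    have hq1 : q ≠ 1 := by
      intro h1
      rw [h1, mul_one] at hq
      exact hF'.ne (IntermediateField.eq_of_le_of_finrank_eq' hF'.le hq)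
    have hq0 : q ≠ 0 := by
      intro h1
      rw [h1, mul_zero] at hq
      omega
    have h5 : Module.finrank F' K * 2 ≤ Module.finrank F' K * q :=
      Nat.mul_le_mul_left _ (by omega)
    have h6 : 0 < Module.finrank F' K := Module.finrank_pos
    omega
  obtain ⟨a0, ha0, hta⟩ : ∃ a < Module.finrank F' K, Algebra.trace F' K
      (x i0 ^ a * (cmat e C fun j i => D' j (x i)).det) ≠ 0 := by
    by_contra hcon
    push Not at hcon
    exact hne (Pool.Agent.R882.WR.powers_zero (adjoin_top hgen hxF) hcon)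
  refine ⟨fun D => x i0 ^ a0 * (cmat e C fun j i => D j (x i)).det, ?_, fun a ha hai P _ => ?_,
    D, D', hD', hta⟩
  · intro A D
    change x i0 ^ a0 * _ = _
    have h1 := cmat_pluri e C x A D
    simp only at h1
    rw [h1]
    ring
  · have h1 := ci_reg hF hs e hx hC (a := Function.update a i0 a0) (fun i => by
      rw [hm i]
      by_cases hi : i = i0
      · rw [hi, Function.update_self]
        omega
      · rw [Function.update_of_ne hi]
        have h2 := ha i hi
        omega) P
    have h2 : (fun D : Fin n → Derivation ℂ K K => (∏ i, x i ^ a i) *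
        (x i0 ^ a0 * (cmat e C fun j i => D j (x i)).det)) =
        fun D => (∏ i, x i ^ Function.update a i0 a0 i) *
          (cmat e C fun j i => D j (x i)).det := by
      funext D
      rw [← Finset.mul_prod_erase _ _ (Finset.mem_univ i0),
        ← Finset.mul_prod_erase _ (fun i => x i ^ Function.update a i0 a0 i)
          (Finset.mem_univ i0), Function.update_self, hai, pow_zero, one_mul]
      have h3 : ∏ i ∈ Finset.univ.erase i0, x i ^ Function.update a i0 a0 i =
          ∏ i ∈ Finset.univ.erase i0, x i ^ a i := by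
        refine Finset.prod_congr rfl fun i hi => ?_
        rw [Function.update_of_ne (Finset.mem_erase.1 hi).1]
      rw [h3]
      ring
    rw [h2]
    exact h1

/-- the last coordinate is algebraic over the others -/
theorem lines_alg (hcard : Fintype.card ι = n + Fintype.card κ) {d : κ → ι → ℕ} {m : ι → ℕ}
    (hm : ∀ i, ∑ k, d k i = m i + 2) (i0 : ι)
    {F : κ → MvPolynomial ι ℂ} (hF : ∀ k i, (F k).degreeOf i ≤ d k i) (hs : IsSmooth d F)
    {x : ι → K} (hx : IsGenericPoint n F x) :
    IsAlgebraic (IntermediateField.adjoin ℂ (x '' {i0}ᶜ)) (x i0) := by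
  classical
  have hessK : Algebra.EssFiniteType ℂ K := by
    rw [← IntermediateField.fg_top_iff]
    exact ⟨Finset.univ.image x, by
      rw [Finset.coe_image, Finset.coe_univ, Set.image_univ, hx.gen]⟩
  have hxE : ∀ j, j ≠ i0 → x j ∈ IntermediateField.adjoin ℂ (x '' {i0}ᶜ) := fun j hj =>
    IntermediateField.subset_adjoin ℂ _ ⟨j, hj, rfl⟩
  by_contra htr
  have hR : Ruled ℂ K := ⟨IntermediateField.adjoin ℂ (x '' {i0}ᶜ), x i0, htr,
    Pool.Agent.R882.CI.adjoin_top hx.gen hxE⟩
  have h1 : IsUniruled ℂ K n := Pool.Agent.TH466.QG.uniruled_below (F := K) (K := K) hx.dim hR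
  apply (Pool.Agent.W619.Y.uniruled_neg n hx.dim h1).1
  rw [← Pool.Agent.TH466.QG.psef_iff n]
  obtain ⟨e, C, hC, hdet⟩ := Pool.Agent.R882.CI.exists_form hs hcard hx.zero hx.gen
  obtain ⟨z, D, hz, hD⟩ := Pool.Agent.Y172.exists_crd (k := ℂ) (K := K) hx.dim
  have hne := hdet D (Pool.Agent.Y184.NT.lift_ind (L := K) (K := K) hD fun _ _ => rfl)
  have hreg0 : ∀ P : Place ℂ K, RegAt P (fun D : Fin n → Derivation ℂ K K =>
      (Pool.Agent.R882.CI.cmat e C fun j i => D j (x i)).det) := by
    intro P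
    have h2 := Pool.Agent.R882.CI.ci_reg hF hs e hx.zero hC (a := fun _ => 0) (fun i => by
      rw [hm i]
      omega) P
    simpa using h2
  have hk : KodGe ℂ K n (fun _ => False) 0 :=
    ⟨1, one_pos, fun _ => fun D =>
      (Pool.Agent.R882.CI.cmat e C fun j i => D j (x i)).det, fun _ =>
      ⟨Pool.Agent.R882.CI.cmat_pluri e C x, fun P hP D' hD' => hreg0 P D' fun i =>
      Pool.Agent.TH466.QG.derReg_of_log (hD' i), fun P _ _ => hreg0 P⟩, D, hne,
      algebraicIndependent_empty_type⟩
  exact psef_of_kodGe hk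

end

/-- **The counting condition for the coordinates.** Here `cnt x L S` is the number of the points
of the general fibre of `V ⇢ W` with the same coordinates in `S` as a given point. -/
def SpreadC {ι K : Type} [Field K] [Algebra ℂ K] (x : ι → K) (L : Type) [Field L] [Algebra L K]
    (i0 : ι) (m b : ι → ℕ) (c : ℕ) : Prop :=
  ∀ (s : ℕ) (A : Finset ι), A.Nonempty → i0 ∉ A → (∀ i ∈ A, b i = s) →
    c * finrank (IntermediateField.adjoin L (x '' {i | i ≠ i0 ∧ b i ≤ s ∧ i ∉ A})) K ≤
      finrank (IntermediateField.adjoin L (x '' {i | i ≠ i0 ∧ b i ≤ s})) K * (1 + ∑ i ∈ A, m i)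

theorem spread_of {ι K : Type} [Field K] [Algebra ℂ K] {x : ι → K} {L : Type}
    [Field L] [Algebra L K] {i0 : ι} {m b : ι → ℕ} {c : ℕ} (h : SpreadC x L i0 m b c) {N : ℕ}
    (σ : Fin N ≃ {j // j ≠ i0}) :
    Spread (p := N) id (fun a => x (σ a)) L (fun a => m (σ a)) (fun a => b (σ a)) c := by
  classical
  intro s A hA hAs
  obtain ⟨A', hA'⟩ : ∃ A' : Finset ι, A' = A.image fun a => (σ a : ι) := ⟨_, rfl⟩
  have hinj : Function.Injective fun a => (σ a : ι) :=
    Subtype.val_injective.comp σ.injective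
  have h1 := h s A' (by rw [hA']; exact hA.image _) (by
    rw [hA']
    intro h2
    obtain ⟨a, -, ha⟩ := Finset.mem_image.1 h2
    exact (σ a).2 ha) (by
    rw [hA']
    intro i hi
    obtain ⟨a, ha, rfl⟩ := Finset.mem_image.1 hi
    exact hAs a ha)
  have h2 : (fun a => x (σ a)) '' {a | b (σ (id a)) ≤ s ∧ id a ∉ A} =
      x '' {i | i ≠ i0 ∧ b i ≤ s ∧ i ∉ A'} := by
    ext z
    constructor
    · rintro ⟨a, ⟨ha1, ha2⟩, rfl⟩
      refine ⟨σ a, ⟨(σ a).2, ha1, fun h3 => ?_⟩, rfl⟩
      rw [hA'] at h3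
      obtain ⟨a', ha', h4⟩ := Finset.mem_image.1 h3
      rw [hinj h4] at ha'
      exact ha2 ha'
    · rintro ⟨i, ⟨hi1, hi2, hi3⟩, rfl⟩
      refine ⟨σ.symm ⟨i, hi1⟩, ⟨?_, fun h3 => hi3 ?_⟩, ?_⟩
      · change b (σ (σ.symm ⟨i, hi1⟩)) ≤ s
        rw [Equiv.apply_symm_apply]
        exact hi2
      · rw [hA']
        exact Finset.mem_image.2 ⟨_, h3, by simp⟩
      · change x (σ (σ.symm ⟨i, hi1⟩)) = x i
        rw [Equiv.apply_symm_apply]
  have h3 : (fun a => x (σ a)) '' {a | b (σ (id a)) ≤ s} =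
      x '' {i | i ≠ i0 ∧ b i ≤ s} := by
    ext z
    constructor
    · rintro ⟨a, ha1, rfl⟩
      exact ⟨σ a, ⟨(σ a).2, ha1⟩, rfl⟩
    · rintro ⟨i, ⟨hi1, hi2⟩, rfl⟩
      refine ⟨σ.symm ⟨i, hi1⟩, ?_, ?_⟩
      · change b (σ (σ.symm ⟨i, hi1⟩)) ≤ s
        rw [Equiv.apply_symm_apply]
        exact hi2
      · change x (σ (σ.symm ⟨i, hi1⟩)) = x i
        rw [Equiv.apply_symm_apply]
  have h4 : ∑ i ∈ A', m i = ∑ a ∈ A, m (σ a) := by
    rw [hA', Finset.sum_image fun a _ b _ h => hinj h]
  unfold cnt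
  rw [h2, h3, ← h4]
  exact h1

/-- `x` is the generic point, and `K` the function field, of a component of a smooth complete
intersection of hypersurfaces of multidegrees `d k` in a product of projective lines, with canonical
divisor `O(m i)`. -/
structure LinesVariety {K : Type} [Field K] [Algebra ℂ K] (n : ℕ) {q : ℕ}
    (F : Fin q → MvPolynomial (Fin (n + q)) ℂ) (d : Fin q → Fin (n + q) → ℕ)
    (m : Fin (n + q) → ℕ) (x : Fin (n + q) → K) : Prop where
  deg : ∀ k i, (F k).degreeOf i ≤ d k i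
  canonical : ∀ i, ∑ k, d k i = m i + 2
  smooth : IsSmooth d F
  point : IsGenericPoint n F x

/-- If `V ⇢ X` does not factor through the projection which forgets `x i0` then there is an order of
the other coordinates with the counting condition. -/
def SpreadsFibresC {K : Type} [Field K] [Algebra ℂ K] (L : Type) [Field L] [Algebra L K]
    {N : ℕ} (x : Fin N → K) (i0 : Fin N) (m : Fin N → ℕ) (c : ℕ) : Prop :=
  finrank (IntermediateField.adjoin L (x '' {i0}ᶜ)) K <
    finrank (IntermediateField.adjoin ℂ (x '' {i0}ᶜ)) K → ∃ b : Fin N → ℕ, SpreadC x L i0 m b c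

/-- **Towers of smooth complete intersections in products of projective lines with the counting
condition for an image.** -/
inductive SpreadLines (n : ℕ) (Base : ∀ (K : Type) [Field K] [Algebra ℂ K], Prop) (c : ℕ) :
    ∀ (K : Type) [Field K] [Algebra ℂ K] (L : Type) [Field L] [Algebra ℂ L] [Algebra L K]
      [IsScalarTower ℂ L K], Prop
  | base {K : Type} [Field K] [Algebra ℂ K] {L : Type} [Field L] [Algebra ℂ L] [Algebra L K]
      [IsScalarTower ℂ L K] (h : Base K) : SpreadLines n Base c K L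
  | cover {K : Type} [Field K] [Algebra ℂ K] {L : Type} [Field L] [Algebra ℂ L] [Algebra L K]
      [IsScalarTower ℂ L K] {q : ℕ} {F : Fin q → MvPolynomial (Fin (n + q)) ℂ}
      {d : Fin q → Fin (n + q) → ℕ} {m : Fin (n + q) → ℕ} {x : Fin (n + q) → K}
      (variety : LinesVariety n F d m x) (i0 : Fin (n + q))
      (positive : SpreadsFibresC L x i0 m c)
      (below : ∀ (_ : Algebra L (IntermediateField.adjoin ℂ (x '' {i0}ᶜ)))
        (_ : IsScalarTower ℂ L (IntermediateField.adjoin ℂ (x '' {i0}ᶜ)))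
        (_ : IsScalarTower L (IntermediateField.adjoin ℂ (x '' {i0}ᶜ)) K),
        SpreadLines n Base c (IntermediateField.adjoin ℂ (x '' {i0}ᶜ)) L) :
      SpreadLines n Base c K L

theorem lines_fin {n : ℕ} {K : Type} [Field K] [Algebra ℂ K]
    {q : ℕ} (F : Fin q → MvPolynomial (Fin (n + q)) ℂ)
    (d : Fin q → Fin (n + q) → ℕ) (deg : ∀ k i, (F k).degreeOf i ≤ d k i)
    (m : Fin (n + q) → ℕ) (canonical : ∀ i, ∑ k, d k i = m i + 2) (smooth : IsSmooth d F)
    (x : Fin (n + q) → K) (point : IsGenericPoint n F x) (i0 : Fin (n + q)) :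
    FiniteDimensional (IntermediateField.adjoin ℂ (x '' {i0}ᶜ)) K := by
  have hcard : Fintype.card (Fin (n + q)) = n + Fintype.card (Fin q) := by simp
  exact fin_of_alg point.gen (fun j hj => IntermediateField.subset_adjoin ℂ _ ⟨j, hj, rfl⟩)
    (lines_alg hcard canonical i0 deg smooth point)

/-- one step -/
theorem lines_step {n : ℕ} {c : ℕ} {K : Type} [Field K] [Algebra ℂ K] {L : Type}
    [Field L] [Algebra ℂ L] [Algebra L K] [IsScalarTower ℂ L K] [FiniteDimensional L K]
    {q : ℕ} (F : Fin q → MvPolynomial (Fin (n + q)) ℂ)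
    (d : Fin q → Fin (n + q) → ℕ) (deg : ∀ k i, (F k).degreeOf i ≤ d k i)
    (m : Fin (n + q) → ℕ) (canonical : ∀ i, ∑ k, d k i = m i + 2) (smooth : IsSmooth d F)
    (x : Fin (n + q) → K) (point : IsGenericPoint n F x) (i0 : Fin (n + q))
    (positive : finrank (IntermediateField.adjoin L (x '' {i0}ᶜ)) K <
        finrank (IntermediateField.adjoin ℂ (x '' {i0}ᶜ)) K →
      ∃ b : Fin (n + q) → ℕ, SpreadC x L i0 m b c) :
    (c = 1 → GenusZero L n →
      ∀ g : L, algebraMap L K g ∈ IntermediateField.adjoin ℂ (x '' {i0}ᶜ)) ∧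
    (c = 2 → ¬ N145.SX.CanGe L n n →
      ∀ g : L, algebraMap L K g ∈ IntermediateField.adjoin ℂ (x '' {i0}ᶜ)) := by
  classical
  have hK := point.dim
  have hess : Algebra.EssFiniteType ℂ K := by
    rw [← IntermediateField.fg_top_iff]
    exact ⟨Finset.univ.image x, by
      rw [Finset.coe_image, Finset.coe_univ, Set.image_univ, point.gen]⟩
  have hL : Algebra.trdeg ℂ L = (n : ℕ) := Pool.Agent.Y184.NT.trdeg_below (K := K) hK
  have hcard : Fintype.card (Fin (n + q)) = n + Fintype.card (Fin q) := by simp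
  have halg := lines_alg hcard canonical i0 deg smooth point
  have hxE : ∀ j, j ≠ i0 → x j ∈ IntermediateField.adjoin ℂ (x '' {i0}ᶜ) := fun j hj =>
    IntermediateField.subset_adjoin ℂ _ ⟨j, hj, rfl⟩
  have hfin : FiniteDimensional (IntermediateField.adjoin ℂ (x '' {i0}ᶜ)) K :=
    fin_of_alg point.gen hxE halg
  have hle : IntermediateField.adjoin ℂ (x '' {i0}ᶜ) ≤
      (IntermediateField.adjoin L (x '' {i0}ᶜ)).restrictScalars ℂ := by
    rw [IntermediateField.adjoin_le_iff]
    exact IntermediateField.subset_adjoin L _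
  by_cases hlt : finrank (IntermediateField.adjoin L (x '' {i0}ᶜ)) K <
        finrank (IntermediateField.adjoin ℂ (x '' {i0}ᶜ)) K
  · obtain ⟨b, hS⟩ := positive hlt
    have hfdF : FiniteDimensional
        ((IntermediateField.adjoin L (x '' {i0}ᶜ)).restrictScalars ℂ) K :=
      inferInstanceAs (FiniteDimensional (IntermediateField.adjoin L (x '' {i0}ᶜ)) K)
    have hltF : IntermediateField.adjoin ℂ (x '' {i0}ᶜ) <
        (IntermediateField.adjoin L (x '' {i0}ᶜ)).restrictScalars ℂ := by
      refine lt_of_le_of_ne hle fun h => ?_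
      have h1 : finrank (IntermediateField.adjoin ℂ (x '' {i0}ᶜ)) K =
          finrank ((IntermediateField.adjoin L (x '' {i0}ᶜ)).restrictScalars ℂ) K := by
        rw [h]
      have h2 : finrank ((IntermediateField.adjoin L (x '' {i0}ᶜ)).restrictScalars ℂ) K =
        finrank (IntermediateField.adjoin L (x '' {i0}ᶜ)) K := rfl
      omega
    obtain ⟨ω, h1, h2, h3⟩ := detectsM hK canonical deg smooth hcard point.zero point.gen halg
      _ hltF
    obtain ⟨σ⟩ : Nonempty (Fin (Fintype.card {j : Fin (n + q) // j ≠ i0}) ≃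
      {j : Fin (n + q) // j ≠ i0}) := ⟨(Fintype.equivFin _).symm⟩
    have hS' := spread_of hS σ
    have hrange : Set.range (fun a => x (σ a)) = x '' {i0}ᶜ := by
      ext z
      constructor
      · rintro ⟨a, rfl⟩
        exact ⟨_, (σ a).2, rfl⟩
      · rintro ⟨j, hj, rfl⟩
        exact ⟨σ.symm ⟨j, hj⟩, by simp⟩
    have hfd' : FiniteDimensional
        (IntermediateField.adjoin ℂ (Set.range fun a => x (σ a))) K := by
      rw [hrange]
      exact hfin
    obtain ⟨h4, h5⟩ := mg_main (L := L) (β := id) (t := fun a => x (σ a)) hK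
      (fun a => m (σ a)) (fun a => b (σ a)) h1 (fun a ha P hP => by
        have h6 := h2 (fun i => if h : i ≠ i0 then a (σ.symm ⟨i, h⟩) else 0) (fun i hi => by
          rw [dif_pos hi]
          have h7 := ha (σ.symm ⟨i, hi⟩)
          rw [Finset.sum_filter] at h7
          simpa using h7) (by simp) P hP
        have h8 : ∏ i, x i ^ (if h : i ≠ i0 then a (σ.symm ⟨i, h⟩) else 0) =
            ∏ j, x (σ j) ^ a j := by
          rw [Fintype.prod_eq_mul_prod_subtype_ne _ i0]
          rw [← σ.prod_comp]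
          simp
          refine Finset.prod_congr rfl fun b _ => ?_
          rw [if_neg (σ b).2]
        rw [h8] at h6
        exact h6) (by rw [hrange]; exact h3)
    refine ⟨fun hc hg => ?_, fun hc hg => ?_⟩
    · exfalso
      rw [hc] at hS'
      obtain ⟨η, h6, h7, D, h8⟩ := h4 hS'
      exact h8 (hg η h6 h7 D)
    · exfalso
      rw [hc] at hS'
      exact hg (h5 hS')
  · have hEF : IntermediateField.adjoin ℂ (x '' {i0}ᶜ) =
        (IntermediateField.adjoin L (x '' {i0}ᶜ)).restrictScalars ℂ :=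
      IntermediateField.eq_of_le_of_finrank_le' hle (not_lt.1 hlt)
    have hfac : ∀ g : L, algebraMap L K g ∈ IntermediateField.adjoin ℂ (x '' {i0}ᶜ) := by
      intro g
      rw [hEF]
      exact (IntermediateField.adjoin L (x '' {i0}ᶜ)).algebraMap_mem g
    exact ⟨fun _ _ => hfac, fun _ _ => hfac⟩

theorem lines_aux {n : ℕ} {Base : ∀ (K : Type) [Field K] [Algebra ℂ K], Prop}
    (hB : Descends Base) {c : ℕ} {K : Type} [i1 : Field K] [i2 : Algebra ℂ K] {L : Type}
    [i3 : Field L] [i4 : Algebra ℂ L] [i5 : Algebra L K] [i6 : IsScalarTower ℂ L K]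
    (h : SpreadLines n Base c K L) : Algebra.trdeg ℂ K = (n : ℕ) → FiniteDimensional L K →
      (c = 1 → GenusZero L n → Base L) ∧ (c = 2 → ¬ N145.SX.CanGe L n n → Base L) := by
  classical
  induction h with
  | @base K _ _ L _ _ _ _ h =>
    intro _ _
    exact ⟨fun _ _ => hB K L h, fun _ _ => hB K L h⟩
  | @cover K _ _ L _ _ _ _ q F d m x hV i0 positive below ih =>
    intro hK hfd
    obtain ⟨h1, h2⟩ := lines_step (c := c) F d hV.deg m hV.canonical hV.smooth x hV.point i0
      positive
    have hfin := lines_fin F d hV.deg m hV.canonical hV.smooth x hV.point i0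
    refine ⟨fun hc hg => ?_, fun hc hg => ?_⟩
    · obtain ⟨j1, j2, j3, j4⟩ := factor_alg' L (h1 hc hg)
      exact (ih j1 j2 j3 (Pool.Agent.Y184.NT.trdeg_below (K := K) hK) j4).1 hc hg
    · obtain ⟨j1, j2, j3, j4⟩ := factor_alg' L (h2 hc hg)
      exact (ih j1 j2 j3 (Pool.Agent.Y184.NT.trdeg_below (K := K) hK) j4).2 hc hg

/-- **The dichotomy.** -/
theorem dichotomy_lines {n : ℕ} {Base : ∀ (K : Type) [Field K] [Algebra ℂ K], Prop}
    (hB : Descends Base) {K : Type} [Field K] [Algebra ℂ K] (hK : Algebra.trdeg ℂ K = (n : ℕ))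
    (L : Type) [Field L] [Algebra ℂ L] [Algebra L K] [IsScalarTower ℂ L K]
    [FiniteDimensional L K] :
    (SpreadLines n Base 1 K L → GenusZero L n → Base L) ∧
    (SpreadLines n Base 2 K L → N145.SX.CanGe L n n ∨ Base L) :=
  ⟨fun h => (lines_aux hB h hK inferInstance).1 rfl, fun h => by
    by_cases hg : N145.SX.CanGe L n n
    · exact Or.inl hg
    · exact Or.inr ((lines_aux hB h hK inferInstance).2 rfl hg)⟩

end Pool.Agent.V7H74.MG
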