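import Pool.Agent.V7H74.MgL
import Pool.Agent.R882.HQ
import Pool.Agent.TH466.QT.Main
import Pool.Agent.TH466.QT.Den
import Pool.Agent.R882.CSpec
import Pool.Agent.R882.HYM

/-!
Consequences of the dichotomy for images of towers with the counting condition: sharp fibres, maps of
prime degree, hypersurfaces.
-/

set_option autoImplicit false
set_option linter.overlappingInstances false
set_option linter.unusedSectionVars false
set_option linter.unusedVariables false
set_option maxHeartbeats 4000000
set_option synthInstance.maxHeartbeats 400000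

open FF Module MvPolynomial IntermediateField Pool.Agent Pool.Agent.W602.GT
open Pool.Agent.W619.PQ (IsUniruled)
open Pool.Agent.W619.TW (IsUnirational)
open Pool.Agent.R882.HT (GenusZero Descends Nondegenerate IsTorusPoint)
open Pool.Agent.R882.HL (IsSmooth IsGenericPoint)

namespace Pool.Agent.V7H74.MG

/-- varieties with generically finite canonical map are of general type -/
theorem gt_of_can {L : Type} [Field L] [Algebra ℂ L] {n : ℕ} (hL : Algebra.trdeg ℂ L = n)
    (h : N145.SX.CanGe L n n) : GeneralType ℂ L n :=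
  (N145.SX.kodGe_iff hL).1 (N145.SX.kodGe_of_canGe h)

/-- in an extension of prime degree, each element outside the base generates -/
theorem adjoin_of_prime {L K : Type} [Field L] [Field K] [Algebra L K] [FiniteDimensional L K]
    (hp : (finrank L K).Prime) {z : K} (hz : ∀ g : L, algebraMap L K g ≠ z) :
    IntermediateField.adjoin L {z} = ⊤ := by
  have h1 : finrank L (IntermediateField.adjoin L {z}) *
      finrank (IntermediateField.adjoin L {z}) K = finrank L K := finrank_mul_finrank _ _ _
  have h2 : finrank (IntermediateField.adjoin L {z}) K ∣ finrank L K := ⟨_, by rw [← h1, mul_comm]⟩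
  rcases (Nat.dvd_prime hp).1 h2 with h3 | h3
  · exact IntermediateField.finrank_eq_one_iff_eq_top.1 h3
  · exfalso
    have h4 : finrank L (IntermediateField.adjoin L {z}) = 1 := by
      rw [h3] at h1
      exact Nat.eq_of_mul_eq_mul_right hp.pos (by rw [h1, one_mul])
    have h5 := IntermediateField.finrank_eq_one_iff.1 h4
    have h6 : z ∈ (⊥ : IntermediateField L K) := by
      rw [← h5]
      exact IntermediateField.mem_adjoin_simple_self L z
    obtain ⟨g, hg⟩ := IntermediateField.mem_bot.1 h6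
    exact hz g hg

theorem adjoin_bot {L K ι : Type} [Field L] [Field K] [Algebra L K] {x : ι → K} {S : Set ι}
    (h : ∀ i ∈ S, ∃ g : L, algebraMap L K g = x i) : IntermediateField.adjoin L (x '' S) = ⊥ := by
  rw [eq_bot_iff, IntermediateField.adjoin_le_iff]
  rintro _ ⟨i, hi, rfl⟩
  obtain ⟨g, hg⟩ := h i hi
  exact IntermediateField.mem_bot.2 ⟨g, hg⟩

theorem adjoin_sup {L K ι : Type} [Field L] [Field K] [Algebra L K] {x : ι → K} {S T : Set ι}
    {E : IntermediateField L K} (hT : T ⊆ S) (hE : IntermediateField.adjoin L (x '' T) = E)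
    (hS : ∀ i ∈ S, x i ∈ E) : IntermediateField.adjoin L (x '' S) = E := by
  apply le_antisymm
  · rw [IntermediateField.adjoin_le_iff]
    rintro _ ⟨i, hi, rfl⟩
    exact hS i hi
  · rw [← hE]
    exact IntermediateField.adjoin.mono _ _ _ (Set.image_mono hT)

/-- **Sharp fibres.** The counting condition if each coordinate other than `x i0` is constant on the
general fibres, or separates the points of the general fibre. -/
theorem sharpC {ι K : Type} [DecidableEq ι] [Field K] [Algebra ℂ K] {x : ι → K}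
    {L : Type} [Field L] [Algebra L K] [FiniteDimensional L K] {i0 : ι} {m : ι → ℕ} {c : ℕ}
    (B : Finset ι) (hB : i0 ∉ B) (hB1 : ∀ i ∈ B, IntermediateField.adjoin L {x i} = ⊤)
    (hB2 : ∀ i ≠ i0, i ∉ B → ∃ g : L, algebraMap L K g = x i) (hm : ∀ i ≠ i0, c ≤ m i + 1)
    (h : B = ∅ ∨ c * finrank L K ≤ 1 + ∑ i ∈ B, m i) : ∃ b, SpreadC x L i0 m b c := by
  classical
  have hsum : ∀ A : Finset ι, A.Nonempty → i0 ∉ A → c ≤ 1 + ∑ i ∈ A, m i := by
    rintro A ⟨i, hi⟩ h0
    have h1 : m i ≤ ∑ i ∈ A, m i := Finset.single_le_sum (f := m) (fun _ _ => Nat.zero_le _) hi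
    have h2 := hm i (fun h3 => h0 (h3 ▸ hi))
    omega
  rcases B.eq_empty_or_nonempty with hBe | hBn
  · refine ⟨fun _ => 0, fun s A hA h0 hs => ?_⟩
    have h1 : ∀ S : Set ι, i0 ∉ S → IntermediateField.adjoin L (x '' S) = ⊥ := fun S hS =>
      adjoin_bot fun i hi => hB2 i (fun h3 => hS (h3 ▸ hi)) (by rw [hBe]; exact Finset.notMem_empty _)
    rw [h1 _ (fun h => h.1 rfl), h1 _ (fun h => h.1 rfl), mul_comm]
    exact Nat.mul_le_mul_left _ (hsum A hA h0)
  · have h2 := h.resolve_left hBn.ne_empty
    refine ⟨fun i => if i ∈ B then 0 else 1, fun s A hA h0 hs => ?_⟩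
    by_cases hBA : B ⊆ A
    · have hs0 : s = 0 := by
        obtain ⟨i, hi⟩ := hBn
        have h3 : (if i ∈ B then 0 else 1) = s := hs i (hBA hi)
        rw [if_pos hi] at h3
        exact h3.symm
      have hAB : A = B := by
        refine le_antisymm (fun i hi => ?_) hBA
        by_contra hiB
        have h3 : (if i ∈ B then 0 else 1) = s := hs i hi
        rw [if_neg hiB, hs0] at h3
        exact one_ne_zero h3
      have h3 : IntermediateField.adjoin L (x '' {i | i ≠ i0 ∧
          (if i ∈ B then 0 else 1) ≤ s ∧ i ∉ A}) = ⊥ := by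
        refine adjoin_bot fun i hi => ?_
        exfalso
        obtain ⟨-, h4, h5⟩ := hi
        rw [hAB] at h5
        rw [if_neg h5, hs0] at h4
        omega
      have h4 : IntermediateField.adjoin L (x '' {i | i ≠ i0 ∧
          (if i ∈ B then 0 else 1) ≤ s}) = ⊤ := by
        obtain ⟨i, hi⟩ := hBn
        have h5 : IntermediateField.adjoin L (x '' {i}) = ⊤ := by
          rw [Set.image_singleton]
          exact hB1 i hi
        refine adjoin_sup (T := {i}) ?_ h5 fun _ _ => trivial
        rintro _ rfl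
        exact ⟨fun h => hB (h ▸ hi), by rw [if_pos hi]; exact Nat.zero_le _⟩
      rw [h3, h4, hAB, IntermediateField.finrank_bot', IntermediateField.finrank_top, one_mul]
      exact h2
    · obtain ⟨i, hi, hiA⟩ := Finset.not_subset.1 hBA
      have h5 : IntermediateField.adjoin L (x '' {i}) = ⊤ := by
        rw [Set.image_singleton]
        exact hB1 i hi
      have h3 : IntermediateField.adjoin L (x '' {i | i ≠ i0 ∧
          (if i ∈ B then 0 else 1) ≤ s ∧ i ∉ A}) = ⊤ := by
        refine adjoin_sup (T := {i}) ?_ h5 fun _ _ => trivial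
        rintro _ rfl
        exact ⟨fun h => hB (h ▸ hi), by rw [if_pos hi]; exact Nat.zero_le _, hiA⟩
      have h4 : IntermediateField.adjoin L (x '' {i | i ≠ i0 ∧
          (if i ∈ B then 0 else 1) ≤ s}) = ⊤ := by
        refine adjoin_sup (T := {i}) ?_ h5 fun _ _ => trivial
        rintro _ rfl
        exact ⟨fun h => hB (h ▸ hi), by rw [if_pos hi]; exact Nat.zero_le _⟩
      rw [h3, h4, IntermediateField.finrank_top, one_mul, mul_one]
      exact hsum A hA h0

/-- **Sharp fibres**, for blocks of coordinates. -/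
theorem sharp_spread {K : Type} [Field K] [Algebra ℂ K] {N p : ℕ} {β : Fin N → Fin p}
    {t : Fin N → K} {L : Type} [Field L] [Algebra L K] [FiniteDimensional L K] {M : Fin p → ℕ}
    {c : ℕ} (B : Finset (Fin p))
    (hB1 : ∀ l ∈ B, IntermediateField.adjoin L (t '' {j | β j = l}) =
      IntermediateField.adjoin L (Set.range t))
    (hB2 : ∀ j, β j ∉ B → ∃ g : L, algebraMap L K g = t j) (hm : ∀ l, c ≤ M l + 1)
    (h : B = ∅ ∨ c * finrank L K ≤
      finrank (IntermediateField.adjoin L (Set.range t)) K * (1 + ∑ l ∈ B, M l)) :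
    ∃ b, Spread β t L M b c := by
  classical
  have hsum : ∀ A : Finset (Fin p), A.Nonempty → c ≤ 1 + ∑ i ∈ A, M i := by
    rintro A ⟨i, hi⟩
    have h1 : M i ≤ ∑ i ∈ A, M i := Finset.single_le_sum (f := M) (fun _ _ => Nat.zero_le _) hi
    have h2 := hm i
    omega
  have hE : ∀ j, t j ∈ IntermediateField.adjoin L (Set.range t) := fun j =>
    IntermediateField.subset_adjoin L _ ⟨j, rfl⟩
  rcases B.eq_empty_or_nonempty with hBe | hBn
  · refine ⟨fun _ => 0, fun s A hA hs => ?_⟩
    have h1 : ∀ S : Set (Fin N), IntermediateField.adjoin L (t '' S) = ⊥ := fun S =>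
      adjoin_bot fun i hi => hB2 i (by rw [hBe]; exact Finset.notMem_empty _)
    unfold cnt
    rw [h1, h1, mul_comm]
    exact Nat.mul_le_mul_left _ (hsum A hA)
  · have h2 := h.resolve_left hBn.ne_empty
    refine ⟨fun i => if i ∈ B then 0 else 1, fun s A hA hs => ?_⟩
    by_cases hBA : B ⊆ A
    · have hs0 : s = 0 := by
        obtain ⟨i, hi⟩ := hBn
        have h3 : (if i ∈ B then 0 else 1) = s := hs i (hBA hi)
        rw [if_pos hi] at h3
        exact h3.symm
      have hAB : A = B := by
        refine le_antisymm (fun i hi => ?_) hBA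
        by_contra hiB
        have h3 : (if i ∈ B then 0 else 1) = s := hs i hi
        rw [if_neg hiB, hs0] at h3
        exact one_ne_zero h3
      have h3 : IntermediateField.adjoin L (t '' {j |
          (if β j ∈ B then 0 else 1) ≤ s ∧ β j ∉ A}) = ⊥ := by
        refine adjoin_bot fun i hi => ?_
        exfalso
        obtain ⟨h4, h5⟩ := hi
        rw [hAB] at h5
        rw [if_neg h5, hs0] at h4
        omega
      have h4 : IntermediateField.adjoin L (t '' {j | (if β j ∈ B then 0 else 1) ≤ s}) =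
          IntermediateField.adjoin L (Set.range t) := by
        obtain ⟨i, hi⟩ := hBn
        refine adjoin_sup (T := {j | β j = i}) ?_ (hB1 i hi) fun j _ => hE j
        intro j hj
        have hj' : β j = i := hj
        change (if β j ∈ B then 0 else 1) ≤ s
        rw [hj', if_pos hi]
        exact Nat.zero_le _
      unfold cnt
      rw [h3, h4, hAB, IntermediateField.finrank_bot']
      exact h2
    · obtain ⟨i, hi, hiA⟩ := Finset.not_subset.1 hBA
      have h3 : IntermediateField.adjoin L (t '' {j |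
          (if β j ∈ B then 0 else 1) ≤ s ∧ β j ∉ A}) =
          IntermediateField.adjoin L (Set.range t) := by
        refine adjoin_sup (T := {j | β j = i}) ?_ (hB1 i hi) fun j _ => hE j
        intro j hj
        have hj' : β j = i := hj
        change (if β j ∈ B then 0 else 1) ≤ s ∧ β j ∉ A
        rw [hj', if_pos hi]
        exact ⟨Nat.zero_le _, hiA⟩
      have h4 : IntermediateField.adjoin L (t '' {j | (if β j ∈ B then 0 else 1) ≤ s}) =
          IntermediateField.adjoin L (Set.range t) := by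
        refine adjoin_sup (T := {j | β j = i}) ?_ (hB1 i hi) fun j _ => hE j
        intro j hj
        have hj' : β j = i := hj
        change (if β j ∈ B then 0 else 1) ≤ s
        rw [hj', if_pos hi]
        exact Nat.zero_le _
      unfold cnt
      rw [h3, h4, mul_comm c]
      exact Nat.mul_le_mul_left _ (hsum A hA)

/-- the counting condition for maps of prime degree -/
theorem primeC {ι K : Type} [Fintype ι] [DecidableEq ι] [Field K] [Algebra ℂ K] {x : ι → K}
    {L : Type} [Field L] [Algebra L K] [FiniteDimensional L K] {i0 : ι} {m : ι → ℕ} {c : ℕ}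
    (hp : (finrank L K).Prime) (B : Finset ι) (hB : i0 ∉ B)
    (hB1 : ∀ i ∈ B, ∀ g : L, algebraMap L K g ≠ x i)
    (hB2 : ∀ i ≠ i0, i ∉ B → ∃ g : L, algebraMap L K g = x i) (hm : ∀ i ≠ i0, c ≤ m i + 1)
    (h : B = ∅ ∨ c * finrank L K ≤ 1 + ∑ i ∈ B, m i) : ∃ b, SpreadC x L i0 m b c :=
  sharpC B hB (fun i hi => adjoin_of_prime hp (hB1 i hi)) hB2 hm h

/-- the image of a hypersurface under a projection is rational -/
theorem unirational_base {n : ℕ} {K : Type} [Field K] [Algebra ℂ K]
    (hK : Algebra.trdeg ℂ K = n) {x : Fin (n + 1) → K}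
    {i0 : Fin (n + 1)} (hfin : FiniteDimensional (IntermediateField.adjoin ℂ (x '' {i0}ᶜ)) K) :
    IsUnirational ℂ (IntermediateField.adjoin ℂ (x '' {i0}ᶜ)) n := by
  obtain ⟨t, ht⟩ : ∃ t : Fin n → IntermediateField.adjoin ℂ (x '' {i0}ᶜ),
      ∀ a, (t a : K) = x (i0.succAbove a) :=
    ⟨fun a => ⟨x (i0.succAbove a), IntermediateField.subset_adjoin ℂ _
      ⟨_, Fin.succAbove_ne i0 a, rfl⟩⟩, fun a => rfl⟩
  have htop : IntermediateField.adjoin ℂ (Set.range t) = ⊤ := by
    have h1 : (IntermediateField.adjoin ℂ (Set.range t)).map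
        (IntermediateField.adjoin ℂ (x '' {i0}ᶜ)).val = IntermediateField.adjoin ℂ (x '' {i0}ᶜ) := by
      rw [IntermediateField.adjoin_map, ← Set.range_comp]
      congr 1
      ext z
      constructor
      · rintro ⟨a, rfl⟩
        exact ⟨_, Fin.succAbove_ne i0 a, (ht a).symm⟩
      · rintro ⟨i, hi, rfl⟩
        obtain ⟨a, rfl⟩ := Fin.exists_succAbove_eq hi
        exact ⟨a, ht a⟩
    rw [eq_top_iff]
    rintro z -
    have h2 : (z : K) ∈ (IntermediateField.adjoin ℂ (Set.range t)).map
        (IntermediateField.adjoin ℂ (x '' {i0}ᶜ)).val := by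
      rw [h1]
      exact z.2
    obtain ⟨w, hw, hwz⟩ := h2
    have h3 : w = z := Subtype.ext hwz
    rw [← h3]
    exact hw
  have hE : Algebra.trdeg ℂ (IntermediateField.adjoin ℂ (x '' {i0}ᶜ)) = n :=
    Pool.Agent.Y184.NT.trdeg_below (K := K) hK
  have hind : AlgebraicIndependent ℂ t := by
    have halg : Algebra.IsAlgebraic (Algebra.adjoin ℂ (Set.range t))
        (IntermediateField.adjoin ℂ (x '' {i0}ᶜ)) := by
      refine IntermediateField.isAlgebraic_adjoin_iff_top.1 ?_
      rw [htop]
      infer_instance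
    refine (Algebra.IsAlgebraic.isTranscendenceBasis_of_le_trdeg_of_finite ℂ t ?_).1
    rw [hE, Cardinal.mk_fintype, Fintype.card_fin]
  exact Pool.Agent.TH466.QT.unirational_of_sub (K := IntermediateField.adjoin ℂ (x '' {i0}ᶜ))
    (L := IntermediateField.adjoin ℂ (x '' {i0}ᶜ)) hind htop

/-- **Images of hypersurfaces.** -/
theorem hyp_main {n : ℕ} {K : Type} [Field K] [Algebra ℂ K] {L : Type} [Field L] [Algebra ℂ L]
    [Algebra L K] [IsScalarTower ℂ L K] [FiniteDimensional L K] (F : MvPolynomial (Fin (n + 1)) ℂ)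
    (m : Fin (n + 1) → ℕ) (deg : ∀ i, F.degreeOf i ≤ m i + 2)
    (smooth : IsSmooth (fun (_ : Fin 1) i => m i + 2) fun _ => F) (x : Fin (n + 1) → K)
    (point : IsGenericPoint n (fun _ : Fin 1 => F) x) (i0 : Fin (n + 1)) {c : ℕ}
    (h : ∃ b, SpreadC x L i0 m b c) :
    ((c = 1 ∧ GenusZero L n) ∨ (c = 2 ∧ ¬ N145.SX.CanGe L n n)) →
      (∀ g : L, algebraMap L K g ∈ IntermediateField.adjoin ℂ (x '' {i0}ᶜ)) ∧
      IsUnirational ℂ L n := by
  intro hc
  have hcan : ∀ i : Fin (n + 1), ∑ k : Fin 1, (fun (_ : Fin 1) i => m i + 2) k i = m i + 2 := by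
    intro i
    simp
  have hfin := lines_fin (q := 1) (fun _ => F) (fun _ i => m i + 2) (fun _ i => deg i) m hcan
    smooth x point i0
  obtain ⟨h1, h2⟩ := lines_step (q := 1) (c := c) (L := L) (fun _ => F) (fun _ i => m i + 2)
    (fun _ i => deg i) m hcan smooth x point i0 fun _ => h
  have hfac : ∀ g : L, algebraMap L K g ∈ IntermediateField.adjoin ℂ (x '' {i0}ᶜ) := by
    rcases hc with ⟨hc, hg⟩ | ⟨hc, hg⟩
    · exact h1 hc hg
    · exact h2 hc hg
  obtain ⟨j1, j2, j3, j4⟩ := factor_alg' L hfac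
  exact ⟨hfac, Pool.Agent.R882.HT.descends_unirational n _ L
    (unirational_base point.dim hfin)⟩

/-- **Images of nondegenerate complete intersections in tori with sharp fibres.** -/
theorem torus_main {n : ℕ} {K : Type} [Field K] [Algebra ℂ K] {L : Type} [Field L] [Algebra ℂ L]
    [Algebra L K] [IsScalarTower ℂ L K] [FiniteDimensional L K]
    (hK : Algebra.trdeg ℂ K = (n : ℕ)) {q N p : ℕ} (f : Fin q → (Fin (n + q) → ℤ) →₀ ℂ)
    (nondeg : Nondegenerate f) (x : Fin (n + q) → K) (point : IsTorusPoint f x)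
    (v : Fin (n + q) → ℤ) (w : Fin N → Fin (n + q) → ℤ) (t : Fin N → K)
    (mono : ∀ l, t l = R885.mono x (w l))
    (fin : FiniteDimensional (IntermediateField.adjoin ℂ (Set.range t)) K)
    (prim : IntermediateField.adjoin (IntermediateField.adjoin ℂ (Set.range t))
      {R885.mono x v} = ⊤)
    (β : Fin N → Fin p) (M : Fin p → ℕ) {c : ℕ}
    (hbox : finrank (IntermediateField.adjoin L (Set.range t)) K <
        finrank (IntermediateField.adjoin ℂ (Set.range t)) K →
      HasBox f v w β M (finrank (IntermediateField.adjoin L (Set.range t)) K))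
    (h : ∃ b, Spread β t L M b c) :
    ((c = 1 ∧ GenusZero L n) ∨ (c = 2 ∧ ¬ N145.SX.CanGe L n n)) →
      (∀ g : L, algebraMap L K g ∈ IntermediateField.adjoin ℂ (Set.range t)) ∧
      ∀ Base : ∀ (E : Type) [Field E] [Algebra ℂ E], Prop, Descends Base →
        Base (IntermediateField.adjoin ℂ (Set.range t)) → Base L := by
  intro hc
  obtain ⟨b, hb⟩ := h
  obtain ⟨h1, h2⟩ := torus_step (c := c) (L := L) hK f nondeg x point v w t mono fin prim β
    fun hlt => ⟨M, b, hbox hlt, hb⟩
  have hfac : ∀ g : L, algebraMap L K g ∈ IntermediateField.adjoin ℂ (Set.range t) := by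
    rcases hc with ⟨hc, hg⟩ | ⟨hc, hg⟩
    · exact h1 hc hg
    · exact h2 hc hg
  obtain ⟨j1, j2, j3, j4⟩ := factor_alg' L hfac
  exact ⟨hfac, fun Base hB h => hB _ L h⟩

/-- The functions `t j` in the blocks outside `B` come from `L`, and the functions in each block in
`B` generate the same field over `L` as all `t j`. -/
structure SharpBlocks {K : Type} [Field K] (L : Type) [Field L] [Algebra L K] {N p : ℕ}
    (β : Fin N → Fin p) (t : Fin N → K) (B : Finset (Fin p)) : Prop where
  const : ∀ j, β j ∉ B → ∃ g : L, algebraMap L K g = t j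
  sharp : ∀ l ∈ B, IntermediateField.adjoin L (t '' {j | β j = l}) =
    IntermediateField.adjoin L (Set.range t)

/-- `x` is the generic point of a smooth hypersurface of multidegree `m i + 2` in a product of
projective lines. -/
structure LinesHypersurface {K : Type} [Field K] [Algebra ℂ K] (n : ℕ)
    (F : MvPolynomial (Fin (n + 1)) ℂ) (m : Fin (n + 1) → ℕ) (x : Fin (n + 1) → K) : Prop where
  deg : ∀ i, F.degreeOf i ≤ m i + 2
  smooth : IsSmooth (fun (_ : Fin 1) i => m i + 2) fun _ => F
  point : IsGenericPoint n (fun _ : Fin 1 => F) x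

/-- The functions `x i`, `i ≠ i0`, outside `B` come from `L`, and each `x i`, `i ∈ B`, generates `K`
over `L`; if `K` has prime degree over `L` it is sufficient that these `x i` do not come from `L`. -/
structure SharpCoordinates {K ι : Type} [Field K] (L : Type) [Field L] [Algebra L K]
    (x : ι → K) (i0 : ι) (B : Finset ι) : Prop where
  notMem : i0 ∉ B
  const : ∀ i ≠ i0, i ∉ B → ∃ g : L, algebraMap L K g = x i
  sharp : (∀ i ∈ B, IntermediateField.adjoin L {x i} = ⊤) ∨
    ((finrank L K).Prime ∧ ∀ i ∈ B, ∀ g : L, algebraMap L K g ≠ x i)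

/-- Nondegenerate complete intersections in tori with sharp fibres over `X`: there is room `M l` in
the Fine interior for the block `l`, with `c ≤ M l + 1`, the blocks in `B` are sharp, the others are
constant on the fibres, and `c r ≤ e (1 + ∑ l ∈ B, M l)`, where `r` is the degree of `V ⇢ X` and `e`
is the degree of `K` over the field generated by `L` and all `t j`. -/
structure SharpToricImage {K : Type} [Field K] [Algebra ℂ K] (L : Type) [Field L] [Algebra L K]
    (n c : ℕ) {q N p : ℕ} (f : Fin q → (Fin (n + q) → ℤ) →₀ ℂ) (x : Fin (n + q) → K)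
    (v : Fin (n + q) → ℤ) (w : Fin N → Fin (n + q) → ℤ) (t : Fin N → K) (β : Fin N → Fin p)
    (M : Fin p → ℕ) (B : Finset (Fin p)) : Prop where
  cover : ToricCover n f x v w t
  room : HasBox f v w β M (finrank (IntermediateField.adjoin L (Set.range t)) K)
  blocks : SharpBlocks L β t B
  positive : ∀ l, c ≤ M l + 1
  degree : B = ∅ ∨ c * finrank L K ≤
    finrank (IntermediateField.adjoin L (Set.range t)) K * (1 + ∑ l ∈ B, M l)

/-- Smooth hypersurfaces of multidegree `m i + 2` in products of projective lines with sharp fibres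
over `X`: `c ≤ m i + 1` for `i ≠ i0`, the coordinates in `B` are sharp, the others are constant on
the fibres, and `c r ≤ 1 + ∑ i ∈ B, m i`, where `r` is the degree of `V ⇢ X`. -/
structure SharpLinesImage {K : Type} [Field K] [Algebra ℂ K] (L : Type) [Field L] [Algebra L K]
    (n c : ℕ) (F : MvPolynomial (Fin (n + 1)) ℂ) (m : Fin (n + 1) → ℕ) (x : Fin (n + 1) → K)
    (i0 : Fin (n + 1)) (B : Finset (Fin (n + 1))) : Prop where
  cover : LinesHypersurface n F m x
  coordinates : SharpCoordinates L x i0 B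
  positive : ∀ i ≠ i0, c ≤ m i + 1
  degree : B = ∅ ∨ c * finrank L K ≤ 1 + ∑ i ∈ B, m i

/-- `V ⇢ X` factors through `V ⇢ E` -/
def FactorsThrough {K : Type} [Field K] [Algebra ℂ K] (L : Type) [Field L] [Algebra L K]
    (E : IntermediateField ℂ K) : Prop :=
  ∀ g : L, algebraMap L K g ∈ E

/-- sharp fibres, for hypersurfaces in products of lines -/
theorem hyp_sharp {n : ℕ} {K : Type} [Field K] [Algebra ℂ K] {L : Type} [Field L] [Algebra ℂ L]
    [Algebra L K] [IsScalarTower ℂ L K] [FiniteDimensional L K] {F : MvPolynomial (Fin (n + 1)) ℂ}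
    {m : Fin (n + 1) → ℕ} {x : Fin (n + 1) → K} (hV : LinesHypersurface n F m x)
    {i0 : Fin (n + 1)} {B : Finset (Fin (n + 1))} (hB : SharpCoordinates L x i0 B) {c : ℕ}
    (hm : ∀ i ≠ i0, c ≤ m i + 1) (hr : B = ∅ ∨ c * finrank L K ≤ 1 + ∑ i ∈ B, m i) :
    ((c = 1 ∧ GenusZero L n) ∨ (c = 2 ∧ ¬ N145.SX.CanGe L n n)) →
      (∀ g : L, algebraMap L K g ∈ IntermediateField.adjoin ℂ (x '' {i0}ᶜ)) ∧
      IsUnirational ℂ L n := by
  have hB1' : ∀ i ∈ B, IntermediateField.adjoin L {x i} = ⊤ := by
    rcases hB.sharp with h | ⟨hp, h⟩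
    · exact h
    · exact fun i hi => adjoin_of_prime hp (h i hi)
  exact hyp_main (L := L) F m hV.deg hV.smooth x hV.point i0 (sharpC B hB.notMem hB1' hB.const hm hr)

/-- sharp fibres, for nondegenerate complete intersections in tori -/
theorem torus_sharp {n : ℕ} {K : Type} [Field K] [Algebra ℂ K] {L : Type} [Field L] [Algebra ℂ L]
    [Algebra L K] [IsScalarTower ℂ L K] [FiniteDimensional L K]
    (hK : Algebra.trdeg ℂ K = (n : ℕ)) {q N p : ℕ} {f : Fin q → (Fin (n + q) → ℤ) →₀ ℂ}
    {x : Fin (n + q) → K} {v : Fin (n + q) → ℤ} {w : Fin N → Fin (n + q) → ℤ} {t : Fin N → K}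
    (hV : ToricCover n f x v w t) {β : Fin N → Fin p} {M : Fin p → ℕ} {c : ℕ}
    (hbox : finrank (IntermediateField.adjoin L (Set.range t)) K <
        finrank (IntermediateField.adjoin ℂ (Set.range t)) K →
      HasBox f v w β M (finrank (IntermediateField.adjoin L (Set.range t)) K))
    (hm : ∀ l, c ≤ M l + 1) {B : Finset (Fin p)} (hB : SharpBlocks L β t B)
    (hr : B = ∅ ∨ c * finrank L K ≤
      finrank (IntermediateField.adjoin L (Set.range t)) K * (1 + ∑ l ∈ B, M l)) :
    ((c = 1 ∧ GenusZero L n) ∨ (c = 2 ∧ ¬ N145.SX.CanGe L n n)) →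
      (∀ g : L, algebraMap L K g ∈ IntermediateField.adjoin ℂ (Set.range t)) ∧
      ∀ Base : ∀ (E : Type) [Field E] [Algebra ℂ E], Prop, Descends Base →
        Base (IntermediateField.adjoin ℂ (Set.range t)) → Base L :=
  torus_main hK f hV.nondeg x hV.point v w t hV.mono hV.fin hV.prim β M hbox
    (sharp_spread B hB.sharp hB.const hm hr)

/-- If `X` is special then it is unirational and potentially dense. -/
def SpecialDense (L : Type) [Field L] [Algebra ℂ L] (n : ℕ) : Prop :=
  Special ℂ L n (fun _ => False) → IsUnirational ℂ L n ∧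
    ∀ (M : ℕ) (x : Fin (M + 1) → L), x ≠ 0 → Pool.Agent.TH466.QT.PotentiallyDense ℂ x

/-- The canonical map of `X` is generically finite, or `X` is unirational. If `X` is special then it
is unirational and potentially dense. -/
def CanonicalOrUnirational (L : Type) [Field L] [Algebra ℂ L] (n : ℕ) : Prop :=
  SpecialDense L n ∧ (N145.SX.CanGe L n n ∨ IsUnirational ℂ L n)

/-- special varieties -/
theorem special_of {n : ℕ} (hn : 1 ≤ n) {L : Type} [Field L] [Algebra ℂ L]
    (hL : Algebra.trdeg ℂ L = n) (hd : N145.SX.CanGe L n n ∨ IsUnirational ℂ L n) :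
    SpecialDense L n := by
  intro hS
  have hU : IsUnirational ℂ L n := hd.resolve_left fun hg =>
    Pool.Agent.R882.LT.not_special_of_gt hn (gt_of_can hL hg) hS
  exact ⟨hU, fun M x hx => Pool.Agent.TH466.QT.dense_of_unirational hU hx⟩

/-- the equivalences -/
theorem tfae_uni {n : ℕ} (hn : 1 ≤ n) {L : Type} [Field L] [Algebra ℂ L]
    [Algebra.EssFiniteType ℂ L] (hL : Algebra.trdeg ℂ L = n)
    (h : GenusZero L n → IsUnirational ℂ L n) :
    [GenusZero L n, ¬ KodGe ℂ L n (fun _ => False) 0, ¬ Psef ℂ L n (fun _ => False),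
      IsUniruled ℂ L n, IsUnirational ℂ L n].TFAE := by
  have h2 : IsUnirational ℂ L n → IsUniruled ℂ L n :=
    Pool.Agent.R882.HQ.uniruled_of_unirational hn
  have h3 := (Pool.Agent.R882.HTM.tfae_of (L := L) hL).1 fun hg => h2 (h hg)
  have h40 : GenusZero L n ↔ IsUniruled ℂ L n := h3.out 0 3
  have h41 : GenusZero L n ↔ ¬ KodGe ℂ L n (fun _ => False) 0 := h3.out 0 1
  have h42 : GenusZero L n ↔ ¬ Psef ℂ L n (fun _ => False) := h3.out 0 2
  tfae_have 1 ↔ 2 := h41
  tfae_have 1 ↔ 3 := h42
  tfae_have 1 ↔ 4 := h40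
  tfae_have 1 → 5 := h
  tfae_have 5 → 4 := h2
  tfae_finish

/-- the consequences for hyperbolicity -/
theorem hyp_of {n M : ℕ} {L : Type} [Field L] [Algebra ℂ L] {x : Fin (M + 1) → L}
    (hL : Algebra.trdeg ℂ L = n) (hd : N145.SX.CanGe L n n ∨ IsUniruled ℂ L n)
    (hx : x ≠ 0) (hgen : coords ℂ x = ⊤) :
    [GeneralType ℂ L n, N145.SX.CanGe L n n, ¬ IsUniruled ℂ L n].TFAE ∧
    (Pool.Agent.R882.HY.SpRat x ≠ VarPts ℂ x → GeneralType ℂ L n ∧ N145.SX.CanGe L n n) ∧
    (Pool.Agent.R882.HY.NoRationalCurve x → GeneralType ℂ L n ∧ N145.SX.CanGe L n n) ∧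
    (Pool.Agent.R882.HY.BrodyHyperbolic x → GeneralType ℂ L n ∧ N145.SX.CanGe L n n) := by
  obtain ⟨h1, h2, h3, h4⟩ := Pool.Agent.R882.HY.of_dichotomy (x := x) hL
    (hd.imp (gt_of_can hL) id) hx hgen
  have h5 : GeneralType ℂ L n → N145.SX.CanGe L n n := fun hg => hd.resolve_right (h1.1 hg)
  refine ⟨?_, fun h => ⟨h2 h, h5 (h2 h)⟩, fun h => ⟨h3 h, h5 (h3 h)⟩, fun h => ⟨h4 h, h5 (h4 h)⟩⟩
  tfae_have 1 ↔ 3 := h1
  tfae_have 1 → 2 := h5
  tfae_have 2 → 1 := gt_of_can hL
  tfae_finish

end Pool.Agent.V7H74.MG
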