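import Pool.Agent.V7H74.MgR

/-!
Varieties which are uniruled or have a generically finite canonical map: equivalent conditions.
-/

set_option autoImplicit false
set_option linter.overlappingInstances false
set_option maxHeartbeats 4000000
set_option synthInstance.maxHeartbeats 400000

open FF Module Pool.Agent Pool.Agent.W602.GT
open Pool.Agent.W619.PQ (IsUniruled)
open Pool.Agent.R882.HT (GenusZero)

namespace Pool.Agent.V7H74.MG

/-- the equivalences -/
theorem tfae_two {n : ℕ} {L : Type} [Field L] [Algebra ℂ L] [Algebra.EssFiniteType ℂ L]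
    (hL : Algebra.trdeg ℂ L = n) (hd : N145.SX.CanGe L n n ∨ IsUniruled ℂ L n) :
    [GenusZero L n, ¬ KodGe ℂ L n (fun _ => False) 0, ¬ Psef ℂ L n (fun _ => False),
      ¬ GeneralType ℂ L n, ¬ N145.SX.CanGe L n n, IsUniruled ℂ L n].TFAE := by
  have h0 : GenusZero L n → ¬ N145.SX.CanGe L n n := by
    rintro hg ⟨ω, hω, D, hD, -⟩
    exact hD (hg (ω 0) (hω 0).1 (hω 0).2 D)
  have h1 : ¬ N145.SX.CanGe L n n → IsUniruled ℂ L n := fun h => hd.resolve_left h
  have h2 := (Pool.Agent.R882.HTM.tfae_of (L := L) hL).2 (fun hg => h1 (h0 hg))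
    fun hg => h1 fun hc => hg (gt_of_can hL hc)
  have h12 : GenusZero L n ↔ ¬ KodGe ℂ L n (fun _ => False) 0 := h2.out 0 1
  have h13 : GenusZero L n ↔ ¬ Psef ℂ L n (fun _ => False) := h2.out 0 2
  have h14 : GenusZero L n ↔ ¬ GeneralType ℂ L n := h2.out 0 3
  have h15 : GenusZero L n ↔ IsUniruled ℂ L n := h2.out 0 4
  tfae_have 1 ↔ 2 := h12
  tfae_have 1 ↔ 3 := h13
  tfae_have 1 ↔ 4 := h14
  tfae_have 1 ↔ 6 := h15
  tfae_have 1 → 5 := h0
  tfae_have 5 → 6 := h1
  tfae_finish

/-- `V` and `V ⇢ X` are as in one of the following cases, for the number `c`, over bases with the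
property `Base`: towers of nondegenerate complete intersections in tori; towers of smooth complete
intersections in products of projective lines; a nondegenerate complete intersection in a torus with
sharp fibres over `X`. -/
def SpreadImage (n c : ℕ) (Base : ∀ (K : Type) [Field K] [Algebra ℂ K], Prop)
    (K : Type) [Field K] [Algebra ℂ K] (L : Type) [Field L] [Algebra ℂ L] [Algebra L K]
    [IsScalarTower ℂ L K] : Prop :=
  SpreadTower n Base c K L ∨ SpreadLines n Base c K L ∨
    ∃ (q N p : ℕ) (f : Fin q → (Fin (n + q) → ℤ) →₀ ℂ) (x : Fin (n + q) → K)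
      (v : Fin (n + q) → ℤ) (w : Fin N → Fin (n + q) → ℤ) (t : Fin N → K) (β : Fin N → Fin p)
      (M : Fin p → ℕ) (B : Finset (Fin p)), SharpToricImage L n c f x v w t β M B ∧
      Base (IntermediateField.adjoin ℂ (Set.range t))

/-- **The dichotomy.** -/
theorem dich_image {n : ℕ} {Base : ∀ (K : Type) [Field K] [Algebra ℂ K], Prop}
    (hB : Pool.Agent.R882.HT.Descends Base) {K : Type} [Field K] [Algebra ℂ K]
    (hK : Algebra.trdeg ℂ K = (n : ℕ))
    (L : Type) [Field L] [Algebra ℂ L] [Algebra L K] [IsScalarTower ℂ L K]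
    [FiniteDimensional L K] :
    (SpreadImage n 1 Base K L → GenusZero L n → Base L) ∧
    (SpreadImage n 2 Base K L → N145.SX.CanGe L n n ∨ Base L) := by
  refine ⟨fun h hg => ?_, fun h => ?_⟩
  · rcases h with h | h | ⟨q, N, p, f, x, v, w, t, β, M, B, hV, hE⟩
    · exact (dichotomy hB hK L).1 h hg
    · exact (dichotomy_lines hB hK L).1 h hg
    · exact (torus_sharp (L := L) hK hV.cover (fun _ => hV.room) hV.positive hV.blocks
        hV.degree (Or.inl ⟨rfl, hg⟩)).2 _ hB hE
  · rcases h with h | h | ⟨q, N, p, f, x, v, w, t, β, M, B, hV, hE⟩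
    · exact (dichotomy hB hK L).2 h
    · exact (dichotomy_lines hB hK L).2 h
    · by_cases hc : N145.SX.CanGe L n n
      · exact Or.inl hc
      · exact Or.inr ((torus_sharp (L := L) hK hV.cover (fun _ => hV.room) hV.positive hV.blocks
          hV.degree (Or.inr ⟨rfl, hc⟩)).2 _ hB hE)

end Pool.Agent.V7H74.MG
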