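import Pool.Agent.V7H74.Mg
import Pool.Agent.R882.HT

/-!
Images of towers of nondegenerate complete intersections in tori: the counting condition for blocks
of coordinates. Some steps follow the proofs in `R882/CTow` and `R882/HT`.
-/

set_option autoImplicit false
set_option linter.overlappingInstances false
set_option linter.unusedSectionVars false
set_option linter.unusedVariables false
set_option maxHeartbeats 4000000
set_option synthInstance.maxHeartbeats 400000

open FF Module IntermediateField Pool.Agent Pool.Agent.W602.GT Pool.Agent.R885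
open Pool.Agent.R882.LT (TraceNe exists_res col_detect mono_comb)
open Pool.Agent.R882.HT (Nondegenerate IsTorusPoint InFine GenusZero Descends)

namespace Pool.Agent.V7H74.MG

/-- There is a vector `u` such that the vectors `u + j v + ∑ a i w i` are in the Fine interior, for
all `j < c` and all `a i ≥ 0` with sum at most `M l` over the block `l`, for all `l`. -/
def HasBox {m q N p : ℕ} (f : Fin q → (Fin m → ℤ) →₀ ℂ) (v : Fin m → ℤ)
    (w : Fin N → Fin m → ℤ) (β : Fin N → Fin p) (M : Fin p → ℕ) (c : ℕ) : Prop :=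
  ∃ u : Fin m → ℤ, ∀ j < c, ∀ a : Fin N → ℕ, (∀ l, ∑ i with β i = l, a i ≤ M l) →
    InFine f (u + (j : ℤ) • v + ∑ i, (a i : ℤ) • w i)

/-- forms of positive multidegree with nonzero trace -/
theorem col_mg {n q N p : ℕ} {f : Fin q → (Fin (n + q) → ℤ) →₀ ℂ} (hf : Nondegenerate f)
    {K : Type} [Field K] [Algebra ℂ K] {x : Fin (n + q) → K} (hx : IsTorusPoint f x)
    (hK : Algebra.trdeg ℂ K = (n : ℕ)) {v : Fin (n + q) → ℤ} {w : Fin N → Fin (n + q) → ℤ}
    {t : Fin N → K} (ht : ∀ l, t l = R885.mono x (w l)) {β : Fin N → Fin p} {M : Fin p → ℕ}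
    (F : IntermediateField ℂ K) [FiniteDimensional F K]
    (htF : IntermediateField.adjoin ℂ (Set.range t) ≤ F)
    (hy : IntermediateField.adjoin (IntermediateField.adjoin ℂ (Set.range t))
      {R885.mono x v} = ⊤)
    (hbox : HasBox f v w β M (finrank F K)) :
    ∃ ω : (Fin n → Derivation ℂ K K) → K, IsPluri 1 ω ∧
      (∀ a : Fin N → ℕ, (∀ l, ∑ j with β j = l, a j ≤ M l) → ∀ P : Place ℂ K,
        Divisorial n P → RegAt P (fun D => (∏ j, t j ^ a j) * ω D)) ∧ TraceNe ω F := by
  classical
  obtain ⟨hx0, hev, hgen⟩ := hx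
  have hess : Algebra.EssFiniteType ℂ K := by
    rw [← IntermediateField.fg_top_iff, ← hgen]
    exact ⟨Finset.univ.image x, by rw [Finset.coe_image, Finset.coe_univ, Set.image_univ]⟩
  have e : Fin q ⊕ Fin n ≃ Fin (n + q) := Fintype.equivOfCardEq (by
    rw [Fintype.card_sum, Fintype.card_fin, Fintype.card_fin, Fintype.card_fin, add_comm])
  obtain ⟨C0, h0, hreg, hne⟩ := exists_res hK hx0 hgen e hev fun v => hf v
  obtain ⟨u, hu⟩ := hbox
  have hyF : IntermediateField.adjoin F {R885.mono x v} = ⊤ := by
    rw [eq_top_iff]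
    intro g _
    have h1 : g ∈ IntermediateField.adjoin (IntermediateField.adjoin ℂ (Set.range t))
        {R885.mono x v} := by
      rw [hy]
      trivial
    have hle : (IntermediateField.adjoin (IntermediateField.adjoin ℂ (Set.range t))
        {R885.mono x v}).toSubfield ≤
        (IntermediateField.adjoin F {R885.mono x v}).toSubfield := by
      change Subfield.closure _ ≤ _
      rw [Subfield.closure_le]
      rintro z (⟨c, rfl⟩ | hz)
      · exact (IntermediateField.adjoin F {R885.mono x v}).algebraMap_mem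
          (⟨c, htF c.2⟩ : F)
      · rw [Set.mem_singleton_iff.mp hz]
        exact IntermediateField.mem_adjoin_simple_self _ _
    exact hle h1
  obtain ⟨j, hj, htr⟩ := col_detect (F := F) (y := R885.mono x v)
    (ω := fun D => R885.mono x u * Om e x f C0 D) hK hyF
    (fun Z hZ D0 hD0 => mul_ne_zero (R885.mono_ne hx0 _) (hne Z hZ D0 hD0))
  have hform : (fun D : Fin n → Derivation ℂ K K => R885.mono x v ^ j *
      (R885.mono x u * Om e x f C0 D)) =
      fun D => R885.mono x (u + (j : ℤ) • v) * Om e x f C0 D := by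
    funext D
    rw [R885.mono_add hx0, R885.mono_zsmul, zpow_natCast]
    ring
  rw [hform] at htr
  refine ⟨_, ?_, fun a ha P _ => ?_, htr⟩
  · intro B D
    have h1 := om_pluri e x f C0 1 B D
    change Om e x f C0 (fun i => ∑ j, B i j • D j) ^ 1 = B.det ^ 1 * Om e x f C0 D ^ 1 at h1
    change R885.mono x (u + (j : ℤ) • v) * Om e x f C0 (fun i => ∑ j, B i j • D j) =
      B.det ^ 1 * (R885.mono x (u + (j : ℤ) • v) * Om e x f C0 D)
    rw [pow_one, pow_one, pow_one] at h1
    rw [h1]
    ring
  · have h1 := hreg (u + (j : ℤ) • v + ∑ i, (a i : ℤ) • w i) (hu j hj a ha) P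
    have h2 : (fun D : Fin n → Derivation ℂ K K => (∏ j, t j ^ a j) *
        (R885.mono x (u + (j : ℤ) • v) * Om e x f C0 D)) =
        fun D => R885.mono x (u + (j : ℤ) • v + ∑ i, (a i : ℤ) • w i) * Om e x f C0 D := by
      funext D
      have h3 : ∏ j, t j ^ a j = R885.mono x (∑ i, (a i : ℤ) • w i) := by
        rw [← mono_comb hx0]
        exact Finset.prod_congr rfl fun l _ => by rw [ht]
      rw [h3, ← mul_assoc, mul_comm (R885.mono x _) (R885.mono x _), ← R885.mono_add hx0]
    rw [h2]
    exact h1

/-- an image which factors -/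
theorem factor_alg' {K : Type} [Field K] [Algebra ℂ K] {E : IntermediateField ℂ K}
    (L : Type) [Field L] [Algebra ℂ L] [Algebra L K] [IsScalarTower ℂ L K]
    [FiniteDimensional L K] (h : ∀ g : L, algebraMap L K g ∈ E) :
    ∃ (_ : Algebra L E) (_ : IsScalarTower ℂ L E) (_ : IsScalarTower L E K),
      FiniteDimensional L E := by
  let φ : L →ₐ[ℂ] E :=
    { toFun := fun f => ⟨algebraMap L K f, h f⟩
      map_one' := Subtype.ext (map_one _)
      map_mul' := fun f g => Subtype.ext (map_mul _ _ _)
      map_zero' := Subtype.ext (map_zero _)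
      map_add' := fun f g => Subtype.ext (map_add _ _ _)
      commutes' := fun c => Subtype.ext (IsScalarTower.algebraMap_apply ℂ L K c).symm }
  let i1 : Algebra L E := φ.toRingHom.toAlgebra
  have i2 : IsScalarTower ℂ L E := IsScalarTower.of_algebraMap_eq fun c => (φ.commutes c).symm
  have i3 : IsScalarTower L E K := IsScalarTower.of_algebraMap_eq fun c => rfl
  have i4 : FiniteDimensional L E := by
    let ψ : E →ₗ[L] K := (IsScalarTower.toAlgHom L E K).toLinearMap
    exact FiniteDimensional.of_injective ψ (algebraMap E K).injective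
  exact ⟨i1, i2, i3, i4⟩

/-- `x` is the generic point of a component of a nondegenerate complete intersection in a torus, with
function field `K`, and the monomials `t l = x ^ (w l)` and the single monomial `x ^ v` generate `K`,
which has finite degree over `ℂ(t)`. -/
structure ToricCover {K : Type} [Field K] [Algebra ℂ K] (n : ℕ) {q N : ℕ}
    (f : Fin q → (Fin (n + q) → ℤ) →₀ ℂ) (x : Fin (n + q) → K)
    (v : Fin (n + q) → ℤ) (w : Fin N → Fin (n + q) → ℤ) (t : Fin N → K) : Prop where
  nondeg : Nondegenerate f
  point : IsTorusPoint f x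
  mono : ∀ l, t l = R885.mono x (w l)
  fin : FiniteDimensional (IntermediateField.adjoin ℂ (Set.range t)) K
  prim : IntermediateField.adjoin (IntermediateField.adjoin ℂ (Set.range t))
    {R885.mono x v} = ⊤

/-- If `V ⇢ X` does not factor through `V ⇢ E`, where `K`, `L`, `ℂ(t)` are the function fields of
`V`, `X`, `E`, then there are numbers `M l` with room in the Fine interior and an order of the blocks,
given by numbers `b l`, with the counting condition. -/
def SpreadsFibres {K : Type} [Field K] [Algebra ℂ K] (L : Type) [Field L] [Algebra L K]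
    {m q N p : ℕ} (f : Fin q → (Fin m → ℤ) →₀ ℂ) (v : Fin m → ℤ)
    (w : Fin N → Fin m → ℤ) (t : Fin N → K) (β : Fin N → Fin p) (c : ℕ) : Prop :=
  finrank (IntermediateField.adjoin L (Set.range t)) K <
    finrank (IntermediateField.adjoin ℂ (Set.range t)) K → ∃ M b : Fin p → ℕ,
  HasBox f v w β M (finrank (IntermediateField.adjoin L (Set.range t)) K) ∧ Spread β t L M b c

/-- **Towers with the counting condition for an image.** -/
inductive SpreadTower (n : ℕ) (Base : ∀ (K : Type) [Field K] [Algebra ℂ K], Prop) (c : ℕ) :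
    ∀ (K : Type) [Field K] [Algebra ℂ K] (L : Type) [Field L] [Algebra ℂ L] [Algebra L K]
      [IsScalarTower ℂ L K], Prop
  | base {K : Type} [Field K] [Algebra ℂ K] {L : Type} [Field L] [Algebra ℂ L] [Algebra L K]
      [IsScalarTower ℂ L K] (h : Base K) : SpreadTower n Base c K L
  | cover {K : Type} [Field K] [Algebra ℂ K] {L : Type} [Field L] [Algebra ℂ L] [Algebra L K]
      [IsScalarTower ℂ L K] {q N p : ℕ} {f : Fin q → (Fin (n + q) → ℤ) →₀ ℂ}
      {x : Fin (n + q) → K} {v : Fin (n + q) → ℤ} {w : Fin N → Fin (n + q) → ℤ} {t : Fin N → K}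
      (variety : ToricCover n f x v w t) (β : Fin N → Fin p)
      (positive : SpreadsFibres L f v w t β c)
      (below : ∀ (_ : Algebra L (IntermediateField.adjoin ℂ (Set.range t)))
        (_ : IsScalarTower ℂ L (IntermediateField.adjoin ℂ (Set.range t)))
        (_ : IsScalarTower L (IntermediateField.adjoin ℂ (Set.range t)) K),
        SpreadTower n Base c (IntermediateField.adjoin ℂ (Set.range t)) L) :
      SpreadTower n Base c K L

/-- one step -/
theorem torus_step {n : ℕ} {c : ℕ} {K : Type} [Field K] [Algebra ℂ K] {L : Type}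
    [Field L] [Algebra ℂ L] [Algebra L K] [IsScalarTower ℂ L K] [FiniteDimensional L K]
    (hK : Algebra.trdeg ℂ K = (n : ℕ)) {q N p : ℕ} (f : Fin q → (Fin (n + q) → ℤ) →₀ ℂ)
    (nondeg : Nondegenerate f) (x : Fin (n + q) → K) (point : IsTorusPoint f x)
    (v : Fin (n + q) → ℤ) (w : Fin N → Fin (n + q) → ℤ) (t : Fin N → K)
    (mono : ∀ l, t l = R885.mono x (w l))
    (fin : FiniteDimensional (IntermediateField.adjoin ℂ (Set.range t)) K)
    (prim : IntermediateField.adjoin (IntermediateField.adjoin ℂ (Set.range t))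
      {R885.mono x v} = ⊤)
    (β : Fin N → Fin p)
    (positive : finrank (IntermediateField.adjoin L (Set.range t)) K <
        finrank (IntermediateField.adjoin ℂ (Set.range t)) K → ∃ M b : Fin p → ℕ,
      HasBox f v w β M (finrank (IntermediateField.adjoin L (Set.range t)) K) ∧
      Spread β t L M b c) :
    (c = 1 → GenusZero L n →
      ∀ g : L, algebraMap L K g ∈ IntermediateField.adjoin ℂ (Set.range t)) ∧
    (c = 2 → ¬ N145.SX.CanGe L n n →
      ∀ g : L, algebraMap L K g ∈ IntermediateField.adjoin ℂ (Set.range t)) := by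
  classical
  have hess : Algebra.EssFiniteType ℂ K := by
    rw [← IntermediateField.fg_top_iff, ← point.2.2]
    exact ⟨Finset.univ.image x, by rw [Finset.coe_image, Finset.coe_univ, Set.image_univ]⟩
  have hL : Algebra.trdeg ℂ L = (n : ℕ) := Pool.Agent.Y184.NT.trdeg_below (K := K) hK
  by_cases hlt : finrank (IntermediateField.adjoin L (Set.range t)) K <
        finrank (IntermediateField.adjoin ℂ (Set.range t)) K
  · obtain ⟨M, b, hbox, hS⟩ := positive hlt
    have hfdF : FiniteDimensional
        ((IntermediateField.adjoin L (Set.range t)).restrictScalars ℂ) K :=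
      inferInstanceAs (FiniteDimensional (IntermediateField.adjoin L (Set.range t)) K)
    obtain ⟨ω, h1, h2, h3⟩ := col_mg nondeg point hK mono (M := M)
      ((IntermediateField.adjoin L (Set.range t)).restrictScalars ℂ) (by
        rw [IntermediateField.adjoin_le_iff]
        exact IntermediateField.subset_adjoin L _) prim hbox
    obtain ⟨h4, h5⟩ := mg_main (L := L) hK M b h1 h2 h3
    refine ⟨fun hc hg => ?_, fun hc hg => ?_⟩
    · exfalso
      rw [hc] at hS
      obtain ⟨η, h6, h7, D, h8⟩ := h4 hS
      exact h8 (hg η h6 h7 D)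
    · exfalso
      rw [hc] at hS
      exact hg (h5 hS)
  · have hEF : IntermediateField.adjoin ℂ (Set.range t) =
        (IntermediateField.adjoin L (Set.range t)).restrictScalars ℂ := by
      have hle : IntermediateField.adjoin ℂ (Set.range t) ≤
          (IntermediateField.adjoin L (Set.range t)).restrictScalars ℂ := by
        rw [IntermediateField.adjoin_le_iff]
        exact IntermediateField.subset_adjoin L _
      refine IntermediateField.eq_of_le_of_finrank_le' hle ?_
      exact not_lt.1 hlt
    have hfac : ∀ g : L, algebraMap L K g ∈ IntermediateField.adjoin ℂ (Set.range t) := by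
      intro g
      rw [hEF]
      exact (IntermediateField.adjoin L (Set.range t)).algebraMap_mem g
    exact ⟨fun _ _ => hfac, fun _ _ => hfac⟩

theorem tower_aux {n : ℕ} {Base : ∀ (K : Type) [Field K] [Algebra ℂ K], Prop}
    (hB : Descends Base) {c : ℕ} {K : Type} [i1 : Field K] [i2 : Algebra ℂ K] {L : Type}
    [i3 : Field L] [i4 : Algebra ℂ L] [i5 : Algebra L K] [i6 : IsScalarTower ℂ L K]
    (h : SpreadTower n Base c K L) : Algebra.trdeg ℂ K = (n : ℕ) → FiniteDimensional L K →
      (c = 1 → GenusZero L n → Base L) ∧ (c = 2 → ¬ N145.SX.CanGe L n n → Base L) := by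
  classical
  induction h with
  | @base K _ _ L _ _ _ _ h =>
    intro _ _
    exact ⟨fun _ _ => hB K L h, fun _ _ => hB K L h⟩
  | @cover K _ _ L _ _ _ _ q N p f x v w t hV β positive below ih =>
    intro hK hfd
    have fin := hV.fin
    obtain ⟨h1, h2⟩ := torus_step (c := c) hK f hV.nondeg x hV.point v w t hV.mono hV.fin hV.prim
      β positive
    refine ⟨fun hc hg => ?_, fun hc hg => ?_⟩
    · obtain ⟨j1, j2, j3, j4⟩ := factor_alg' L (h1 hc hg)
      exact (ih j1 j2 j3 (Pool.Agent.Y184.NT.trdeg_below (K := K) hK) j4).1 hc hg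
    · obtain ⟨j1, j2, j3, j4⟩ := factor_alg' L (h2 hc hg)
      exact (ih j1 j2 j3 (Pool.Agent.Y184.NT.trdeg_below (K := K) hK) j4).2 hc hg

/-- **The dichotomy.** -/
theorem dichotomy {n : ℕ} {Base : ∀ (K : Type) [Field K] [Algebra ℂ K], Prop}
    (hB : Descends Base) {K : Type} [Field K] [Algebra ℂ K] (hK : Algebra.trdeg ℂ K = (n : ℕ))
    (L : Type) [Field L] [Algebra ℂ L] [Algebra L K] [IsScalarTower ℂ L K]
    [FiniteDimensional L K] :
    (SpreadTower n Base 1 K L → GenusZero L n → Base L) ∧
    (SpreadTower n Base 2 K L → N145.SX.CanGe L n n ∨ Base L) :=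
  ⟨fun h => (tower_aux hB h hK inferInstance).1 rfl, fun h => by
    by_cases hg : N145.SX.CanGe L n n
    · exact Or.inl hg
    · exact Or.inr ((tower_aux hB h hK inferInstance).2 rfl hg)⟩

end Pool.Agent.V7H74.MG
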