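import Pool.Agent.V7H74.Defs

/-! The condition on the fixed points, with determinants of linear systems on the curves:
definitions. -/

set_option autoImplicit false
set_option linter.overlappingInstances false
set_option linter.unusedSectionVars false

universe u v

open FF IntermediateField Pool.Agent.W603.LV Pool.Agent.W619.TW Pool.Agent.V7H50

namespace Pool.Agent.V7H74

section

variable {k : Type v} {L : Type u} [Field k] [Field L] [Algebra k L] {n : ℕ}

/-- The condition on the ages, for a finite group `G` permuting the curves through `σ`.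
Let `g ≠ 1` in `G` have a fixed point on `Y` (in the sense of `FixIn`) and order `r`, let `l i` be
the length of the cycle of `i` under `σ g`, fix a
point `q i` on each of the curves `F i` on which `g ^ l i` is not trivial, let `g` map these points
to each other, and let `g ^ l i` act on the cotangent space at `q i` by `ζ ^ a i` with
`0 < a i < r`, where `ζ` is a primitive `r`-th root of unity; put `a i = 0` for the curves on which
`g ^ l i` is trivial (and let `q i` be any point of these). Then `N r ≤ cage`, that is,
`N r ≤ ∑ i, a i (N + ν i (q i)) / l i + N r (n - o) / 2 + c r (|J| - o') / 2 + N r / s`,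
where `o` is the number of the cycles of `σ g`, `J = Good` is the set of the curves on whose orbits
`g` permutes the functions `T i j`, these being regular at `q i` if `a i ≠ 0`, `o'` is the number of
the orbits in `J`, and `s` is the order of the action of `g` on `Y` if this action is not
trivial (the last summand is omitted if it is trivial). -/
def DetAge (M : IntermediateField k L) (G : Subgroup (L ≃ₐ[k] L)) (σ : G →* Equiv.Perm (Fin n))
    (F : Fin n → IntermediateField k L) (N c : ℕ)
    (ν : ∀ i, Place k (F i) →₀ ℕ) (T : ∀ i, Fin n → F i) : Prop :=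
  ∀ g : G, g ≠ 1 → FixIn M (g : L ≃ₐ[k] L) → ∀ ζ : k, IsPrimitiveRoot ζ (orderOf g) →
    ∀ (a : Fin n → ℕ) (q : ∀ i, Place k (F i)),
      (∀ i, (a i = 0 ∧ ∀ z ∈ F i,
          ((g ^ Function.minimalPeriod (σ g) i : G) : L ≃ₐ[k] L) z = z) ∨
        (0 < a i ∧ a i < orderOf g ∧
          IsRot (F i) ((g ^ Function.minimalPeriod (σ g) i : G) : L ≃ₐ[k] L) (q i) (ζ ^ a i))) →
      (∀ i, a i ≠ 0 → ∀ (z : F i) (z' : F (σ g i)), (z' : L) = (g : L ≃ₐ[k] L) z →
        (q (σ g i)).ord z' = (q i).ord z) →
      (N : ℝ) * orderOf g ≤ cage M G σ F N c ν T g a q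

/-- The condition for nonvanishing: for some `N ≥ 1` and `c ≥ 0`, effective divisors `ν i` and `μ i`
on the curves, and functions `T i j` (`j < n`) on the curves, with poles bounded by `μ i` and with
nonzero determinant, the condition on the ages holds, and `N K - ν i - c μ i` has positive degree or
is `ℚ`-effective for each of the irrational curves. -/
def DetCond (M : IntermediateField k L) (G : Subgroup (L ≃ₐ[k] L)) (σ : G →* Equiv.Perm (Fin n))
    (F : Fin n → IntermediateField k L) : Prop :=
  ∃ (N c : ℕ) (ν μ : ∀ i, Place k (F i) →₀ ℕ) (T : ∀ i, Fin n → F i),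
    1 ≤ N ∧ dt T ≠ 0 ∧ (∀ i j, T i j ≠ 0 → ∀ q : Place k (F i), -(μ i q : ℤ) ≤ q.ord (T i j)) ∧
      DetAge M G σ F N c ν T ∧
      ∀ i, (¬ ∃ t : F i, k⟮t⟯ = ⊤) → 0 < rdeg N (tot c ν μ i) ∨ SubCan N (tot c ν μ i)

/-- The condition for abundance: for some `N ≥ 1` and `c ≥ 0`, effective divisors `ν i` and `μ i`
on the curves, and functions `T i j` (`j < n`) on the curves, with poles bounded by `μ i` and with
nonzero determinant, the condition on the ages holds, and `N K - ν i - c μ i` has positive degree
for each of the curves of genus at least two and is `ℚ`-effective for each of the elliptic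
curves. -/
def DetCondPos (M : IntermediateField k L) (G : Subgroup (L ≃ₐ[k] L))
    (σ : G →* Equiv.Perm (Fin n)) (F : Fin n → IntermediateField k L) : Prop :=
  ∃ (N c : ℕ) (ν μ : ∀ i, Place k (F i) →₀ ℕ) (T : ∀ i, Fin n → F i),
    1 ≤ N ∧ dt T ≠ 0 ∧ (∀ i j, T i j ≠ 0 → ∀ q : Place k (F i), -(μ i q : ℤ) ≤ q.ord (T i j)) ∧
      DetAge M G σ F N c ν T ∧
      ∀ i, (0 < canDeg k (F i) → 0 < rdeg N (tot c ν μ i)) ∧
        (canDeg k (F i) = 0 → SubCan N (tot c ν μ i))

end

end Pool.Agent.V7H74
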