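import Pool.Agent.V7H74.Main
import Pool.Agent.V7H74.SDefs

/-! The criterion without volumes. -/

set_option autoImplicit false
set_option linter.overlappingInstances false
set_option linter.unusedSectionVars false

universe u v

open FF IntermediateField Pool.Agent.W603.LV Pool.Agent.W619.TW
open Pool.Agent.V7H50 hiding AgeCond NumCond NumCondPos log_est kod_low effN classN nvN abN

namespace Pool.Agent.V7H74

section

variable {k : Type v} {L : Type u} [Field k] [Field L] [Algebra k L] {n : ℕ}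

theorem ageCond_of_det {M : IntermediateField k L} {G : Subgroup (L ≃ₐ[k] L)}
    {σ : G →* Equiv.Perm (Fin n)} {F : Fin n → IntermediateField k L} {N c : ℕ}
    {ν : ∀ i, Place k (F i) →₀ ℕ} {T : ∀ i, Fin n → F i} (h : DetAge M G σ F N c ν T)
    (ξ : ∀ i, Place k (F i) →₀ ℕ) : AgeCond M G σ F N c ν ξ T ∅ (fun _ _ => 0) :=
  fun g hg hM ζ hζ a q h1 h2 => Or.inl (h g hg hM ζ hζ a q h1 h2)

theorem volCond_empty (F : Fin n → IntermediateField k L) (N : ℕ)
    (ξ : ∀ i, Place k (F i) →₀ ℕ) : VolCond F N ξ ∅ (fun _ _ => 0) := by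
  classical
  refine ⟨fun p hp => absurd hp (Finset.notMem_empty p), ?_⟩
  rw [Finset.sum_empty]
  exact Finset.prod_pos fun i _ => by exact_mod_cast i.2

theorem DetCond.num {M : IntermediateField k L} {G : Subgroup (L ≃ₐ[k] L)}
    {σ : G →* Equiv.Perm (Fin n)} {F : Fin n → IntermediateField k L} (h : DetCond M G σ F) :
    NumCond M G σ F := by
  obtain ⟨N, c, ν, μ, T, hN, hdt, hT, hage, hsub⟩ := h
  exact ⟨N, c, ν, μ, T, ∅, _, hN, hdt, hT, ageCond_of_det hage _, volCond_empty F N _, hsub⟩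

theorem DetCondPos.num {M : IntermediateField k L} {G : Subgroup (L ≃ₐ[k] L)}
    {σ : G →* Equiv.Perm (Fin n)} {F : Fin n → IntermediateField k L} (h : DetCondPos M G σ F) :
    NumCondPos M G σ F := by
  obtain ⟨N, c, ν, μ, T, hN, hdt, hT, hage, hsub⟩ := h
  exact ⟨N, c, ν, μ, T, ∅, _, hN, hdt, hT, ageCond_of_det hage _, volCond_empty F N _, hsub⟩

end

end Pool.Agent.V7H74
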