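import Pool.Agent.Y888.NT.FinDer
import Pool.Agent.Y929.NT.W0
import Pool.Agent.Y184.NT.Cong2
import Pool.Agent.Y954.NT.GT
import Pool.Agent.Y172.Cov3

/-!
Differential forms of the second kind: definitions, exact forms and divergences.
-/

set_option autoImplicit false
set_option linter.overlappingInstances false
set_option linter.unusedSectionVars false
set_option linter.unusedVariables false

open FF Polynomial Pool.Agent.W602.GT

namespace Pool.Agent.V7H74.SK

section

variable {K : Type} [Field K] [Algebra ℂ K] {n : ℕ}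

/-- The `n`-form `dh 1 ∧ ... ∧ dh n`, as a function of `n` rational vector fields. -/
noncomputable def wedge (h : Fin n → K) (D : Fin n → Derivation ℂ K K) : K :=
  (Matrix.of fun i j => D i (h j)).det

/-- The rational `n`-form `ω` is exact: `ω = d η` for a rational `(n - 1)`-form `η`. Since `η` is a sum
of forms `h 1 dh 2 ∧ ... ∧ dh n`, this means that `ω` is a sum of forms `dh 1 ∧ ... ∧ dh n`. -/
def IsExact (ω : (Fin n → Derivation ℂ K K) → K) : Prop :=
  ∃ (m : ℕ) (h : Fin m → Fin n → K), ∀ D, ω D = ∑ k, wedge (h k) D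

/-- The rational `n`-form `ω` is of the second kind: at each prime divisor on each model it is the
sum of an exact form and a regular form. -/
def SecondKind (ω : (Fin n → Derivation ℂ K K) → K) : Prop :=
  IsPluri 1 ω ∧ ∀ P : Place ℂ K, Divisorial n P → ∃ η : (Fin n → Derivation ℂ K K) → K,
    IsExact η ∧ RegAt P (fun D => ω D - η D)

/-- sums of derivatives -/
def IsDiv (D : Fin n → Derivation ℂ K K) (f : K) : Prop := ∃ g : Fin n → K, f = ∑ i, D i (g i)

variable {D : Fin n → Derivation ℂ K K}

theorem IsDiv.add {f f' : K} (h : IsDiv D f) (h' : IsDiv D f') : IsDiv D (f + f') := by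
  obtain ⟨g, rfl⟩ := h
  obtain ⟨g', rfl⟩ := h'
  exact ⟨fun i => g i + g' i, by simp only [map_add, Finset.sum_add_distrib]⟩

theorem IsDiv.zero : IsDiv D 0 := ⟨0, by simp⟩

theorem IsDiv.sum {ι : Type*} (s : Finset ι) {f : ι → K} (h : ∀ k ∈ s, IsDiv D (f k)) :
    IsDiv D (∑ k ∈ s, f k) := by
  classical
  induction s using Finset.induction_on with
  | empty => rw [Finset.sum_empty]; exact IsDiv.zero
  | insert a s ha ih =>
    rw [Finset.sum_insert ha]
    exact (h a (Finset.mem_insert_self a s)).add
      (ih fun k hk => h k (Finset.mem_insert_of_mem hk))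

theorem IsDiv.one (i : Fin n) (g : K) : IsDiv D (D i g) := by
  classical
  refine ⟨fun j => if j = i then g else 0, ?_⟩
  rw [Finset.sum_eq_single i]
  · change D i g = D i (if i = i then g else 0)
    rw [if_pos rfl]
  · intro j _ hj
    change D j (if j = i then g else 0) = 0
    rw [if_neg hj, map_zero]
  · intro h
    exact absurd (Finset.mem_univ _) h

theorem IsDiv.smul_const {f : K} (h : IsDiv D f) (c : ℂ) : IsDiv D (c • f) := by
  obtain ⟨g, rfl⟩ := h
  exact ⟨fun i => c • g i, by
    rw [Finset.smul_sum]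
    exact Finset.sum_congr rfl fun i _ => ((D i).map_smul c (g i)).symm⟩

/-- the derivative of a product -/
theorem der_prod {ι : Type*} [DecidableEq ι] (δ : Derivation ℂ K K) (s : Finset ι) (f : ι → K) :
    δ (∏ k ∈ s, f k) = ∑ k ∈ s, (∏ j ∈ s.erase k, f j) * δ (f k) := by
  induction s using Finset.induction_on with
  | empty => rw [Finset.prod_empty, Finset.sum_empty, δ.map_one_eq_zero]
  | insert a s ha ih =>
    rw [Finset.prod_insert ha, δ.leibniz, smul_eq_mul, smul_eq_mul, ih, Finset.sum_insert ha,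
      Finset.erase_insert ha, Finset.mul_sum, add_comm]
    congr 1
    refine Finset.sum_congr rfl fun k hk => ?_
    have hka : k ≠ a := fun h => ha (h ▸ hk)
    rw [Finset.erase_insert_of_ne hka.symm, Finset.prod_insert fun h => ha (Finset.mem_of_mem_erase h)]
    ring

/-- **Functional determinants are divergences.** -/
theorem wedge_div (hc : ∀ i j x, D i (D j x) = D j (D i x)) (j0 : Fin n) (h : Fin n → K) :
    IsDiv D (wedge h D) := by
  classical
  obtain ⟨R, hR⟩ : ∃ R : Equiv.Perm (Fin n) → K,
      R = fun σ => ∏ j ∈ Finset.univ.erase j0, D (σ j) (h j) := ⟨_, rfl⟩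
  obtain ⟨ε, hε⟩ : ∃ ε : Equiv.Perm (Fin n) → K,
      ε = fun σ => (((Equiv.Perm.sign σ : ℤ)) : K) := ⟨_, rfl⟩
  have hεD : ∀ σ (δ : Derivation ℂ K K) (x : K), δ (ε σ * x) = ε σ * δ x := by
    intro σ δ x
    rw [hε]
    rcases Int.units_eq_one_or (Equiv.Perm.sign σ) with h1 | h1 <;> simp [h1]
  -- the second part of the derivative of the products vanishes
  have hzero : ∑ σ, ε σ * D (σ j0) (R σ) = 0 := by
    have e1 : ∑ σ, ε σ * D (σ j0) (R σ) = ∑ k ∈ Finset.univ.erase j0, ∑ σ, ε σ *
        ((∏ j ∈ (Finset.univ.erase j0).erase k, D (σ j) (h j)) * D (σ j0) (D (σ k) (h k))) := by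
      rw [Finset.sum_comm]
      refine Finset.sum_congr rfl fun σ _ => ?_
      rw [← Finset.mul_sum, hR]
      simp only
      rw [der_prod]
    rw [e1]
    refine Finset.sum_eq_zero fun k hk => ?_
    have hk0 : k ≠ j0 := (Finset.mem_erase.1 hk).1
    obtain ⟨F, hF⟩ : ∃ F : Equiv.Perm (Fin n) → K, F = fun σ => ε σ *
        ((∏ j ∈ (Finset.univ.erase j0).erase k, D (σ j) (h j)) * D (σ j0) (D (σ k) (h k))) :=
      ⟨_, rfl⟩
    have hsw : ∀ σ, F (σ * Equiv.swap j0 k) = - F σ := by
      intro σ
      rw [hF]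
      simp only
      have e2 : ε (σ * Equiv.swap j0 k) = - ε σ := by
        rw [hε]
        simp only
        rw [Equiv.Perm.sign_mul, Equiv.Perm.sign_swap hk0.symm]
        simp
      have e3 : ∏ j ∈ (Finset.univ.erase j0).erase k, D ((σ * Equiv.swap j0 k) j) (h j) =
          ∏ j ∈ (Finset.univ.erase j0).erase k, D (σ j) (h j) := by
        refine Finset.prod_congr rfl fun j hj => ?_
        have h1 := Finset.mem_erase.1 hj
        have h2 := Finset.mem_erase.1 h1.2
        rw [Equiv.Perm.mul_apply, Equiv.swap_apply_of_ne_of_ne h2.1 h1.1]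
      rw [e2, e3, Equiv.Perm.mul_apply, Equiv.Perm.mul_apply, Equiv.swap_apply_left,
        Equiv.swap_apply_right, hc]
      ring
    have e4 : ∑ σ, F σ = - ∑ σ, F σ := by
      rw [← Finset.sum_neg_distrib]
      simp only [← hsw]
      exact (Equiv.sum_comp (Equiv.mulRight (Equiv.swap j0 k)) F).symm
    have e5 : ∑ σ, F σ = 0 := by
      have : CharZero K := charZero_of_injective_algebraMap (algebraMap ℂ K).injective
      exact self_eq_neg.1 e4
    rw [hF] at e5
    exact e5
  have hdet : wedge h D = ∑ σ, ε σ * D (σ j0) (h j0 * R σ) := by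
    have e6 : ∀ σ, ε σ * D (σ j0) (h j0 * R σ) =
        ε σ * ∏ j, D (σ j) (h j) + h j0 * (ε σ * D (σ j0) (R σ)) := by
      intro σ
      have e7 : D (σ j0) (h j0) * R σ = ∏ j, D (σ j) (h j) := by
        rw [hR]
        exact Finset.mul_prod_erase Finset.univ (fun j => D (σ j) (h j)) (Finset.mem_univ j0)
      rw [(D (σ j0)).leibniz, smul_eq_mul, smul_eq_mul, ← e7]
      ring
    simp only [e6]
    rw [Finset.sum_add_distrib, ← Finset.mul_sum, hzero, mul_zero, add_zero, wedge,
      Matrix.det_apply', hε]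
    rfl
  rw [hdet]
  refine IsDiv.sum _ fun σ _ => ?_
  rw [← hεD]
  exact IsDiv.one _ _

theorem exact_div (hc : ∀ i j x, D i (D j x) = D j (D i x)) (hn : 0 < n)
    {ω : (Fin n → Derivation ℂ K K) → K} (h : IsExact ω) : IsDiv D (ω D) := by
  obtain ⟨m, h, hh⟩ := h
  rw [hh]
  exact IsDiv.sum _ fun k _ => wedge_div hc ⟨0, hn⟩ (h k)

/-- the dual vector fields of a transcendence basis commute -/
theorem dual_comm {y : Fin n → K} (hy : IsTranscendenceBasis ℂ y)
    (hD : ∀ i j, D i (y j) = if i = j then 1 else 0) (i j : Fin n) (x : K) :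
    D i (D j x) = D j (D i x) := by
  have h1 := Pool.Agent.W619.TW.der_zero ⁅D i, D j⁆ y hy (fun k => by
    rw [Derivation.commutator_apply, hD, hD]
    split_ifs <;> simp) x
  rw [Derivation.commutator_apply] at h1
  exact sub_eq_zero.1 h1

/-- the form with the coefficient `f` in the coordinates `y` is exact if `f` is a divergence -/
theorem exact_of_div {y : Fin n → K} (hy : IsTranscendenceBasis ℂ y)
    (hD : ∀ i j, D i (y j) = if i = j then 1 else 0) {ω : (Fin n → Derivation ℂ K K) → K}
    (hω : IsPluri 1 ω) (h : IsDiv D (ω D)) : IsExact ω := by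
  classical
  obtain ⟨g, hg⟩ := h
  refine ⟨n, fun k => Function.update y k (g k), fun G => ?_⟩
  have hco := fun (ω : (Fin n → Derivation ℂ K K) → K) (hω : IsPluri 1 ω) =>
    Pool.Agent.Y172.pluri_coord hy hD hω G
  rw [hco ω hω, hg, Finset.mul_sum]
  refine Finset.sum_congr rfl fun k _ => ?_
  have hp : IsPluri 1 (wedge (Function.update y k (g k))) := by
    intro A E
    rw [wedge, wedge, pow_one, ← Matrix.det_mul]
    congr 1
    ext i j
    rw [Matrix.of_apply, Matrix.mul_apply]
    change (∑ j, A i j • E j) _ = _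
    rw [← Derivation.coeFnAddMonoidHom_apply, map_sum, Finset.sum_apply]
    rfl
  rw [hco _ hp]
  congr 1
  rw [wedge]
  have e1 : (Matrix.of fun i j => D i (Function.update y k (g k) j) : Matrix (Fin n) (Fin n) K) =
      Matrix.updateCol (1 : Matrix (Fin n) (Fin n) K) k fun i => D i (g k) := by
    ext i j
    rw [Matrix.of_apply]
    by_cases hj : j = k
    · subst hj
      rw [Function.update_self, Matrix.updateCol_self]
    · rw [Function.update_of_ne hj, Matrix.updateCol_ne hj, hD, Matrix.one_apply]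
  rw [e1, ← Matrix.cramer_apply, Matrix.cramer_one]
  rfl

end

end Pool.Agent.V7H74.SK
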