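import Pool.Agent.V7H74.Sk1

/-!
Residues of top forms on a field of rational functions, and divergences.
-/

set_option autoImplicit false
set_option linter.overlappingInstances false
set_option linter.unusedSectionVars false
set_option linter.unusedVariables false

open FF Polynomial Pool.Agent.W602.GT Pool.Agent.Y184.NT

namespace Pool.Agent.V7H74.SK

section

variable {M : Type} [Field M] [Algebra ℂ M]

/-- the constant `a` -/
noncomputable abbrev cc (a : M) : RatFunc M := algebraMap M (RatFunc M) a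

/-- the local parameter at `θ` -/
noncomputable def ss (θ : M) : RatFunc M := io (X - C θ)

theorem ss_eq (θ : M) : ss θ = RatFunc.X - cc θ := by
  rw [ss, io, map_sub, ← io, ← io, io_X, io_C]

theorem ss_ne (θ : M) : ss θ ≠ 0 := io_ne (X_sub_C_ne_zero θ)

/-- `f` is regular at `θ` -/
def At (θ : M) (f : RatFunc M) : Prop := ∃ κ : M, Sp θ f κ

theorem At.add {θ : M} {f f' : RatFunc M} (h : At θ f) (h' : At θ f') : At θ (f + f') := by
  obtain ⟨κ, h⟩ := h
  obtain ⟨κ', h'⟩ := h'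
  exact ⟨_, h.add h'⟩

theorem At.sub {θ : M} {f f' : RatFunc M} (h : At θ f) (h' : At θ f') : At θ (f - f') := by
  obtain ⟨κ, h⟩ := h
  obtain ⟨κ', h'⟩ := h'
  exact ⟨_, h.sub h'⟩

theorem At.mul {θ : M} {f f' : RatFunc M} (h : At θ f) (h' : At θ f') : At θ (f * f') := by
  obtain ⟨κ, h⟩ := h
  obtain ⟨κ', h'⟩ := h'
  exact ⟨_, h.mul h'⟩

theorem sp_cc (θ a : M) : Sp θ (cc a) a := by
  have h := Sp.poly (τ := θ) (C a : M[X])
  rwa [aeval_C, Algebra.algebraMap_self_apply, io_C] at h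

theorem sp_ss (θ θ' : M) : Sp θ (ss θ') (θ - θ') := by
  have h := Sp.poly (τ := θ) (X - C θ' : M[X])
  rwa [map_sub, aeval_X, aeval_C, Algebra.algebraMap_self_apply] at h

theorem sp_uniq {θ κ κ' : M} {f : RatFunc M} (h : Sp θ f κ) (h' : Sp θ f κ') : κ = κ' := by
  obtain ⟨A, B, h1, h2, h3⟩ := h
  obtain ⟨A', B', h1', h2', h3'⟩ := h'
  have h4 : A * B' = A' * B := by
    refine io_inj ?_
    rw [io, io, map_mul, map_mul]
    change io A * io B' = io A' * io B
    rw [← h2, ← h2']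
    ring
  have h5 := congrArg (aeval θ) h4
  rw [map_mul, map_mul, h3, h3'] at h5
  refine mul_right_cancel₀ (mul_ne_zero h1 h1') ?_
  linear_combination h5

theorem At.zero (θ : M) : At θ (0 : RatFunc M) := by
  have h := sp_cc θ (0 : M)
  rw [cc, map_zero] at h
  exact ⟨_, h⟩

theorem At.sum {ι : Type*} {θ : M} (S : Finset ι) {f : ι → RatFunc M} (h : ∀ k ∈ S, At θ (f k)) :
    At θ (∑ k ∈ S, f k) := by
  classical
  induction S using Finset.induction_on with
  | empty => rw [Finset.sum_empty]; exact At.zero θ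
  | insert a S ha ih =>
    rw [Finset.sum_insert ha]
    exact (h a (Finset.mem_insert_self a S)).add
      (ih fun k hk => h k (Finset.mem_insert_of_mem hk))

theorem at_inv {θ θ' : M} (h : θ ≠ θ') : At θ (ss θ')⁻¹ :=
  ⟨_, (sp_ss θ θ').inv (sub_ne_zero.2 h)⟩

/-- the value is split off -/
theorem sp_factor {θ κ : M} {f : RatFunc M} (h : Sp θ f κ) : ∃ u, At θ u ∧ f = cc κ + ss θ * u := by
  obtain ⟨A, B, h1, h2, h3⟩ := h
  have hB : io B ≠ 0 := io_ne fun h0 => h1 (by rw [h0, map_zero])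
  have h4 : (A - C κ * B).IsRoot θ := by
    rw [IsRoot.def, eval_sub, eval_mul, eval_C]
    rw [← coe_aeval_eq_eval]
    change aeval θ A - κ * aeval θ B = 0
    rw [h3, sub_self]
  obtain ⟨q, hq⟩ := dvd_iff_isRoot.2 h4
  refine ⟨io q / io B, ⟨aeval θ q / aeval θ B, (Sp.poly q).div (Sp.poly B) h1⟩, ?_⟩
  have h5 : io A - cc κ * io B = ss θ * io q := by
    rw [show cc κ = io (C κ) from (io_C κ).symm, ss]
    change algebraMap _ _ A - algebraMap _ _ (C κ) * algebraMap _ _ B =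
      algebraMap _ _ (X - C θ) * algebraMap _ _ q
    rw [← map_mul, ← map_mul, ← map_sub, hq]
  field_simp
  rw [h2]
  linear_combination h5

theorem exists_pow (θ : M) (f : RatFunc M) : ∃ N : ℕ, At θ (ss θ ^ N * f) := by
  obtain ⟨N, q, hq, hne⟩ : ∃ (N : ℕ) (q : M[X]), f.denom = (X - C θ) ^ N * q ∧ ¬ X - C θ ∣ q := by
    obtain ⟨q, hq, hne⟩ :=
      exists_eq_pow_rootMultiplicity_mul_and_not_dvd f.denom f.denom_ne_zero θ
    exact ⟨_, q, hq, hne⟩
  refine ⟨N, ?_⟩
  have h1 : aeval θ q ≠ 0 := by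
    intro h0
    refine hne (dvd_iff_isRoot.2 ?_)
    rw [IsRoot.def, ← coe_aeval_eq_eval]
    exact h0
  have h2 : f = io f.num / io f.denom := (RatFunc.num_div_denom f).symm
  have hq0 : io q ≠ 0 := io_ne fun h0 => h1 (by rw [h0, map_zero])
  refine ⟨_, ⟨f.num, q, h1, ?_, (div_mul_cancel₀ (aeval θ f.num) h1).symm⟩⟩
  have h3 : io f.denom = ss θ ^ N * io q := by
    rw [hq, ss]
    simp only [io, map_mul, map_pow]
  have h4 : io f.denom ≠ 0 := io_ne f.denom_ne_zero
  have h5 : f * io f.denom = io f.num := (eq_div_iff h4).1 h2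
  rw [h3] at h5
  rw [← h5]
  ring

variable {m : ℕ} {E : Fin m → Derivation ℂ M M}
  {δ : Fin (m + 1) → Derivation ℂ (RatFunc M) (RatFunc M)}

/-- the vector fields `∂/∂X` and the extensions of the `E i` -/
structure Fr (E : Fin m → Derivation ℂ M M)
    (δ : Fin (m + 1) → Derivation ℂ (RatFunc M) (RatFunc M)) : Prop where
  zero_X : δ 0 RatFunc.X = 1
  zero_cc : ∀ l, δ 0 (cc l) = 0
  succ_X : ∀ i : Fin m, δ i.succ RatFunc.X = 0
  succ_cc : ∀ (i : Fin m) l, δ i.succ (cc l) = cc (E i l)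
  comm : ∀ i j x, δ i (δ j x) = δ j (δ i x)

theorem Fr.reg (h : Fr E δ) {θ : M} {w : Place ℂ (RatFunc M)} (hw : IsW0 (X - C θ) w)
    (i : Fin (m + 1)) : DerReg w (δ i) :=
  hw.derReg (der_poly (fun l => by
    refine Fin.cases ?_ (fun i => ?_) i
    · exact ⟨0, by rw [h.zero_cc, io, map_zero]⟩
    · exact ⟨C (E i l), by rw [h.succ_cc, io_C]⟩) (by
    refine Fin.cases ?_ (fun i => ?_) i
    · exact ⟨1, by rw [h.zero_X, io, map_one]⟩
    · exact ⟨0, by rw [h.succ_X, io, map_zero]⟩))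

theorem dvd_iff (θ : M) (A : M[X]) : X - C θ ∣ A ↔ aeval θ A = 0 := by
  rw [dvd_iff_isRoot, IsRoot.def, ← coe_aeval_eq_eval]

theorem at_iff {θ : M} {w : Place ℂ (RatFunc M)} (hw : IsW0 (X - C θ) w) (f : RatFunc M) :
    At θ f ↔ w.Reg f :=
  ⟨fun ⟨_, h⟩ => h.reg hw (dvd_iff θ), fun h => Sp.of_reg hw (dvd_iff θ) h⟩

theorem exists_place (θ : M) : ∃ w, IsW0 (X - C θ) w :=
  exists_w0 Pool.Agent.Y929.NT.t_W0 (irreducible_X_sub_C θ)

theorem Fr.at (h : Fr E δ) {θ : M} {f : RatFunc M} (hf : At θ f) (i : Fin (m + 1)) :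
    At θ (δ i f) := by
  obtain ⟨w, hw⟩ := exists_place θ
  rw [at_iff hw] at hf ⊢
  exact h.reg hw i f hf

theorem Fr.ss_zero (h : Fr E δ) (θ : M) : δ 0 (ss θ) = 1 := by
  rw [ss_eq, map_sub, h.zero_X, h.zero_cc, sub_zero]

theorem Fr.ss_succ (h : Fr E δ) (θ : M) (i : Fin m) : δ i.succ (ss θ) = - cc (E i θ) := by
  rw [ss_eq, map_sub, h.succ_X, h.succ_cc, zero_sub]

theorem der_inv (D : Derivation ℂ (RatFunc M) (RatFunc M)) {x : RatFunc M} (hx : x ≠ 0) :
    D x⁻¹ = - D x / x ^ 2 := by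
  rw [D.leibniz_inv, smul_eq_mul]
  field_simp

/-- negative powers of the parameter are derivatives -/
theorem Fr.pow (h : Fr E δ) (θ c : M) (N : ℕ) :
    δ 0 (- (cc c / ((N + 1 : ℕ) : RatFunc M)) * (ss θ ^ (N + 1))⁻¹) = cc c * (ss θ ^ (N + 2))⁻¹ := by
  have hs := ss_ne θ
  have hN : ((N + 1 : ℕ) : RatFunc M) ≠ 0 := by
    have : CharZero (RatFunc M) :=
      charZero_of_injective_algebraMap (algebraMap ℂ (RatFunc M)).injective
    exact Nat.cast_ne_zero.2 (Nat.succ_ne_zero N)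
  have h0 : δ 0 (- (cc c / ((N + 1 : ℕ) : RatFunc M))) = 0 := by
    have e : - (cc c / ((N + 1 : ℕ) : RatFunc M)) = cc (- (c / ((N + 1 : ℕ) : M))) := by
      rw [cc, cc, map_neg, map_div₀, map_natCast]
    rw [e, h.zero_cc]
  rw [(δ 0).leibniz, h0, smul_zero, add_zero, smul_eq_mul, der_inv _ (pow_ne_zero _ hs),
    (δ 0).leibniz_pow, h.ss_zero, smul_eq_mul, mul_one, nsmul_eq_mul, Nat.add_sub_cancel]
  field_simp
  ring

/-- `b` is the residue of `f` at `θ` -/
def Res (δ : Fin (m + 1) → Derivation ℂ (RatFunc M) (RatFunc M)) (θ : M) (f : RatFunc M)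
    (b : M) : Prop :=
  ∃ w v, At θ v ∧ f = δ 0 w + cc b * (ss θ)⁻¹ + v

theorem Res.add {θ : M} {f f' : RatFunc M} {b b' : M} (h : Res δ θ f b) (h' : Res δ θ f' b') :
    Res δ θ (f + f') (b + b') := by
  obtain ⟨w, v, h1, rfl⟩ := h
  obtain ⟨w', v', h1', rfl⟩ := h'
  refine ⟨w + w', v + v', h1.add h1', ?_⟩
  rw [map_add, cc, cc, cc, map_add]
  ring

theorem Res.of_at {θ : M} {f : RatFunc M} (h : At θ f) : Res δ θ f 0 :=
  ⟨0, f, h, by rw [map_zero, cc, map_zero, zero_mul, zero_add, zero_add]⟩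

theorem Res.zero_der (θ : M) (f : RatFunc M) : Res δ θ (δ 0 f) 0 :=
  ⟨f, 0, At.zero θ, by rw [cc, map_zero, zero_mul, add_zero, add_zero]⟩

theorem Fr.res (h : Fr E δ) {θ : M} {f : RatFunc M} {b : M} (hf : Res δ θ f b) (i : Fin m) :
    Res δ θ (δ i.succ f) (E i b) := by
  obtain ⟨w, v, h1, rfl⟩ := hf
  have hs := ss_ne θ
  refine ⟨δ i.succ w - cc (b * E i θ) * (ss θ)⁻¹, δ i.succ v, h.at h1 _, ?_⟩
  have e1 : δ 0 (cc (b * E i θ) * (ss θ)⁻¹) = - cc (b * E i θ) * (ss θ ^ 2)⁻¹ := by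
    rw [(δ 0).leibniz, h.zero_cc, smul_zero, add_zero, smul_eq_mul, der_inv _ hs, h.ss_zero]
    ring
  rw [map_add, map_add, map_sub, h.comm i.succ 0, e1, (δ i.succ).leibniz, h.succ_cc,
    der_inv _ hs, h.ss_succ, smul_eq_mul, smul_eq_mul]
  have e2 : cc (b * E i θ) = cc b * cc (E i θ) := map_mul _ _ _
  rw [e2]
  field_simp
  ring

theorem Fr.exists_res (h : Fr E δ) (θ : M) (f : RatFunc M) : ∃ b, Res δ θ f b := by
  obtain ⟨N, hN⟩ := exists_pow θ f
  have hs := ss_ne θ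
  induction N generalizing f with
  | zero =>
    rw [pow_zero, one_mul] at hN
    exact ⟨0, Res.of_at hN⟩
  | succ N ih =>
    obtain ⟨κ, hκ⟩ := hN
    obtain ⟨u, hu, he⟩ := sp_factor hκ
    have h1 : f = cc κ * (ss θ ^ (N + 1))⁻¹ + u * (ss θ ^ N)⁻¹ := by
      have h2 : ss θ ^ (N + 1) ≠ 0 := pow_ne_zero _ hs
      field_simp
      rw [mul_comm f, he]
      ring
    obtain ⟨b, hb⟩ := ih (u * (ss θ ^ N)⁻¹) (by
      have h2 : ss θ ^ N ≠ 0 := pow_ne_zero _ hs
      rw [mul_comm u, mul_inv_cancel_left₀ h2]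
      exact hu)
    rw [h1]
    rcases N with _ | N
    · refine ⟨κ + b, Res.add ⟨0, 0, At.zero θ, ?_⟩ hb⟩
      rw [map_zero, zero_add, add_zero, zero_add, pow_one]
    · refine ⟨0 + b, Res.add ?_ hb⟩
      rw [← h.pow θ κ N]
      exact Res.zero_der _ _

theorem Fr.res_zero (h : Fr E δ) {θ : M} {b : M} (hf : Res δ θ 0 b) : b = 0 := by
  classical
  obtain ⟨w, v, hv, he⟩ := hf
  have hs := ss_ne θ
  have hex := exists_pow θ w
  obtain ⟨N, hN, hmin⟩ : ∃ N, At θ (ss θ ^ N * w) ∧ ∀ N' < N, ¬ At θ (ss θ ^ N' * w) :=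
    ⟨Nat.find hex, Nat.find_spec hex, fun N' h => Nat.find_min hex h⟩
  have hss : Sp θ (ss θ) 0 := by
    have := sp_ss θ θ
    rwa [sub_self] at this
  rcases N with _ | N
  · rw [pow_zero, one_mul] at hN
    obtain ⟨κ, hκ⟩ := (h.at hN 0).add hv
    have h1 : cc b = (cc (-1) * ss θ) * (δ 0 w + v) := by
      have h2 : δ 0 w + v = - (cc b * (ss θ)⁻¹) := by linear_combination - he
      rw [h2, cc, cc, map_neg, map_one]
      field_simp
    have h3 := ((sp_cc θ (-1)).mul hss).mul hκ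
    rw [← h1, mul_zero, zero_mul] at h3
    exact sp_uniq (sp_cc θ b) h3
  · exfalso
    obtain ⟨κ, hκ⟩ := hN
    have hκ0 : κ ≠ 0 := by
      rintro rfl
      obtain ⟨u, hu, hue⟩ := sp_factor hκ
      refine hmin N (Nat.lt_succ_self N) ?_
      have h1 : ss θ * (ss θ ^ N * w) = ss θ * u := by
        rw [← mul_assoc, ← pow_succ', hue, cc, map_zero, zero_add]
      rw [mul_left_cancel₀ hs h1]
      exact hu
    obtain ⟨u, hue⟩ : ∃ u, u = ss θ ^ (N + 1) * w := ⟨_, rfl⟩
    rw [← hue] at hκ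
    have hw : w = u * (ss θ ^ (N + 1))⁻¹ := by
      rw [hue]
      field_simp
    obtain ⟨κ1, hκ1⟩ := h.at ⟨κ, hκ⟩ 0
    obtain ⟨κ2, hκ2⟩ := hv
    have hd : δ 0 w = δ 0 u * (ss θ ^ (N + 1))⁻¹ -
        ((N + 1 : ℕ) : RatFunc M) * u * (ss θ ^ (N + 2))⁻¹ := by
      rw [hw, (δ 0).leibniz, smul_eq_mul, smul_eq_mul, der_inv _ (pow_ne_zero _ hs),
        (δ 0).leibniz_pow, h.ss_zero, smul_eq_mul, mul_one, nsmul_eq_mul, Nat.add_sub_cancel]
      field_simp
      ring
    have h4 : ss θ * δ 0 u + (cc (-(N + 1 : ℕ) : M) * u +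
        (ss θ * (ss θ ^ N * cc b) + ss θ * (ss θ ^ (N + 1) * v))) = 0 := by
      have h5 := congrArg (fun z => ss θ ^ (N + 2) * z) he
      simp only [mul_zero] at h5
      rw [h5, hd, cc, cc, map_neg, map_natCast]
      field_simp
      ring
    have hpow : ∀ k : ℕ, ∃ κ', Sp θ (ss θ ^ k) κ' := by
      intro k
      induction k with
      | zero =>
        rw [pow_zero]
        have := sp_cc θ (1 : M)
        rw [cc, map_one] at this
        exact ⟨_, this⟩
      | succ k ih =>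
        obtain ⟨κ', h'⟩ := ih
        rw [pow_succ]
        exact ⟨_, h'.mul hss⟩
    obtain ⟨κ3, hκ3⟩ := hpow N
    obtain ⟨κ4, hκ4⟩ := hpow (N + 1)
    have h6 := (hss.mul hκ1).add (((sp_cc θ (-(N + 1 : ℕ) : M)).mul hκ).add
      ((hss.mul (hκ3.mul (sp_cc θ b))).add (hss.mul (hκ4.mul hκ2))))
    rw [h4, zero_mul, zero_mul, zero_mul, zero_add, zero_add, add_zero] at h6
    have h7 : Sp θ (0 : RatFunc M) 0 := by
      have := sp_cc θ (0 : M)
      rwa [cc, map_zero] at this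
    have h8 := sp_uniq h7 h6
    have : CharZero M := charZero_of_injective_algebraMap (algebraMap ℂ M).injective
    have h9 : (-((N + 1 : ℕ) : M)) ≠ 0 := neg_ne_zero.2 (Nat.cast_ne_zero.2 (Nat.succ_ne_zero N))
    exact mul_ne_zero h9 hκ0 h8.symm

theorem Fr.res_uniq (h : Fr E δ) {θ : M} {f : RatFunc M} {b b' : M} (hf : Res δ θ f b)
    (hf' : Res δ θ f b') : b = b' := by
  obtain ⟨w, v, hv, rfl⟩ := hf
  obtain ⟨w', v', hv', he⟩ := hf'
  refine sub_eq_zero.1 (h.res_zero (θ := θ) ⟨w - w', v - v', hv.sub hv', ?_⟩)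
  rw [map_sub, cc, map_sub]
  linear_combination - he

/-- partial fractions up to derivatives -/
def PF (δ : Fin (m + 1) → Derivation ℂ (RatFunc M) (RatFunc M)) (f : RatFunc M) : Prop :=
  ∃ (w : RatFunc M) (a : M →₀ M), f = δ 0 w + a.sum fun θ c => cc c * (ss θ)⁻¹

theorem PF.add {f f' : RatFunc M} (h : PF δ f) (h' : PF δ f') : PF δ (f + f') := by
  classical
  obtain ⟨w, a, rfl⟩ := h
  obtain ⟨w', a', rfl⟩ := h'
  refine ⟨w + w', a + a', ?_⟩
  rw [map_add, Finsupp.sum_add_index']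
  · ring
  · intro θ
    rw [cc, map_zero, zero_mul]
  · intro θ c c'
    rw [cc, map_add, add_mul]

theorem PF.der (f : RatFunc M) : PF δ (δ 0 f) := ⟨f, 0, by rw [Finsupp.sum_zero_index, add_zero]⟩

theorem PF.one (θ c : M) : PF δ (cc c * (ss θ)⁻¹) :=
  ⟨0, Finsupp.single θ c, by
    rw [map_zero, zero_add, Finsupp.sum_single_index]
    rw [cc, map_zero, zero_mul]⟩

theorem Fr.pf_poly (h : Fr E δ) (p : M[X]) : PF δ (io p) := by
  induction p using Polynomial.induction_on' with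
  | add p q hp hq =>
    rw [io, map_add]
    exact hp.add hq
  | monomial k l =>
    have : CharZero M := charZero_of_injective_algebraMap (algebraMap ℂ M).injective
    have e : io (monomial k l) = δ 0 (cc (l / (k + 1 : ℕ)) * RatFunc.X ^ (k + 1)) := by
      rw [(δ 0).leibniz, h.zero_cc, smul_zero, add_zero, smul_eq_mul, (δ 0).leibniz_pow, h.zero_X,
        smul_eq_mul, mul_one, nsmul_eq_mul, Nat.add_sub_cancel, ← C_mul_X_pow_eq_monomial, io,
        map_mul, map_pow, ← io, ← io, io_X, io_C, cc, map_div₀, map_natCast]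
      have h1 : ((k + 1 : ℕ) : RatFunc M) ≠ 0 := by
        have : CharZero (RatFunc M) :=
          charZero_of_injective_algebraMap (algebraMap ℂ (RatFunc M)).injective
        exact Nat.cast_ne_zero.2 (Nat.succ_ne_zero k)
      field_simp
    rw [e]
    exact PF.der _

theorem Fr.pf_frac (h : Fr E δ) (N : ℕ) : ∀ (T : Multiset M), T.card = N → ∀ p : M[X],
    PF δ (io p * ((T.map ss).prod)⁻¹) := by
  classical
  induction N with
  | zero =>
    intro T hT p
    rw [Multiset.card_eq_zero] at hT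
    rw [hT, Multiset.map_zero, Multiset.prod_zero, inv_one, mul_one]
    exact h.pf_poly p
  | succ N ih =>
    intro T hT p
    obtain ⟨θ, hθ⟩ : ∃ θ, θ ∈ T := Multiset.card_pos_iff_exists_mem.1 (by omega)
    obtain ⟨T', rfl⟩ := Multiset.exists_cons_of_mem hθ
    rw [Multiset.card_cons] at hT
    have hT' : T'.card = N := by omega
    have hs := ss_ne θ
    by_cases hall : ∀ θ' ∈ T', θ' = θ
    · -- all poles are equal
      have hrep : T' = Multiset.replicate N θ := Multiset.eq_replicate.2 ⟨hT', hall⟩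
      obtain ⟨u, hu⟩ : ∃ u : M[X], p = C (p.eval θ) + (X - C θ) * u := by
        obtain ⟨u, hu⟩ := dvd_iff_isRoot.2 (show (p - C (p.eval θ)).IsRoot θ by
          rw [IsRoot.def, eval_sub, eval_C, sub_self])
        exact ⟨u, by rw [← hu]; ring⟩
      have e1 : io p = cc (p.eval θ) + ss θ * io u := by
        conv_lhs => rw [hu]
        rw [show cc (p.eval θ) = io (C (p.eval θ)) from (io_C _).symm, ss]
        simp only [io, map_add, map_mul]
      have e2 : io p * (((θ ::ₘ T').map ss).prod)⁻¹ =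
          cc (p.eval θ) * (ss θ ^ (N + 1))⁻¹ + io u * ((T'.map ss).prod)⁻¹ := by
        rw [hrep, Multiset.map_cons, Multiset.prod_cons, Multiset.map_replicate,
          Multiset.prod_replicate, e1]
        field_simp
        ring
      rw [e2]
      refine PF.add ?_ (ih T' hT' u)
      rcases N with _ | N
      · rw [zero_add, pow_one]
        exact PF.one _ _
      · rw [← h.pow θ (p.eval θ) N]
        exact PF.der _
    · push Not at hall
      obtain ⟨θ', hθ', hne⟩ := hall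
      obtain ⟨T'', rfl⟩ := Multiset.exists_cons_of_mem hθ'
      have hs' := ss_ne θ'
      have hsub : cc (θ - θ') = ss θ' - ss θ := by
        rw [ss_eq, ss_eq, cc, map_sub]
        ring
      have hc : cc (θ - θ') ≠ 0 := (_root_.map_ne_zero _).2 (sub_ne_zero.2 hne.symm)
      obtain ⟨q, hq⟩ : ∃ q : M[X], q = C (θ - θ')⁻¹ * p := ⟨_, rfl⟩
      have e3 : io q = (cc (θ - θ'))⁻¹ * io p := by
        rw [hq, io, map_mul, ← io, ← io, io_C, map_inv₀]
      have e4 : io (-q) = - io q := by rw [io, io, map_neg]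
      have e5 : io p * (((θ ::ₘ θ' ::ₘ T'').map ss).prod)⁻¹ =
          io q * (((θ ::ₘ T'').map ss).prod)⁻¹ + io (-q) * (((θ' ::ₘ T'').map ss).prod)⁻¹ := by
        rw [e4, e3]
        simp only [Multiset.map_cons, Multiset.prod_cons]
        obtain ⟨R, hR⟩ : ∃ R, R = (T''.map ss).prod := ⟨_, rfl⟩
        rw [← hR]
        rcases eq_or_ne R 0 with hR0 | hR0
        · simp [hR0]
        · field_simp
          rw [hsub]
          ring
      rw [e5]
      rw [Multiset.card_cons] at hT'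
      refine PF.add (ih _ ?_ q) (ih _ ?_ (-q))
      · rw [Multiset.card_cons]
        exact hT'
      · rw [Multiset.card_cons]
        exact hT'

/-- partial fractions up to derivatives, if the denominator splits -/
theorem Fr.pf_split (h : Fr E δ) (f : RatFunc M) (hf : f.denom.Splits) : PF δ f := by
  have h1 : f.denom = (f.denom.roots.map fun θ => X - C θ).prod := by
    have h2 := hf.eq_prod_roots
    rwa [f.monic_denom.leadingCoeff, C_1, one_mul] at h2
  have h3 : io f.denom = (f.denom.roots.map ss).prod := by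
    conv_lhs => rw [h1]
    rw [io, map_multiset_prod, Multiset.map_map]
    rfl
  have h4 := h.pf_frac _ f.denom.roots rfl f.num
  rw [← h3, ← div_eq_mul_inv] at h4
  have h5 : io f.num / io f.denom = f := RatFunc.num_div_denom f
  rwa [h5] at h4

/-- the residue of a divergence -/
theorem Fr.res_div (h : Fr E δ) {θ : M} {e : RatFunc M} (he : IsDiv δ e) :
    ∃ b, Res δ θ e b ∧ IsDiv E b := by
  obtain ⟨g, rfl⟩ := he
  choose b hb using fun i : Fin m => h.exists_res θ (g i.succ)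
  refine ⟨∑ i, E i (b i), ?_, ⟨b, rfl⟩⟩
  rw [Fin.sum_univ_succ]
  have h1 : ∀ S : Finset (Fin m), Res δ θ (∑ i ∈ S, δ i.succ (g i.succ)) (∑ i ∈ S, E i (b i)) := by
    classical
    intro S
    induction S using Finset.induction_on with
    | empty =>
      rw [Finset.sum_empty, Finset.sum_empty]
      exact Res.of_at (At.zero θ)
    | insert a S ha ih =>
      rw [Finset.sum_insert ha, Finset.sum_insert ha]
      exact (h.res (hb a) a).add ih
  have h2 := (Res.zero_der (δ := δ) θ (g 0)).add (h1 Finset.univ)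
  rwa [zero_add] at h2

theorem Fr.term_div (h : Fr E δ) {θ b : M} (hb : IsDiv E b) : IsDiv δ (cc b * (ss θ)⁻¹) := by
  obtain ⟨g, rfl⟩ := hb
  have hs := ss_ne θ
  have e1 : cc (∑ i, E i (g i)) * (ss θ)⁻¹ = ∑ i, cc (E i (g i)) * (ss θ)⁻¹ := by
    rw [cc, map_sum, Finset.sum_mul]
  rw [e1]
  refine IsDiv.sum _ fun i _ => ?_
  have e2 : cc (E i (g i)) * (ss θ)⁻¹ = δ i.succ (cc (g i) * (ss θ)⁻¹) +
      δ 0 (cc (g i * E i θ) * (ss θ)⁻¹) := by
    have e3 : cc (g i * E i θ) = cc (g i) * cc (E i θ) := map_mul _ _ _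
    rw [(δ 0).leibniz, h.zero_cc, smul_zero, add_zero, smul_eq_mul, der_inv _ hs, h.ss_zero,
      (δ i.succ).leibniz, h.succ_cc, der_inv _ hs, h.ss_succ, smul_eq_mul, smul_eq_mul, e3]
    field_simp
    ring
  rw [e2]
  exact (IsDiv.one _ _).add (IsDiv.one _ _)

/-- **A rational function which is a divergence up to regular functions at all places, and whose
denominator splits, is a divergence.** -/
theorem Fr.core (h : Fr E δ) (f : RatFunc M) (hf : f.denom.Splits)
    (hres : ∀ θ : M, ∃ e v, IsDiv δ e ∧ At θ v ∧ f = e + v) : IsDiv δ f := by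
  classical
  obtain ⟨w, a, hw⟩ := h.pf_split f hf
  have hr : ∀ θ ∈ a.support, Res δ θ f (a θ) := by
    intro θ hθ
    refine ⟨w, ∑ θ' ∈ a.support.erase θ, cc (a θ') * (ss θ')⁻¹, At.sum _ fun θ' hθ' => ?_, ?_⟩
    · exact At.mul ⟨_, sp_cc θ _⟩ (at_inv (Finset.mem_erase.1 hθ').1.symm)
    · rw [hw, Finsupp.sum, ← Finset.add_sum_erase _ _ hθ, add_assoc]
  have ha : ∀ θ ∈ a.support, IsDiv E (a θ) := by
    intro θ hθ
    obtain ⟨e, v, he, hv, hfe⟩ := hres θ
    obtain ⟨b, hb, hbE⟩ := h.res_div (θ := θ) he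
    have h1 := hb.add (Res.of_at hv)
    rw [add_zero, ← hfe] at h1
    rw [h.res_uniq (hr θ hθ) h1]
    exact hbE
  rw [hw, Finsupp.sum]
  exact (IsDiv.one _ _).add (IsDiv.sum _ fun θ hθ => h.term_div (ha θ hθ))

end

end Pool.Agent.V7H74.SK
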